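import Pool.Agent.Lib.MP_44a246_ntNU.FC1

set_option autoImplicit false

open NumberField IsDedekindDomain
open Pool.Agent.Lib.MP_44a246_ntNU

namespace Pool.Agent.Lib.MP_44a246_ntSF

universe u

open NumberField.mixedEmbedding NumberField.InfinitePlace MeasureTheory Metric in
open scoped NNReal ENNReal nonZeroDivisors in
open Classical in
/-- SF1 : Minkowski's theorem for a box with several special complex places -/
theorem body (L : Type*) [Field L] [NumberField L] (T : Finset (InfinitePlace L))
    (hT : ∀ w ∈ T, w.IsComplex) (f : InfinitePlace L → ℝ) (hf : ∀ w, 0 < f w)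
    (h : 2 ^ Module.finrank ℚ L * √|((discr L : ℤ) : ℝ)| <
      ∏ w, (if w ∈ T then f w else f w ^ w.mult)) :
    ∃ a : 𝓞 L, a ≠ 0 ∧ (∀ w ∉ T, w (a : L) < f w) ∧
      (∀ w ∈ T, |(w.embedding (a : L)).re| < 1 ∧ |(w.embedding (a : L)).im| < f w) := by
  classical
  set A : {w : InfinitePlace L // w.IsReal} → Set ℝ := fun w => ball 0 (f w) with hA
  set A' : {w : InfinitePlace L // w.IsComplex} → Set ℂ := fun w =>
    if w.1 ∈ T then {x : ℂ | |x.re| < 1 ∧ |x.im| < f w} else ball 0 (f w) with hA'
  set Sb : Set (mixedSpace L) := (Set.univ.pi A) ×ˢ (Set.univ.pi A') with hS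
  have hneg : ∀ x ∈ Sb, -x ∈ Sb := by
    rintro ⟨x, y⟩ hx
    simp only [hS, Set.mem_prod, Set.mem_pi, Set.mem_univ, true_implies, hA, hA'] at hx ⊢
    refine ⟨fun w => ?_, fun w => ?_⟩
    · have := hx.1 w
      simpa using this
    · have := hx.2 w
      simp only [Prod.snd_neg, Pi.neg_apply]
      split_ifs at this ⊢ with hw
      · simpa using this
      · simpa using this
  have hconv : Convex ℝ Sb := by
    refine Convex.prod (convex_pi (fun _ _ => convex_ball _ _)) (convex_pi (fun w _ => ?_))
    simp only [hA']
    split_ifs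
    · simp_rw [abs_lt]
      refine Convex.inter ((convex_halfSpace_re_gt _).inter (convex_halfSpace_re_lt _))
        ((convex_halfSpace_im_gt _).inter (convex_halfSpace_im_lt _))
    · exact convex_ball _ _
  have vol_box : ∀ B : ℝ, 0 < B →
      volume {x : ℂ | |x.re| < 1 ∧ |x.im| < B} = ENNReal.ofReal (4 * B) := by
    intro B hB
    rw [← (Complex.volume_preserving_equiv_real_prod.symm).measure_preimage]
    · simp_rw [Set.preimage_ofPred_eq, Complex.measurableEquivRealProd_symm_apply]
      rw [show {a : ℝ × ℝ | |a.1| < 1 ∧ |a.2| < B} =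
        Set.Ioo (-1 : ℝ) (1 : ℝ) ×ˢ Set.Ioo (-B) B by
          ext; simp_rw [Set.mem_ofPred_eq, Set.mem_prod, Set.mem_Ioo, abs_lt]]
      simp_rw [Measure.volume_eq_prod, Measure.prod_prod, Real.volume_Ioo]
      rw [← ENNReal.ofReal_mul (by norm_num)]
      congr 1
      ring
    · refine (MeasurableSet.inter ?_ ?_).nullMeasurableSet
      · exact measurableSet_lt (measurable_norm.comp Complex.measurable_re) measurable_const
      · exact measurableSet_lt (measurable_norm.comp Complex.measurable_im) measurable_const
  have hvol : ENNReal.ofReal (∏ w, (if w ∈ T then f w else f w ^ w.mult)) ≤ volume Sb := by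
    have e1 : volume Sb = (∏ w : {w : InfinitePlace L // w.IsReal}, volume (A w)) *
        ∏ w : {w : InfinitePlace L // w.IsComplex}, volume (A' w) := by
      rw [hS, Measure.volume_eq_prod, Measure.prod_prod, volume_pi_pi, volume_pi_pi]
    rw [e1, prod_eq_prod_mul_prod (fun w => if w ∈ T then f w else f w ^ w.mult),
      ENNReal.ofReal_mul (Finset.prod_nonneg fun w _ => by
        have := hf w.1
        split_ifs <;> positivity), ENNReal.ofReal_prod_of_nonneg (fun w _ => by
        have := hf w.1
        split_ifs <;> positivity), ENNReal.ofReal_prod_of_nonneg (fun w _ => by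
        have := hf w.1
        split_ifs <;> positivity)]
    refine mul_le_mul' (Finset.prod_le_prod' fun w _ => ?_) (Finset.prod_le_prod' fun w _ => ?_)
    · have hw : w.1 ∉ T := fun hw => not_isReal_iff_isComplex.mpr (hT _ hw) w.2
      rw [if_neg hw, mult_isReal, pow_one]
      simp only [hA, Real.volume_ball]
      apply ENNReal.ofReal_le_ofReal
      have := hf w.1
      linarith
    · simp only [hA']
      have h0 := hf w.1
      split_ifs with hw
      · rw [vol_box _ h0]
        apply ENNReal.ofReal_le_ofReal
        linarith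
      · rw [mult_isComplex, Complex.volume_ball, ENNReal.ofReal_pow h0.le]
        refine le_mul_of_one_le_right (by positivity) ?_
        exact_mod_cast (by
          have := Real.pi_gt_three
          exact NNReal.coe_le_coe.mp (by
            rw [NNReal.coe_one, NNReal.coe_real_pi]; linarith) : (1 : ℝ≥0) ≤ NNReal.pi)
  have hlt : minkowskiBound L ↑1 < volume Sb := by
    refine lt_of_lt_of_le ?_ hvol
    have h1 := FC1_mink L (Real.toNNReal (∏ w, (if w ∈ T then f w else f w ^ w.mult))) (by
      rw [Real.coe_toNNReal _ (Finset.prod_nonneg fun w _ => by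
        have := hf w
        split_ifs <;> positivity)]
      exact h)
    exact h1
  have h_fund := ZSpan.isAddFundamentalDomain' (fractionalIdealLatticeBasis L 1) volume
  have : Countable (Submodule.span ℤ (Set.range (fractionalIdealLatticeBasis L 1))).toAddSubgroup := by
    change Countable (Submodule.span ℤ (Set.range (fractionalIdealLatticeBasis L 1)))
    infer_instance
  obtain ⟨⟨x, hx⟩, h_nz, h_mem⟩ := exists_ne_zero_mem_lattice_of_measure_mul_two_pow_lt_measure
    h_fund hneg hconv hlt
  rw [Submodule.mem_toAddSubgroup, mem_span_fractionalIdealLatticeBasis] at hx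
  obtain ⟨a, ha, rfl⟩ := hx
  obtain ⟨b, rfl⟩ := (FractionalIdeal.mem_one_iff _).mp ha
  have hmem : mixedEmbedding L (b : L) ∈ Sb := h_mem
  simp only [hS, Set.mem_prod, Set.mem_pi, Set.mem_univ, true_implies, hA, hA'] at hmem
  refine ⟨b, ?_, ?_, ?_⟩
  · rintro rfl
    apply h_nz
    simp
  · intro w hw
    rcases w.isReal_or_isComplex with hr | hc
    · have h1 := hmem.1 ⟨w, hr⟩
      rw [mem_ball_zero_iff] at h1
      have h2 : ‖(mixedEmbedding L (b : L)).1 ⟨w, hr⟩‖ = w (b : L) := by
        rw [mixedEmbedding_apply_isReal]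
        exact norm_embedding_of_isReal hr _
      rw [h2] at h1
      exact h1
    · have h1 := hmem.2 ⟨w, hc⟩
      rw [if_neg hw, mem_ball_zero_iff] at h1
      have h2 : ‖(mixedEmbedding L (b : L)).2 ⟨w, hc⟩‖ = w (b : L) := by
        rw [mixedEmbedding_apply_isComplex]
        exact norm_embedding_eq w _
      rw [h2] at h1
      exact h1
  · intro w hw
    have h1 := hmem.2 ⟨w, hT w hw⟩
    rw [if_pos hw] at h1
    simpa [mixedEmbedding_apply_isComplex] using h1

end Pool.Agent.Lib.MP_44a246_ntSF
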