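import Mathlib
import Pool.Agent.Lib.MP_44a246_ntSF.SF1

set_option autoImplicit false

open NumberField IsDedekindDomain

namespace Pool.Agent.Lib.MP_44a246_ntSF

universe u

/-- SF2 : a small integer which is not in the ground field -/
theorem exists_small {F L : Type*} [Field F] [NumberField F] [Field L] [NumberField L]
    [Algebra F L] (hr : 2 ≤ Module.finrank F L) (Y : ℝ) (hY1 : 1 ≤ Y)
    (hY : 2 ^ Module.finrank ℚ L * √|((discr L : ℤ) : ℝ)| <
      Y ^ (Module.finrank ℚ L - Module.finrank ℚ F)) :
    ∃ β : 𝓞 L, (β : L) ∉ Set.range (algebraMap F L) ∧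
      ∀ w : InfinitePlace L, w (β : L) ≤ 2 * Y := by
  classical
  have := hr
  have hfin : Module.Finite F L := Module.Finite.of_restrictScalars_finite ℚ F L
  have halg : Algebra.IsAlgebraic F L := inferInstance
  choose w0 hw0 using (InfinitePlace.comap_surjective (k := F) (K := L))
  have hw0' : ∀ v, (w0 v).comap (algebraMap F L) = v := hw0
  have hinj : Function.Injective w0 := fun a b hab => by
    rw [← hw0' a, ← hw0' b, hab]
  set D : Finset (InfinitePlace L) := Finset.univ.image w0 with hD
  set T : Finset (InfinitePlace L) :=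
    D.filter (fun w => (w.comap (algebraMap F L)).mult ≠ w.mult) with hT
  have hmle : ∀ w : InfinitePlace L, (w.comap (algebraMap F L)).mult ≤ w.mult :=
    fun w => InfinitePlace.mult_comap_le _ w
  have hm12 : ∀ w : InfinitePlace L, w.mult = 1 ∨ w.mult = 2 := fun w => by
    rw [InfinitePlace.mult]; split_ifs <;> simp
  have hm12' : ∀ w : InfinitePlace F, w.mult = 1 ∨ w.mult = 2 := fun w => by
    rw [InfinitePlace.mult]; split_ifs <;> simp
  have hT12 : ∀ w ∈ T, (w.comap (algebraMap F L)).mult = 1 ∧ w.mult = 2 := by
    intro w hw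
    have h1 := (Finset.mem_filter.1 hw).2
    have h2 := hmle w
    rcases hm12 w with h3 | h3 <;> rcases hm12' (w.comap (algebraMap F L)) with h4 | h4 <;> omega
  have hTc : ∀ w ∈ T, w.IsComplex := by
    intro w hw
    rw [← InfinitePlace.not_isReal_iff_isComplex]
    intro h
    have := (hT12 w hw).2
    rw [h.mult_eq_one] at this
    omega
  have hTr : ∀ w ∈ T, (w.comap (algebraMap F L)).IsReal := by
    intro w hw
    by_contra h
    rw [InfinitePlace.not_isReal_iff_isComplex] at h
    have := (hT12 w hw).1
    rw [h.mult_eq_two] at this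
    omega
  set f : InfinitePlace L → ℝ := fun w => if w ∈ D ∧ w ∉ T then 1 else Y with hf
  have hf0 : ∀ w, 0 < f w := by
    intro w
    simp only [hf]
    split_ifs <;> linarith
  have hfY : ∀ w, f w ≤ Y := by
    intro w
    simp only [hf]
    split_ifs <;> linarith
  set e : InfinitePlace L → ℕ := fun w => if w ∈ T then 1 else if w ∈ D then 0 else w.mult with he
  have hTD : ∀ w ∈ T, w ∈ D := fun w hw => (Finset.mem_filter.1 hw).1
  have hprod : ∏ w, (if w ∈ T then f w else f w ^ w.mult) = Y ^ ∑ w, e w := by
    rw [← Finset.prod_pow_eq_pow_sum]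
    refine Finset.prod_congr rfl fun w _ => ?_
    by_cases h1 : w ∈ T
    · simp [hf, he, h1]
    · by_cases h2 : w ∈ D
      · simp [hf, he, h1, h2]
      · simp [hf, he, h1, h2]
  have hsum : ∑ w, e w + Module.finrank ℚ F = Module.finrank ℚ L := by
    rw [← InfinitePlace.sum_mult_eq (K := F), ← InfinitePlace.sum_mult_eq (K := L)]
    have h1 : ∑ v : InfinitePlace F, v.mult =
        ∑ w : InfinitePlace L, if w ∈ D then (w.comap (algebraMap F L)).mult else 0 := by
      rw [← Finset.sum_filter, Finset.filter_mem_eq_inter, Finset.univ_inter, hD,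
        Finset.sum_image (fun a _ b _ h => hinj h)]
      exact Finset.sum_congr rfl fun v _ => by rw [hw0' v]
    rw [h1, ← Finset.sum_add_distrib]
    refine Finset.sum_congr rfl fun w _ => ?_
    by_cases h2 : w ∈ T
    · have h3 := hT12 w h2
      simp only [he, h2, if_true, hTD w h2]
      omega
    · by_cases h3 : w ∈ D
      · have h4 : (w.comap (algebraMap F L)).mult = w.mult := by
          by_contra h
          exact h2 (Finset.mem_filter.2 ⟨h3, h⟩)
        simp only [he, h2, if_false, h3, if_true]
        omega
      · simp only [he, h2, if_false, h3]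
        omega
  have hmain : 2 ^ Module.finrank ℚ L * √|((discr L : ℤ) : ℝ)| <
      ∏ w, (if w ∈ T then f w else f w ^ w.mult) := by
    rw [hprod]
    have : ∑ w, e w = Module.finrank ℚ L - Module.finrank ℚ F := by omega
    rw [this]
    exact hY
  obtain ⟨β, hβ0, hβ1, hβ2⟩ := body L T hTc f hf0 hmain
  refine ⟨β, ?_, ?_⟩
  · rintro ⟨x, hx⟩
    have hxi : IsIntegral ℤ x := by
      have h1 : IsIntegral ℤ (algebraMap F L x) := by
        rw [hx]
        exact RingOfIntegers.isIntegral_coe β
      exact (isIntegral_algebraMap_iff (algebraMap F L).injective).1 h1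
    set x' : 𝓞 F := ⟨x, hxi⟩ with hx'
    have hx'c : (x' : F) = x := rfl
    have hx0 : x' ≠ 0 := by
      intro h
      apply hβ0
      have h2 : x = 0 := by
        rw [← hx'c, h]
        rfl
      have h3 : (β : L) = 0 := by rw [← hx, h2, map_zero]
      exact RingOfIntegers.ext (by rw [h3]; rfl)
    have hlt : ∀ v : InfinitePlace F, v (x' : F) < 1 := by
      intro v
      have h1 : v x = w0 v (β : L) := by
        rw [← hx]
        exact (InfinitePlace.comp_of_comap_eq (hw0' v) x).symm
      rw [hx'c, h1]
      have hDv : w0 v ∈ D := Finset.mem_image.2 ⟨v, Finset.mem_univ _, rfl⟩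
      by_cases h2 : w0 v ∈ T
      · have h3 := (hβ2 _ h2).1
        have h4 : (v).embedding = (w0 v).embedding.comp (algebraMap F L) := by
          have := InfinitePlace.comap_embedding_of_isReal (algebraMap F L) (hTr _ h2)
          rw [hw0' v] at this
          exact this
        have h5 : v.IsReal := by
          have := hTr _ h2
          rw [hw0' v] at this
          exact this
        have h6 : ((w0 v).embedding (β : L)).im = 0 := by
          have h7 : (w0 v).embedding (β : L) = v.embedding x := by
            rw [h4, ← hx]
            rfl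
          rw [h7]
          have h8 : ComplexEmbedding.IsReal v.embedding := InfinitePlace.isReal_iff.1 h5
          have h9 : (starRingEnd ℂ) (v.embedding x) = v.embedding x := by
            have := RingHom.congr_fun h8 x
            exact this
          exact Complex.conj_eq_iff_im.1 h9
        rw [← InfinitePlace.norm_embedding_eq]
        have h10 : (w0 v).embedding (β : L) = (((w0 v).embedding (β : L)).re : ℂ) := by
          apply Complex.ext <;> simp [h6]
        rw [h10, Complex.norm_real]
        exact h3
      · have h3 := hβ1 _ h2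
        have h4 : f (w0 v) = 1 := by simp [hf, hDv, h2]
        rwa [h4] at h3
    obtain ⟨v⟩ := (inferInstance : Nonempty (InfinitePlace F))
    exact absurd (InfinitePlace.one_le_of_lt_one (w := v) hx0 (fun z _ => hlt z))
      (not_le.2 (hlt v))
  · intro w
    by_cases h2 : w ∈ T
    · obtain ⟨h3, h4⟩ := hβ2 w h2
      rw [← InfinitePlace.norm_embedding_eq]
      have h5 := Complex.norm_le_abs_re_add_abs_im (w.embedding (β : L))
      have h6 := hfY w
      linarith
    · have h3 := hβ1 w h2
      have h6 := hfY w
      linarith

end Pool.Agent.Lib.MP_44a246_ntSF
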