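import Pool.Agent.Lib.MP_44a246_ntNU.FC3
import Pool.Agent.Lib.MP_44a246_ntSF.SF2

set_option autoImplicit false
set_option linter.unusedVariables false

open NumberField IsDedekindDomain
open Pool.Agent.Lib.MP_44a246_ntNU

namespace Pool.Agent.Lib.MP_44a246_ntSF

universe u

/-- the trace of an integer at an infinite place -/
theorem trace_place_le {F L : Type*} [Field F] [NumberField F] [Field L] [NumberField L]
    [Algebra F L] (x : L) (B : ℝ) (hB : ∀ w : InfinitePlace L, w x ≤ B)
    (w : InfinitePlace L) :
    w (algebraMap F L (Algebra.trace F L x)) ≤ Module.finrank F L * B := by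
  have : FiniteDimensional F L := Module.Finite.of_restrictScalars_finite ℚ F L
  let _ : Algebra F ℂ := (w.embedding.comp (algebraMap F L)).toAlgebra
  have h1 : w.embedding (algebraMap F L (Algebra.trace F L x)) =
      ∑ σ : L →ₐ[F] ℂ, σ x := by
    rw [← trace_eq_sum_embeddings (K := F) (L := L) ℂ (x := x)]
    rfl
  rw [← InfinitePlace.norm_embedding_eq w, h1]
  refine (norm_sum_le _ _).trans ?_
  refine (Finset.sum_le_card_nsmul _ _ B ?_).trans ?_
  · intro σ _
    exact hB (InfinitePlace.mk σ.toRingHom)
  · rw [Finset.card_univ, AlgHom.card F L ℂ, nsmul_eq_mul]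

/-- SF3 with the small integer as a hypothesis -/
theorem gen_of_small {F L : Type*} [Field F] [NumberField F] [Field L] [NumberField L]
    [Algebra F L] (hr : 2 ≤ Module.finrank F L) (Y : ℝ)
    (hs : ∃ β : 𝓞 L, (β : L) ∉ Set.range (algebraMap F L) ∧
      ∀ w : InfinitePlace L, w (β : L) ≤ 2 * Y) :
    ∃ γ : 𝓞 L, (γ : L) ∉ Set.range (algebraMap F L) ∧ Algebra.trace F L (γ : L) = 0 ∧
      ∀ w : InfinitePlace L, w (γ : L) ≤ 4 * Module.finrank F L * Y := by
  have : FiniteDimensional F L := Module.Finite.of_restrictScalars_finite ℚ F L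
  obtain ⟨β, hβ1, hβ2⟩ := hs
  have hint : IsIntegral ℤ (algebraMap F L (Algebra.trace F L (β : L))) :=
    (Algebra.isIntegral_trace (RingOfIntegers.isIntegral_coe β)).algebraMap
  have hn : IsIntegral ℤ (Module.finrank F L : L) := by
    simpa using (isIntegral_algebraMap (R := ℤ) (A := L) (x := (Module.finrank F L : ℤ)))
  have hint2 : IsIntegral ℤ ((Module.finrank F L : L) * (β : L) -
      algebraMap F L (Algebra.trace F L (β : L))) :=
    (hn.mul (RingOfIntegers.isIntegral_coe β)).sub hint
  have hne : (Module.finrank F L : F) ≠ 0 := by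
    have : Module.finrank F L ≠ 0 := by omega
    exact_mod_cast this
  refine ⟨⟨_, hint2⟩, ?_, ?_, ?_⟩
  · rintro ⟨y, hy⟩
    apply hβ1
    refine ⟨(Module.finrank F L : F)⁻¹ * (y + Algebra.trace F L (β : L)), ?_⟩
    have hne2 : (Module.finrank F L : L) ≠ 0 := by
      have : Module.finrank F L ≠ 0 := by omega
      exact_mod_cast this
    rw [map_mul, map_inv₀, map_add, hy, map_natCast]
    change _ * ((Module.finrank F L : L) * (β : L) -
      algebraMap F L (Algebra.trace F L (β : L)) + _) = _
    field_simp
    ring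
  · change Algebra.trace F L ((Module.finrank F L : L) * (β : L) -
      algebraMap F L (Algebra.trace F L (β : L))) = 0
    rw [map_sub, Algebra.trace_algebraMap, ← nsmul_eq_mul, map_nsmul, sub_self]
  · intro w
    change w ((Module.finrank F L : L) * (β : L) -
      algebraMap F L (Algebra.trace F L (β : L))) ≤ _
    have h1 : w ((Module.finrank F L : L) * (β : L) -
        algebraMap F L (Algebra.trace F L (β : L))) ≤
        w ((Module.finrank F L : L) * (β : L)) +
          w (algebraMap F L (Algebra.trace F L (β : L))) := by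
      rw [← InfinitePlace.norm_embedding_eq w, ← InfinitePlace.norm_embedding_eq w,
        ← InfinitePlace.norm_embedding_eq w, map_sub]
      exact norm_sub_le _ _
    have h2 := trace_place_le (F := F) (β : L) (2 * Y) hβ2 w
    have h3 : w ((Module.finrank F L : L) * (β : L)) = Module.finrank F L * w (β : L) := by
      rw [map_mul, ← InfinitePlace.norm_embedding_eq w (Module.finrank F L : L), map_natCast,
        Complex.norm_natCast]
    have h4 := hβ2 w
    have h5 : (0 : ℝ) ≤ Module.finrank F L := Nat.cast_nonneg _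
    rw [h3] at h1
    nlinarith

/-- SF3 : with trace zero -/
theorem exists_gen {F L : Type*} [Field F] [NumberField F] [Field L] [NumberField L]
    [Algebra F L] (hr : 2 ≤ Module.finrank F L) (Y : ℝ) (hY1 : 1 ≤ Y)
    (hY : 2 ^ Module.finrank ℚ L * √|((discr L : ℤ) : ℝ)| <
      Y ^ (Module.finrank ℚ L - Module.finrank ℚ F)) :
    ∃ γ : 𝓞 L, (γ : L) ∉ Set.range (algebraMap F L) ∧ Algebra.trace F L (γ : L) = 0 ∧
      ∀ w : InfinitePlace L, w (γ : L) ≤ 4 * Module.finrank F L * Y :=
  gen_of_small hr Y (exists_small hr Y hY1 hY)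

/-- SF4a : the coefficients of the minimal polynomial -/
theorem coeff_bound {F L : Type*} [Field F] [NumberField F] [Field L] [NumberField L]
    [Algebra F L] (γ : 𝓞 L) (R : ℝ) (hR : 1 ≤ R) (hγ : ∀ w : InfinitePlace L, w (γ : L) ≤ R)
    (i : ℕ) (hi : i ≤ (minpoly F (γ : L)).natDegree) (v : InfinitePlace F) :
    v ((minpoly F (γ : L)).coeff i) ≤
      2 ^ (minpoly F (γ : L)).natDegree * R ^ ((minpoly F (γ : L)).natDegree - i) := by
  have : FiniteDimensional F L := Module.Finite.of_restrictScalars_finite ℚ F L
  have hm : (minpoly F (γ : L)).Monic := minpoly.monic (Algebra.IsIntegral.isIntegral _)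
  have h := Polynomial.coeff_le_of_roots_le (p := minpoly F (γ : L)) (f := v.embedding)
    (B := R) i hm (IsAlgClosed.splits _) (by
      intro z hz
      rw [FC3_mem_roots] at hz
      obtain ⟨ψ, _, rfl⟩ := hz
      exact hγ (InfinitePlace.mk ψ))
  rw [Polynomial.coeff_map, InfinitePlace.norm_embedding_eq] at h
  refine h.trans ?_
  rw [mul_comm]
  have h2 : ((minpoly F (γ : L)).natDegree.choose i : ℝ) ≤
      2 ^ (minpoly F (γ : L)).natDegree := by
    exact_mod_cast Nat.choose_le_two_pow _ _
  exact mul_le_mul_of_nonneg_right h2 (by positivity)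

/-- SF4b -/
theorem coeff_trace {F L : Type*} [Field F] [NumberField F] [Field L] [NumberField L]
    [Algebra F L] (γ : 𝓞 L) (h : Algebra.trace F L (γ : L) = 0) :
    (minpoly F (γ : L)).coeff ((minpoly F (γ : L)).natDegree - 1) = 0 := by
  have : FiniteDimensional F L := Module.Finite.of_restrictScalars_finite ℚ F L
  have hint : IsIntegral F (γ : L) := Algebra.IsIntegral.isIntegral _
  rw [trace_eq_finrank_mul_minpoly_nextCoeff, Polynomial.nextCoeff_of_natDegree_pos
    (minpoly.natDegree_pos hint)] at h
  rcases mul_eq_zero.1 h with h | h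
  · exfalso
    have : Module.finrank (IntermediateField.adjoin F {(γ : L)}) L ≠ 0 :=
      Module.finrank_pos.ne'
    exact this (by exact_mod_cast h)
  · exact neg_eq_zero.1 h

end Pool.Agent.Lib.MP_44a246_ntSF
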