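import Pool.Agent.Lib.MP_44a246_ntSF.SF5
import Pool.Agent.Lib.MP_44a246_ntNU.FC5a
import Pool.Agent.Lib.MP_44a246_ntNU.FC5b

/-!
# MP_44a246_nt, SF6: number of fields generated by small integers of trace zero
-/

set_option autoImplicit false

open NumberField IsDedekindDomain
open Pool.Agent.Lib.MP_44a246_ntNU

namespace Pool.Agent.Lib.MP_44a246_ntSF

universe u

/-- The integral elements of a box form a finite set of the expected size. -/
private theorem sf6_box (d : ℕ) : ∃ C : ℝ, 0 < C ∧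
    ∀ (F : Type u) [Field F] [NumberField F], Module.finrank ℚ F = d →
      ∀ R : ℝ, 1 ≤ R → ∃ A : Finset F, (A.card : ℝ) ≤ C * R ^ d ∧
        ∀ x : F, IsIntegral ℤ x → (∀ v : InfinitePlace F, v x ≤ R) → x ∈ A := by
  classical
  obtain ⟨C, hC, h⟩ := card_box_all.{u} d
  refine ⟨C, hC, ?_⟩
  intro F _ _ hd R hR
  set S : Set (𝓞 F) := {c | ∀ v : InfinitePlace F, v (c : F) ≤ R} with hS
  have hfin : S.Finite := by
    by_contra hinf
    obtain ⟨n, hn⟩ := exists_nat_gt (C * R ^ d)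
    obtain ⟨t, ht, htc⟩ := Set.Infinite.exists_subset_card_eq hinf n
    have := h F hd R hR t (fun c hc => ht hc)
    rw [htc] at this
    linarith
  refine ⟨hfin.toFinset.image (fun c : 𝓞 F => (c : F)), ?_, ?_⟩
  · have h0 : ∀ c ∈ hfin.toFinset, ∀ v : InfinitePlace F, v (c : F) ≤ R :=
      fun c hc => (Set.Finite.mem_toFinset hfin).mp hc
    refine le_trans ?_ (h F hd R hR hfin.toFinset h0)
    exact_mod_cast Finset.card_image_le
  · intro x hx h1
    rw [Finset.mem_image]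
    exact ⟨⟨x, hx⟩, by rw [Set.Finite.mem_toFinset]; exact h1, rfl⟩

/-- The sum of the exponents. -/
private theorem sf6_sum (s : ℕ) (hs : 2 ≤ s) :
    ∑ i ∈ Finset.range (s - 1), (s - i) = ∑ k ∈ Finset.Icc 2 s, k := by
  refine Finset.sum_bij' (fun i _ => s - i) (fun k _ => s - k) ?_ ?_ ?_ ?_ ?_
  · intro i hi
    rw [Finset.mem_range] at hi
    rw [Finset.mem_Icc]
    omega
  · intro k hk
    rw [Finset.mem_Icc] at hk
    rw [Finset.mem_range]
    omega
  · intro i hi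
    rw [Finset.mem_range] at hi
    omega
  · intro k hk
    rw [Finset.mem_Icc] at hk
    omega
  · intro i _
    rfl

/-- SF6 : fields generated by small integers of trace zero -/
theorem card_gen (d s : ℕ) (hs : 2 ≤ s) : ∃ C : ℝ, 0 < C ∧
    ∀ (F : Type u) [Field F] [NumberField F], Module.finrank ℚ F = d →
      ∀ (Ω : Type u) [Field Ω] [Algebra F Ω] (R : ℝ), 1 ≤ R →
      ∀ Fs : Finset (IntermediateField F Ω),
        (∀ F' ∈ Fs, ∃ γ : Ω, F' = IntermediateField.adjoin F {γ} ∧ IsIntegral ℤ γ ∧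
          (minpoly F γ).natDegree = s ∧ (minpoly F γ).coeff (s - 1) = 0 ∧
          ∀ i < s, ∀ v : InfinitePlace F, v ((minpoly F γ).coeff i) ≤ 2 ^ s * R ^ (s - i)) →
        (Fs.card : ℝ) ≤ C * R ^ (d * ∑ k ∈ Finset.Icc 2 s, k) := by
  classical
  obtain ⟨C, hC, hbox⟩ := sf6_box.{u} d
  refine ⟨(∏ _i ∈ Finset.range (s - 1), (C * (2 ^ s) ^ d)) * s, by positivity, ?_⟩
  intro F _ _ hd Ω _ _ R hR Fs hFs
  have hR' : ∀ i : ℕ, (1 : ℝ) ≤ 2 ^ s * R ^ (s - i) := by
    intro i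
    have h1 : (1 : ℝ) ≤ 2 ^ s := one_le_pow₀ (by norm_num)
    have h2 : (1 : ℝ) ≤ R ^ (s - i) := one_le_pow₀ hR
    calc (1 : ℝ) = 1 * 1 := by ring
      _ ≤ 2 ^ s * R ^ (s - i) := mul_le_mul h1 h2 zero_le_one (by positivity)
  choose A hA1 hA2 using fun i : ℕ => hbox F hd (2 ^ s * R ^ (s - i)) (hR' i)
  obtain ⟨T, hT1, hT2⟩ := fc5_roots (F := F) Ω s
    (fun i : Fin s => if (i : ℕ) = s - 1 then {0} else A i)
  have hsub : Fs ⊆ T.image (fun γ => IntermediateField.adjoin F {γ}) := by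
    intro F' hF'
    obtain ⟨γ, h1, h2, h3, h4, h5⟩ := hFs F' hF'
    rw [Finset.mem_image]
    refine ⟨γ, hT2 γ (minpoly F γ) (minpoly.monic h2.tower_top) h3 ?_ (minpoly.aeval F γ), h1.symm⟩
    intro i
    by_cases hi : (i : ℕ) = s - 1
    · rw [if_pos hi, hi, h4, Finset.mem_singleton]
    · rw [if_neg hi]
      exact hA2 i _ (fc5_coeff_int h2 i) (h5 i i.2)
  have hprod : (∏ i : Fin s, (if (i : ℕ) = s - 1 then ({0} : Finset F) else A i).card) =
      ∏ i ∈ Finset.range (s - 1), (A i).card := by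
    rw [← Finset.prod_range (fun i : ℕ => (if i = s - 1 then ({0} : Finset F) else A i).card)]
    obtain ⟨m, rfl⟩ : ∃ m, s = m + 1 := ⟨s - 1, by omega⟩
    rw [Finset.prod_range_succ]
    simp only [Nat.add_sub_cancel, if_true, Finset.card_singleton, mul_one]
    refine Finset.prod_congr rfl fun i hi => ?_
    rw [Finset.mem_range] at hi
    rw [if_neg (by omega)]
  have hcard : (Fs.card : ℝ) ≤ (∏ i ∈ Finset.range (s - 1), ((A i).card : ℝ)) * s := by
    have h1 : Fs.card ≤ (∏ i ∈ Finset.range (s - 1), (A i).card) * s := by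
      rw [← hprod]
      exact (Finset.card_le_card hsub).trans (Finset.card_image_le.trans hT1)
    exact_mod_cast h1
  refine hcard.trans ?_
  have hP : (∏ i ∈ Finset.range (s - 1), ((A i).card : ℝ)) ≤
      ∏ i ∈ Finset.range (s - 1), ((C * (2 ^ s) ^ d) * (R ^ (s - i)) ^ d) := by
    refine Finset.prod_le_prod (fun i _ => Nat.cast_nonneg _) fun i _ => ?_
    refine (hA1 i).trans (le_of_eq ?_)
    rw [mul_pow]
    ring
  have hQ : (∏ i ∈ Finset.range (s - 1), ((C * (2 ^ s) ^ d) * (R ^ (s - i)) ^ d)) =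
      (∏ _i ∈ Finset.range (s - 1), (C * (2 ^ s) ^ d)) * R ^ (d * ∑ k ∈ Finset.Icc 2 s, k) := by
    rw [Finset.prod_mul_distrib]
    congr 1
    rw [Finset.prod_pow, Finset.prod_pow_eq_pow_sum, sf6_sum s hs, ← pow_mul]
    congr 1
    ring
  calc (∏ i ∈ Finset.range (s - 1), ((A i).card : ℝ)) * s
      ≤ ((∏ _i ∈ Finset.range (s - 1), (C * (2 ^ s) ^ d)) *
          R ^ (d * ∑ k ∈ Finset.Icc 2 s, k)) * s := by
        refine mul_le_mul_of_nonneg_right ?_ (Nat.cast_nonneg _)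
        rw [← hQ]
        exact hP
    _ = _ := by ring

end Pool.Agent.Lib.MP_44a246_ntSF
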