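import Pool.Agent.Lib.MP_44a246_ntSF.SF2
import Pool.Agent.Lib.MP_44a246_ntSF.SF34
import Pool.Agent.Lib.MP_44a246_ntSF.SF6

/-!
# MP_44a246_nt, SF7: Schmidt's bound for the number of fields, uniformly in the ground field
-/

set_option autoImplicit false

open NumberField

namespace Pool.Agent.Lib.MP_44a246_ntSF

universe u

open IntermediateField in
/-- The subfield attached to one extension. -/
private theorem sf7_gen {F : Type u} [Field F] [NumberField F] {Ω : Type u} [Field Ω]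
    [Algebra F Ω] (E : IntermediateField F Ω) [NumberField E] (hr : 2 ≤ Module.finrank F E)
    {Y : ℝ} (hY1 : 1 ≤ Y)
    (hY : 2 ^ Module.finrank ℚ E * √|((discr E : ℤ) : ℝ)| <
      Y ^ (Module.finrank ℚ E - Module.finrank ℚ F)) :
    ∃ γ : Ω, F⟮γ⟯ ≤ E ∧ IsIntegral ℤ γ ∧ 2 ≤ (minpoly F γ).natDegree ∧
      (minpoly F γ).coeff ((minpoly F γ).natDegree - 1) = 0 ∧
      ∀ i < (minpoly F γ).natDegree, ∀ v : InfinitePlace F, v ((minpoly F γ).coeff i) ≤
        2 ^ (minpoly F γ).natDegree *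
          (4 * Module.finrank F E * Y) ^ ((minpoly F γ).natDegree - i) := by
  obtain ⟨γ, h1, h2, h3⟩ := gen_of_small (F := F) (L := E) hr Y (exists_small hr Y hY1 hY)
  have hmin : minpoly F ((γ : E) : Ω) = minpoly F (γ : E) :=
    minpoly.algebraMap_eq (algebraMap E Ω).injective (γ : E)
  have hint : IsIntegral ℤ (γ : E) := RingOfIntegers.isIntegral_coe γ
  have hintF : IsIntegral F (γ : E) := hint.tower_top
  have hR : (1 : ℝ) ≤ 4 * Module.finrank F E * Y := by
    have h4 : (2 : ℝ) ≤ Module.finrank F E := by exact_mod_cast hr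
    nlinarith
  refine ⟨((γ : E) : Ω), ?_, ?_, ?_, ?_, ?_⟩
  · rw [adjoin_simple_le_iff]
    exact (γ : E).2
  · exact hint.map (algebraMap E Ω).toIntAlgHom
  · rw [hmin, minpoly.two_le_natDegree_iff hintF]
    intro h5
    exact h1 h5
  · rw [hmin]
    exact coeff_trace γ h2
  · rw [hmin]
    intro i hi v
    exact coeff_bound γ _ hR h3 i hi.le v

open IntermediateField in
/-- The extensions of a given subfield. -/
private theorem sf7_fiber {F : Type u} [Field F] [NumberField F] {Ω : Type u} [Field Ω]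
    [Algebra F Ω] (F' : IntermediateField F Ω) {s t' : ℕ} (hs : Module.finrank F F' = s)
    (hs0 : 0 < s) {B X : ℝ}
    (hC : ∀ Es : Finset (IntermediateField F' Ω),
      (∀ E ∈ Es, Module.finrank F' E = t' ∧ ∃ _ : NumberField E, |((discr E : ℤ) : ℝ)| ≤ X) →
        (Es.card : ℝ) ≤ B)
    (Es : Finset (IntermediateField F Ω))
    (hE : ∀ E ∈ Es, F' ≤ E ∧ Module.finrank F E = s * t' ∧
      ∃ _ : NumberField E, |((discr E : ℤ) : ℝ)| ≤ X) :
    (Es.card : ℝ) ≤ B := by
  classical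
  let φ : {E // E ∈ Es} → IntermediateField F' Ω := fun E => extendScalars (hE E.1 E.2).1
  have hinj : Function.Injective φ := by
    intro E1 E2 h
    apply Subtype.ext
    have h2 : (φ E1).restrictScalars F = (φ E2).restrictScalars F := by rw [h]
    exact h2
  have h := hC (Finset.univ.image φ) ?_
  · rw [Finset.card_image_of_injective _ hinj, Finset.card_univ, Fintype.card_coe] at h
    exact h
  · intro E' hE'
    obtain ⟨E, _, rfl⟩ := Finset.mem_image.1 hE'
    obtain ⟨h1, h2, hN, h3⟩ := hE E.1 E.2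
    let e : (E.1 : IntermediateField F Ω) ≃+* (φ E : IntermediateField F' Ω) :=
      RingEquiv.refl _
    have hN' : NumberField (φ E : IntermediateField F' Ω) := NumberField.of_ringEquiv _ _ e
    refine ⟨?_, hN', ?_⟩
    · have h4 := Module.finrank_mul_finrank F F' (φ E : IntermediateField F' Ω)
      have h5 : Module.finrank F (φ E : IntermediateField F' Ω) = Module.finrank F E.1 := rfl
      rw [h5, h2, hs] at h4
      exact Nat.eq_of_mul_eq_mul_left hs0 h4
    · rw [← discr_eq_discr_of_ringEquiv _ e]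
      exact h3

/-- The exponent of one layer. -/
private theorem sf7_sum (s : ℕ) (hs : 2 ≤ s) :
    (2 : ℝ) * ((∑ k ∈ Finset.Icc 2 s, k : ℕ) : ℝ) = ((s : ℝ) - 1) * (s + 2) := by
  induction s, hs using Nat.le_induction with
  | base => norm_num
  | succ n hn ih =>
    rw [Finset.sum_Icc_succ_top (by omega)]
    push_cast at ih ⊢
    linarith

/-- The inequality between the exponents. -/
private theorem sf7_exp {s t' : ℝ} (hs : 2 ≤ s) (ht : 2 ≤ t') :
    (s - 1) * (s + 2) / (4 * (s * t' - 1)) + (t' + 2) / 4 ≤ (s * t' + 2) / 4 := by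
  have h1 : 0 < s * t' - 1 := by nlinarith
  have h2 : (s - 1) * (s + 2) / (4 * (s * t' - 1)) ≤ (s * t' - t') / 4 := by
    rw [div_le_div_iff₀ (by positivity) (by norm_num)]
    have h3 : s + 2 ≤ t' * (s * t' - 1) := by nlinarith [mul_nonneg (sub_nonneg.2 hs) (sub_nonneg.2 ht)]
    nlinarith [mul_le_mul_of_nonneg_left h3 (by linarith : (0 : ℝ) ≤ s - 1)]
  linarith

/-- The number of subfields of one degree. -/
private theorem sf7_layer (n : ℕ) {m : ℝ} {t : ℕ} (M : ℕ) (hm : 0 < m)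
    {X : ℝ} (hX : 1 ≤ X) :
    (4 * (t : ℝ) * ((2 ^ (n + 1) * √X) ^ (1 / m))) ^ M =
      (4 * (t : ℝ)) ^ M * (2 ^ (n + 1) : ℝ) ^ ((M : ℝ) / m) * X ^ ((M : ℝ) / (2 * m)) := by
  have hX0 : 0 ≤ X := by linarith
  rw [mul_pow, mul_assoc]
  congr 1
  rw [← Real.rpow_natCast (((2 : ℝ) ^ (n + 1) * √X) ^ (1 / m)), ← Real.rpow_mul (by positivity),
    Real.mul_rpow (by positivity) (by positivity), Real.sqrt_eq_rpow, ← Real.rpow_mul hX0]
  congr 2
  · ring
  · field_simp

open IntermediateField in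
/-- SF7 : Schmidt's bound for the number of fields, uniformly in the ground field -/
theorem schmidt (t d : ℕ) (ht : 1 ≤ t) : ∃ C : ℝ, 0 < C ∧
    ∀ (F : Type u) [Field F] [NumberField F], Module.finrank ℚ F = d →
      ∀ (Ω : Type u) [Field Ω] [Algebra F Ω] (X : ℝ), 1 ≤ X →
      ∀ Es : Finset (IntermediateField F Ω),
        (∀ E ∈ Es, Module.finrank F E = t ∧
          ∃ _ : NumberField E, |((discr E : ℤ) : ℝ)| ≤ X) →
        (Es.card : ℝ) ≤ C * X ^ (((t : ℝ) + 2) / 4) := by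
  classical
  induction t using Nat.strong_induction_on generalizing d with
  | _ t ih =>
  rcases ht.eq_or_lt with rfl | ht2
  · refine ⟨1, one_pos, ?_⟩
    intro F _ _ _ Ω _ _ X hX Es hEs
    have hcard : Es.card ≤ 1 := by
      rw [Finset.card_le_one]
      intro a ha b hb
      exact (IntermediateField.finrank_eq_one_iff.1 (hEs a ha).1).trans
        (IntermediateField.finrank_eq_one_iff.1 (hEs b hb).1).symm
    have h1 : (Es.card : ℝ) ≤ 1 := by exact_mod_cast hcard
    have h2 : 1 ≤ X ^ ((((1 : ℕ) : ℝ) + 2) / 4) := Real.one_le_rpow hX (by positivity)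
    linarith
  have ht2 : 2 ≤ t := ht2
  by_cases hd : d = 0
  · refine ⟨1, one_pos, ?_⟩
    intro F _ _ hFd
    have := Module.finrank_pos (R := ℚ) (M := F)
    omega
  have hd1 : 1 ≤ d := Nat.one_le_iff_ne_zero.2 hd
  have key1 : ∀ s : ℕ, ∃ C : ℝ, 0 < C ∧ (2 ≤ s →
    ∀ (F : Type u) [Field F] [NumberField F], Module.finrank ℚ F = d →
      ∀ (Ω : Type u) [Field Ω] [Algebra F Ω] (R : ℝ), 1 ≤ R →
      ∀ Fs : Finset (IntermediateField F Ω),
        (∀ F' ∈ Fs, ∃ γ : Ω, F' = IntermediateField.adjoin F {γ} ∧ IsIntegral ℤ γ ∧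
          (minpoly F γ).natDegree = s ∧ (minpoly F γ).coeff (s - 1) = 0 ∧
          ∀ i < s, ∀ v : InfinitePlace F, v ((minpoly F γ).coeff i) ≤ 2 ^ s * R ^ (s - i)) →
        (Fs.card : ℝ) ≤ C * R ^ (d * ∑ k ∈ Finset.Icc 2 s, k)) := by
    intro s
    by_cases hs : 2 ≤ s
    · obtain ⟨C, h0, h⟩ := card_gen.{u} d s hs
      exact ⟨C, h0, fun _ => h⟩
    · exact ⟨1, one_pos, fun h => absurd h hs⟩
  have key2 : ∀ s : ℕ, ∃ C : ℝ, 0 < C ∧ (2 ≤ s → s < t →
    ∀ (F : Type u) [Field F] [NumberField F], Module.finrank ℚ F = d * s →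
      ∀ (Ω : Type u) [Field Ω] [Algebra F Ω] (X : ℝ), 1 ≤ X →
      ∀ Es : Finset (IntermediateField F Ω),
        (∀ E ∈ Es, Module.finrank F E = t / s ∧
          ∃ _ : NumberField E, |((discr E : ℤ) : ℝ)| ≤ X) →
        (Es.card : ℝ) ≤ C * X ^ ((((t / s : ℕ) : ℝ) + 2) / 4)) := by
    intro s
    by_cases hs : 2 ≤ s ∧ s < t
    · obtain ⟨C, h0, h⟩ := ih (t / s) (Nat.div_lt_self (by omega) (by omega)) (d * s)
        (Nat.div_pos hs.2.le (by omega))
      exact ⟨C, h0, fun _ _ => h⟩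
    · exact ⟨1, one_pos, fun h1 h2 => absurd ⟨h1, h2⟩ hs⟩
  choose Cg hCg0 hCg using key1
  choose Ci hCi0 hCi using key2
  set m : ℝ := ((t : ℝ) - 1) * d with hm
  have hd0 : (0 : ℝ) < d := by exact_mod_cast hd1
  have ht0 : (2 : ℝ) ≤ t := by exact_mod_cast ht2
  have hm0 : 0 < m := by rw [hm]; exact mul_pos (by linarith) hd0
  let Ms : ℕ → ℕ := fun s => d * ∑ k ∈ Finset.Icc 2 s, k
  let K : ℕ → ℝ := fun s => Cg s * ((4 * (t : ℝ)) ^ (Ms s) *
    (2 ^ (d * t + 1) : ℝ) ^ ((Ms s : ℝ) / m)) * (1 + Ci s)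
  have hK0 : ∀ s, 0 < K s := by
    intro s
    have := hCg0 s
    have := hCi0 s
    positivity
  refine ⟨1 + ∑ s ∈ Finset.Icc 2 t, K s, ?_, ?_⟩
  · have : 0 ≤ ∑ s ∈ Finset.Icc 2 t, K s := Finset.sum_nonneg fun s _ => (hK0 s).le
    linarith
  intro F _ _ hFd Ω _ _ X hX Es hEs
  have hX0 : 0 < X := by linarith
  have hsX : 1 ≤ √X := by rw [Real.one_le_sqrt]; exact hX
  set Y : ℝ := (2 ^ (d * t + 1) * √X) ^ (1 / m) with hY
  have h2p : (1 : ℝ) ≤ 2 ^ (d * t + 1) := one_le_pow₀ (by norm_num)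
  have hY1 : 1 ≤ Y := Real.one_le_rpow (by nlinarith) (by positivity)
  have hYm : Y ^ (d * t - d) = 2 ^ (d * t + 1) * √X := by
    have h1 : ((d * t - d : ℕ) : ℝ) = m := by
      rw [Nat.cast_sub (Nat.le_mul_of_pos_right _ (by omega)), hm]
      push_cast
      ring
    rw [hY, ← Real.rpow_natCast, ← Real.rpow_mul (by positivity), h1, one_div,
      inv_mul_cancel₀ hm0.ne', Real.rpow_one]
  set R : ℝ := 4 * (t : ℝ) * Y with hR
  have hR1 : 1 ≤ R := by rw [hR]; nlinarith
  have hex : ∀ E : IntermediateField F Ω, ∃ γ : Ω, E ∈ Es →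
      F⟮γ⟯ ≤ E ∧ IsIntegral ℤ γ ∧ 2 ≤ (minpoly F γ).natDegree ∧
      (minpoly F γ).coeff ((minpoly F γ).natDegree - 1) = 0 ∧
      ∀ i < (minpoly F γ).natDegree, ∀ v : InfinitePlace F, v ((minpoly F γ).coeff i) ≤
        2 ^ (minpoly F γ).natDegree * R ^ ((minpoly F γ).natDegree - i) := by
    intro E
    by_cases hE : E ∈ Es
    · obtain ⟨h1, hN, h2⟩ := hEs E hE
      have h3 : Module.finrank ℚ E = d * t := by
        rw [← hFd, ← h1, Module.finrank_mul_finrank]
      obtain ⟨γ, hγ⟩ := sf7_gen E (by rw [h1]; exact ht2) hY1 (by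
        rw [h3, hFd, hYm]
        have h4 : √|((discr E : ℤ) : ℝ)| ≤ √X := Real.sqrt_le_sqrt h2
        have h5 : (2 : ℝ) ^ (d * t + 1) = 2 * 2 ^ (d * t) := by ring
        have h6 : (0 : ℝ) < 2 ^ (d * t) := by positivity
        have h7 := mul_le_mul_of_nonneg_left h4 h6.le
        have h8 : 0 < 2 ^ (d * t) * √X := by positivity
        rw [h5]
        linarith)
      rw [h1] at hγ
      exact ⟨γ, fun _ => hγ⟩
    · exact ⟨0, fun h => absurd h hE⟩
  choose γ hγ using hex
  -- degrees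
  have hint : ∀ E ∈ Es, IsIntegral F (γ E) := fun E hE => (hγ E hE).2.1.tower_top
  have hdeg : ∀ E ∈ Es, Module.finrank F F⟮γ E⟯ = (minpoly F (γ E)).natDegree := fun E hE =>
    adjoin.finrank (hint E hE)
  have hdvd : ∀ E ∈ Es, (minpoly F (γ E)).natDegree ∣ t := by
    intro E hE
    rw [← hdeg E hE, ← (hEs E hE).1]
    have h4 := Module.finrank_mul_finrank F F⟮γ E⟯ (extendScalars (hγ E hE).1)
    have h5 : Module.finrank F (extendScalars (hγ E hE).1) = Module.finrank F E := rfl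
    rw [h5] at h4
    exact Dvd.intro _ h4
  have hmaps : ∀ E ∈ Es, (minpoly F (γ E)).natDegree ∈ Finset.Icc 2 t := by
    intro E hE
    rw [Finset.mem_Icc]
    exact ⟨(hγ E hE).2.2.1, Nat.le_of_dvd (by omega) (hdvd E hE)⟩
  have hlayer : ∀ s ∈ Finset.Icc 2 t,
      ((Es.filter fun E => (minpoly F (γ E)).natDegree = s).card : ℝ) ≤
        K s * X ^ (((t : ℝ) + 2) / 4) := by
    intro s hs
    obtain ⟨hs2, hst⟩ := Finset.mem_Icc.1 hs
    set Fl := Es.filter fun E => (minpoly F (γ E)).natDegree = s with hFl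
    have hmem : ∀ E ∈ Fl, E ∈ Es ∧ (minpoly F (γ E)).natDegree = s := fun E hE =>
      Finset.mem_filter.1 hE
    rcases Finset.eq_empty_or_nonempty Fl with h0 | ⟨E0, hE0⟩
    · rw [h0, Finset.card_empty]
      have := hK0 s
      push_cast
      positivity
    have hsd : s ∣ t := by
      have := hdvd E0 (hmem E0 hE0).1
      rwa [(hmem E0 hE0).2] at this
    have hst' : s * (t / s) = t := Nat.mul_div_cancel' hsd
    -- the subfields
    have himg : ((Fl.image fun E => F⟮γ E⟯).card : ℝ) ≤ Cg s * R ^ (Ms s) := by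
      refine hCg s hs2 F hFd Ω R hR1 _ ?_
      intro F' hF'
      obtain ⟨E, hE, rfl⟩ := Finset.mem_image.1 hF'
      obtain ⟨h1, h2⟩ := hmem E hE
      obtain ⟨_, h3, _, h4, h5⟩ := hγ E h1
      rw [h2] at h4 h5
      exact ⟨γ E, rfl, h3, h2, h4, h5⟩
    have hRM : R ^ (Ms s) = ((4 * (t : ℝ)) ^ (Ms s) *
        (2 ^ (d * t + 1) : ℝ) ^ ((Ms s : ℝ) / m)) * X ^ ((Ms s : ℝ) / (2 * m)) :=
      sf7_layer (d * t) (Ms s) hm0 hX
    have hexp : (Ms s : ℝ) / (2 * m) = ((s : ℝ) - 1) * (s + 2) / (4 * ((t : ℝ) - 1)) := by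
      have h1 : (Ms s : ℝ) = d * ((∑ k ∈ Finset.Icc 2 s, k : ℕ) : ℝ) := by
        simp only [Ms]
        rw [Nat.cast_mul]
      have h2 := sf7_sum s hs2
      have h3 : ((t : ℝ) - 1) ≠ 0 := by linarith
      rw [h1, hm, ← h2]
      field_simp
      ring
    -- the fibers
    have hfib : ∃ e : ℝ, ((s : ℝ) - 1) * (s + 2) / (4 * ((t : ℝ) - 1)) + e ≤ ((t : ℝ) + 2) / 4 ∧
        ∀ F' ∈ Fl.image fun E => F⟮γ E⟯, ((Fl.filter fun E => F⟮γ E⟯ = F').card : ℝ) ≤
          (1 + Ci s) * X ^ e := by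
      rcases hst.eq_or_lt with rfl | hlt
      · refine ⟨0, ?_, ?_⟩
        · have h3 : ((s : ℝ) - 1) ≠ 0 := by linarith
          have : ((s : ℝ) - 1) * (s + 2) / (4 * ((s : ℝ) - 1)) = ((s : ℝ) + 2) / 4 := by
            field_simp
          linarith
        · intro F' _
          have h1 : (Fl.filter fun E => F⟮γ E⟯ = F').card ≤ 1 := by
            rw [Finset.card_le_one]
            have h2 : ∀ a ∈ Fl.filter fun E => F⟮γ E⟯ = F', a = F' := by
              intro a ha
              obtain ⟨ha1, ha2⟩ := Finset.mem_filter.1 ha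
              obtain ⟨ha3, ha4⟩ := hmem a ha1
              have : FiniteDimensional F a :=
                Module.finite_of_finrank_pos (by rw [(hEs a ha3).1]; omega)
              rw [← ha2]
              refine (eq_of_le_of_finrank_eq (hγ a ha3).1 ?_).symm
              rw [hdeg a ha3, ha4, (hEs a ha3).1]
            intro a ha b hb
            rw [h2 a ha, h2 b hb]
          have h2 : ((Fl.filter fun E => F⟮γ E⟯ = F').card : ℝ) ≤ 1 := by exact_mod_cast h1
          rw [Real.rpow_zero]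
          have := hCi0 s
          linarith
      · refine ⟨(((t / s : ℕ) : ℝ) + 2) / 4, ?_, ?_⟩
        · have h1 : (2 : ℝ) ≤ s := by exact_mod_cast hs2
          have h2 : 2 ≤ t / s := by
            by_contra hlt2
            have h3 : t / s ≤ 1 := by omega
            have h4 := Nat.mul_le_mul_left s h3
            rw [hst'] at h4
            omega
          have h3 : (2 : ℝ) ≤ ((t / s : ℕ) : ℝ) := by exact_mod_cast h2
          have h4 := sf7_exp h1 h3
          have h5 : (s : ℝ) * ((t / s : ℕ) : ℝ) = t := by exact_mod_cast hst'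
          rw [h5] at h4
          exact h4
        · intro F' hF'
          obtain ⟨E1, hE1, rfl⟩ := Finset.mem_image.1 hF'
          obtain ⟨h1, h2⟩ := hmem E1 hE1
          have h3 : Module.finrank F F⟮γ E1⟯ = s := by rw [hdeg E1 h1, h2]
          have : FiniteDimensional F F⟮γ E1⟯ := adjoin.finiteDimensional (hint E1 h1)
          have hNF : NumberField F⟮γ E1⟯ := NumberField.of_module_finite F F⟮γ E1⟯
          have h4 : Module.finrank ℚ F⟮γ E1⟯ = d * s := by
            rw [← hFd, ← h3, Module.finrank_mul_finrank]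
          have h5 := sf7_fiber (F⟮γ E1⟯) h3 (by omega)
            (B := Ci s * X ^ ((((t / s : ℕ) : ℝ) + 2) / 4)) (X := X) (t' := t / s)
            (hCi s hs2 hlt F⟮γ E1⟯ h4 Ω X hX)
            (Fl.filter fun E => F⟮γ E⟯ = F⟮γ E1⟯) (by
              intro E hE
              obtain ⟨hE3, hE4⟩ := Finset.mem_filter.1 hE
              obtain ⟨hE5, hE6⟩ := hmem E hE3
              refine ⟨?_, ?_, (hEs E hE5).2⟩
              · rw [← hE4]
                exact (hγ E hE5).1
              · rw [hst']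
                exact (hEs E hE5).1)
          refine h5.trans ?_
          have h6 : 0 ≤ X ^ ((((t / s : ℕ) : ℝ) + 2) / 4) := by positivity
          nlinarith
    obtain ⟨e, he1, he2⟩ := hfib
    have hcard : (Fl.card : ℝ) ≤
        ((Fl.image fun E => F⟮γ E⟯).card : ℝ) * ((1 + Ci s) * X ^ e) := by
      have h1 : (Fl.card : ℝ) = ∑ F' ∈ Fl.image fun E => F⟮γ E⟯,
          ((Fl.filter fun E => F⟮γ E⟯ = F').card : ℝ) := by
        exact_mod_cast Finset.card_eq_sum_card_image (fun E => F⟮γ E⟯) Fl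
      rw [h1]
      refine (Finset.sum_le_sum he2).trans ?_
      rw [Finset.sum_const, nsmul_eq_mul]
    have hci : 0 < 1 + Ci s := by have := hCi0 s; linarith
    calc (Fl.card : ℝ) ≤ ((Fl.image fun E => F⟮γ E⟯).card : ℝ) * ((1 + Ci s) * X ^ e) := hcard
      _ ≤ (Cg s * R ^ (Ms s)) * ((1 + Ci s) * X ^ e) :=
        mul_le_mul_of_nonneg_right himg (by positivity)
      _ = K s * (X ^ (((s : ℝ) - 1) * (s + 2) / (4 * ((t : ℝ) - 1))) * X ^ e) := by
        rw [hRM, hexp]
        simp only [K]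
        ring
      _ ≤ K s * X ^ (((t : ℝ) + 2) / 4) := by
        refine mul_le_mul_of_nonneg_left ?_ (hK0 s).le
        rw [← Real.rpow_add hX0]
        exact Real.rpow_le_rpow_of_exponent_le hX he1
  have htot : (Es.card : ℝ) = ∑ s ∈ Finset.Icc 2 t,
      ((Es.filter fun E => (minpoly F (γ E)).natDegree = s).card : ℝ) := by
    exact_mod_cast Finset.card_eq_sum_card_fiberwise hmaps
  rw [htot]
  refine (Finset.sum_le_sum hlayer).trans ?_
  rw [← Finset.sum_mul]
  refine mul_le_mul_of_nonneg_right ?_ (by positivity)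
  linarith

end Pool.Agent.Lib.MP_44a246_ntSF
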