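import Mathlib
import Pool.Agent.Lib.MP_44a246_ntSM.SM04

/-!
# Paper 678, Part B: families of valuation rings which are stable under a derivation
-/

namespace Pool.Agent.Lib.MP_44a246_ntSF

open Pool.Agent.Lib.MP_e52354_nt
open Pool.Agent.Lib.MP_44a246_nt
open Pool.Agent.Lib.MP_44a246_ntL
open WithZero Module Polynomial

variable {F U : Type*} [Field F] [Field U] [Algebra F U]

/-- `𝒪` is a family of subrings of `U` which are valuation rings on `G`, contain `F`, are stable
under the derivation `D`, and separate the elements of `G` outside `F` from `F`. -/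
structure Fam (D : Derivation ℤ U U) (G : IntermediateField F U) (𝒪 : Set (Subring U)) : Prop where
  mem_or : ∀ O ∈ 𝒪, ∀ u ∈ G, u ∈ O ∨ u⁻¹ ∈ O
  const : ∀ O ∈ 𝒪, ∀ c : F, algebraMap F U c ∈ O
  der : ∀ O ∈ 𝒪, ∀ u ∈ O, D u ∈ O
  sep : ∀ z ∈ G, (∀ c : F, algebraMap F U c ≠ z) → ∃ O ∈ 𝒪, z ∉ O
  derF : ∀ c : F, ∃ c' : F, D (algebraMap F U c) = algebraMap F U c'
  derG : ∀ u ∈ G, D u ∈ G
  ker : ∀ u ∈ G, D u = 0 → ∃ c : F, algebraMap F U c = u

/-- the subring `O` of `U` lies over the place `v` of `M` -/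
def Over {M : Type*} [Field M] [Algebra F M] [Algebra M U] (O : Subring U) (v : Place F M) : Prop :=
  ∀ u : M, algebraMap M U u ∈ O ↔ v.1 u ≤ 1

/-- the weights `c` of the places of `M`: `v (D π) ≥ c v * v (π)` (written additively) for the
uniformisers `π` -/
def Wt {M : Type*} [Field M] [Algebra F M] [Algebra M U] (D : Derivation ℤ U U)
    (𝒪 : Set (Subring U)) (c : Place F M → ℚ) : Prop :=
  ∀ O ∈ 𝒪, ∀ v : Place F M, Over O v → ∀ π : M, v.1 π = exp (-1 : ℤ) → ∀ p q : ℕ, 0 < q →
    (p : ℚ) ≤ q * c v → D (algebraMap M U π) ^ q / algebraMap M U π ^ p ∈ O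

namespace Fam

variable {D : Derivation ℤ U U} {G : IntermediateField F U} {𝒪 : Set (Subring U)}
  (h : Fam D G 𝒪)
include h

/-- the rings are integrally closed in `G` -/
theorem of_pow {O : Subring U} (hO : O ∈ 𝒪) {u : U} (hu : u ∈ G) {n : ℕ} (hn : 0 < n)
    (hun : u ^ n ∈ O) : u ∈ O := by
  rcases h.mem_or O hO u hu with h1 | h1
  · exact h1
  · by_cases h0 : u = 0
    · rw [h0]
      exact O.zero_mem
    · obtain ⟨m, rfl⟩ : ∃ m, n = m + 1 := ⟨n - 1, by omega⟩
      have h2 : u = u ^ (m + 1) * (u⁻¹) ^ m := by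
        rw [pow_succ, inv_pow]
        field_simp
      rw [h2]
      exact O.mul_mem hun (O.pow_mem h1 m)

/-- a ring of the family contains the function field `M` or lies over a place of `M` -/
theorem exists_over [IsAlgClosed F] [CharZero F] {O : Subring U} (hO : O ∈ 𝒪) {M : Type*}
    [Field M] [Algebra F M] [Algebra M U] [IsScalarTower F M U] (hM : IsFF F M)
    (hMG : ∀ u : M, algebraMap M U u ∈ G) :
    (∀ u : M, algebraMap M U u ∈ O) ∨ ∃ v : Place F M, Over O v := by
  by_cases hne : ∀ u : M, algebraMap M U u ∈ O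
  · exact Or.inl hne
  · right
    push Not at hne
    let V : ValuationSubring M :=
      { O.comap (algebraMap M U) with
        mem_or_inv_mem' := fun u => by
          have h1 := h.mem_or O hO _ (hMG u)
          rw [← map_inv₀] at h1
          exact h1 }
    obtain ⟨v, hv⟩ := Pool.Agent.Lib.MP_44a246_ntSM.exists_place_of_subring hM V
      (fun c => by
        show algebraMap M U (algebraMap F M c) ∈ O
        rw [← IsScalarTower.algebraMap_apply]
        exact h.const O hO c) hne
    exact ⟨v, hv⟩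

end Fam

end Pool.Agent.Lib.MP_44a246_ntSF
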