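import Mathlib
import Pool.Agent.Lib.MP_44a246_ntSM.SM02
import Pool.Agent.Lib.MP_44a246_ntS.SP7
import Pool.Agent.Lib.MP_44a246_ntSF.SFB02

/-!
# Paper 678, Part B, B4: the derivation `D` on a function field `M`
-/

namespace Pool.Agent.Lib.MP_44a246_ntSF

open Pool.Agent.Lib.MP_e52354_nt
open Pool.Agent.Lib.MP_44a246_nt
open Pool.Agent.Lib.MP_44a246_ntL
open Pool.Agent.Lib.MP_44a246_ntR
open WithZero Module Polynomial

/-- extension of a derivation of a domain with values in an algebraic extension field -/
theorem lift_der {S L : Type*} [CommRing S] [IsDomain S] [CharZero S] [Field L] [Algebra S L]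
    (hinj : Function.Injective (algebraMap S L)) [Algebra.IsAlgebraic S L]
    (d₀ : Derivation ℤ S L) :
    ∃ D : Derivation ℤ L L, ∀ s, D (algebraMap S L s) = d₀ s := by
  have : FaithfulSMul S L := (faithfulSMul_iff_algebraMap_injective S L).mpr hinj
  let K := FractionRing S
  let iKL : Algebra K L := FractionRing.liftAlgebra S L
  have : IsScalarTower S K L := inferInstance
  have : Algebra.IsAlgebraic K L :=
    Algebra.IsAlgebraic.extendScalars (R := S) (S := K) (IsFractionRing.injective S K)
  have : CharZero K := charZero_of_injective_algebraMap (IsFractionRing.injective S K)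
  have : Algebra.FormallyEtale K L := Algebra.FormallyEtale.of_isSeparable K L
  have : Algebra.FormallyEtale S K := Algebra.FormallyEtale.of_isLocalization (nonZeroDivisors S)
  have : Algebra.FormallyEtale S L := Algebra.FormallyEtale.comp S K L
  let f := (KaehlerDifferential.isBaseChange_of_formallyEtale ℤ S L).lift d₀.liftKaehlerDifferential
  refine ⟨f.compDer (KaehlerDifferential.D ℤ L), fun y => ?_⟩
  show f (KaehlerDifferential.D ℤ L (algebraMap S L y)) = _
  rw [← KaehlerDifferential.map_D ℤ ℤ S L]
  have h2 := (KaehlerDifferential.isBaseChange_of_formallyEtale ℤ S L).lift_eq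
    d₀.liftKaehlerDifferential (KaehlerDifferential.D ℤ S y)
  rw [h2, Derivation.liftKaehlerDifferential_comp_D]

/-- the variable is a transcendence basis -/
theorem basis_tL {F M : Type*} [Field F] [IsAlgClosed F] [CharZero F] [Field M] [Algebra F M]
    [Algebra (RatFunc F) M] [IsScalarTower F (RatFunc F) M] [FiniteDimensional (RatFunc F) M] :
    IsTranscendenceBasis F (fun _ : Unit => tL F M) := by
  have h1 : AlgebraicIndependent F (fun _ : Unit => tL F M) :=
    algebraicIndependent_unique_type_iff.mpr transcendental_tL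
  obtain ⟨s, hs, hfin⟩ := isFF_of_ratFunc F M
  have h3 : Algebra.IsAlgebraic (IntermediateField.adjoin F {s}) M :=
    Algebra.IsAlgebraic.of_finite _ _
  have h4 : IsTranscendenceBasis F (fun _ : Unit => s) := by
    rw [(algebraicIndependent_unique_type_iff.mpr hs :
      AlgebraicIndependent F (fun _ : Unit => s)).isTranscendenceBasis_iff_isAlgebraic,
      ← IntermediateField.isAlgebraic_adjoin_iff_top, Set.range_const]
    exact h3
  refine h1.isTranscendenceBasis_of_lift_trdeg_le_of_finite ?_
  rw [← h4.lift_cardinalMk_eq_trdeg]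

/-- `D u = δ u + (D X) (D' u)`, where `δ X = 0`, `D' = d / dX`. -/
theorem exists_delta {F U M : Type*} [Field F] [IsAlgClosed F] [CharZero F] [Field U]
    [Algebra F U] [Field M] [Algebra F M] [Algebra M U] [IsScalarTower F M U]
    [Algebra (RatFunc F) M] [IsScalarTower F (RatFunc F) M] [FiniteDimensional (RatFunc F) M]
    (D : Derivation ℤ U U)
    (hDF : ∀ c : F, ∃ c' : F, D (algebraMap F U c) = algebraMap F U c') :
    ∃ δ D' : Derivation ℤ M M, δ (tL F M) = 0 ∧
      (∀ c : F, ∃ c' : F, δ (algebraMap F M c) = algebraMap F M c') ∧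
      (∀ c : F, D' (algebraMap F M c) = 0) ∧ D' (tL F M) = 1 ∧
      ∀ u : M, D (algebraMap M U u) =
        algebraMap M U (δ u) + D (algebraMap M U (tL F M)) * algebraMap M U (D' u) := by
  have hFU : Function.Injective (algebraMap F U) := (algebraMap F U).injective
  -- the derivation of `F`
  choose f hf using hDF
  obtain ⟨D₀, hD₀⟩ : ∃ D₀ : Derivation ℤ F F, ∀ c, D (algebraMap F U c) = algebraMap F U (D₀ c) := by
    let φ : F →+ F :=
      { toFun := f
        map_zero' := hFU (by rw [← hf, map_zero, map_zero])
        map_add' := fun x y => hFU (by rw [← hf, map_add, map_add, hf, hf, map_add]) }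
    refine ⟨Derivation.mk' φ.toIntLinearMap fun x y => hFU ?_, fun c => hf c⟩
    show algebraMap F U (f (x * y)) = algebraMap F U (x • f y + y • f x)
    rw [← hf, map_mul, Derivation.leibniz, hf, hf, smul_eq_mul, smul_eq_mul, smul_eq_mul,
      smul_eq_mul, map_add, map_mul, map_mul]
  -- the extensions to `M`
  have hbas := basis_tL (F := F) (M := M)
  have htr : Transcendental F (tL F M) := transcendental_tL
  let iX : Algebra F[X] M :=
    ((algebraMap (RatFunc F) M).comp (algebraMap F[X] (RatFunc F))).toAlgebra
  have t1 : IsScalarTower F[X] (RatFunc F) M := IsScalarTower.of_algebraMap_eq' rfl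
  have hX : algebraMap F[X] M X = tL F M := by
    show algebraMap (RatFunc F) M (algebraMap F[X] (RatFunc F) X) = _
    rw [RatFunc.algebraMap_X]
    rfl
  have hC : ∀ c : F, algebraMap F[X] M (C c) = algebraMap F M c := by
    intro c
    rw [IsScalarTower.algebraMap_apply F (RatFunc F) M,
      IsScalarTower.algebraMap_apply F F[X] (RatFunc F)]
    rfl
  have hinj : Function.Injective (algebraMap F[X] M) :=
    (algebraMap (RatFunc F) M).injective.comp (IsFractionRing.injective F[X] (RatFunc F))
  have halg : Algebra.IsAlgebraic F[X] M := by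
    have h1 : Algebra.IsAlgebraic (RatFunc F) M := Algebra.IsAlgebraic.of_finite _ _
    exact (IsFractionRing.comap_isAlgebraic_iff (A := F[X]) (K := RatFunc F) (C := M)).mpr h1
  obtain ⟨δ, hδ⟩ := lift_der hinj
    ((Algebra.linearMap F[X] M).compDer (Pool.Agent.Lib.MP_44a246_ntS.mc D₀))
  have hδX : δ (tL F M) = 0 := by
    rw [← hX, hδ]
    show algebraMap F[X] M (Pool.Agent.Lib.MP_44a246_ntS.mc D₀ X) = 0
    rw [Pool.Agent.Lib.MP_44a246_ntS.mc_X, map_zero]
  have hδF : ∀ c : F, δ (algebraMap F M c) = algebraMap F M (D₀ c) := by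
    intro c
    rw [← hC, hδ]
    show algebraMap F[X] M (Pool.Agent.Lib.MP_44a246_ntS.mc D₀ (C c)) = _
    rw [Pool.Agent.Lib.MP_44a246_ntS.mc_C, hC]
  obtain ⟨D', hD'⟩ : ∃ D' : Derivation F M M, D' (tL F M) = 1 := by
    have h3 := hbas.isAlgebraic
    obtain ⟨D, hD⟩ := exists_derivation hbas.1 (fun _ => 1)
    exact ⟨D, hD ()⟩
  have hD'F : ∀ c : F, D' (algebraMap F M c) = 0 := fun c => D'.map_algebraMap c
  refine ⟨δ, D'.restrictScalars ℤ, hδX, fun c => ⟨D₀ c, hδF c⟩, hD'F, hD', fun u => ?_⟩
  -- the difference
  let E : Derivation F M U := Derivation.mk'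
    { toFun := fun u => D (algebraMap M U u) -
        (algebraMap M U (δ u) + D (algebraMap M U (tL F M)) * algebraMap M U (D' u))
      map_add' := fun x y => by
        simp only [map_add]
        ring
      map_smul' := fun c y => by
        have h1 : D (algebraMap M U (algebraMap F M c)) = algebraMap M U (algebraMap F M (D₀ c)) := by
          rw [← IsScalarTower.algebraMap_apply, ← IsScalarTower.algebraMap_apply, hD₀]
        rw [RingHom.id_apply, Algebra.smul_def, Algebra.smul_def, map_mul, Derivation.leibniz,
          Derivation.leibniz, Derivation.leibniz, h1, hδF, hD'F,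
          IsScalarTower.algebraMap_apply F M U c]
        simp only [smul_eq_mul, map_add, map_mul, mul_zero, add_zero]
        ring }
    (fun x y => by
      simp only [LinearMap.coe_mk, AddHom.coe_mk, map_mul, Derivation.leibniz, map_add,
        Algebra.smul_def, Algebra.algebraMap_self, RingHom.id_apply]
      ring)
  have hE : ∀ u, E u = D (algebraMap M U u) -
      (algebraMap M U (δ u) + D (algebraMap M U (tL F M)) * algebraMap M U (D' u)) := fun _ => rfl
  have h1 : E u = 0 := by
    have h2 := hbas.isAlgebraic_field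
    rw [Set.range_const] at h2
    refine der_eq_zero E {tL F M} ?_ (h2.isAlgebraic u)
    rintro s rfl
    rw [hE, hδX, hD', map_zero, map_one, mul_one, zero_add, sub_self]
  rw [hE, sub_eq_zero] at h1
  exact h1

end Pool.Agent.Lib.MP_44a246_ntSF
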