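import Mathlib
import Pool.Agent.Lib.MP_44a246_ntR.GR5
import Pool.Agent.Lib.MP_44a246_ntY.Y30
import Pool.Agent.Lib.MP_44a246_ntSH.PJ01

/-!
# Paper 678, Part A: the derivation of the algebraic closure
-/

namespace Pool.Agent.Lib.MP_44a246_ntSF

open Pool.Agent.Lib.MP_e52354_nt
open Pool.Agent.Lib.MP_44a246_nt
open Pool.Agent.Lib.MP_44a246_ntL
open Pool.Agent.Lib.MP_44a246_ntY
open Pool.Agent.Lib.MP_44a246_ntSH
open WithZero Module Polynomial

/-- a derivation which vanishes on a subfield vanishes on the elements algebraic over it -/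
theorem der_eq_zero_of_algebraic {K A V : Type*} [Field K] [CharZero K] [Field A] [Algebra K A]
    [Field V] [Algebra A V] (D : Derivation ℤ A V) (hD : ∀ u : K, D (algebraMap K A u) = 0)
    {x : A} (hx : IsAlgebraic K x) : D x = 0 := by
  let iV : Algebra K V := ((algebraMap A V).comp (algebraMap K A)).toAlgebra
  have : IsScalarTower K A V := IsScalarTower.of_algebraMap_eq fun _ => rfl
  let E : Derivation K A V := Derivation.mk'
    { toFun := D
      map_add' := map_add D
      map_smul' := fun c y => by
        show D (c • y) = c • D y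
        rw [Algebra.smul_def, Derivation.leibniz, hD, smul_zero, add_zero, algebraMap_smul] }
    (fun a b => Derivation.leibniz D a b)
  have h1 := E.map_aeval (minpoly K x) x
  rw [minpoly.aeval, map_zero] at h1
  have h2 : Polynomial.aeval x (Polynomial.derivative (minpoly K x)) ≠ 0 :=
    (minpoly.irreducible hx.isIntegral).separable.aeval_derivative_ne_zero (minpoly.aeval K x)
  exact (smul_eq_zero.mp h1.symm).resolve_left h2

section

variable (κ K Ω : Type*) [Field κ] [Field K] [Algebra κ K] [Field Ω] [Algebra K Ω] [Algebra κ Ω]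
  [IsScalarTower κ K Ω]

/-- A derivation of `Ω` which extends a nonzero derivation of `K` over `κ`, and a bound for the poles
on `K`. -/
structure DOm where
  D : Derivation ℤ Ω Ω
  DK : Derivation κ K K
  ext : ∀ u, D (algebraMap K Ω u) = algebraMap K Ω (DK u)
  B : Place κ K → ℕ
  fin : (Function.support B).Finite
  bound : ∀ v : Place κ K, ∀ y, v.1 y ≤ 1 → v.1 (DK y) ≤ exp (B v : ℤ)
  ne : ∃ s, DK s ≠ 0

end

variable {κ K Ω : Type*} [Field κ] [Field K] [Algebra κ K] [Field Ω] [Algebra K Ω] [Algebra κ Ω]
  [IsScalarTower κ K Ω]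

theorem exists_DOm [IsAlgClosed κ] [CharZero κ] [Algebra.IsAlgebraic K Ω] (hK : IsFF κ K) :
    Nonempty (DOm κ K Ω) := by
  obtain ⟨DK, B, hne, hfin, hB⟩ := exists_kder hK
  have hcK : CharZero K := charZero_of_injective_algebraMap (algebraMap κ K).injective
  obtain ⟨D, hD⟩ := exists_extension (K := K) (L := Ω) (DK.restrictScalars ℤ)
  exact ⟨⟨D, DK, hD, B, hfin, hB, hne⟩⟩

namespace DOm

variable (Δ : DOm κ K Ω)

theorem const (c : κ) : Δ.D (algebraMap κ Ω c) = 0 := by
  rw [IsScalarTower.algebraMap_apply κ K Ω, Δ.ext, Derivation.map_algebraMap, map_zero]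

/-- every field between `K` and `Ω` is stable -/
theorem exists_res [CharZero K] [Algebra.IsAlgebraic K Ω] (E : Type*) [Field E] [Algebra K E]
    [Algebra E Ω] [IsScalarTower K E Ω] :
    ∃ DE : Derivation ℤ E E, (∀ u : K, DE (algebraMap K E u) = algebraMap K E (Δ.DK u)) ∧
      ∀ z : E, Δ.D (algebraMap E Ω z) = algebraMap E Ω (DE z) := by
  have halg : Algebra.IsAlgebraic K E :=
    ⟨fun z => (isAlgebraic_algebraMap_iff (algebraMap E Ω).injective).1
      (Algebra.IsAlgebraic.isAlgebraic (R := K) (algebraMap E Ω z))⟩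
  obtain ⟨DE, hDE⟩ := exists_extension (K := K) (L := E) (Δ.DK.restrictScalars ℤ)
  refine ⟨DE, hDE, fun z => ?_⟩
  -- the difference of two derivations with values in `Ω`
  let T : Derivation ℤ E Ω := Derivation.mk'
    { toFun := fun z => Δ.D (algebraMap E Ω z) - algebraMap E Ω (DE z)
      map_add' := fun a b => by
        simp only [map_add]
        ring
      map_smul' := fun c a => by
        simp only [map_zsmul, RingHom.id_apply, smul_sub] }
    (fun a b => by
      show Δ.D (algebraMap E Ω (a * b)) - algebraMap E Ω (DE (a * b)) =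
        a • (Δ.D (algebraMap E Ω b) - algebraMap E Ω (DE b)) +
          b • (Δ.D (algebraMap E Ω a) - algebraMap E Ω (DE a))
      rw [map_mul, Derivation.leibniz, Derivation.leibniz, map_add, smul_eq_mul, smul_eq_mul,
        smul_eq_mul, smul_eq_mul, Algebra.smul_def, Algebra.smul_def, map_mul, map_mul]
      ring)
  have h1 : T z = 0 := by
    refine der_eq_zero_of_algebraic T (K := K) (fun u => ?_) (Algebra.IsAlgebraic.isAlgebraic z)
    show Δ.D (algebraMap E Ω (algebraMap K E u)) - algebraMap E Ω (DE (algebraMap K E u)) = 0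
    rw [← IsScalarTower.algebraMap_apply, Δ.ext, hDE, ← IsScalarTower.algebraMap_apply]
    exact sub_self _
  exact sub_eq_zero.1 h1

/-- the elements of `Ω` with derivative zero are constants -/
theorem mem_const [IsAlgClosed κ] [CharZero κ] [Algebra.IsAlgebraic K Ω] (hK : IsFF κ K) {z : Ω}
    (hz : Δ.D z = 0) : ∃ c : κ, algebraMap κ Ω c = z := by
  have hcK : CharZero K := charZero_of_injective_algebraMap (algebraMap κ K).injective
  by_contra hcon
  -- `z` is transcendental over `κ`
  have htr : Transcendental κ z := by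
    intro halg
    have h1 := IsAlgClosed.degree_eq_one_of_irreducible κ (minpoly.irreducible halg.isIntegral)
    obtain ⟨c, hc⟩ := minpoly.mem_range_of_degree_eq_one κ z h1
    exact hcon ⟨c, hc⟩
  have hzK : IsIntegral K z := (Algebra.IsAlgebraic.isAlgebraic (R := K) z).isIntegral
  have hfin : FiniteDimensional K (IntermediateField.adjoin K {z}) :=
    IntermediateField.adjoin.finiteDimensional hzK
  set E := IntermediateField.adjoin K {z} with hE
  have hEF : IsFF κ E := hK.of_finite
  obtain ⟨DE, hDE1, hDE2⟩ := Δ.exists_res E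
  let z' : E := ⟨z, IntermediateField.mem_adjoin_simple_self K z⟩
  have hz' : DE z' = 0 := by
    apply (algebraMap E Ω).injective
    rw [← hDE2, map_zero]
    exact hz
  have htr' : Transcendental κ z' := by
    rintro ⟨p, hp0, hp⟩
    refine htr ⟨p, hp0, ?_⟩
    have h2 := congrArg (algebraMap E Ω) hp
    rw [← aeval_algebraMap_apply, map_zero] at h2
    exact h2
  have hfd := Pool.Agent.Lib.MP_44a246_ntR.finite_over_adjoin hEF htr'
  have hDEκ : ∀ c : κ, DE (algebraMap κ E c) = 0 := by
    intro c
    rw [IsScalarTower.algebraMap_apply κ K E, hDE1, Derivation.map_algebraMap, map_zero]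
  let DE' : Derivation κ E E := Derivation.mk'
    { toFun := DE
      map_add' := map_add DE
      map_smul' := fun c y => by
        show DE (c • y) = c • DE y
        rw [Algebra.smul_def, Derivation.leibniz, hDEκ, smul_zero, add_zero, smul_eq_mul,
          ← Algebra.smul_def] }
    (fun a b => Derivation.leibniz DE a b)
  obtain ⟨s, hs⟩ := Δ.ne
  apply hs
  have h3 : DE' (algebraMap K E s) = 0 := by
    refine der_eq_zero DE' {z'} (fun y hy => ?_) (Algebra.IsAlgebraic.isAlgebraic _)
    rw [Set.mem_singleton_iff] at hy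
    rw [hy]
    exact hz'
  have h4 : algebraMap K E (Δ.DK s) = 0 := (hDE1 s).symm.trans h3
  exact (map_eq_zero _).1 h4

end DOm

end Pool.Agent.Lib.MP_44a246_ntSF
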