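import Mathlib
import Pool.Agent.Lib.MP_44a246_ntSF.SFA02
import Pool.Agent.Lib.MP_44a246_ntSH.PJ14
import Pool.Agent.Lib.MP_44a246_ntSM.SM05a

/-!
# Paper 678, Part A: the derivation on the field of small germs and on the tame germs
-/

namespace Pool.Agent.Lib.MP_44a246_ntSF

open Pool.Agent.Lib.MP_e52354_nt
open Pool.Agent.Lib.MP_44a246_nt
open Pool.Agent.Lib.MP_44a246_ntL
open Pool.Agent.Lib.MP_44a246_ntY
open Pool.Agent.Lib.MP_44a246_ntSH
open Pool.Agent.Lib.MP_44a246_ntSM
open WithZero Module Polynomial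

variable {κ K Ω : Type*} [Field κ] [IsAlgClosed κ] [CharZero κ] [Field K] [Algebra κ K]
  [Field Ω] [Algebra K Ω] [Algebra κ Ω] [IsScalarTower κ K Ω] (W : Tow κ K Ω)

/-- the tame germs: the field generated by the small germs and the germs of the sequences in
`L N` -/
noncomputable def tm : IntermediateField W.F0 (UP Ω) :=
  IntermediateField.adjoin W.F0 {u | ∃ f : ∀ N, W.L N, germHom (fun N => (f N : Ω)) = u}

variable {W}

theorem germ_mem_tm (f : ∀ N, W.L N) : germHom (fun N => (f N : Ω)) ∈ tm W :=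
  IntermediateField.subset_adjoin _ _ ⟨f, rfl⟩

/-- a tame germ is a germ of elements of `E N` if finitely many small germs are -/
theorem tm_gf {u : UP Ω} (hu : u ∈ tm W) :
    ∃ S : Finset (UP Ω), (∀ s ∈ S, s ∈ W.F0) ∧
      ∀ E : ∀ N, IntermediateField (W.L N) Ω, (∀ s ∈ S, s ∈ W.gf E) → u ∈ W.gf E := by
  classical
  induction hu using IntermediateField.adjoin_induction with
  | mem x hx =>
    refine ⟨∅, by simp, fun E _ => ?_⟩
    obtain ⟨f, rfl⟩ := hx
    exact ⟨fun N => algebraMap (W.L N) (E N) (f N), rfl⟩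
  | algebraMap x =>
    refine ⟨{(x : UP Ω)}, ?_, fun E hE => ?_⟩
    · intro s hs
      rw [Finset.mem_singleton] at hs
      rw [hs]
      exact x.2
    · exact hE _ (Finset.mem_singleton_self _)
  | add x y _ _ ihx ihy =>
    obtain ⟨S, hS, hS'⟩ := ihx
    obtain ⟨T, hT, hT'⟩ := ihy
    refine ⟨S ∪ T, fun s hs => ?_, fun E hE => ?_⟩
    · rcases Finset.mem_union.1 hs with h | h
      · exact hS s h
      · exact hT s h
    · exact add_mem (hS' E fun s hs => hE s (Finset.mem_union_left _ hs))
        (hT' E fun s hs => hE s (Finset.mem_union_right _ hs))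
  | inv x _ ihx =>
    obtain ⟨S, hS, hS'⟩ := ihx
    exact ⟨S, hS, fun E hE => inv_mem (hS' E hE)⟩
  | mul x y _ _ ihx ihy =>
    obtain ⟨S, hS, hS'⟩ := ihx
    obtain ⟨T, hT, hT'⟩ := ihy
    refine ⟨S ∪ T, fun s hs => ?_, fun E hE => ?_⟩
    · rcases Finset.mem_union.1 hs with h | h
      · exact hS s h
      · exact hT s h
    · exact mul_mem (hS' E fun s hs => hE s (Finset.mem_union_left _ hs))
        (hT' E fun s hs => hE s (Finset.mem_union_right _ hs))

/-- the bound for the poles of the derivation on a finite extension -/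
noncomputable def bet (Δ : DOm κ K Ω) (E : Type*) [Field E] [Algebra κ E] [Algebra K E]
    [IsScalarTower κ K E] [FiniteDimensional K E] (w : Place κ E) : ℕ :=
  ramIdx K w.1 * Δ.B (below K w) + (ramIdx K w.1 - 1)

section bet

variable (Δ : DOm κ K Ω) {E : Type*} [Field E] [Algebra κ E] [Algebra K E]
    [IsScalarTower κ K E] [FiniteDimensional K E]

theorem bet_reg (hE : IsFF κ E) {DE : Derivation ℤ E E}
    (hDE : ∀ u : K, DE (algebraMap K E u) = algebraMap K E (Δ.DK u)) (w : Place κ E) {y : E}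
    (hy : w.1 y ≤ 1) : w.1 (DE y) ≤ exp (bet Δ E w : ℤ) :=
  polar_over (D := Δ.DK.restrictScalars ℤ) hE hDE (fun v y hy => Δ.bound v y hy) w hy

theorem bet_sum (hE : IsFF κ E) :
    (Function.support fun w : Place κ E => (bet Δ E w : ℤ)).Finite ∧
    ∑ᶠ w : Place κ E, (bet Δ E w : ℤ) =
      ((∑ᶠ v, Δ.B v : ℕ) : ℤ) * Module.finrank K E + ramDeg κ E K := by
  obtain ⟨hs1, he1⟩ := mason_sum_over (K := K) hE Δ.fin
  obtain ⟨hs2, he2⟩ := mason_sum_ram (K := K) hE
  have h0 : (fun w : Place κ E => (bet Δ E w : ℤ)) = fun w : Place κ E =>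
      (((ramIdx K w.1 * Δ.B (below K w) : ℕ) : ℤ) + ((ramIdx K w.1 - 1 : ℕ) : ℤ)) := by
    funext w
    rw [bet]
    push_cast
    rfl
  rw [h0]
  refine ⟨(hs1.union hs2).subset (Function.support_add _ _), ?_⟩
  rw [finsum_add_distrib hs1 hs2, he1, he2]

end bet

/-- the height of the derivative -/
theorem height_der_le (Δ : DOm κ K Ω) {E : Type*} [Field E] [Algebra κ E] [Algebra K E]
    [IsScalarTower κ K E] [FiniteDimensional K E] (hE : IsFF κ E) {DE : Derivation ℤ E E}
    (hDE : ∀ u : K, DE (algebraMap K E u) = algebraMap K E (Δ.DK u)) (y : E) :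
    height κ ![1, DE y] ≤ 2 * height κ ![1, y] +
      (((∑ᶠ v, Δ.B v : ℕ) : ℤ) * Module.finrank K E + ramDeg κ E K) := by
  obtain ⟨hs, he⟩ := bet_sum Δ hE
  have h2 : (Function.support fun w : Place κ E => 2 * log (max 1 (w.1 y))).Finite :=
    (log_max_support hE y).subset fun w hw h0 => hw (by simp only at h0 ⊢; rw [h0, mul_zero])
  rw [← he, height_one, height_one, mul_finsum, ← finsum_add_distrib h2 hs]
  refine finsum_mono (log_max_support hE _) ((h2.union hs).subset
    (Function.support_add _ _)) fun w => ?_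
  have h3 := log_der_le w.1 DE (e := bet Δ E w) (fun z hz => bet_reg Δ hE hDE w hz) y
  have h4 : ∀ c : E, log (max 1 (w.1 c)) = max 0 (log (w.1 c)) := by
    intro c
    rcases le_total (w.1 c) 1 with h5 | h5
    · rw [max_eq_left h5, log_one]
      by_cases h6 : w.1 c = 0
      · rw [h6, log_zero, max_self]
      · rw [max_eq_left]
        rw [log_le_iff_le_exp h6, exp_zero]
        exact h5
    · rw [max_eq_right h5]
      have h6 : w.1 c ≠ 0 := (zero_lt_one.trans_le h5).ne'
      rw [max_eq_right]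
      rw [le_log_iff_exp_le h6, exp_zero]
      exact h5
  show log (max 1 (w.1 (DE y))) ≤ 2 * log (max 1 (w.1 y)) + (bet Δ E w : ℤ)
  rw [h4, h4]
  refine max_le ?_ (h3.trans (le_of_eq (add_comm _ _)))
  have := le_max_left 0 (log (w.1 y))
  positivity

variable [IsAlgClosed Ω] [Algebra.IsAlgebraic K Ω] (Δ : DOm κ K Ω)

omit [IsAlgClosed Ω] in
/-- the restrictions to the fields of a sequence of extensions -/
theorem exists_DE (E : ∀ N, IntermediateField (W.L N) Ω) :
    ∃ DE : ∀ N, Derivation ℤ (E N) (E N),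
      (∀ N (u : K), DE N (algebraMap K (E N) u) = algebraMap K (E N) (Δ.DK u)) ∧
      ∀ N (y : E N), Δ.D (y : Ω) = (DE N y : E N) := by
  have hcK : CharZero K := charZero_of_injective_algebraMap (algebraMap κ K).injective
  choose DE h1 h2 using fun N => Δ.exists_res (E N)
  exact ⟨DE, h1, fun N y => h2 N y⟩

/-- the small germs are stable under the derivation -/
theorem der_mem_F0 {u : UP Ω} (hu : u ∈ W.F0) : derUP Δ.D u ∈ W.F0 := by
  classical
  obtain ⟨c, E, r, hfin, hfr, hram, hr, hh⟩ := W.exists_fld {u} (by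
    intro s hs
    rw [Finset.mem_singleton] at hs
    rw [hs]
    exact hu)
  obtain ⟨DE, h1, h2⟩ := exists_DE Δ E
  have hu' := hr u (Finset.mem_singleton_self u)
  have h3 : derUP Δ.D u = germHom (fun N => ((DE N (r u N) : E N) : Ω)) := by
    conv_lhs => rw [← hu']
    rw [derUP_germ]
    congr 1
    funext N
    exact h2 N _
  rw [h3]
  set b : ℕ := ∑ᶠ v, Δ.B v with hb
  refine W.germ_mem_F0 E (c := 3 * c + b * c) (fun N => (hfr N).trans ?_) _
    (Filter.Eventually.of_forall fun N => ?_)
  · nlinarith [Nat.zero_le (b * c)]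
  · have := W.fin N
    have : FiniteDimensional K (E N) := FiniteDimensional.trans K (W.L N) (E N)
    have hEF : IsFF κ (E N) := W.ff.of_finite
    refine (height_der_le Δ hEF (h1 N) (r u N)).trans ?_
    have h4 := hh u (Finset.mem_singleton_self u) N
    have h5 : (finrank K (E N) : ℤ) ≤ W.T N * c := by
      rw [← finrank_mul_finrank K (W.L N) (E N)]
      push_cast
      have h6 : (finrank K (W.L N) : ℤ) ≤ W.T N := by exact_mod_cast W.deg N
      have h7 : (finrank (W.L N) (E N) : ℤ) ≤ c := by exact_mod_cast hfr N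
      exact mul_le_mul h6 h7 (by positivity) (by positivity)
    have h8 : (ramDeg κ (E N) K : ℤ) ≤ c * W.T N := by exact_mod_cast hram N
    have h9 : (b : ℤ) * finrank K (E N) ≤ b * (W.T N * c) :=
      mul_le_mul_of_nonneg_left h5 (by positivity)
    push_cast
    rw [← hb]
    nlinarith

/-- the tame germs are stable under the derivation -/
theorem der_mem_tm {u : UP Ω} (hu : u ∈ tm W) : derUP Δ.D u ∈ tm W := by
  induction hu using IntermediateField.adjoin_induction with
  | mem x hx =>
    obtain ⟨f, rfl⟩ := hx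
    have hcK : CharZero K := charZero_of_injective_algebraMap (algebraMap κ K).injective
    choose DE h1 h2 using fun N => Δ.exists_res (W.L N)
    have h3 : derUP Δ.D (germHom fun N => (f N : Ω)) =
        germHom (fun N => ((DE N (f N) : W.L N) : Ω)) := by
      rw [derUP_germ]
      congr 1
      funext N
      exact h2 N _
    rw [h3]
    exact germ_mem_tm _
  | algebraMap x => exact (tm W).algebraMap_mem ⟨_, der_mem_F0 Δ x.2⟩
  | add x y hx hy ihx ihy =>
    rw [map_add]
    exact add_mem ihx ihy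
  | inv x hx ihx =>
    rw [Derivation.leibniz_inv, smul_eq_mul]
    exact mul_mem (neg_mem (pow_mem (inv_mem hx) 2)) ihx
  | mul x y hx hy ihx ihy =>
    rw [Derivation.leibniz, smul_eq_mul, smul_eq_mul]
    exact add_mem (mul_mem hx ihy) (mul_mem hy ihx)

omit [IsAlgClosed Ω] in
/-- the constants of the derivation are small -/
theorem mem_F0_of_der_eq_zero {u : UP Ω} (hu : derUP Δ.D u = 0) : u ∈ W.F0 := by
  classical
  obtain ⟨f, rfl⟩ := germHom_surjective u
  rw [derUP_germ, germHom_eq_zero_iff] at hu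
  have h1 : ∀ N, ∃ c : κ, Δ.D (f N) = 0 → algebraMap κ Ω c = f N := by
    intro N
    by_cases h : Δ.D (f N) = 0
    · obtain ⟨c, hc⟩ := Δ.mem_const W.ff h
      exact ⟨c, fun _ => hc⟩
    · exact ⟨0, fun h2 => absurd h2 h⟩
  choose c hc using h1
  have h2 : germHom f = germHom (fun N => ((algebraMap κ (W.L N) (c N) : W.L N) : Ω)) := by
    rw [germHom_eq_iff]
    filter_upwards [hu] with N hN
    rw [← hc N hN]
    rfl
  rw [h2]
  refine W.germ_mem_F0' _ (c := 0) (Filter.Eventually.of_forall fun N => ?_)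
  rw [height_one_const]
  simp

end Pool.Agent.Lib.MP_44a246_ntSF
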