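import Mathlib

/-!
# Paper 678, Part A: valuation rings which are limits of places

An abstract construction of valuation rings which are stable under a derivation.
-/

namespace Pool.Agent.Lib.MP_44a246_ntSF

open WithZero

variable {G : Type*} [Field G]

/-- `O` satisfies the orbifold condition of multiplicity `m` for the function `y`: if `y` is in the
maximal ideal then `(D y) ^ m * y ^ (1 - m)` is in `O`. -/
def OrbAt (D : G → G) (O : ValuationSubring G) (y : G) (m : ℕ) : Prop :=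
  y ∈ O → y ≠ 0 → y⁻¹ ∉ O → y * (D y / y) ^ m ∈ O

section

variable (D : G → G) {J : Type*} (𝒲 : Ultrafilter J) {E : J → Type*}
  [∀ j, Field (E j)] (v : ∀ j, Valuation (E j) ℤᵐ⁰) (Dj : ∀ j, E j → E j) (τ : J → ℕ)
  (ρ : ∀ j, G → E j)

/-- The data of a valuation ring: approximate homomorphisms `ρ j` to fields with a discrete
valuation, an operator `Dj` and a number `τ j`. -/
structure LimData : Prop where
  add : ∀ y y', ∀ᶠ j in (𝒲 : Filter J), ρ j (y + y') = ρ j y + ρ j y'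
  mul : ∀ y y', ∀ᶠ j in (𝒲 : Filter J), ρ j (y * y') = ρ j y * ρ j y'
  one : ∀ᶠ j in (𝒲 : Filter J), ρ j 1 = 1
  der : ∀ y, ∀ᶠ j in (𝒲 : Filter J), ρ j (D y) = Dj j (ρ j y)
  reg : ∀ j e, v j e ≤ 1 → v j (Dj j e) ≤ exp (τ j : ℤ)
  pole : ∀ j e, v j (Dj j e) ≤ v j e * exp (1 + τ j : ℤ)

variable {D 𝒲 v Dj τ ρ}

namespace LimData

variable (h : LimData D 𝒲 v Dj τ ρ)
include h

theorem zero : ∀ᶠ j in (𝒲 : Filter J), ρ j 0 = 0 := by
  filter_upwards [h.add 0 0] with j hj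
  rw [add_zero] at hj
  exact left_eq_add.1 hj

theorem neg (y : G) : ∀ᶠ j in (𝒲 : Filter J), ρ j (-y) = -ρ j y := by
  filter_upwards [h.add y (-y), h.zero] with j h1 h2
  rw [add_neg_cancel, h2] at h1
  exact (neg_eq_of_add_eq_zero_right h1.symm).symm

theorem ne_zero {y : G} (hy : y ≠ 0) : ∀ᶠ j in (𝒲 : Filter J), ρ j y ≠ 0 := by
  filter_upwards [h.mul y y⁻¹, h.one] with j h1 h2 h3
  rw [mul_inv_cancel₀ hy, h2, h3, zero_mul] at h1
  exact one_ne_zero h1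

theorem inv {y : G} (hy : y ≠ 0) : ∀ᶠ j in (𝒲 : Filter J), ρ j y⁻¹ = (ρ j y)⁻¹ := by
  filter_upwards [h.mul y y⁻¹, h.one, h.ne_zero hy] with j h1 h2 h3
  rw [mul_inv_cancel₀ hy, h2] at h1
  exact eq_inv_of_mul_eq_one_right h1.symm

theorem pow (y : G) (n : ℕ) : ∀ᶠ j in (𝒲 : Filter J), ρ j (y ^ n) = ρ j y ^ n := by
  induction n with
  | zero =>
    filter_upwards [h.one] with j hj
    rw [pow_zero, pow_zero, hj]
  | succ n ih =>
    filter_upwards [ih, h.mul (y ^ n) y] with j h1 h2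
    rw [pow_succ, h2, h1, pow_succ]

/-- the limit of the valuation rings -/
def O : ValuationSubring G where
  carrier := {y | ∃ m : ℕ, ∀ᶠ j in (𝒲 : Filter J), v j (ρ j y) ≤ exp ((m * τ j : ℕ) : ℤ)}
  mul_mem' := by
    rintro y y' ⟨m, hm⟩ ⟨m', hm'⟩
    refine ⟨m + m', ?_⟩
    filter_upwards [hm, hm', h.mul y y'] with j h1 h2 h3
    rw [h3, map_mul]
    refine (mul_le_mul' h1 h2).trans (le_of_eq ?_)
    rw [← exp_add]
    congr 1
    push_cast
    ring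
  one_mem' := by
    refine ⟨0, ?_⟩
    filter_upwards [h.one] with j hj
    rw [hj, map_one, zero_mul]
    exact le_of_eq exp_zero.symm
  add_mem' := by
    rintro y y' ⟨m, hm⟩ ⟨m', hm'⟩
    refine ⟨max m m', ?_⟩
    filter_upwards [hm, hm', h.add y y'] with j h1 h2 h3
    rw [h3]
    refine ((v j).map_add _ _).trans (max_le (h1.trans ?_) (h2.trans ?_))
    · rw [exp_le_exp]
      exact_mod_cast Nat.mul_le_mul_right _ (le_max_left _ _)
    · rw [exp_le_exp]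
      exact_mod_cast Nat.mul_le_mul_right _ (le_max_right _ _)
  zero_mem' := by
    refine ⟨0, ?_⟩
    filter_upwards [h.zero] with j hj
    rw [hj, map_zero]
    exact zero_le
  neg_mem' := by
    rintro y ⟨m, hm⟩
    refine ⟨m, ?_⟩
    filter_upwards [hm, h.neg y] with j h1 h2
    rw [h2, Valuation.map_neg]
    exact h1
  mem_or_inv_mem' := by
    intro y
    by_cases hy : y = 0
    · left
      refine ⟨0, ?_⟩
      filter_upwards [h.zero] with j hj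
      rw [hy, hj, map_zero]
      exact zero_le
    by_cases h1 : ∀ᶠ j in (𝒲 : Filter J), v j (ρ j y) ≤ exp ((0 * τ j : ℕ) : ℤ)
    · exact Or.inl ⟨0, h1⟩
    · right
      refine ⟨0, ?_⟩
      filter_upwards [Ultrafilter.eventually_not.2 h1, h.inv hy] with j h2 h3
      rw [zero_mul, Nat.cast_zero, exp_zero] at h2 ⊢
      rw [h3, map_inv₀]
      exact inv_le_one_of_one_le₀ (not_le.1 h2).le

theorem mem_O {y : G} : y ∈ h.O ↔
    ∃ m : ℕ, ∀ᶠ j in (𝒲 : Filter J), v j (ρ j y) ≤ exp ((m * τ j : ℕ) : ℤ) := Iff.rfl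

theorem D_mem {y : G} (hy : y ∈ h.O) : D y ∈ h.O := by
  obtain ⟨m, hm⟩ := h.mem_O.1 hy
  refine h.mem_O.2 ⟨m + 2, ?_⟩
  filter_upwards [hm, h.der y] with j h1 h2
  rw [h2]
  by_cases h3 : v j (ρ j y) ≤ 1
  · refine (h.reg j _ h3).trans ?_
    rw [exp_le_exp]
    push_cast
    nlinarith [Int.natCast_nonneg (τ j), Int.natCast_nonneg m,
      mul_nonneg (Int.natCast_nonneg m) (Int.natCast_nonneg (τ j))]
  · have h4 : 1 ≤ τ j := by
      rw [Nat.one_le_iff_ne_zero]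
      intro h0
      rw [h0, mul_zero, Nat.cast_zero, exp_zero] at h1
      exact h3 h1
    refine (h.pole j _).trans ((mul_le_mul_left h1 _).trans ?_)
    rw [← exp_add, exp_le_exp]
    push_cast
    have h5 : (1 : ℤ) ≤ τ j := by exact_mod_cast h4
    linarith

theorem notMem {z : G} (hz : ∀ n : ℕ, ∀ᶠ j in (𝒲 : Filter J),
    exp ((n * τ j : ℕ) : ℤ) < v j (ρ j z)) : z ∉ h.O := by
  intro hO
  obtain ⟨m, hm⟩ := h.mem_O.1 hO
  obtain ⟨j, h1, h2⟩ := (hm.and (hz m)).exists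
  exact absurd h1 (not_le.2 h2)

theorem orb {y : G} {m : ℕ} {H : Finset G}
    (hy : ∀ᶠ j in (𝒲 : Filter J), τ j = 0 → (∀ a ∈ H, v j (ρ j a) ≤ 1) →
      1 ≤ v j (ρ j y) ∨ v j (ρ j y) ≤ exp (-(m : ℤ)))
    (hH : ∀ a ∈ H, a ∈ h.O) : OrbAt D h.O y m := by
  intro _ hy0 hyi
  have h1 : ∀ᶠ j in (𝒲 : Filter J), v j (ρ j y) < 1 := by
    by_contra hcon
    apply hyi
    refine h.mem_O.2 ⟨0, ?_⟩
    filter_upwards [Ultrafilter.eventually_not.2 hcon, h.inv hy0] with j h2 h3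
    rw [zero_mul, Nat.cast_zero, exp_zero, h3, map_inv₀]
    exact inv_le_one_of_one_le₀ (not_lt.1 h2)
  have h2 : ∀ᶠ j in (𝒲 : Filter J), ∀ a ∈ H, τ j = 0 → v j (ρ j a) ≤ 1 := by
    refine (Finset.eventually_all H).2 fun a ha => ?_
    obtain ⟨k, hk⟩ := h.mem_O.1 (hH a ha)
    filter_upwards [hk] with j hj h0
    rw [h0, mul_zero, Nat.cast_zero, exp_zero] at hj
    exact hj
  refine h.mem_O.2 ⟨2 * m, ?_⟩
  filter_upwards [h1, h2, hy, h.der y, h.mul y ((D y / y) ^ m), h.pow (D y / y) m,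
    h.mul (D y) y⁻¹, h.inv hy0, h.ne_zero hy0] with j k1 k2 k3 k4 k5 k6 k7 k8 k9
  have hv0 : v j (ρ j y) ≠ 0 := (Valuation.ne_zero_iff _).2 k9
  rw [k5, k6, div_eq_mul_inv, k7, k8, k4, map_mul, map_pow, map_mul, map_inv₀]
  have h5 : v j (Dj j (ρ j y)) * (v j (ρ j y))⁻¹ ≤ exp (1 + τ j : ℤ) := by
    have h6 := h.pole j (ρ j y)
    rw [mul_comm] at h6
    calc v j (Dj j (ρ j y)) * (v j (ρ j y))⁻¹
        ≤ (exp (1 + τ j : ℤ) * v j (ρ j y)) * (v j (ρ j y))⁻¹ := mul_le_mul_left h6 _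
      _ = exp (1 + τ j : ℤ) := by rw [mul_assoc, mul_inv_cancel₀ hv0, mul_one]
  have h7 : v j (ρ j y) * (v j (Dj j (ρ j y)) * (v j (ρ j y))⁻¹) ^ m ≤
      v j (ρ j y) * exp ((m : ℤ) * (1 + τ j)) := by
    refine mul_le_mul_right ((pow_le_pow_left' h5 m).trans (le_of_eq ?_)) _
    rw [← exp_nsmul, nsmul_eq_mul]
  refine h7.trans ?_
  by_cases h8 : τ j = 0
  · rcases k3 h8 fun a ha => k2 a ha h8 with h9 | h9
    · exact absurd k1 (not_lt.2 h9)
    · rw [h8]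
      refine (mul_le_mul_left h9 _).trans ?_
      rw [← exp_add, exp_le_exp]
      push_cast
      linarith
  · refine (mul_le_mul_left k1.le _).trans ?_
    rw [one_mul, exp_le_exp]
    have h9 : (1 : ℤ) ≤ τ j := by exact_mod_cast Nat.one_le_iff_ne_zero.2 h8
    push_cast
    nlinarith [Int.natCast_nonneg m]

theorem bdry {y : G} {H : Finset G}
    (hy : ∀ᶠ j in (𝒲 : Filter J), τ j = 0 → (∀ a ∈ H, v j (ρ j a) ≤ 1) → 1 ≤ v j (ρ j y))
    (hH : ∀ a ∈ H, a ∈ h.O) (hy0 : y ≠ 0) (hyi : y⁻¹ ∉ h.O) (u : G) : D u / u ∈ h.O := by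
  by_cases hu0 : u = 0
  · rw [hu0, div_zero]
    exact h.O.zero_mem
  have h1 : ∀ᶠ j in (𝒲 : Filter J), v j (ρ j y) < 1 := by
    by_contra hcon
    apply hyi
    refine h.mem_O.2 ⟨0, ?_⟩
    filter_upwards [Ultrafilter.eventually_not.2 hcon, h.inv hy0] with j h2 h3
    rw [zero_mul, Nat.cast_zero, exp_zero, h3, map_inv₀]
    exact inv_le_one_of_one_le₀ (not_lt.1 h2)
  have h2 : ∀ᶠ j in (𝒲 : Filter J), ∀ a ∈ H, τ j = 0 → v j (ρ j a) ≤ 1 := by
    refine (Finset.eventually_all H).2 fun a ha => ?_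
    obtain ⟨k, hk⟩ := h.mem_O.1 (hH a ha)
    filter_upwards [hk] with j hj h0
    rw [h0, mul_zero, Nat.cast_zero, exp_zero] at hj
    exact hj
  refine h.mem_O.2 ⟨2, ?_⟩
  filter_upwards [h1, h2, hy, h.der u, h.mul (D u) u⁻¹, h.inv hu0, h.ne_zero hu0]
    with j k1 k2 k3 k4 k5 k6 k7
  have hv0 : v j (ρ j u) ≠ 0 := (Valuation.ne_zero_iff _).2 k7
  have h8 : τ j ≠ 0 := fun h8 => absurd k1 (not_lt.2 (k3 h8 fun a ha => k2 a ha h8))
  rw [div_eq_mul_inv, k5, k6, k4, map_mul, map_inv₀]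
  have h6 := h.pole j (ρ j u)
  rw [mul_comm] at h6
  calc v j (Dj j (ρ j u)) * (v j (ρ j u))⁻¹
      ≤ (exp (1 + τ j : ℤ) * v j (ρ j u)) * (v j (ρ j u))⁻¹ := mul_le_mul_left h6 _
    _ = exp (1 + τ j : ℤ) := by rw [mul_assoc, mul_inv_cancel₀ hv0, mul_one]
    _ ≤ exp ((2 * τ j : ℕ) : ℤ) := by
      rw [exp_le_exp]
      have h9 : (1 : ℤ) ≤ τ j := by exact_mod_cast Nat.one_le_iff_ne_zero.2 h8
      push_cast
      linarith

end LimData

end

end Pool.Agent.Lib.MP_44a246_ntSF
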