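import Mathlib
import Pool.Agent.Lib.MP_44a246_ntSF.SFA03

/-!
# Paper 678, Part A: representatives of tame germs, the size function `tau`
-/

namespace Pool.Agent.Lib.MP_44a246_ntSF

open Pool.Agent.Lib.MP_e52354_nt
open Pool.Agent.Lib.MP_44a246_nt
open Pool.Agent.Lib.MP_44a246_ntL
open Pool.Agent.Lib.MP_44a246_ntY
open Pool.Agent.Lib.MP_44a246_ntSH
open Pool.Agent.Lib.MP_44a246_ntSM
open WithZero Module Polynomial

variable {κ K Ω : Type*} [Field κ] [IsAlgClosed κ] [CharZero κ] [Field K] [Algebra κ K]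
  [Field Ω] [Algebra K Ω] [Algebra κ Ω] [IsScalarTower κ K Ω] (W : Tow κ K Ω)

/-- finitely many tame germs live in extensions of bounded degree and ramification -/
theorem exists_tmE [IsAlgClosed Ω] [Algebra.IsAlgebraic K Ω] (Φ : Finset (UP Ω))
    (hΦ : ∀ g ∈ Φ, g ∈ tm W) :
    ∃ (c : ℕ) (E : ∀ N, IntermediateField (W.L N) Ω), (∀ N, FiniteDimensional (W.L N) (E N)) ∧
      (∀ N, finrank (W.L N) (E N) ≤ c) ∧ (∀ N, ramDeg κ (E N) K ≤ c * W.T N) ∧
      ∀ g ∈ Φ, g ∈ W.gf E := by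
  classical
  choose S hS0 hS using fun g : {x // x ∈ Φ} => tm_gf (hΦ g.1 g.2)
  obtain ⟨c, E, r, h1, h2, h3, h4, -⟩ := W.exists_fld (Finset.univ.biUnion S) (by
    intro s hs
    obtain ⟨g, -, hg⟩ := Finset.mem_biUnion.1 hs
    exact hS0 g s hg)
  refine ⟨c, E, h1, h2, h3, fun g hg => hS ⟨g, hg⟩ E fun s hs => ?_⟩
  exact ⟨r s, h4 s (Finset.mem_biUnion.2 ⟨_, Finset.mem_univ _, hs⟩)⟩

open Classical in
/-- a representative of a germ in `E` -/
noncomputable def rep (E : ∀ N, IntermediateField (W.L N) Ω) (u : UP Ω) : ∀ N, E N :=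
  if h : u ∈ W.gf E then (W.mem_gf.1 h).choose else fun _ => 0

variable {W} {E : ∀ N, IntermediateField (W.L N) Ω}

theorem germ_rep {u : UP Ω} (h : u ∈ W.gf E) :
    germHom (fun N => (rep W E u N : Ω)) = u := by
  unfold rep
  rw [dif_pos h]
  exact (W.mem_gf.1 h).choose_spec

/-- equality of germs of elements of `E N` -/
theorem rep_eq {u : UP Ω} (h : u ∈ W.gf E) (f : ∀ N, E N)
    (hf : germHom (fun N => (f N : Ω)) = u) :
    ∀ᶠ N in (Filter.hyperfilter ℕ : Filter ℕ), rep W E u N = f N := by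
  have h1 := (germ_rep h).trans hf.symm
  rw [germHom_eq_iff] at h1
  filter_upwards [h1] with N hN
  exact Subtype.ext hN

theorem rep_add {u v : UP Ω} (hu : u ∈ W.gf E) (hv : v ∈ W.gf E) :
    ∀ᶠ N in (Filter.hyperfilter ℕ : Filter ℕ),
      rep W E (u + v) N = rep W E u N + rep W E v N := by
  refine rep_eq (add_mem hu hv) (fun N => rep W E u N + rep W E v N) ?_
  conv_rhs => rw [← germ_rep hu, ← germ_rep hv, ← map_add]
  rfl

theorem rep_mul {u v : UP Ω} (hu : u ∈ W.gf E) (hv : v ∈ W.gf E) :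
    ∀ᶠ N in (Filter.hyperfilter ℕ : Filter ℕ),
      rep W E (u * v) N = rep W E u N * rep W E v N := by
  refine rep_eq (mul_mem hu hv) (fun N => rep W E u N * rep W E v N) ?_
  conv_rhs => rw [← germ_rep hu, ← germ_rep hv, ← map_mul]
  rfl

theorem rep_one : ∀ᶠ N in (Filter.hyperfilter ℕ : Filter ℕ), rep W E 1 N = 1 := by
  refine rep_eq (one_mem _) (fun N => 1) ?_
  exact map_one germHom

theorem gf_of_L (f : ∀ N, W.L N) : germHom (fun N => (f N : Ω)) ∈ W.gf E :=
  ⟨fun N => algebraMap (W.L N) (E N) (f N), rfl⟩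

theorem rep_L (f : ∀ N, W.L N) : ∀ᶠ N in (Filter.hyperfilter ℕ : Filter ℕ),
    rep W E (germHom (fun N => (f N : Ω))) N = algebraMap (W.L N) (E N) (f N) :=
  rep_eq (gf_of_L f) (fun N => algebraMap (W.L N) (E N) (f N)) rfl

theorem rep_der {D : Derivation ℤ Ω Ω} {DE : ∀ N, Derivation ℤ (E N) (E N)}
    (hDE : ∀ N (y : E N), D (y : Ω) = (DE N y : E N)) {u : UP Ω} (hu : u ∈ W.gf E) :
    ∀ᶠ N in (Filter.hyperfilter ℕ : Filter ℕ),
      rep W E (derUP D u) N = DE N (rep W E u N) := by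
  have h1 : germHom (fun N => ((DE N (rep W E u N) : E N) : Ω)) = derUP D u := by
    conv_rhs => rw [← germ_rep hu]
    rw [derUP_germ]
    congr 1
    funext N
    exact (hDE N _).symm
  exact rep_eq (W.mem_gf.2 ⟨_, h1⟩) _ h1

open Classical in
/-- the size function -/
noncomputable def tau (Δ : DOm κ K Ω) (P : ∀ N, Finset (Place κ (W.L N)))
    (E : ∀ N, IntermediateField (W.L N) Ω) [∀ N, FiniteDimensional K (E N)]
    [∀ N, FiniteDimensional (W.L N) (E N)] (Φ : Finset (UP Ω)) (N : ℕ)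
    (w : Place κ (E N)) : ℕ :=
  bet Δ (E N) w +
    (∑ a ∈ Φ.filter (fun a => a ∈ W.F0), (log (max 1 (w.1 (rep W E a N)))).toNat +
      if below (W.L N) w ∈ P N then 1 else 0)

section tau

variable {Δ : DOm κ K Ω} {P : ∀ N, Finset (Place κ (W.L N))}
  [∀ N, FiniteDimensional K (E N)] [∀ N, FiniteDimensional (W.L N) (E N)] {Φ : Finset (UP Ω)}

theorem bet_le_tau (N : ℕ) (w : Place κ (E N)) : bet Δ (E N) w ≤ tau Δ P E Φ N w :=
  Nat.le_add_right _ _

theorem one_le_tau {N : ℕ} {w : Place κ (E N)} (h : below (W.L N) w ∈ P N) :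
    1 ≤ tau Δ P E Φ N w := by
  unfold tau
  rw [if_pos h]
  omega

theorem le_tau {a : UP Ω} (ha : a ∈ Φ) (ha0 : a ∈ W.F0) (N : ℕ) (w : Place κ (E N)) :
    w.1 (rep W E a N) ≤ exp (tau Δ P E Φ N w : ℤ) := by
  classical
  have h1 : (log (max 1 (w.1 (rep W E a N)))).toNat ≤ tau Δ P E Φ N w := by
    have h2 : (log (max 1 (w.1 (rep W E a N)))).toNat ≤
        ∑ a ∈ Φ.filter (fun a => a ∈ W.F0), (log (max 1 (w.1 (rep W E a N)))).toNat :=
      Finset.single_le_sum (f := fun a => (log (max 1 (w.1 (rep W E a N)))).toNat)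
        (fun _ _ => Nat.zero_le _) (Finset.mem_filter.2 ⟨ha, ha0⟩)
    unfold tau
    omega
  have h3 : log (max 1 (w.1 (rep W E a N))) ≤ (tau Δ P E Φ N w : ℤ) :=
    (Int.self_le_toNat _).trans (by exact_mod_cast h1)
  have hne : max 1 (w.1 (rep W E a N)) ≠ 0 := (lt_of_lt_of_le zero_lt_one (le_max_left _ _)).ne'
  exact (le_max_right _ _).trans ((log_le_iff_le_exp hne).1 h3)

/-- the sum of the size function -/
theorem tau_sum [IsAlgClosed Ω] [Algebra.IsAlgebraic K Ω] {c : ℕ}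
    (hfr : ∀ N, finrank (W.L N) (E N) ≤ c)
    (hram : ∀ N, ramDeg κ (E N) K ≤ c * W.T N) {p : ℕ} (hP : ∀ N, (P N).card ≤ p * W.T N)
    (hΦ : ∀ a ∈ Φ, a ∈ W.gf E) :
    ∃ C : ℕ, ∀ᶠ N in (Filter.hyperfilter ℕ : Filter ℕ),
      (Function.support fun w : Place κ (E N) => (tau Δ P E Φ N w : ℤ)).Finite ∧
      ∑ᶠ w : Place κ (E N), (tau Δ P E Φ N w : ℤ) ≤ C * (W.T N : ℤ) := by
  classical
  -- the heights of the elements of `Φ ∩ F0`
  have h1 : ∀ a : {x // x ∈ Φ.filter (fun a => a ∈ W.F0)}, ∃ C : ℕ,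
      ∀ᶠ N in (Filter.hyperfilter ℕ : Filter ℕ),
        height κ ![1, rep W E a.1 N] ≤ C * (W.T N : ℤ) := by
    intro a
    have ha := Finset.mem_filter.1 a.2
    refine height_of_mem_F0 W E hfr _ ?_
    rw [germ_rep (hΦ a.1 ha.1)]
    exact ha.2
  choose C hC using h1
  set b : ℕ := ∑ᶠ v, Δ.B v with hb
  refine ⟨b * c + c + (∑ a, C a) + c * p, ?_⟩
  filter_upwards [Filter.eventually_all.2 hC] with N hN
  have hEF : IsFF κ (E N) := W.ff.of_finite
  obtain ⟨s1, e1⟩ := bet_sum Δ hEF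
  have s2 : ∀ a ∈ Φ.filter (fun a => a ∈ W.F0),
      (Function.support fun w : Place κ (E N) =>
        (((log (max 1 (w.1 (rep W E a N)))).toNat : ℕ) : ℤ)).Finite := by
    intro a _
    refine (log_max_support hEF (rep W E a N)).subset fun w hw h0 => hw ?_
    simp only at h0 ⊢
    rw [h0]
    rfl
  have e2 : ∀ a : UP Ω, ∑ᶠ w : Place κ (E N), (((log (max 1 (w.1 (rep W E a N)))).toNat : ℕ) : ℤ) =
      height κ ![1, rep W E a N] := by
    intro a
    rw [height_one]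
    refine finsum_congr fun w => Int.toNat_of_nonneg ?_
    have hne : max 1 (w.1 (rep W E a N)) ≠ 0 :=
      (lt_of_lt_of_le zero_lt_one (le_max_left _ _)).ne'
    rw [le_log_iff_exp_le hne, exp_zero]
    exact le_max_left _ _
  obtain ⟨P', hP'1, hP'2⟩ := exists_above (L := W.L N) hEF (P N)
  have s3 : (Function.support fun w : Place κ (E N) =>
      ((if below (W.L N) w ∈ P N then 1 else 0 : ℕ) : ℤ)) ⊆ (P' : Set (Place κ (E N))) := by
    intro w hw
    rw [Function.mem_support] at hw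
    rw [Finset.mem_coe, hP'1]
    by_contra hcon
    rw [if_neg hcon, Nat.cast_zero] at hw
    exact hw rfl
  have e3 : ∑ᶠ w : Place κ (E N), ((if below (W.L N) w ∈ P N then 1 else 0 : ℕ) : ℤ) ≤
      P'.card := by
    rw [finsum_eq_sum_of_support_subset _ s3]
    refine (Finset.sum_le_card_nsmul _ _ 1 fun w _ => ?_).trans (le_of_eq ?_)
    · split_ifs <;> simp
    · simp
  have h0 : (fun w : Place κ (E N) => (tau Δ P E Φ N w : ℤ)) = fun w : Place κ (E N) =>
      (bet Δ (E N) w : ℤ) + ((∑ a ∈ Φ.filter (fun a => a ∈ W.F0),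
        (((log (max 1 (w.1 (rep W E a N)))).toNat : ℕ) : ℤ)) +
        ((if below (W.L N) w ∈ P N then 1 else 0 : ℕ) : ℤ)) := by
    funext w
    unfold tau
    push_cast
    rfl
  have s2' : (Function.support fun w : Place κ (E N) => ∑ a ∈ Φ.filter (fun a => a ∈ W.F0),
        (((log (max 1 (w.1 (rep W E a N)))).toNat : ℕ) : ℤ)).Finite := by
    refine (Set.Finite.biUnion (Finset.finite_toSet _) s2).subset ?_
    intro w hw
    rw [Function.mem_support] at hw
    obtain ⟨a, ha, ha'⟩ := Finset.exists_ne_zero_of_sum_ne_zero hw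
    exact Set.mem_biUnion (Finset.mem_coe.2 ha) ha'
  have s3' := (P'.finite_toSet).subset s3
  have s23 := (s2'.union s3').subset (Function.support_add _ _)
  rw [h0]
  refine ⟨(s1.union s23).subset (Function.support_add _ _), ?_⟩
  rw [finsum_add_distrib s1 s23, finsum_add_distrib s2' s3', e1, finsum_sum_comm _ _ s2,
    Finset.sum_congr rfl fun a _ => e2 a, ← Finset.sum_coe_sort]
  have h4 : ∑ a : {x // x ∈ Φ.filter (fun a => a ∈ W.F0)}, height κ ![1, rep W E a.1 N] ≤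
      (∑ a, C a : ℕ) * (W.T N : ℤ) := by
    push_cast
    rw [Finset.sum_mul]
    exact Finset.sum_le_sum fun a _ => hN a
  have h5 : (finrank K (E N) : ℤ) ≤ W.T N * c := by
    have := W.fin N
    rw [← finrank_mul_finrank K (W.L N) (E N)]
    push_cast
    have h6 : (finrank K (W.L N) : ℤ) ≤ W.T N := by exact_mod_cast W.deg N
    have h7 : (finrank (W.L N) (E N) : ℤ) ≤ c := by exact_mod_cast hfr N
    exact mul_le_mul h6 h7 (by positivity) (by positivity)
  have h8 : (ramDeg κ (E N) K : ℤ) ≤ c * W.T N := by exact_mod_cast hram N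
  have h9 : (b : ℤ) * finrank K (E N) ≤ b * (W.T N * c) :=
    mul_le_mul_of_nonneg_left h5 (by positivity)
  have h10 : (P'.card : ℤ) ≤ c * (p * W.T N) := by
    have h11 : P'.card ≤ c * (p * W.T N) := hP'2.trans (Nat.mul_le_mul (hfr N) (hP N))
    exact_mod_cast h11
  calc _ ≤ (b : ℤ) * (W.T N * c) + c * W.T N + ((∑ a, C a : ℕ) * (W.T N : ℤ) +
        c * (p * W.T N)) :=
        add_le_add (add_le_add h9 h8) (add_le_add h4 (e3.trans h10))
    _ = _ := by push_cast; ring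

/-- **The place.** -/
theorem exists_w [IsAlgClosed Ω] [Algebra.IsAlgebraic K Ω] {c : ℕ}
    (hfr : ∀ N, finrank (W.L N) (E N) ≤ c)
    (hram : ∀ N, ramDeg κ (E N) K ≤ c * W.T N) {p : ℕ} (hP : ∀ N, (P N).card ≤ p * W.T N)
    (hΦ : ∀ a ∈ Φ, a ∈ W.gf E) {z : UP Ω} (hz : z ∈ W.gf E) (hz0 : z ∉ W.F0) (n : ℕ) :
    ∀ᶠ N in (Filter.hyperfilter ℕ : Filter ℕ), ∃ w : Place κ (E N),
      exp ((n * tau Δ P E Φ N w : ℕ) : ℤ) < w.1 (rep W E z N) := by
  classical
  obtain ⟨C, hC⟩ := tau_sum (Δ := Δ) hfr hram hP hΦ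
  by_contra hcon
  rw [Ultrafilter.eventually_not.symm] at hcon
  apply hz0
  rw [← germ_rep hz]
  refine W.germ_mem_F0 E (c := c + n * C) (fun N => (hfr N).trans (Nat.le_add_right _ _)) _ ?_
  filter_upwards [hC, hcon] with N h1 h2
  have hEF : IsFF κ (E N) := W.ff.of_finite
  rw [height_one]
  have h3 : (Function.support fun w : Place κ (E N) => (n : ℤ) * (tau Δ P E Φ N w : ℤ)).Finite :=
    h1.1.subset fun w hw h0 => hw (by simp only at h0 ⊢; rw [h0, mul_zero])
  calc ∑ᶠ w : Place κ (E N), log (max 1 (w.1 (rep W E z N)))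
      ≤ ∑ᶠ w : Place κ (E N), (n : ℤ) * (tau Δ P E Φ N w : ℤ) := by
        refine finsum_mono (log_max_support hEF _) h3 fun w => ?_
        have hne : max 1 (w.1 (rep W E z N)) ≠ 0 :=
          (lt_of_lt_of_le zero_lt_one (le_max_left _ _)).ne'
        rw [log_le_iff_le_exp hne]
        refine max_le ?_ ?_
        · rw [← exp_zero, exp_le_exp]
          positivity
        · refine not_lt.1 fun h4 => h2 ⟨w, ?_⟩
          push_cast
          exact h4
    _ = n * ∑ᶠ w : Place κ (E N), (tau Δ P E Φ N w : ℤ) := (mul_finsum _ _).symm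
    _ ≤ n * (C * (W.T N : ℤ)) := mul_le_mul_of_nonneg_left h1.2 (by positivity)
    _ ≤ ((c + n * C : ℕ) : ℤ) * (W.T N : ℤ) := by
      push_cast
      have : (0 : ℤ) ≤ c * W.T N := by positivity
      nlinarith

end tau

end Pool.Agent.Lib.MP_44a246_ntSF
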