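import Mathlib
import Pool.Agent.Lib.MP_44a246_ntR.GR1
import Pool.Agent.Lib.MP_44a246_ntSF.SFA01
import Pool.Agent.Lib.MP_44a246_ntSF.SFA04a

/-!
# Paper 678, Part A: the valuation rings of the field of tame germs
-/

namespace Pool.Agent.Lib.MP_44a246_ntSF

open Pool.Agent.Lib.MP_e52354_nt
open Pool.Agent.Lib.MP_44a246_nt
open Pool.Agent.Lib.MP_44a246_ntL
open Pool.Agent.Lib.MP_44a246_ntY
open Pool.Agent.Lib.MP_44a246_ntSH
open Pool.Agent.Lib.MP_44a246_ntSM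
open WithZero Module Polynomial

/-- an ultrafilter of pairs `(x, N)`: `x` large, and then `N` large depending on `x` -/
theorem exists_ultra (X : Type*) [Preorder X] [Nonempty X] [IsDirectedOrder X] :
    ∃ 𝒲 : Ultrafilter (X × ℕ), ∀ p : X × ℕ → Prop,
      (∀ᶠ x in (Filter.atTop : Filter X), ∀ᶠ N in (Filter.hyperfilter ℕ : Filter ℕ), p (x, N)) →
      ∀ᶠ j in (𝒲 : Filter (X × ℕ)), p j := by
  obtain ⟨𝒰, h𝒰⟩ := Ultrafilter.exists_le (Filter.atTop : Filter X)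
  refine ⟨𝒰.bind fun x => (Filter.hyperfilter ℕ).map fun N => (x, N), fun p hp => ?_⟩
  have h1 : ∀ᶠ x in (𝒰 : Filter X), ∀ᶠ N in (Filter.hyperfilter ℕ : Filter ℕ), p (x, N) :=
    h𝒰 hp
  have h2 : ∀ᶠ j in (Filter.bind (𝒰 : Filter X) fun x =>
      (((Filter.hyperfilter ℕ).map fun N => (x, N) : Ultrafilter (X × ℕ)) : Filter (X × ℕ))),
      p j := by
    rw [Filter.eventually_bind]
    exact h1
  exact h2

/-- a pole bound for all elements from the pole bound for integral elements -/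
theorem der_le {L : Type*} [Field L] (v : Valuation L ℤᵐ⁰) (hv : Function.Surjective v)
    (D : Derivation ℤ L L) {e : ℕ} (hreg : ∀ y, v y ≤ 1 → v (D y) ≤ exp (e : ℤ)) (f : L) :
    v (D f) ≤ v f * exp (1 + e : ℤ) := by
  by_cases hf : f = 0
  · rw [hf, map_zero, map_zero, zero_mul]
  have h1 := log_logder_le v hv D hreg f
  have hvf : v f ≠ 0 := (v.ne_zero_iff).2 hf
  by_cases h0 : v (D f) = 0
  · rw [h0]
    exact zero_le
  have h2 : v (D f / f) ≠ 0 := by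
    rw [map_div₀]
    exact div_ne_zero h0 hvf
  have h3 := (log_le_iff_le_exp h2).1 h1
  rw [map_div₀] at h3
  calc v (D f) = v f * (v (D f) / v f) := by rw [mul_div_cancel₀ _ hvf]
    _ ≤ v f * exp (e + 1 : ℤ) := mul_le_mul_right h3 _
    _ = _ := by rw [add_comm]

variable {κ K Ω : Type*} [Field κ] [IsAlgClosed κ] [CharZero κ] [Field K] [Algebra κ K]
  [Field Ω] [Algebra K Ω] [Algebra κ Ω] [IsScalarTower κ K Ω] (W : Tow κ K Ω)

/-- The orbifold condition: for almost all `N`, outside `P N`, at the places at which the elements of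
`H` are integral, `y` is not in the maximal ideal or has order at least `m`. -/
def IsOrb (P : ∀ N, Finset (Place κ (W.L N))) (y : ∀ N, W.L N) (m : ℕ)
    (H : Finset (∀ N, W.L N)) : Prop :=
  ∀ᶠ N in (Filter.hyperfilter ℕ : Filter ℕ), ∀ w : Place κ (W.L N), w ∉ P N →
    (∀ a ∈ H, w.1 (a N) ≤ 1) → 1 ≤ w.1 (y N) ∨ w.1 (y N) ≤ exp (-(m : ℤ))

/-- The boundary condition: for almost all `N`, outside `P N`, at the places at which the elements of
`H` are integral, `y` is not in the maximal ideal. -/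
def IsBd (P : ∀ N, Finset (Place κ (W.L N))) (y : ∀ N, W.L N)
    (H : Finset (∀ N, W.L N)) : Prop :=
  ∀ᶠ N in (Filter.hyperfilter ℕ : Filter ℕ), ∀ w : Place κ (W.L N), w ∉ P N →
    (∀ a ∈ H, w.1 (a N) ≤ 1) → 1 ≤ w.1 (y N)

/-- the valuation rings of the field of tame germs, which are stable under the derivation, contain
the small germs, and satisfy the orbifold conditions -/
structure IsVal (Δ : DOm κ K Ω) (P : ∀ N, Finset (Place κ (W.L N))) (O : Subring (UP Ω)) :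
    Prop where
  le : ∀ u ∈ O, u ∈ tm W
  mem_or : ∀ u ∈ tm W, u ∈ O ∨ u⁻¹ ∈ O
  small : ∀ u ∈ W.F0, u ∈ O
  der : ∀ u ∈ O, derUP Δ.D u ∈ O
  orb : ∀ (y : ∀ N, W.L N) (m : ℕ) (H : Finset (∀ N, W.L N)), IsOrb W P y m H →
    (∀ a ∈ H, germHom (fun N => (a N : Ω)) ∈ O) → germHom (fun N => (y N : Ω)) ∈ O →
    germHom (fun N => (y N : Ω)) ≠ 0 → (germHom (fun N => (y N : Ω)))⁻¹ ∉ O →
    germHom (fun N => (y N : Ω)) * (derUP Δ.D (germHom (fun N => (y N : Ω))) /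
      germHom (fun N => (y N : Ω))) ^ m ∈ O
  bdry : ∀ (y : ∀ N, W.L N) (H : Finset (∀ N, W.L N)), IsBd W P y H →
    (∀ a ∈ H, germHom (fun N => (a N : Ω)) ∈ O) →
    germHom (fun N => (y N : Ω)) ≠ 0 → (germHom (fun N => (y N : Ω)))⁻¹ ∉ O →
    ∀ u ∈ tm W, derUP Δ.D u / u ∈ O

variable {W}

/-- the derivation of the field of tame germs -/
noncomputable def dtm [IsAlgClosed Ω] [Algebra.IsAlgebraic K Ω] (Δ : DOm κ K Ω) (u : tm W) : tm W :=
  ⟨derUP Δ.D u, der_mem_tm Δ u.2⟩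

/-- the germ of a sequence in `L N` as a tame germ -/
noncomputable def gL (y : ∀ N, W.L N) : tm W := ⟨germHom (fun N => (y N : Ω)), germ_mem_tm y⟩

/-- **The valuation rings**, as valuation subrings of the field of tame germs. -/
theorem exists_val_aux [IsAlgClosed Ω] [Algebra.IsAlgebraic K Ω] (Δ : DOm κ K Ω)
    (P : ∀ N, Finset (Place κ (W.L N))) {p : ℕ} (hP : ∀ N, (P N).card ≤ p * W.T N)
    {z : tm W} (hz0 : (z : UP Ω) ∉ W.F0) : ∃ O : ValuationSubring (tm W),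
      (∀ u : tm W, (u : UP Ω) ∈ W.F0 → u ∈ O) ∧ (∀ u ∈ O, dtm Δ u ∈ O) ∧ z ∉ O ∧
      (∀ (y : ∀ N, W.L N) (m : ℕ) (H : Finset (∀ N, W.L N)), IsOrb W P y m H →
        (∀ a ∈ H, gL a ∈ O) → OrbAt (dtm Δ) O (gL y) m) ∧
      ∀ (y : ∀ N, W.L N) (H : Finset (∀ N, W.L N)), IsBd W P y H →
        (∀ a ∈ H, gL a ∈ O) → gL y ≠ 0 → (gL y)⁻¹ ∉ O → ∀ u, dtm Δ u / u ∈ O := by
  classical
  -- the fields
  have key : ∀ Φ : Finset (tm W), ∃ (c : ℕ) (E : ∀ N, IntermediateField (W.L N) Ω),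
      (∀ N, FiniteDimensional (W.L N) (E N)) ∧ (∀ N, finrank (W.L N) (E N) ≤ c) ∧
      (∀ N, ramDeg κ (E N) K ≤ c * W.T N) ∧ ∀ g ∈ Φ, (g : UP Ω) ∈ W.gf E := by
    intro Φ
    obtain ⟨c, E, h1, h2, h3, h4⟩ := exists_tmE W (Φ.image Subtype.val) (by
      intro g hg
      obtain ⟨g', -, rfl⟩ := Finset.mem_image.1 hg
      exact g'.2)
    exact ⟨c, E, h1, h2, h3, fun g hg => h4 _ (Finset.mem_image_of_mem _ hg)⟩
  choose c EE hfin hfr hram hgf using key
  have hfinK : ∀ Φ N, FiniteDimensional K (EE Φ N) := fun Φ N => by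
    have := W.fin N
    exact FiniteDimensional.trans K (W.L N) (EE Φ N)
  have hEF : ∀ Φ N, IsFF κ (EE Φ N) := fun Φ N => W.ff.of_finite
  choose DE hDE1 hDE2 using fun Φ => exists_DE (W := W) Δ (EE Φ)
  -- the size
  let ta : ∀ (Φ : Finset (tm W)) (N : ℕ), Place κ (EE Φ N) → ℕ := fun Φ N w =>
    tau Δ P (EE Φ) (Φ.image Subtype.val) N w
  have hta : ∀ (Φ : Finset (tm W)) (n : ℕ), (z : UP Ω) ∈ W.gf (EE Φ) →
      ∀ᶠ N in (Filter.hyperfilter ℕ : Filter ℕ), ∃ w : Place κ (EE Φ N),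
        exp ((n * ta Φ N w : ℕ) : ℤ) < w.1 (rep W (EE Φ) z N) := by
    intro Φ n hzΦ
    refine exists_w (hfr Φ) (hram Φ) hP ?_ hzΦ hz0 n
    intro a ha
    obtain ⟨g', hg', rfl⟩ := Finset.mem_image.1 ha
    exact hgf Φ g' hg'
  -- the places
  have hpl : ∀ j : (Finset (tm W) × ℕ) × ℕ, ∃ w : Place κ (EE j.1.1 j.2),
      (∃ w' : Place κ (EE j.1.1 j.2),
        exp ((j.1.2 * ta j.1.1 j.2 w' : ℕ) : ℤ) < w'.1 (rep W (EE j.1.1) z j.2)) →
      exp ((j.1.2 * ta j.1.1 j.2 w : ℕ) : ℤ) < w.1 (rep W (EE j.1.1) z j.2) := by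
    intro j
    by_cases h : ∃ w' : Place κ (EE j.1.1 j.2),
        exp ((j.1.2 * ta j.1.1 j.2 w' : ℕ) : ℤ) < w'.1 (rep W (EE j.1.1) z j.2)
    · exact ⟨h.choose, fun _ => h.choose_spec⟩
    · obtain ⟨w⟩ := Pool.Agent.Lib.MP_44a246_ntR.exists_place (hEF j.1.1 j.2)
      exact ⟨w, fun h' => absurd h' h⟩
  choose pl hpl using hpl
  obtain ⟨𝒲, h𝒲⟩ := exists_ultra (Finset (tm W) × ℕ)
  let ρ : ∀ j : (Finset (tm W) × ℕ) × ℕ, tm W → EE j.1.1 j.2 := fun j u =>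
    rep W (EE j.1.1) (u : UP Ω) j.2
  have hge : ∀ (Φ₀ : Finset (tm W)) (n₀ : ℕ) (q : (Finset (tm W) × ℕ) × ℕ → Prop),
      (∀ Φ n, Φ₀ ⊆ Φ → n₀ ≤ n → ∀ᶠ N in (Filter.hyperfilter ℕ : Filter ℕ), q ((Φ, n), N)) →
      ∀ᶠ j in (𝒲 : Filter ((Finset (tm W) × ℕ) × ℕ)), q j := by
    intro Φ₀ n₀ q hq
    refine h𝒲 q ?_
    filter_upwards [Filter.eventually_ge_atTop (Φ₀, n₀)] with x hx
    exact hq x.1 x.2 hx.1 hx.2
  have hreg : ∀ j (e : EE j.1.1 j.2), (pl j).1 e ≤ 1 →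
      (pl j).1 (DE j.1.1 j.2 e) ≤ exp (ta j.1.1 j.2 (pl j) : ℤ) := by
    intro j e he
    refine (bet_reg Δ (hEF j.1.1 j.2) (hDE1 j.1.1 j.2) (pl j) he).trans ?_
    rw [exp_le_exp]
    exact_mod_cast bet_le_tau (Δ := Δ) (P := P) (E := EE j.1.1) (Φ := j.1.1.image Subtype.val)
      j.2 (pl j)
  have hLD : LimData (dtm Δ) 𝒲 (fun j => (pl j).1) (fun j => DE j.1.1 j.2)
      (fun j => ta j.1.1 j.2 (pl j)) ρ := by
    refine ⟨?_, ?_, ?_, ?_, hreg, ?_⟩
    · intro y y'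
      refine hge {y, y'} 0 _ fun Φ n hΦ _ => ?_
      have h1 := hgf Φ y (hΦ (by simp))
      have h2 := hgf Φ y' (hΦ (by simp))
      have h3 := rep_add h1 h2
      exact h3
    · intro y y'
      refine hge {y, y'} 0 _ fun Φ n hΦ _ => ?_
      have h1 := hgf Φ y (hΦ (by simp))
      have h2 := hgf Φ y' (hΦ (by simp))
      have h3 := rep_mul h1 h2
      exact h3
    · refine hge ∅ 0 _ fun Φ n _ _ => ?_
      exact rep_one (W := W) (E := EE Φ)
    · intro y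
      refine hge {y} 0 _ fun Φ n hΦ _ => ?_
      exact rep_der (hDE2 Φ) (hgf Φ y (hΦ (by simp)))
    · intro j e
      exact der_le (pl j).1 (pl j).2.1 (DE j.1.1 j.2) (hreg j) e
  refine ⟨hLD.O, ?_, fun u hu => hLD.D_mem hu, ?_, ?_, ?_⟩
  · intro u hu
    refine hLD.mem_O.2 ⟨1, ?_⟩
    refine hge {u} 0 _ fun Φ n hΦ _ => Filter.Eventually.of_forall fun N => ?_
    rw [one_mul]
    refine le_tau (Δ := Δ) (P := P) (E := EE Φ) (Φ := Φ.image Subtype.val) (a := u) ?_ hu N _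
    exact Finset.mem_image.2 ⟨u, hΦ (by simp), rfl⟩
  · refine hLD.notMem ?_
    intro n
    refine hge {z} n _ fun Φ n' hΦ hn' => ?_
    filter_upwards [hta Φ n' (hgf Φ z (hΦ (by simp)))] with N hN
    refine lt_of_le_of_lt ?_ (hpl ((Φ, n'), N) hN)
    rw [exp_le_exp]
    exact_mod_cast Nat.mul_le_mul_right _ hn'
  · intro y m H hO hH
    refine hLD.orb (H := H.image gL) ?_ ?_
    · refine hge ∅ 0 _ fun Φ n _ _ => ?_
      filter_upwards [hO, rep_L (E := EE Φ) y, (Finset.eventually_all H).2 fun a _ =>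
        rep_L (E := EE Φ) a] with N hN hy1 ha1
      intro htau hH'
      have hw : below (W.L N) (pl ((Φ, n), N)) ∉ P N := by
        intro hcon
        have h3 := one_le_tau (Δ := Δ) (P := P) (E := EE Φ) (Φ := Φ.image Subtype.val)
          (N := N) (w := pl ((Φ, n), N)) hcon
        have h4 : tau Δ P (EE Φ) (Φ.image Subtype.val) N (pl ((Φ, n), N)) = 0 := htau
        omega
      have h1e : 1 ≤ ramIdx (W.L N) (pl ((Φ, n), N)).1 :=
        one_le_ramIdx (K := W.L N) _ (pl ((Φ, n), N)).2.1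
      have hbp : ∀ a : W.L N, (pl ((Φ, n), N)).1 (algebraMap (W.L N) (EE Φ N) a) =
          (below (W.L N) (pl ((Φ, n), N))).1 a ^ ramIdx (W.L N) (pl ((Φ, n), N)).1 :=
        fun a => below_pow _ a
      have hab : ∀ a ∈ H, (below (W.L N) (pl ((Φ, n), N))).1 (a N) ≤ 1 := by
        intro a ha
        have h6 := hH' (gL a) (Finset.mem_image_of_mem _ ha)
        have h7 : (pl ((Φ, n), N)).1 (rep W (EE Φ) (germHom fun N => (a N : Ω)) N) ≤ 1 := h6
        rw [ha1 a ha, hbp] at h7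
        by_contra hcon
        exact absurd h7 (not_le.2 (one_lt_pow₀ (not_le.1 hcon) (by omega)))
      rcases hN _ hw hab with h5 | h5
      · left
        show 1 ≤ (pl ((Φ, n), N)).1 (rep W (EE Φ) (germHom fun N => (y N : Ω)) N)
        rw [hy1, hbp]
        exact one_le_pow₀ h5
      · right
        show (pl ((Φ, n), N)).1 (rep W (EE Φ) (germHom fun N => (y N : Ω)) N) ≤ _
        rw [hy1, hbp]
        have h6 : (below (W.L N) (pl ((Φ, n), N))).1 (y N) ≤ 1 := by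
          refine h5.trans ?_
          rw [← exp_zero, exp_le_exp]
          omega
        refine le_trans ?_ h5
        exact pow_le_of_le_one zero_le h6 (by omega)
    · intro a ha
      obtain ⟨b, hb, rfl⟩ := Finset.mem_image.1 ha
      exact hH b hb
  · intro y H hO hH hy0 hyi u
    refine hLD.bdry (H := H.image gL) ?_ ?_ hy0 hyi u
    · refine hge ∅ 0 _ fun Φ n _ _ => ?_
      filter_upwards [hO, rep_L (E := EE Φ) y, (Finset.eventually_all H).2 fun a _ =>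
        rep_L (E := EE Φ) a] with N hN hy1 ha1
      intro htau hH'
      have hw : below (W.L N) (pl ((Φ, n), N)) ∉ P N := by
        intro hcon
        have h3 := one_le_tau (Δ := Δ) (P := P) (E := EE Φ) (Φ := Φ.image Subtype.val)
          (N := N) (w := pl ((Φ, n), N)) hcon
        have h4 : tau Δ P (EE Φ) (Φ.image Subtype.val) N (pl ((Φ, n), N)) = 0 := htau
        omega
      have h1e : 1 ≤ ramIdx (W.L N) (pl ((Φ, n), N)).1 :=
        one_le_ramIdx (K := W.L N) _ (pl ((Φ, n), N)).2.1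
      have hbp : ∀ a : W.L N, (pl ((Φ, n), N)).1 (algebraMap (W.L N) (EE Φ N) a) =
          (below (W.L N) (pl ((Φ, n), N))).1 a ^ ramIdx (W.L N) (pl ((Φ, n), N)).1 :=
        fun a => below_pow _ a
      have hab : ∀ a ∈ H, (below (W.L N) (pl ((Φ, n), N))).1 (a N) ≤ 1 := by
        intro a ha
        have h6 := hH' (gL a) (Finset.mem_image_of_mem _ ha)
        have h7 : (pl ((Φ, n), N)).1 (rep W (EE Φ) (germHom fun N => (a N : Ω)) N) ≤ 1 := h6
        rw [ha1 a ha, hbp] at h7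
        by_contra hcon
        exact absurd h7 (not_le.2 (one_lt_pow₀ (not_le.1 hcon) (by omega)))
      show 1 ≤ (pl ((Φ, n), N)).1 (rep W (EE Φ) (germHom fun N => (y N : Ω)) N)
      rw [hy1, hbp]
      exact one_le_pow₀ (hN _ hw hab)
    · intro a ha
      obtain ⟨b, hb, rfl⟩ := Finset.mem_image.1 ha
      exact hH b hb

/-- **The valuation rings.** -/
theorem exists_val [IsAlgClosed Ω] [Algebra.IsAlgebraic K Ω] (Δ : DOm κ K Ω)
    (P : ∀ N, Finset (Place κ (W.L N))) {p : ℕ} (hP : ∀ N, (P N).card ≤ p * W.T N)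
    {z : UP Ω} (hz : z ∈ tm W) (hz0 : z ∉ W.F0) : ∃ O, IsVal W Δ P O ∧ z ∉ O := by
  obtain ⟨O, h1, h2, h3, h4, h4'⟩ := exists_val_aux Δ P hP (z := ⟨z, hz⟩) hz0
  have hmem : ∀ u : UP Ω, u ∈ O.toSubring.map (algebraMap (tm W) (UP Ω)) ↔
      ∃ h : u ∈ tm W, (⟨u, h⟩ : tm W) ∈ O := by
    intro u
    rw [Subring.mem_map]
    constructor
    · rintro ⟨x, hx, rfl⟩
      exact ⟨x.2, hx⟩
    · rintro ⟨h, h'⟩
      exact ⟨⟨u, h⟩, h', rfl⟩
  have hmem' : ∀ u : tm W, (u : UP Ω) ∈ O.toSubring.map (algebraMap (tm W) (UP Ω)) ↔ u ∈ O := by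
    intro u
    rw [hmem]
    exact ⟨fun h => h.2, fun h => ⟨u.2, h⟩⟩
  refine ⟨O.toSubring.map (algebraMap (tm W) (UP Ω)), ⟨?_, ?_, ?_, ?_, ?_, ?_⟩, ?_⟩
  · intro u hu
    exact ((hmem u).1 hu).1
  · intro u hu
    rw [hmem, hmem]
    rcases O.mem_or_inv_mem ⟨u, hu⟩ with h | h
    · exact Or.inl ⟨hu, h⟩
    · exact Or.inr ⟨inv_mem hu, h⟩
  · intro u hu
    have hut : u ∈ tm W := (tm W).algebraMap_mem ⟨u, hu⟩
    rw [hmem]
    exact ⟨hut, h1 ⟨u, hut⟩ hu⟩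
  · intro u hu
    rw [hmem] at hu ⊢
    obtain ⟨h5, h6⟩ := hu
    exact ⟨der_mem_tm Δ h5, h2 _ h6⟩
  · intro y m H hO hH hy hy0 hyi
    have h5 : gL y * (dtm Δ (gL y) / gL y) ^ m ∈ O := by
      refine h4 y m H hO (fun a ha => (hmem' (gL a)).1 (hH a ha)) ((hmem' (gL y)).1 hy) ?_ ?_
      · intro h
        exact hy0 (congrArg Subtype.val h)
      · intro h
        exact hyi ((hmem' (gL y)⁻¹).2 h)
    have h6 := (hmem' _).2 h5
    have h7 : ((gL y * (dtm Δ (gL y) / gL y) ^ m : tm W) : UP Ω) =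
        germHom (fun N => (y N : Ω)) * (derUP Δ.D (germHom (fun N => (y N : Ω))) /
          germHom (fun N => (y N : Ω))) ^ m := by
      push_cast
      rfl
    rw [h7] at h6
    exact h6
  · intro y H hO hH hy0 hyi u hu
    have h5 : dtm Δ (⟨u, hu⟩ : tm W) / ⟨u, hu⟩ ∈ O := by
      refine h4' y H hO (fun a ha => (hmem' (gL a)).1 (hH a ha)) ?_ ?_ _
      · intro h
        exact hy0 (congrArg Subtype.val h)
      · intro h
        exact hyi ((hmem' (gL y)⁻¹).2 h)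
    have h6 := (hmem' _).2 h5
    have h7 : ((dtm Δ (⟨u, hu⟩ : tm W) / ⟨u, hu⟩ : tm W) : UP Ω) = derUP Δ.D u / u := by
      push_cast
      rfl
    rw [h7] at h6
    exact h6
  · intro hcon
    rw [hmem] at hcon
    exact h3 hcon.2

end Pool.Agent.Lib.MP_44a246_ntSF
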