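import Mathlib
import Pool.Agent.Lib.MP_44a246_ntSF.SFA04
import Pool.Agent.Lib.MP_44a246_ntSF.SFB02

/-!
# Paper 678: the family of the valuation rings of tame germs; orbifold and boundary weights
-/

namespace Pool.Agent.Lib.MP_44a246_ntSF

open Pool.Agent.Lib.MP_e52354_nt
open Pool.Agent.Lib.MP_44a246_nt
open Pool.Agent.Lib.MP_44a246_ntL
open Pool.Agent.Lib.MP_44a246_ntY
open Pool.Agent.Lib.MP_44a246_ntSH
open WithZero Module Polynomial

/-- the family of the valuation rings of the field of tame germs -/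
theorem fam_val {κ K Ω : Type*} [Field κ] [IsAlgClosed κ] [CharZero κ] [Field K] [Algebra κ K]
    [Field Ω] [Algebra K Ω] [Algebra κ Ω] [IsScalarTower κ K Ω] [IsAlgClosed Ω]
    [Algebra.IsAlgebraic K Ω] {W : Tow κ K Ω} (Δ : DOm κ K Ω)
    (P : ∀ N, Finset (Place κ (W.L N))) {p : ℕ} (hP : ∀ N, (P N).card ≤ p * W.T N) :
    Fam (derUP Δ.D) (tm W) {O | IsVal W Δ P O} where
  mem_or O hO u hu := hO.mem_or u hu
  const O hO c := hO.small _ c.2
  der O hO u hu := hO.der u hu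
  sep z hz hz0 := by
    obtain ⟨O, hO, hzO⟩ := exists_val Δ P hP hz fun h => hz0 ⟨z, h⟩ rfl
    exact ⟨O, hO, hzO⟩
  derF c := ⟨⟨_, der_mem_F0 Δ c.2⟩, rfl⟩
  derG u hu := der_mem_tm Δ hu
  ker u _ hu := ⟨⟨u, mem_F0_of_der_eq_zero Δ hu⟩, rfl⟩

section

variable {F U : Type*} [Field F] [CharZero F] [Field U] [Algebra F U]
  {D : Derivation ℤ U U} {G : IntermediateField F U} {𝒪 : Set (Subring U)} (h : Fam D G 𝒪)
  {O : Subring U} (hO : O ∈ 𝒪) {M : Type*} [Field M] [Algebra F M] [Algebra M U]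
  [IsScalarTower F M U] (hMG : ∀ u : M, algebraMap M U u ∈ G) {v : Place F M} (hv : Over O v)
include h hO hMG hv

omit [CharZero F] hMG in
/-- the logarithmic derivative of a unit -/
theorem unit_mem {ε : M} (hε : v.1 ε = 1) : D (algebraMap M U ε) / algebraMap M U ε ∈ O := by
  rw [div_eq_mul_inv, ← map_inv₀]
  refine O.mul_mem (h.der O hO _ ((hv ε).2 hε.le)) ((hv ε⁻¹).2 ?_)
  rw [map_inv₀, hε, inv_one]

/-- **The weight of an orbifold divisor**: `y` has order `k ≥ 1` at `v` and multiplicity `m`; the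
weight `p / q ≤ 1 - k / m` is admissible. -/
theorem orb_wt {y : M} {k m : ℕ} (hk : 0 < k) (hm : 0 < m) (hy : v.1 y = exp (-(k : ℤ)))
    (horb : algebraMap M U y * (D (algebraMap M U y) / algebraMap M U y) ^ m ∈ O) {π : M}
    (hπ : v.1 π = exp (-1 : ℤ)) {p q : ℕ} (hpq : p * m + q * k ≤ q * m) :
    D (algebraMap M U π) ^ q / algebraMap M U π ^ p ∈ O := by
  have hcU : CharZero U := charZero_of_injective_algebraMap (algebraMap F U).injective
  have hπ0 : π ≠ 0 := by
    rintro rfl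
    rw [map_zero] at hπ
    exact exp_ne_zero hπ.symm
  have hy0 : y ≠ 0 := by
    rintro rfl
    rw [map_zero] at hy
    exact exp_ne_zero hy.symm
  obtain ⟨ε, hε⟩ : ∃ ε : M, ε = y / π ^ k := ⟨_, rfl⟩
  have hyε : y = ε * π ^ k := by rw [hε, div_mul_cancel₀ _ (pow_ne_zero _ hπ0)]
  have hvε : v.1 ε = 1 := by
    rw [hε, map_div₀, map_pow, hy, hπ, ← exp_nsmul, nsmul_eq_mul, mul_neg, mul_one]
    exact div_self exp_ne_zero
  have hε0 : ε ≠ 0 := by
    rintro rfl
    rw [map_zero] at hvε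
    exact zero_ne_one hvε
  -- the elements of `U`
  obtain ⟨P, hP⟩ : ∃ P : U, P = algebraMap M U π := ⟨_, rfl⟩
  obtain ⟨Y, hY⟩ : ∃ Y : U, Y = algebraMap M U y := ⟨_, rfl⟩
  obtain ⟨e, he⟩ : ∃ e : U, e = algebraMap M U ε := ⟨_, rfl⟩
  have hP0 : P ≠ 0 := by
    rw [hP]
    exact (_root_.map_ne_zero _).2 hπ0
  have hY0 : Y ≠ 0 := by
    rw [hY]
    exact (_root_.map_ne_zero _).2 hy0
  have he0 : e ≠ 0 := by
    rw [he]
    exact (_root_.map_ne_zero _).2 hε0
  have hYe : Y = e * P ^ k := by rw [hY, he, hP, hyε, map_mul, map_pow]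
  have hPG : P ∈ G := by rw [hP]; exact hMG π
  have hYG : Y ∈ G := by rw [hY]; exact hMG y
  have hPO : P ∈ O := by
    rw [hP]
    refine (hv π).2 ?_
    rw [hπ, ← exp_zero, exp_le_exp]
    norm_num
  have hYO : Y ∈ O := by
    rw [hY]
    refine (hv y).2 ?_
    rw [hy, ← exp_zero, exp_le_exp]
    omega
  have hei : e⁻¹ ∈ O := by
    rw [he, ← map_inv₀]
    refine (hv ε⁻¹).2 ?_
    rw [map_inv₀, hvε, inv_one]
  have hDe : D e / e ∈ O := by
    rw [he]
    exact unit_mem h hO hv hvε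
  rw [← hY] at horb
  rw [← hP]
  have hDP : D P ∈ G := h.derG _ hPG
  have hDY : D Y / Y ∈ G := div_mem (h.derG _ hYG) hYG
  -- the logarithmic derivative of `y`
  have h1 : D Y / Y = D e / e + k * (D P / P) := by
    rw [hYe, Derivation.leibniz, Derivation.leibniz_pow, smul_eq_mul, smul_eq_mul, nsmul_eq_mul,
      smul_eq_mul]
    obtain ⟨j, rfl⟩ : ∃ j, k = j + 1 := ⟨k - 1, by omega⟩
    rw [Nat.add_sub_cancel, pow_succ]
    field_simp
    ring
  -- `y (D y / y) ^ j` for `j ≤ m`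
  have h2 : ∀ j ≤ m, Y * (D Y / Y) ^ j ∈ O := by
    intro j hj
    refine h.of_pow hO (mul_mem hYG (pow_mem hDY j)) hm ?_
    have h3 : (Y * (D Y / Y) ^ j) ^ m = Y ^ (m - j) * (Y * (D Y / Y) ^ m) ^ j := by
      obtain ⟨i, rfl⟩ : ∃ i, m = j + i := ⟨m - j, by omega⟩
      rw [Nat.add_sub_cancel_left]
      ring
    rw [h3]
    exact O.mul_mem (O.pow_mem hYO _) (O.pow_mem horb _)
  -- `y (k D π / π) ^ m`
  have h3 : Y * (k * (D P / P)) ^ m ∈ O := by
    have h4 : (k : U) * (D P / P) = D Y / Y + -(D e / e) := by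
      rw [h1]
      ring
    rw [h4, add_pow, Finset.mul_sum]
    refine O.sum_mem fun j hj => ?_
    have hj' : j ≤ m := by
      rw [Finset.mem_range] at hj
      omega
    have h5 : Y * ((D Y / Y) ^ j * (-(D e / e)) ^ (m - j) * (m.choose j : U)) =
        (Y * (D Y / Y) ^ j) * ((-(D e / e)) ^ (m - j) * (m.choose j : U)) := by ring
    rw [h5]
    exact O.mul_mem (h2 j hj') (O.mul_mem (O.pow_mem (O.neg_mem hDe) _) (natCast_mem O _))
  have h4 : Y * (D P / P) ^ m ∈ O := by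
    have h5 : Y * (D P / P) ^ m = (algebraMap F U ((k : F)⁻¹)) ^ m * (Y * (k * (D P / P)) ^ m) := by
      have h6 : algebraMap F U ((k : F)⁻¹) * (k : U) = 1 := by
        rw [map_inv₀, map_natCast]
        exact inv_mul_cancel₀ (by exact_mod_cast hk.ne')
      calc Y * (D P / P) ^ m = (1 : U) ^ m * (Y * (D P / P) ^ m) := by rw [one_pow, one_mul]
        _ = _ := by
          rw [← h6]
          ring
    rw [h5]
    exact O.mul_mem (O.pow_mem (h.const O hO _) _) h3
  -- the weight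
  have hpq' : p ≤ q := by
    by_contra hcon
    push Not at hcon
    have h6 : q * m < p * m := Nat.mul_lt_mul_of_pos_right hcon hm
    omega
  have h5 : D P ^ q / P ^ p = (D P / P) ^ q * P ^ (q - p) := by
    rw [div_pow, div_mul_eq_mul_div, div_eq_div_iff (pow_ne_zero _ hP0) (pow_ne_zero _ hP0),
      mul_assoc, ← pow_add, Nat.sub_add_cancel hpq']
  rw [h5]
  refine h.of_pow hO (mul_mem (pow_mem (div_mem hDP hPG) _) (pow_mem hPG _)) hm ?_
  have h6 : q * k ≤ (q - p) * m := by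
    rw [Nat.sub_mul]
    omega
  have h7 : ((D P / P) ^ q * P ^ (q - p)) ^ m =
      (e⁻¹) ^ q * ((Y * (D P / P) ^ m) ^ q * P ^ ((q - p) * m - q * k)) := by
    have h8 : P ^ ((q - p) * m) = P ^ (q * k) * P ^ ((q - p) * m - q * k) := by
      rw [← pow_add, Nat.add_sub_cancel' h6]
    have h9 : (e⁻¹) ^ q * Y ^ q = P ^ (q * k) := by
      rw [hYe, mul_pow, ← mul_assoc, ← mul_pow, inv_mul_cancel₀ he0, one_pow, one_mul, ← pow_mul,
        mul_comm k q]
    calc ((D P / P) ^ q * P ^ (q - p)) ^ m = (D P / P) ^ (q * m) * P ^ ((q - p) * m) := by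
          rw [mul_pow, ← pow_mul, ← pow_mul]
      _ = (D P / P) ^ (q * m) * (((e⁻¹) ^ q * Y ^ q) * P ^ ((q - p) * m - q * k)) := by
          rw [h8, h9]
      _ = _ := by
          rw [mul_pow, ← pow_mul, mul_comm m q]
          ring
  rw [h7]
  exact O.mul_mem (O.pow_mem hei _) (O.mul_mem (O.pow_mem h4 _) (O.pow_mem hPO _))

omit [CharZero F] hMG in
/-- **The weight of a boundary divisor** is `1`. -/
theorem bd_wt (hbd : ∀ u ∈ G, D u / u ∈ O) {π : M} (hπG : algebraMap M U π ∈ G)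
    (hπ : v.1 π = exp (-1 : ℤ)) {p q : ℕ} (hpq : p ≤ q) :
    D (algebraMap M U π) ^ q / algebraMap M U π ^ p ∈ O := by
  have hπ0 : π ≠ 0 := by
    rintro rfl
    rw [map_zero] at hπ
    exact exp_ne_zero hπ.symm
  have hP0 : algebraMap M U π ≠ 0 := (_root_.map_ne_zero _).2 hπ0
  have hPO : algebraMap M U π ∈ O := by
    refine (hv π).2 ?_
    rw [hπ, ← exp_zero, exp_le_exp]
    norm_num
  have h5 : D (algebraMap M U π) ^ q / algebraMap M U π ^ p =
      (D (algebraMap M U π) / algebraMap M U π) ^ q * algebraMap M U π ^ (q - p) := by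
    rw [div_pow, div_mul_eq_mul_div, div_eq_div_iff (pow_ne_zero _ hP0) (pow_ne_zero _ hP0),
      mul_assoc, ← pow_add, Nat.sub_add_cancel hpq]
  rw [h5]
  exact O.mul_mem (O.pow_mem (hbd _ hπG) _) (O.pow_mem hPO _)

end

section

variable {κ K Ω : Type*} [Field κ] [IsAlgClosed κ] [CharZero κ] [Field K] [Algebra κ K]
    [Field Ω] [Algebra K Ω] [Algebra κ Ω] [IsScalarTower κ K Ω] [IsAlgClosed Ω]
    [Algebra.IsAlgebraic K Ω] {W : Tow κ K Ω} (Δ : DOm κ K Ω)
    (P : ∀ N, Finset (Place κ (W.L N))) {r : ℕ} (hP : ∀ N, (P N).card ≤ r * W.T N)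
    {M : Type*} [Field M] [Algebra W.F0 M] [Algebra M (UP Ω)] [IsScalarTower W.F0 M (UP Ω)]
    (hMG : ∀ u : M, algebraMap M (UP Ω) u ∈ tm W) {w : Place W.F0 M}
include hP hMG

/-- **Orbifold weights.** If the sequence `y` satisfies the orbifold condition with multiplicity `m`
and its germ has order `k ≥ 1` at the place `w` of `M` then the weight `1 - k / m` is admissible at
`w`. -/
theorem val_orb_wt {y : ∀ N, W.L N} {m : ℕ} (hm : 0 < m) {H : Finset (∀ N, W.L N)}
    (horb : IsOrb W P y m H) {y' : M}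
    (hy' : algebraMap M (UP Ω) y' = germHom (fun N => (y N : Ω)))
    (hH : ∀ a ∈ H, ∃ a' : M, algebraMap M (UP Ω) a' = germHom (fun N => (a N : Ω)) ∧ w.1 a' ≤ 1)
    {k : ℕ} (hk : 0 < k) (hw : w.1 y' = exp (-(k : ℤ))) :
    ∀ O ∈ {O | IsVal W Δ P O}, Over O w → ∀ π : M, w.1 π = exp (-1 : ℤ) → ∀ p q : ℕ, 0 < q →
      (p : ℚ) ≤ q * (1 - k / m) →
      derUP Δ.D (algebraMap M (UP Ω) π) ^ q / algebraMap M (UP Ω) π ^ p ∈ O := by
  have hcΩ : CharZero Ω := charZero_of_injective_algebraMap (algebraMap κ Ω).injective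
  intro O hO hOw π hπ p q _ hpq
  have hy0 : y' ≠ 0 := by
    rintro rfl
    rw [map_zero] at hw
    exact exp_ne_zero hw.symm
  refine orb_wt (fam_val Δ P hP) hO hMG hOw (y := y') hk hm hw ?_ hπ ?_
  · rw [hy']
    refine hO.orb y m H horb (fun a ha => ?_) ?_ ?_ ?_
    · obtain ⟨a', ha', ha1⟩ := hH a ha
      rw [← ha']
      exact (hOw a').2 ha1
    · rw [← hy']
      refine (hOw y').2 ?_
      rw [hw, ← exp_zero, exp_le_exp]
      omega
    · rw [← hy']
      exact (_root_.map_ne_zero _).2 hy0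
    · rw [← hy', ← map_inv₀]
      intro hcon
      have h1 := (hOw y'⁻¹).1 hcon
      rw [map_inv₀, hw, ← exp_neg, neg_neg, ← exp_zero, exp_le_exp] at h1
      omega
  · have hm' : (0 : ℚ) < m := by exact_mod_cast hm
    have h1 : (p : ℚ) * m + q * k ≤ q * m := by
      have h2 := mul_le_mul_of_nonneg_right hpq hm'.le
      have h3 : (q : ℚ) * (1 - k / m) * m = q * m - q * k := by
        field_simp
      rw [h3] at h2
      linarith
    exact_mod_cast h1

/-- **Boundary weights.** If the sequence `y` is a unit at the places outside `P` at which the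
elements of `H` are integral and its germ has order `k ≥ 1` at the place `w` of `M` then the weight
`1` is admissible at `w`. -/
theorem val_bd_wt {y : ∀ N, W.L N} {H : Finset (∀ N, W.L N)}
    (hbd : IsBd W P y H) {y' : M}
    (hy' : algebraMap M (UP Ω) y' = germHom (fun N => (y N : Ω)))
    (hH : ∀ a ∈ H, ∃ a' : M, algebraMap M (UP Ω) a' = germHom (fun N => (a N : Ω)) ∧ w.1 a' ≤ 1)
    (hy0 : y' ≠ 0) (hw : w.1 y' < 1) :
    ∀ O ∈ {O | IsVal W Δ P O}, Over O w → ∀ π : M, w.1 π = exp (-1 : ℤ) → ∀ p q : ℕ, 0 < q →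
      (p : ℚ) ≤ q * 1 →
      derUP Δ.D (algebraMap M (UP Ω) π) ^ q / algebraMap M (UP Ω) π ^ p ∈ O := by
  intro O hO hOw π hπ p q _ hpq
  refine bd_wt (fam_val Δ P hP) hO hOw ?_ (hMG π) hπ ?_
  · refine hO.bdry y H hbd (fun a ha => ?_) ?_ ?_
    · obtain ⟨a', ha', ha1⟩ := hH a ha
      rw [← ha']
      exact (hOw a').2 ha1
    · rw [← hy']
      exact (_root_.map_ne_zero _).2 hy0
    · rw [← hy', ← map_inv₀]
      intro hcon
      have h1 := (hOw y'⁻¹).1 hcon
      rw [map_inv₀] at h1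
      have h2 : w.1 y' ≠ 0 := (Valuation.ne_zero_iff _).2 hy0
      exact absurd h1 (not_le.2 ((one_lt_inv₀ (zero_lt_iff.2 h2)).2 hw))
  · rw [mul_one] at hpq
    exact_mod_cast hpq

end

end Pool.Agent.Lib.MP_44a246_ntSF
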