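import Mathlib
import Pool.Agent.Lib.MP_44a246_ntB.Base7
import Pool.Agent.Lib.MP_44a246_ntSM.SM00

/-!
# Paper 678, Part B, B9: a function field with a regular derivation which is logarithmic at some
place
-/

namespace Pool.Agent.Lib.MP_44a246_ntSF

open Pool.Agent.Lib.MP_e52354_nt
open Pool.Agent.Lib.MP_44a246_nt
open Pool.Agent.Lib.MP_44a246_ntL
open Pool.Agent.Lib.MP_44a246_ntR
open WithZero Module Polynomial

private theorem log_le_of_lt_one {a : ℤᵐ⁰} (ha : a ≠ 0) (h : a < 1) : log a ≤ -1 := by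
  rw [← exp_log ha, ← exp_zero] at h
  have := exp_lt_exp.mp h
  omega

private theorem le_one_of_log {a : ℤᵐ⁰} (ha : a ≠ 0) (h : ¬ 0 < log a) : a ≤ 1 := by
  rw [← exp_log ha, ← exp_zero]
  exact exp_le_exp.mpr (not_lt.mp h)

private theorem log_eq_neg_one {a : ℤᵐ⁰} (h : a < 1) (h2 : ¬ a ≤ exp (-2 : ℤ)) :
    log a = -1 := by
  have ha : a ≠ 0 := by
    rintro rfl
    exact h2 zero_le
  have h1 := log_le_of_lt_one ha h
  have h3 : ¬ log a ≤ -2 := fun h4 => h2 ((log_le_iff_le_exp ha).mp h4)
  omega

section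

variable {F M : Type*} [Field F] [Field M] [Algebra F M]

private theorem der_step (D : Derivation ℤ M M) (v : Place F M) {y : M} {n : ℕ}
    (hy : v.1 y ≤ exp (-((n + 1 : ℕ) : ℤ))) :
    ∃ π z : M, v.1 π = exp (-1 : ℤ) ∧ v.1 z ≤ exp (-(n : ℤ)) ∧ D y = π * D z + z * D π := by
  obtain ⟨π, hπ⟩ := v.2.1 (exp (-1 : ℤ))
  have hπ0 : π ≠ 0 := by
    rintro rfl
    rw [map_zero] at hπ
    exact exp_ne_zero hπ.symm
  refine ⟨π, y / π, hπ, ?_, ?_⟩
  · rw [map_div₀, hπ, div_le_iff₀ exp_pos, ← exp_add]
    refine hy.trans (exp_le_exp.mpr ?_)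
    push_cast
    omega
  · have e : y = π * (y / π) := by field_simp
    conv_lhs => rw [e]
    rw [Derivation.leibniz, smul_eq_mul, smul_eq_mul]

private theorem der_two (D : Derivation ℤ M M) (v : Place F M)
    (hreg : ∀ u, v.1 u ≤ 1 → v.1 (D u) ≤ 1) {y : M} (hy : v.1 y ≤ exp (-2 : ℤ)) :
    v.1 (D y) < 1 := by
  obtain ⟨π, z, hπ, hz, e⟩ := der_step D v (y := y) (n := 1) (by simpa using hy)
  have h1 : exp (-1 : ℤ) < (1 : ℤᵐ⁰) := by
    rw [← exp_zero]
    exact exp_lt_exp.mpr (by omega)
  have hz' : v.1 z ≤ exp (-1 : ℤ) := by simpa using hz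
  rw [e]
  refine (v.1.map_add _ _).trans_lt (max_lt ?_ ?_)
  · rw [map_mul, hπ]
    calc exp (-1 : ℤ) * v.1 (D z) ≤ exp (-1 : ℤ) * 1 :=
          mul_le_mul' le_rfl (hreg z (hz'.trans h1.le))
      _ < 1 := by rwa [mul_one]
  · rw [map_mul]
    calc v.1 z * v.1 (D π) ≤ exp (-1 : ℤ) * 1 :=
          mul_le_mul' hz' (hreg π (hπ.le.trans h1.le))
      _ < 1 := by rwa [mul_one]

private theorem der_log (D : Derivation ℤ M M) (v : Place F M)
    (hreg : ∀ u, v.1 u ≤ 1 → v.1 (D u) ≤ 1) (hlog : ∀ u, v.1 u < 1 → v.1 (D u) < 1) :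
    ∀ (n : ℕ) (y : M), v.1 y ≤ exp (-(n : ℤ)) → v.1 (D y) ≤ exp (-(n : ℤ)) := by
  intro n
  induction n with
  | zero =>
    intro y hy
    rw [Nat.cast_zero, neg_zero, exp_zero] at hy ⊢
    exact hreg y hy
  | succ n ih =>
    intro y hy
    obtain ⟨π, z, hπ, hz, e⟩ := der_step D v hy
    have h1 : exp (-1 : ℤ) < (1 : ℤᵐ⁰) := by
      rw [← exp_zero]
      exact exp_lt_exp.mpr (by omega)
    have h2 : v.1 (D π) ≤ exp (-1 : ℤ) := by
      have h3 := hlog π (hπ.trans_lt h1)
      rcases eq_or_ne (v.1 (D π)) 0 with h4 | h4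
      · rw [h4]
        exact zero_le
      · exact (log_le_iff_le_exp h4).mp (log_le_of_lt_one h4 h3)
    have h5 : exp (-((n + 1 : ℕ) : ℤ)) = exp (-1 : ℤ) * exp (-(n : ℤ)) := by
      rw [← exp_add]
      congr 1
      push_cast
      ring
    rw [e, h5]
    refine (v.1.map_add _ _).trans (max_le ?_ ?_)
    · rw [map_mul, hπ]
      exact mul_le_mul' le_rfl (ih z hz)
    · rw [map_mul, mul_comm]
      exact mul_le_mul' h2 hz

private theorem exists_least [IsAlgClosed F] [CharZero F] (h : IsFF F M) (b : Place F M) :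
    ∃ (m : ℕ) (u : M), 0 < m ∧ b.1 u = exp (m : ℤ) ∧ (∀ v : Place F M, v ≠ b → v.1 u ≤ 1) ∧
      ∀ w : M, (∀ v : Place F M, v ≠ b → v.1 w ≤ 1) → b.1 w ≤ exp (m : ℤ) →
        ∃ α β : F, w = algebraMap F M α * u + algebraMap F M β := by
  classical
  -- a nonconstant function with poles only at `b`
  have hex : ∃ n : ℕ, 0 < n ∧ ∃ u : M, b.1 u = exp (n : ℤ) ∧
      ∀ v : Place F M, v ≠ b → v.1 u ≤ 1 := by
    have hg := genus_spec h (Finsupp.single b ((genus F M : ℤ) + 1))
    rw [divDeg_single] at hg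
    have hg2 : 2 ≤ finrank F (rr (Finsupp.single b ((genus F M : ℤ) + 1))) := by
      have : (2 : ℤ) ≤ finrank F (rr (Finsupp.single b ((genus F M : ℤ) + 1))) := by linarith
      exact_mod_cast this
    have hne : ∃ f ∈ rr (Finsupp.single b ((genus F M : ℤ) + 1)), ∀ c : F,
        algebraMap F M c ≠ f := by
      by_contra hcon
      push Not at hcon
      have hle : rr (Finsupp.single b ((genus F M : ℤ) + 1)) ≤ Submodule.span F {(1 : M)} := by
        intro f hf
        obtain ⟨c, hc⟩ := hcon f hf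
        rw [Submodule.mem_span_singleton]
        exact ⟨c, by rw [← hc, Algebra.smul_def, mul_one]⟩
      have h1 := Submodule.finrank_mono hle
      have h2 : finrank F (Submodule.span F {(1 : M)}) = 1 := finrank_span_singleton one_ne_zero
      omega
    obtain ⟨f, hf, hfc⟩ := hne
    have hfv : ∀ v : Place F M, v ≠ b → v.1 f ≤ 1 := by
      intro v hv
      have h1 := hf v
      rwa [Finsupp.single_eq_of_ne hv, exp_zero] at h1
    have hb1 : ¬ b.1 f ≤ 1 := by
      intro hb1
      obtain ⟨c, hc⟩ := const_of_rr_zero h (f := f) (fun v => by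
        by_cases hv : v = b
        · rw [hv]; exact hb1
        · exact hfv v hv)
      exact hfc c hc
    have hf0 : b.1 f ≠ 0 := by
      intro h0
      rw [h0] at hb1
      exact hb1 zero_le
    have hlog0 : 0 < log (b.1 f) := by
      by_contra hcon
      exact hb1 (le_one_of_log hf0 hcon)
    refine ⟨(log (b.1 f)).toNat, by omega, f, ?_, hfv⟩
    rw [Int.toNat_of_nonneg hlog0.le, exp_log hf0]
  obtain ⟨hm0, u, hbu, hvu⟩ := Nat.find_spec hex
  have hmin := fun n hn => Nat.find_min' hex (m := n) hn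
  set m := Nat.find hex with hm
  -- functions with poles only at `b` and of order smaller than `m` are constants
  have hsmall : ∀ w : M, (∀ v : Place F M, v ≠ b → v.1 w ≤ 1) → b.1 w < exp (m : ℤ) →
      ∃ β : F, algebraMap F M β = w := by
    intro w hw hbw
    refine const_of_rr_zero h fun v => ?_
    by_cases hv : v = b
    · subst hv
      by_contra hcon
      have hw0 : v.1 w ≠ 0 := by
        intro h0
        rw [h0] at hcon
        exact hcon zero_le
      have hlog0 : 0 < log (v.1 w) := by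
        by_contra hc
        exact hcon (le_one_of_log hw0 hc)
      have h1 := hmin (log (v.1 w)).toNat ⟨by omega, w, by
        rw [Int.toNat_of_nonneg hlog0.le, exp_log hw0], hw⟩
      rw [← exp_log hw0] at hbw
      have h2 := exp_lt_exp.mp hbw
      omega
    · exact hw v hv
  have hu0 : u ≠ 0 := by
    rintro rfl
    rw [map_zero] at hbu
    exact exp_ne_zero hbu.symm
  refine ⟨m, u, hm0, hbu, hvu, fun w hw hbw => ?_⟩
  have h1 : b.1 (w / u) ≤ 1 := by
    rw [map_div₀, hbu, div_le_iff₀ exp_pos, one_mul]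
    exact hbw
  obtain ⟨α, hα⟩ := h.place_residue b h1
  obtain ⟨β, hβ⟩ := hsmall (w - algebraMap F M α * u) (fun v hv => by
      refine (v.1.map_sub _ _).trans (max_le (hw v hv) ?_)
      rw [map_mul]
      rcases eq_or_ne α 0 with h2 | h2
      · rw [h2, map_zero, map_zero, zero_mul]
        exact zero_le
      · rw [v.2.2 α h2, one_mul]
        exact hvu v hv) (by
      have h2 : w - algebraMap F M α * u = (w / u - algebraMap F M α) * u := by
        field_simp
      rw [h2, map_mul, hbu]
      calc b.1 (w / u - algebraMap F M α) * exp (m : ℤ) < 1 * exp (m : ℤ) :=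
            mul_lt_mul_of_pos_right hα exp_pos
        _ = exp (m : ℤ) := one_mul _)
  exact ⟨α, β, by rw [hβ]; ring⟩

end

/-- **The last step.** `M` is a function field over `F`, `D` a derivation of `M` which preserves
`F`, without constants outside `F`, regular at all places, and logarithmic at the places in `B`,
`B` not empty. Then the logarithmic canonical degree is not positive. -/
theorem final_log {F M : Type*} [Field F] [IsAlgClosed F] [CharZero F] [Field M] [Algebra F M]
    [Algebra (RatFunc F) M] [IsScalarTower F (RatFunc F) M]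
    [FiniteDimensional (RatFunc F) M] (D : Derivation ℤ M M)
    (hDF : ∀ c : F, ∃ c' : F, D (algebraMap F M c) = algebraMap F M c')
    (hker : ∀ u : M, D u = 0 → ∃ c : F, algebraMap F M c = u)
    (hreg : ∀ (v : Place F M) u, v.1 u ≤ 1 → v.1 (D u) ≤ 1)
    {B : Finset (Place F M)} (hB : B.Nonempty)
    (hlog : ∀ v ∈ B, ∀ u, v.1 u < 1 → v.1 (D u) < 1) :
    (ramDeg F M (RatFunc F) : ℤ) - 2 * finrank (RatFunc F) M + B.card ≤ 0 := by
  -- `b ∈ B`, `m` the least positive pole order of a function `u` with a pole only at `b`: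
  -- `D u = α u + β`. Special values `c`: `v (u - c) < 1` for some `v ∈ B`, `v ≠ b`, or
  -- `v (u - c) ≤ exp (-2)` for some `v ≠ b`; then `D c = α c + β`, so there is at most one.
  -- `Z` = zeros of `u - c`; the other places `v ≠ b` are unramified for `u` and not in `B`.
  -- The divisor of `d u`: `- (m + 1)` at `b`, `e_v - 1` on `Z`, sum `- 1 - #Z`.
  classical
  have hFF := isFF_of_ratFunc F M
  obtain ⟨b, hb⟩ := hB
  obtain ⟨m, u, hm0, hbu, hvu, hlin⟩ := exists_least hFF b
  have hone : ∀ {a : ℤ}, 0 < a → (1 : ℤᵐ⁰) < exp a := by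
    intro a ha
    rw [← exp_zero]
    exact exp_lt_exp.mpr ha
  have hu0 : u ≠ 0 := by
    rintro rfl
    rw [map_zero] at hbu
    exact exp_ne_zero hbu.symm
  have hbu1 : 1 < b.1 u := by
    rw [hbu]
    exact hone (by omega)
  have hconst : ∀ c : F, b.1 (algebraMap F M c) ≤ 1 := by
    intro c
    rcases eq_or_ne c 0 with h | h
    · rw [h, map_zero, map_zero]
      exact zero_le
    · exact (b.2.2 c h).le
  have hnc : ∀ c : F, algebraMap F M c ≠ u := by
    intro c h
    have h1 := hconst c
    rw [h] at h1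
    exact absurd h1 (not_le.mpr hbu1)
  -- `D u = α u + β`
  obtain ⟨α, β, hDu⟩ := hlin (D u) (fun v hv => hreg v u (hvu v hv)) (by
    have h1 : b.1 u⁻¹ ≤ exp (-(m : ℤ)) := by rw [map_inv₀, hbu, exp_neg]
    have h2 := der_log D b (hreg b) (hlog b hb) m _ h1
    rw [Derivation.leibniz_inv, smul_eq_mul, map_mul, Valuation.map_neg, map_pow, map_inv₀,
      hbu, ← exp_neg] at h2
    have h3 : exp (-(m : ℤ)) ^ 2 * exp (m : ℤ) = exp (-(m : ℤ)) := by
      rw [pow_two, mul_assoc, ← exp_add, neg_add_cancel, exp_zero, mul_one]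
    exact (mul_le_mul_iff_right₀ (pow_pos exp_pos 2)).mp (h2.trans h3.ge))
  -- special values
  have hspec : ∀ (v : Place F M) (c : F), v ≠ b → v.1 (u - algebraMap F M c) < 1 →
      (v ∈ B ∨ v.1 (u - algebraMap F M c) ≤ exp (-2 : ℤ)) →
      D (algebraMap F M c) = algebraMap F M (α * c + β) := by
    intro v c hv h1 h2
    obtain ⟨c', hc'⟩ := hDF c
    have h3 : v.1 (D (u - algebraMap F M c)) < 1 := by
      rcases h2 with h2 | h2
      · exact hlog v h2 _ h1
      · exact der_two D v (hreg v) h2
    have h4 : algebraMap F M (α * c + β - c') =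
        D (u - algebraMap F M c) - algebraMap F M α * (u - algebraMap F M c) := by
      rw [map_sub D, hDu, hc', map_sub, map_add, map_mul]
      ring
    have h5 : v.1 (algebraMap F M (α * c + β - c')) < 1 := by
      rw [h4]
      refine (v.1.map_sub _ _).trans_lt (max_lt h3 ?_)
      rw [map_mul]
      rcases eq_or_ne α 0 with h6 | h6
      · rw [h6, map_zero, map_zero, zero_mul]
        exact zero_lt_one
      · rw [v.2.2 α h6, one_mul]
        exact h1
    have h6 : α * c + β - c' = 0 := by
      by_contra hne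
      rw [v.2.2 _ hne] at h5
      exact lt_irrefl _ h5
    rw [hc', sub_eq_zero.mp h6]
  have huniq : ∀ c₁ c₂ : F, D (algebraMap F M c₁) = algebraMap F M (α * c₁ + β) →
      D (algebraMap F M c₂) = algebraMap F M (α * c₂ + β) → c₁ = c₂ := by
    intro c₁ c₂ h1 h2
    by_contra hne
    have he : algebraMap F M c₂ - algebraMap F M c₁ ≠ 0 := by
      rw [← map_sub, Ne, map_eq_zero]
      exact sub_ne_zero.mpr (Ne.symm hne)
    have h3 : D ((u - algebraMap F M c₁) / (algebraMap F M c₂ - algebraMap F M c₁)) = 0 := by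
      rw [Derivation.leibniz_div, map_sub D, map_sub D, hDu, h1, h2, smul_eq_mul, smul_eq_mul,
        smul_eq_mul, map_add, map_mul, map_add, map_mul]
      ring
    obtain ⟨c, hc⟩ := hker _ h3
    refine hnc (c * (c₂ - c₁) + c₁) ?_
    rw [map_add, map_mul, map_sub, hc, div_mul_cancel₀ _ he]
    ring
  obtain ⟨c, hc⟩ : ∃ c : F, ∀ (v : Place F M) (c' : F), v ≠ b →
      v.1 (u - algebraMap F M c') < 1 → (v ∈ B ∨ v.1 (u - algebraMap F M c') ≤ exp (-2 : ℤ)) →
      c' = c := by
    by_cases hex : ∃ (v : Place F M) (c' : F), v ≠ b ∧ v.1 (u - algebraMap F M c') < 1 ∧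
      (v ∈ B ∨ v.1 (u - algebraMap F M c') ≤ exp (-2 : ℤ))
    · obtain ⟨v₀, c₀, h1, h2, h3⟩ := hex
      exact ⟨c₀, fun v c' h4 h5 h6 =>
        huniq c' c₀ (hspec v c' h4 h5 h6) (hspec v₀ c₀ h1 h2 h3)⟩
    · push Not at hex
      refine ⟨0, fun v c' h1 h2 h3 => ?_⟩
      obtain ⟨h4, h5⟩ := hex v c' h1 h2
      rcases h3 with h3 | h3
      · exact absurd h3 h4
      · exact absurd h3 (not_le.mpr h5)
  have huc : u - algebraMap F M c ≠ 0 := sub_ne_zero.mpr (Ne.symm (hnc c))
  have hbuc : b.1 (u - algebraMap F M c) = exp (m : ℤ) := by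
    rw [← hbu]
    refine Valuation.map_sub_eq_of_lt_left b.1 ?_
    exact (hconst c).trans_lt hbu1
  -- the derivation with respect to `X`
  let iX : Algebra F[X] M :=
    ((algebraMap (RatFunc F) M).comp (algebraMap F[X] (RatFunc F))).toAlgebra
  have t1 : IsScalarTower F[X] (RatFunc F) M := IsScalarTower.of_algebraMap_eq' rfl
  have t3 : IsScalarTower F F[X] M := IsScalarTower.of_algebraMap_eq fun x => by
    rw [IsScalarTower.algebraMap_apply F (RatFunc F) M,
      IsScalarTower.algebraMap_apply F F[X] (RatFunc F)]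
    rfl
  let iR : Algebra (Rinf F) M :=
    ((algebraMap (RatFunc F) M).comp (algebraMap (Rinf F) (RatFunc F))).toAlgebra
  have t2 : IsScalarTower (Rinf F) (RatFunc F) M := IsScalarTower.of_algebraMap_eq' rfl
  obtain ⟨D', hD'F, hD'X⟩ : ∃ E : Derivation ℤ M M, (∀ c : F, E (algebraMap F M c) = 0) ∧
      E (algebraMap F[X] M X) = 1 := by
    let F' := IntermediateField.adjoin F {algebraMap F[X] M X}
    have h2 : ∀ x : RatFunc F, algebraMap (RatFunc F) M x ∈ F' := by
      intro x
      have h3 : (IntermediateField.adjoin F {(RatFunc.X : RatFunc F)}).map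
          (IsScalarTower.toAlgHom F (RatFunc F) M) = F' := by
        rw [IntermediateField.adjoin_map, Set.image_singleton, ← RatFunc.algebraMap_X]
        rfl
      rw [← h3, RatFunc.adjoin_X]
      exact ⟨x, IntermediateField.mem_top, rfl⟩
    let f : RatFunc F →+* F' :=
      { toFun := fun x => ⟨algebraMap (RatFunc F) M x, h2 x⟩
        map_one' := by apply Subtype.ext; simp
        map_zero' := by apply Subtype.ext; simp
        map_add' := fun x y => by apply Subtype.ext; simp
        map_mul' := fun x y => by apply Subtype.ext; simp }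
    let iF : Algebra (RatFunc F) F' := f.toAlgebra
    have : IsScalarTower (RatFunc F) F' M := IsScalarTower.of_algebraMap_eq fun x => rfl
    have hfin : FiniteDimensional F' M := FiniteDimensional.right (RatFunc F) F' M
    have htr : Transcendental F (algebraMap F[X] M X) := by
      have h4 := transcendental_tL (κ := F) (L := M)
      have h5 : tL F M = algebraMap F[X] M X := by
        unfold tL
        rw [← RatFunc.algebraMap_X]
        rfl
      rwa [h5] at h4
    exact MP_44a246_ntB.exists_ddt htr (Algebra.IsAlgebraic.of_finite _ _)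
  obtain ⟨𝔎, hdeg, hK⟩ := MP_44a246_ntSM.exists_canon D' hD'F hD'X
  rw [← hdeg]
  -- the divisor of `D' u`
  have hFin := hFF.place_finite huc
  have hD'0 : D' u ≠ 0 := by
    intro h0
    have h1 := (hK b).1 u hbu1.ne'
    rw [h0, map_zero, hbu, ← exp_add] at h1
    exact exp_ne_zero h1.symm
  have hpt : ∀ v : Place F M, log (v.1 (D' u)) =
      𝔎 v + (log (v.1 (u - algebraMap F M c)) + if v ∈ hFin.toFinset then 1 else 0) := by
    intro v
    have hsub : D' (u - algebraMap F M c) = D' u := by
      rw [map_sub, hD'F, sub_zero]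
    by_cases hv : v.1 (u - algebraMap F M c) = 1
    · have hvb : v ≠ b := by
        rintro rfl
        rw [hbuc] at hv
        exact (hone (a := (m : ℤ)) (by omega)).ne' hv
      rw [if_neg (by rw [Set.Finite.mem_toFinset]; exact fun h => h hv), hv, log_one]
      obtain ⟨c', hc'⟩ := hFF.place_residue v (hvu v hvb)
      have hne : ¬ (v ∈ B ∨ v.1 (u - algebraMap F M c') ≤ exp (-2 : ℤ)) := by
        intro h1
        have h2 := hc v c' hvb hc' h1
        rw [h2] at hc'
        exact hc'.ne hv
      rw [not_or] at hne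
      have h3 := log_eq_neg_one hc' hne.2
      have h4 := (hK v).1 (u - algebraMap F M c') hc'.ne
      rw [map_sub, hD'F, sub_zero] at h4
      have h5 : v.1 (u - algebraMap F M c') ≠ 0 := by
        rw [Valuation.ne_zero_iff]
        exact sub_ne_zero.mpr (Ne.symm (hnc c'))
      rw [h4, log_mul h5 exp_ne_zero, h3, log_exp]
      ring
    · rw [if_pos (by rw [Set.Finite.mem_toFinset]; exact hv)]
      have h4 := (hK v).1 _ hv
      rw [hsub] at h4
      have h5 : v.1 (u - algebraMap F M c) ≠ 0 := by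
        rw [Valuation.ne_zero_iff]
        exact huc
      rw [h4, log_mul h5 exp_ne_zero, log_exp]
      ring
  have hs1 : (Function.support fun v : Place F M => log (v.1 (u - algebraMap F M c))).Finite :=
    hFF.place_support huc
  have hs2 : (Function.support fun v : Place F M =>
      if v ∈ hFin.toFinset then (1 : ℤ) else 0) ⊆ ↑hFin.toFinset := by
    intro v hv
    by_contra h
    exact hv (if_neg h)
  have hs2' := (Finset.finite_toSet hFin.toFinset).subset hs2
  have hsum := hFF.product_formula hD'0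
  rw [finsum_congr hpt, finsum_add_distrib 𝔎.hasFiniteSupport
    ((hs1.union hs2').subset (Function.support_add _ _)), finsum_add_distrib hs1 hs2',
    hFF.product_formula huc, ← divDeg_eq_finsum_gr2, zero_add,
    finsum_eq_sum_of_support_subset _ hs2, Finset.sum_congr rfl (fun v hv => if_pos hv),
    Finset.sum_const, nsmul_eq_mul, mul_one] at hsum
  have hBT : B ⊆ hFin.toFinset := by
    intro v hv
    rw [Set.Finite.mem_toFinset]
    by_cases hvb : v = b
    · subst hvb
      rw [Set.mem_ofPred_eq, hbuc]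
      exact (hone (a := (m : ℤ)) (by omega)).ne'
    · obtain ⟨c', hc'⟩ := hFF.place_residue v (hvu v hvb)
      have h2 := hc v c' hvb hc' (Or.inl hv)
      rw [h2] at hc'
      exact hc'.ne
  have hcard : (B.card : ℤ) ≤ hFin.toFinset.card := by
    exact_mod_cast Finset.card_le_card hBT
  linarith

end Pool.Agent.Lib.MP_44a246_ntSF
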