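import Mathlib
import Pool.Agent.Lib.MP_44a246_ntSM.SM03

/-!
# Paper 678, Part B, B5: polynomials in the derivative which are regular at all places
-/

namespace Pool.Agent.Lib.MP_44a246_ntSF

open Pool.Agent.Lib.MP_e52354_nt
open Pool.Agent.Lib.MP_44a246_nt
open Pool.Agent.Lib.MP_44a246_ntL
open Pool.Agent.Lib.MP_44a246_ntR
open WithZero Module Polynomial

/-- **Regular orbifold jet differentials.** `M` is a function field over `F`, `D' = d / dX`, the
derivation `δ` preserves `F` and kills `X`, the weights `c v` are at most `1`. If the orbifold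
canonical degree is positive there is a polynomial `Θ` of positive degree over `M` which is at each
place `v` with uniformiser `π` a polynomial in `(T - c) * D' π`, `c = - δ π / D' π`, with
coefficients of pole order at most `i * c v` for the coefficient of degree `i`. (For weights larger
than `1` this is false: `c` depends on `π` modulo elements of `v`-value `exp (-1) / v (D' π)`.) -/
theorem exists_jet {F M : Type*} [Field F] [IsAlgClosed F] [CharZero F] [Field M]
    [Algebra F M] [Algebra (RatFunc F) M] [IsScalarTower F (RatFunc F) M]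
    [FiniteDimensional (RatFunc F) M] (δ D' : Derivation ℤ M M)
    (hδX : δ (tL F M) = 0)
    (hδF : ∀ c : F, ∃ c' : F, δ (algebraMap F M c) = algebraMap F M c')
    (hκ : ∀ c : F, D' (algebraMap F M c) = 0) (hX : D' (tL F M) = 1)
    (c : Place F M →₀ ℚ) (hc1 : ∀ v, c v ≤ 1)
    (hdeg : 0 < (ramDeg F M (RatFunc F) : ℚ) - 2 * finrank (RatFunc F) M +
      c.sum fun _ x => x) :
    ∃ Θ : M[X], 0 < Θ.natDegree ∧ ∀ (v : Place F M) (π : M), v.1 π = exp (-1 : ℤ) →
      ∃ b : M[X], (∀ i : ℕ, v.1 (b.coeff i) ≤ exp ⌊(i : ℚ) * c v⌋) ∧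
        Θ = b.comp ((X - C (- δ π / D' π)) * C (D' π)) := by
  refine Pool.Agent.Lib.MP_44a246_ntSM.exists_jet δ D' hδX hδF hκ hX c hc1 ?_
  push_cast
  exact hdeg

end Pool.Agent.Lib.MP_44a246_ntSF
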