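import Mathlib
import Pool.Agent.Lib.MP_44a246_ntL.LTrans
import Pool.Agent.Lib.MP_44a246_ntR.GR3

/-!
# Paper 678, Part B: the orbifold canonical degree in a finite extension
-/

namespace Pool.Agent.Lib.MP_44a246_ntSF

open Pool.Agent.Lib.MP_e52354_nt
open Pool.Agent.Lib.MP_44a246_nt
open Pool.Agent.Lib.MP_44a246_ntL
open Pool.Agent.Lib.MP_44a246_ntR
open WithZero Module Polynomial

section

variable {κ K L : Type*} [Field κ] [IsAlgClosed κ] [CharZero κ] [Field K] [Algebra κ K]
  [Field L] [Algebra κ L] [Algebra K L] [IsScalarTower κ K L] [FiniteDimensional K L]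

/-- the pull back of a divisor with rational coefficients -/
theorem sum_over_rat (hL : IsFF κ L) (f : Place κ K → ℚ) (S : Finset (Place κ K))
    (hS : ∀ v, v ∉ S → f v = 0) :
    ∃ U : Finset (Place κ L), (∀ w, w ∈ U ↔ below K w ∈ S) ∧
      ∀ U' : Finset (Place κ L), U ⊆ U' →
        ∑ w ∈ U', (ramIdx K w.1 : ℚ) * f (below K w) = finrank K L * ∑ v ∈ S, f v := by
  classical
  choose T _ hT2 hT3 using fun v : Place κ K => hL.exists_over (L := L) v
  have hU : ∀ w, w ∈ S.biUnion T ↔ below K w ∈ S := by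
    intro w
    rw [Finset.mem_biUnion]
    constructor
    · rintro ⟨v, hv, hw⟩
      rwa [(hT2 v w).1 hw]
    · intro h
      exact ⟨below K w, h, (hT2 _ w).2 rfl⟩
  refine ⟨S.biUnion T, hU, fun U' hUU' => ?_⟩
  rw [← Finset.sum_subset hUU' fun w _ hw => by
    rw [hS _ fun h => hw ((hU w).2 h), mul_zero]]
  rw [Finset.sum_biUnion, Finset.mul_sum]
  · refine Finset.sum_congr rfl fun v _ => ?_
    have h1 : ∑ w ∈ T v, (ramIdx K w.1 : ℚ) = finrank K L := by
      have h2 := hT3 v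
      exact_mod_cast h2
    rw [← h1, Finset.sum_mul]
    refine Finset.sum_congr rfl fun w hw => ?_
    rw [(hT2 v w).1 hw]
  · intro v _ v' _ hne
    rw [Function.onFun, Finset.disjoint_left]
    intro w hw hw'
    exact hne (((hT2 v w).mp hw).symm.trans ((hT2 v' w).mp hw'))

omit [IsAlgClosed κ] [CharZero κ] [Algebra κ K] [IsScalarTower κ K L] in
/-- the degree of the ramification divisor as a sum -/
theorem ramDeg_sum (_hL : IsFF κ L) {U : Finset (Place κ L)}
    (hU : ∀ w : Place κ L, w ∉ U → ramIdx K w.1 = 1) :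
    (ramDeg κ L K : ℚ) = ∑ w ∈ U, ((ramIdx K w.1 : ℚ) - 1) := by
  have h1 : (Function.support fun w : Place κ L => ramIdx K w.1 - 1) ⊆ U := by
    intro w hw
    rw [Finset.mem_coe]
    by_contra h
    apply hw
    show ramIdx K w.1 - 1 = 0
    rw [hU w h]
  unfold ramDeg
  rw [finsum_eq_sum_of_support_subset _ h1]
  push_cast
  refine Finset.sum_congr rfl fun w _ => ?_
  rw [Nat.cast_sub (one_le_ramIdx (K := K) w.1 w.2.1), Nat.cast_one]

end

/-- **Riemann–Hurwitz for the orbifold canonical degree.** -/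
theorem exists_bdry {F M M' : Type*} [Field F] [IsAlgClosed F] [CharZero F] [Field M]
    [Algebra F M] [Algebra (RatFunc F) M] [IsScalarTower F (RatFunc F) M]
    [FiniteDimensional (RatFunc F) M] [Field M'] [Algebra F M'] [Algebra (RatFunc F) M']
    [IsScalarTower F (RatFunc F) M'] [FiniteDimensional (RatFunc F) M'] [Algebra M M']
    [IsScalarTower F M M'] [IsScalarTower (RatFunc F) M M'] [FiniteDimensional M M']
    (c : Place F M →₀ ℚ) (hc1 : ∀ v, c v ≤ 1) :
    ∃ B : Finset (Place F M'),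
      (∀ w, w ∈ B ↔ (ramIdx M w.1 : ℚ) * (1 - c (below M w)) < 1) ∧
      (finrank M M' : ℚ) * ((ramDeg F M (RatFunc F) : ℚ) - 2 * finrank (RatFunc F) M +
        c.sum fun _ x => x) ≤
      (ramDeg F M' (RatFunc F) : ℚ) - 2 * finrank (RatFunc F) M' + B.card := by
  classical
  have hM : IsFF F M := isFF_of_ratFunc F M
  have hM' : IsFF F M' := isFF_of_ratFunc F M'
  -- the finite sets of places
  obtain ⟨S₁, hS₁⟩ : ∃ S : Finset (Place F M), ∀ v, v ∈ S ↔ ramIdx (RatFunc F) v.1 ≠ 1 :=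
    ⟨(hM.ramIdx_finite (K := RatFunc F)).toFinset, fun v => by rw [Set.Finite.mem_toFinset]; rfl⟩
  obtain ⟨S₂, hS₂⟩ : ∃ S : Finset (Place F M'), ∀ w, w ∈ S ↔ ramIdx M w.1 ≠ 1 :=
    ⟨(hM'.ramIdx_finite (K := M)).toFinset, fun v => by rw [Set.Finite.mem_toFinset]; rfl⟩
  obtain ⟨S, hS⟩ : ∃ S : Finset (Place F M), S = S₁ ∪ c.support := ⟨_, rfl⟩
  have hSr : ∀ v : Place F M, v ∉ S → ramIdx (RatFunc F) v.1 = 1 := by
    intro v hv
    by_contra h
    exact hv (by rw [hS]; exact Finset.mem_union_left _ ((hS₁ v).2 h))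
  have hSc : ∀ v : Place F M, v ∉ S → c v = 0 := by
    intro v hv
    by_contra h
    exact hv (by rw [hS]; exact Finset.mem_union_right _ (Finsupp.mem_support_iff.2 h))
  obtain ⟨U₀, hU₀, hU₀c⟩ := sum_over_rat hM' (fun v => c v) S hSc
  obtain ⟨U₁, hU₁, hU₁r⟩ := sum_over_rat hM' (fun v => (ramIdx (RatFunc F) v.1 : ℚ) - 1) S
    (fun v hv => by rw [hSr v hv, Nat.cast_one, sub_self])
  have hU01 : U₁ = U₀ := by
    ext w
    rw [hU₀, hU₁]
  rw [hU01] at hU₁r
  obtain ⟨U, hU⟩ : ∃ U : Finset (Place F M'), U = U₀ ∪ S₂ := ⟨_, rfl⟩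
  have hsub : U₀ ⊆ U := by
    rw [hU]
    exact Finset.subset_union_left
  have h1 := hU₀c U hsub
  have h2 := hU₁r U hsub
  have hUM : ∀ w : Place F M', w ∉ U → ramIdx M w.1 = 1 := by
    intro w hw
    by_contra h
    exact hw (by rw [hU]; exact Finset.mem_union_right _ ((hS₂ w).2 h))
  have hUR : ∀ w : Place F M', w ∉ U → ramIdx (RatFunc F) w.1 = 1 := by
    intro w hw
    rw [ramIdx_mul (K := RatFunc F) (L := M) w, hUM w hw, one_mul]
    refine hSr _ fun h => hw (hsub ((hU₀ w).2 h))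
  have h3 := ramDeg_sum (K := RatFunc F) hM' hUR
  have h4 := ramDeg_sum (K := RatFunc F) hM hSr
  have hcsum : (c.sum fun _ x => x) = ∑ v ∈ S, c v := by
    refine Finsupp.sum_of_support_subset c ?_ _ fun _ _ => rfl
    rw [hS]
    exact Finset.subset_union_right
  -- the boundary
  refine ⟨U.filter fun w => (ramIdx M w.1 : ℚ) * (1 - c (below M w)) < 1, fun w => ?_, ?_⟩
  · rw [Finset.mem_filter, and_iff_right_iff_imp]
    intro h
    by_contra hw
    rw [hUM w hw, hSc _ fun h => hw (hsub ((hU₀ w).2 h))] at h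
    norm_num at h
  · have hfin : (finrank (RatFunc F) M' : ℚ) = finrank (RatFunc F) M * finrank M M' := by
      rw [← finrank_mul_finrank (RatFunc F) M M']
      push_cast
      rfl
    have hcard : (((U.filter fun w => (ramIdx M w.1 : ℚ) * (1 - c (below M w)) < 1).card : ℕ) : ℚ) =
        ∑ w ∈ U, if (ramIdx M w.1 : ℚ) * (1 - c (below M w)) < 1 then (1 : ℚ) else 0 := by
      rw [Finset.card_filter]
      push_cast
      rfl
    have h5 : ∀ w ∈ U, (ramIdx M w.1 : ℚ) * c (below M w) +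
        (ramIdx M w.1 : ℚ) * ((ramIdx (RatFunc F) (below M w).1 : ℚ) - 1) ≤
        ((ramIdx (RatFunc F) w.1 : ℚ) - 1) +
          if (ramIdx M w.1 : ℚ) * (1 - c (below M w)) < 1 then (1 : ℚ) else 0 := by
      intro w _
      have h6 : (ramIdx (RatFunc F) w.1 : ℚ) =
          (ramIdx M w.1 : ℚ) * (ramIdx (RatFunc F) (below M w).1 : ℚ) := by
        rw [ramIdx_mul (K := RatFunc F) (L := M) w]
        push_cast
        rfl
      have h7 : (1 : ℚ) ≤ ramIdx M w.1 := by
        exact_mod_cast one_le_ramIdx (K := M) w.1 w.2.1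
      rw [h6]
      split_ifs with h8
      · have h9 := mul_le_mul_of_nonneg_left (hc1 (below M w)) (zero_le_one.trans h7)
        linarith
      · push Not at h8
        linarith
    have h6 := Finset.sum_le_sum h5
    rw [Finset.sum_add_distrib, Finset.sum_add_distrib, h1, h2, ← h3, ← h4, ← hcard, ← hcsum] at h6
    rw [hfin]
    linarith

end Pool.Agent.Lib.MP_44a246_ntSF
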