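import Mathlib
import Pool.Agent.Lib.MP_44a246_ntSF.SFB02

/-!
# Paper 678, Part B, B6: the value of the jet polynomial is in `F`
-/

namespace Pool.Agent.Lib.MP_44a246_ntSF

open Pool.Agent.Lib.MP_e52354_nt
open Pool.Agent.Lib.MP_44a246_nt
open Pool.Agent.Lib.MP_44a246_ntL
open WithZero Module Polynomial

/-- the value `Θ (D t)` is in `F` -/
theorem theta_mem {F U M : Type*} [Field F] [IsAlgClosed F] [CharZero F] [Field U]
    [Algebra F U] [Field M] [Algebra F M] [Algebra M U] [IsScalarTower F M U]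
    {D : Derivation ℤ U U} {G : IntermediateField F U} {𝒪 : Set (Subring U)} (h : Fam D G 𝒪)
    (hM : IsFF F M) (hMG : ∀ u : M, algebraMap M U u ∈ G) {c : Place F M → ℚ}
    (hc0 : ∀ v, 0 ≤ c v) (hc : Wt D 𝒪 c) {t : M} {δ D' : Derivation ℤ M M}
    (hδ : ∀ u : M, D (algebraMap M U u) =
        algebraMap M U (δ u) + D (algebraMap M U t) * algebraMap M U (D' u))
    {Θ : M[X]} (hΘ : ∀ (v : Place F M) (π : M), v.1 π = exp (-1 : ℤ) →
      ∃ b : M[X], (∀ i : ℕ, v.1 (b.coeff i) ≤ exp ⌊(i : ℚ) * c v⌋) ∧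
        Θ = b.comp ((X - C (- δ π / D' π)) * C (D' π))) :
    ∃ a : F, algebraMap F U a = aeval (D (algebraMap M U t)) Θ := by
  classical
  -- the value is in `G`
  have hzG : aeval (D (algebraMap M U t)) Θ ∈ G := by
    rw [aeval_eq_sum_range]
    refine G.sum_mem fun i _ => ?_
    rw [Algebra.smul_def]
    exact G.mul_mem (hMG _) (pow_mem (h.derG _ (hMG _)) i)
  by_contra hne
  push Not at hne
  obtain ⟨O, hO, hzO⟩ := h.sep _ hzG (fun c => hne c)
  apply hzO
  rcases h.exists_over hO hM hMG with hMO | ⟨v, hv⟩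
  · rw [aeval_eq_sum_range]
    refine O.sum_mem fun i _ => ?_
    rw [Algebra.smul_def]
    exact O.mul_mem (hMO _) (O.pow_mem (h.der O hO _ (hMO _)) i)
  · obtain ⟨π, hπ⟩ := v.2.1 (exp (-1 : ℤ))
    have hπ0 : π ≠ 0 := by
      rintro rfl
      rw [map_zero] at hπ
      exact exp_ne_zero hπ.symm
    obtain ⟨b, hb, rfl⟩ := hΘ v π hπ
    rw [aeval_comp]
    by_cases hD' : D' π = 0
    · -- the value is the constant coefficient
      have e : aeval (D (algebraMap M U t)) ((X - C (-δ π / D' π)) * C (D' π)) = 0 := by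
        rw [hD', C_0, mul_zero, map_zero]
      rw [e, ← coeff_zero_eq_aeval_zero']
      refine (hv _).mpr ?_
      have h1 := hb 0
      simpa using h1
    · have e : aeval (D (algebraMap M U t)) ((X - C (-δ π / D' π)) * C (D' π)) =
          D (algebraMap M U π) := by
        rw [hδ π, map_mul, map_sub, aeval_X, aeval_C, aeval_C]
        have h1 : algebraMap M U (D' π) ≠ 0 := by
          rw [Ne, map_eq_zero_iff _ (algebraMap M U).injective]
          exact hD'
        rw [map_div₀, map_neg]
        field_simp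
        ring
      rw [e, aeval_eq_sum_range]
      refine O.sum_mem fun i _ => ?_
      rw [Algebra.smul_def]
      have hq : 0 < (c v).den := (c v).pos
      have hmem : algebraMap M U (b.coeff i) * D (algebraMap M U π) ^ i ∈ G :=
        G.mul_mem (hMG _) (pow_mem (h.derG _ (hMG _)) i)
      refine h.of_pow hO hmem hq ?_
      have hp : (((c v).num.toNat : ℕ) : ℚ) = (c v).den * c v := by
        have h1 : 0 ≤ (c v).num := Rat.num_nonneg.mpr (hc0 v)
        have h2 : (((c v).num.toNat : ℕ) : ℤ) = (c v).num := Int.toNat_of_nonneg h1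
        have h3 : (((c v).num.toNat : ℕ) : ℚ) = (c v).num := by
          rw [← h2]
          push_cast
          rfl
        rw [h3, Rat.den_mul_eq_num]
      have hW := hc O hO v hv π hπ (c v).num.toNat (c v).den hq hp.le
      have hπU : algebraMap M U π ≠ 0 := by
        rw [Ne, map_eq_zero_iff _ (algebraMap M U).injective]
        exact hπ0
      have e2 : (algebraMap M U (b.coeff i) * D (algebraMap M U π) ^ i) ^ (c v).den =
          algebraMap M U (b.coeff i ^ (c v).den * π ^ (i * (c v).num.toNat)) *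
            (D (algebraMap M U π) ^ (c v).den / algebraMap M U π ^ (c v).num.toNat) ^ i := by
        rw [map_mul, map_pow, map_pow, div_pow, mul_pow, ← pow_mul, ← pow_mul, ← pow_mul,
          mul_comm i (c v).den, mul_comm i (c v).num.toNat]
        field_simp
      rw [e2]
      refine O.mul_mem ((hv _).mpr ?_) (O.pow_mem hW i)
      rw [map_mul, map_pow, map_pow, hπ, ← exp_nsmul]
      have h3 : v.1 (b.coeff i) ^ (c v).den ≤ exp ((c v).den • ⌊(i : ℚ) * c v⌋) := by
        rw [exp_nsmul]
        exact pow_le_pow_left₀ zero_le (hb i) _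
      refine (mul_le_mul' h3 le_rfl).trans ?_
      rw [← exp_add, ← exp_zero]
      refine exp_le_exp.mpr ?_
      have h4 : ((⌊(i : ℚ) * c v⌋ : ℤ) : ℚ) ≤ i * c v := Int.floor_le _
      have h5 : (((c v).den • ⌊(i : ℚ) * c v⌋ + (i * (c v).num.toNat) • (-1 : ℤ) : ℤ) : ℚ) ≤ 0 := by
        push_cast
        rw [nsmul_eq_mul, nsmul_eq_mul]
        push_cast
        have h6 : ((c v).den : ℚ) * (⌊(i : ℚ) * c v⌋ : ℤ) ≤ (c v).den * (i * c v) :=
          mul_le_mul_of_nonneg_left h4 (by positivity)
        rw [hp]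
        nlinarith [h6]
      exact_mod_cast h5

end Pool.Agent.Lib.MP_44a246_ntSF
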