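import Mathlib
import Pool.Agent.Lib.MP_44a246_ntSF.SFB02
import Pool.Agent.Lib.MP_44a246_ntSH.PJ07
import Pool.Agent.Lib.MP_44a246_ntSM.SM02

/-!
# Paper 678, Part B, B2, B7: every place lies under a ring of the family; the derivation is regular
-/

namespace Pool.Agent.Lib.MP_44a246_ntSF

open Pool.Agent.Lib.MP_e52354_nt
open Pool.Agent.Lib.MP_44a246_nt
open Pool.Agent.Lib.MP_44a246_ntL
open Pool.Agent.Lib.MP_44a246_ntR
open Pool.Agent.Lib.MP_44a246_ntSH
open WithZero Module Polynomial

section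

variable {F U : Type*} [Field F] [IsAlgClosed F] [CharZero F] [Field U] [Algebra F U]
  {D : Derivation ℤ U U} {G : IntermediateField F U} {𝒪 : Set (Subring U)}

/-- a function with a pole at one place only -/
private theorem exists_pole {κ M : Type*} [Field κ] [IsAlgClosed κ] [CharZero κ] [Field M]
    [Algebra κ M] (h : IsFF κ M) (P : Place κ M) :
    ∃ (f : M) (e : ℕ), 1 ≤ e ∧ P.1 f = exp (e : ℤ) ∧ ∀ v : Place κ M, v ≠ P → v.1 f ≤ 1 := by
  classical
  have h0 := finrank_rr_single h P (j := 2 * genus κ M) (by omega)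
  have h1 := finrank_rr_single h P (j := 2 * genus κ M + 1) (by omega)
  have := finite_rr h (Finsupp.single P ((2 * genus κ M : ℕ) : ℤ))
  have hlt : ¬ rr (κ := κ) (Finsupp.single P ((2 * genus κ M + 1 : ℕ) : ℤ)) ≤
      rr (Finsupp.single P ((2 * genus κ M : ℕ) : ℤ)) := by
    intro hle
    have h2 := Submodule.finrank_mono hle
    omega
  obtain ⟨f, hf, hf'⟩ := SetLike.not_le_iff_exists.mp hlt
  have hreg : ∀ v : Place κ M, v ≠ P → v.1 f ≤ 1 := by
    intro v hv
    have := hf v
    rwa [Finsupp.single_apply, if_neg (Ne.symm hv), exp_zero] at this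
  have hP : ¬ P.1 f ≤ exp ((2 * genus κ M : ℕ) : ℤ) := by
    intro hle
    refine hf' fun v => ?_
    by_cases hv : v = P
    · rw [hv, Finsupp.single_eq_same]
      exact hle
    · rw [Finsupp.single_apply, if_neg (Ne.symm hv), exp_zero]
      exact hreg v hv
  have hP2 : P.1 f ≤ exp ((2 * genus κ M + 1 : ℕ) : ℤ) := by
    have := hf P
    rwa [Finsupp.single_eq_same] at this
  have hne : P.1 f ≠ 0 := by
    intro h3
    rw [h3] at hP
    exact hP zero_le
  refine ⟨f, 2 * genus κ M + 1, by omega, ?_, hreg⟩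
  rw [← exp_log hne] at hP hP2 ⊢
  rw [exp_le_exp] at hP hP2
  congr 1
  push_cast at hP hP2 ⊢
  omega

/-- **B2.** Every place lies under a ring of the family. -/
theorem Fam.exists_ring (h : Fam D G 𝒪) {M : Type*} [Field M] [Algebra F M] [Algebra M U]
    [IsScalarTower F M U] (hM : IsFF F M) (hMG : ∀ u : M, algebraMap M U u ∈ G) (v : Place F M) :
    ∃ O ∈ 𝒪, Over O v := by
  obtain ⟨f, e, he, hf, hreg⟩ := exists_pole hM v
  have hne : ∀ c : F, algebraMap F U c ≠ algebraMap M U f := by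
    intro c hc
    rw [IsScalarTower.algebraMap_apply F M U] at hc
    have h1 := (algebraMap M U).injective hc
    rw [← h1] at hf
    by_cases hc0 : c = 0
    · rw [hc0, map_zero, map_zero] at hf
      exact exp_ne_zero hf.symm
    · rw [v.2.2 c hc0, ← exp_zero, exp_inj] at hf
      omega
  obtain ⟨O, hO, hfO⟩ := h.sep _ (hMG f) hne
  rcases h.exists_over hO hM hMG with h1 | ⟨v', hv'⟩
  · exact absurd (h1 f) hfO
  · have h2 : 1 < v'.1 f := by
      rw [← not_le, ← hv' f]
      exact hfO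
    have h3 : v' = v := by
      by_contra hcon
      exact absurd (hreg v' hcon) (not_le.2 h2)
    rw [h3] at hv'
    exact ⟨O, hO, hv'⟩

/-- the derivation of a stable function field is regular -/
theorem Fam.regular (h : Fam D G 𝒪) {M : Type*} [Field M] [Algebra F M] [Algebra M U]
    [IsScalarTower F M U] (hM : IsFF F M) (hMG : ∀ u : M, algebraMap M U u ∈ G)
    {E : Derivation ℤ M M} (hE : ∀ u : M, D (algebraMap M U u) = algebraMap M U (E u))
    (v : Place F M) (u : M) (hu : v.1 u ≤ 1) : v.1 (E u) ≤ 1 := by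
  obtain ⟨O, hO, hOv⟩ := h.exists_ring hM hMG v
  rw [← hOv, ← hE]
  exact h.der O hO _ ((hOv u).2 hu)

/-- the derivation of a stable finite extension `M'` of `M` is logarithmic at the places `w` with
`e (1 - c) < 1`, `c` the weight of the place of `M` below `w` -/
theorem Fam.log (h : Fam D G 𝒪) {M : Type*} [Field M] [Algebra F M] [Algebra M U]
    [IsScalarTower F M U] (hM : IsFF F M) {c : Place F M → ℚ} (hc0 : ∀ v, 0 ≤ c v)
    (hc : Wt D 𝒪 c) {M' : Type*} [Field M'] [Algebra F M'] [Algebra M' U]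
    [IsScalarTower F M' U] [Algebra M M'] [IsScalarTower F M M'] [IsScalarTower M M' U]
    [FiniteDimensional M M'] (hMG : ∀ u : M', algebraMap M' U u ∈ G)
    {E : Derivation ℤ M' M'} (hE : ∀ u : M', D (algebraMap M' U u) = algebraMap M' U (E u))
    (w : Place F M') (hw : (ramIdx M w.1 : ℚ) * (1 - c (below M w)) < 1) (u : M')
    (hu : w.1 u < 1) : w.1 (E u) < 1 := by
  have hM' : IsFF F M' := hM.of_finite
  have hreg : ∀ y, w.1 y ≤ 1 → w.1 (E y) ≤ 1 := fun y hy => h.regular hM' hMG hE w y hy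
  obtain ⟨O, hO, hOw⟩ := h.exists_ring hM' hMG w
  have he := one_le_ramIdx (K := M) w.1 w.2.1
  have hOv : Over O (below M w) := by
    intro y
    rw [IsScalarTower.algebraMap_apply M M' U, hOw, below_pow]
    exact pow_le_one_iff (by omega)
  obtain ⟨π, hπ⟩ := (below M w).2.1 (exp (-1 : ℤ))
  have hπ' : w.1 (algebraMap M M' π) = exp (-(ramIdx M w.1 : ℤ)) := by
    rw [below_pow, hπ, ← exp_nsmul, nsmul_eq_mul]
    congr 1
    ring
  -- the weight inequality
  have hnum : 0 ≤ (c (below M w)).num := Rat.num_nonneg.2 (hc0 _)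
  have hpq : (((c (below M w)).num.toNat : ℕ) : ℚ) = ((c (below M w)).den : ℚ) * c (below M w) := by
    rw [mul_comm, Rat.mul_den_eq_num, ← Int.cast_natCast, Int.toNat_of_nonneg hnum]
  have h1 := hc O hO (below M w) hOv π hπ (c (below M w)).num.toNat (c (below M w)).den
    (c (below M w)).den_pos hpq.le
  rw [IsScalarTower.algebraMap_apply M M' U, hE, ← map_pow (algebraMap M' U),
    ← map_pow (algebraMap M' U), ← map_div₀ (algebraMap M' U), hOw,
    map_div₀, map_pow, map_pow, hπ'] at h1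
  -- the contradiction
  by_contra hcon
  push Not at hcon
  obtain ⟨ϖ, hϖ⟩ := w.2.1 (exp (-1 : ℤ))
  have h2 := Pool.Agent.Lib.MP_44a246_ntSM.der_unif_of_not w E hreg hu hcon hϖ
  obtain ⟨k, hk⟩ : ∃ k, ramIdx M w.1 = k + 1 := ⟨ramIdx M w.1 - 1, by omega⟩
  rw [hk] at hπ' h1 hw
  have h3 := Pool.Agent.Lib.MP_44a246_ntSM.der_order w E hreg hϖ h2 hπ'
  rw [h3, ← exp_nsmul, ← exp_nsmul, ← exp_sub, ← exp_zero, exp_le_exp, nsmul_eq_mul,
    nsmul_eq_mul] at h1
  have h4 : ((k : ℚ) + 1) * (c (below M w)).num.toNat ≤ k * (c (below M w)).den := by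
    have h5 : ((k : ℤ) + 1) * (c (below M w)).num.toNat ≤ k * (c (below M w)).den := by
      push_cast at h1
      linarith
    exact_mod_cast h5
  rw [hpq] at h4
  have h6 : (0 : ℚ) < (c (below M w)).den := by exact_mod_cast (c (below M w)).den_pos
  have h7 : ((k : ℚ) + 1) * c (below M w) ≤ k := by
    by_contra h8
    push Not at h8
    have h9 := mul_lt_mul_of_pos_right h8 h6
    linarith
  push_cast at hw
  linarith

end

end Pool.Agent.Lib.MP_44a246_ntSF
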