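import Mathlib
import Pool.Agent.Lib.MP_44a246_ntSF.SFB02

/-!
# Paper 678, Part B, B7: the field `M (D t)` is stable under `D`
-/

namespace Pool.Agent.Lib.MP_44a246_ntSF

open Module Polynomial

/-- if `D M ⊆ M + (D t) M` and `Θ (D t) ∈ F` then `M (D t)` is finite over `M` and stable under
`D` -/
theorem exists_stable {F U M : Type*} [Field F] [Field U] [CharZero U]
    [Algebra F U] [Field M] [Algebra F M] [Algebra M U] [IsScalarTower F M U]
    {D : Derivation ℤ U U} {G : IntermediateField F U} (hDG : ∀ u ∈ G, D u ∈ G)
    (hMG : ∀ u : M, algebraMap M U u ∈ G) {t : M} {δ D' : Derivation ℤ M M}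
    (hδ : ∀ u : M, D (algebraMap M U u) =
        algebraMap M U (δ u) + D (algebraMap M U t) * algebraMap M U (D' u))
    {Θ : M[X]} (hΘ : 0 < Θ.natDegree) {a : F}
    (ha : algebraMap F U a = aeval (D (algebraMap M U t)) Θ) :
    ∃ (M' : IntermediateField M U) (E : Derivation ℤ M' M'), FiniteDimensional M M' ∧
      (∀ u : M', (u : U) ∈ G) ∧ ∀ u : M', D (u : U) = (E u : M') := by
  -- `M' = IntermediateField.adjoin M {D t}`; `D (D t)` from the minimal polynomial
  have hwG : D (algebraMap M U t) ∈ G := hDG _ (hMG t)
  generalize D (algebraMap M U t) = w at hδ ha hwG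
  have hchar : CharZero M := (algebraMap M U).charZero
  have halg : IsAlgebraic M w := by
    refine ⟨Θ - C (algebraMap F M a), fun h0 => ?_, ?_⟩
    · rw [sub_eq_zero] at h0
      rw [h0, natDegree_C] at hΘ
      exact lt_irrefl 0 hΘ
    · rw [map_sub, ← ha, aeval_C, ← IsScalarTower.algebraMap_apply, sub_self]
  have hint : IsIntegral M w := halg.isIntegral
  have hwM : w ∈ IntermediateField.adjoin M {w} := IntermediateField.mem_adjoin_simple_self M w
  have hM' : ∀ u : M, algebraMap M U u ∈ IntermediateField.adjoin M {w} := fun u =>
    (IntermediateField.adjoin M {w}).algebraMap_mem u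
  have hDM : ∀ u : M, D (algebraMap M U u) ∈ IntermediateField.adjoin M {w} := by
    intro u
    rw [hδ]
    exact add_mem (hM' _) (mul_mem hwM (hM' _))
  have haev : ∀ p : M[X], aeval w p ∈ IntermediateField.adjoin M {w} := by
    intro p
    induction p using Polynomial.induction_on' with
    | add p q hp hq =>
      rw [map_add]
      exact add_mem hp hq
    | monomial n b =>
      rw [aeval_monomial]
      exact mul_mem (hM' b) (pow_mem hwM n)
  have key : ∀ p : M[X],
      D (aeval w p) - aeval w (derivative p) * D w ∈ IntermediateField.adjoin M {w} := by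
    intro p
    induction p using Polynomial.induction_on' with
    | add p q hp hq =>
      have h1 : D (aeval w (p + q)) - aeval w (derivative (p + q)) * D w =
          (D (aeval w p) - aeval w (derivative p) * D w) +
          (D (aeval w q) - aeval w (derivative q) * D w) := by
        simp only [map_add]
        ring
      rw [h1]
      exact add_mem hp hq
    | monomial n b =>
      have h1 : D (aeval w (monomial n b)) - aeval w (derivative (monomial n b)) * D w =
          w ^ n * D (algebraMap M U b) := by
        rw [aeval_monomial, Derivation.leibniz, Derivation.leibniz_pow, derivative_monomial,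
          aeval_monomial, map_mul, map_natCast]
        simp only [smul_eq_mul, nsmul_eq_mul]
        ring
      rw [h1]
      exact mul_mem (pow_mem hwM n) (hDM b)
  have hDw : D w ∈ IntermediateField.adjoin M {w} := by
    have h1 := key (minpoly M w)
    rw [minpoly.aeval, map_zero, zero_sub] at h1
    have h2 : aeval w (derivative (minpoly M w)) ≠ 0 :=
      (minpoly.irreducible hint).separable.aeval_derivative_ne_zero (minpoly.aeval M w)
    have h3 : D w = (aeval w (derivative (minpoly M w)))⁻¹ *
        -(-(aeval w (derivative (minpoly M w)) * D w)) := by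
      rw [neg_neg, inv_mul_cancel_left₀ h2]
    rw [h3]
    exact mul_mem (inv_mem (haev _)) (neg_mem h1)
  have hstab : ∀ u ∈ IntermediateField.adjoin M {w}, D u ∈ IntermediateField.adjoin M {w} := by
    intro u hu
    induction hu using IntermediateField.adjoin_induction with
    | mem x hx =>
      rw [Set.mem_singleton_iff] at hx
      rw [hx]
      exact hDw
    | algebraMap x => exact hDM x
    | add x y hx hy h1 h2 =>
      rw [map_add]
      exact add_mem h1 h2
    | inv x hx h1 =>
      rw [Derivation.leibniz_inv, smul_eq_mul]
      exact mul_mem (neg_mem (pow_mem (inv_mem hx) 2)) h1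
    | mul x y hx hy h1 h2 =>
      rw [Derivation.leibniz, smul_eq_mul, smul_eq_mul]
      exact add_mem (mul_mem hx h2) (mul_mem hy h1)
  let φ : IntermediateField.adjoin M {w} →+ IntermediateField.adjoin M {w} :=
    { toFun := fun u => ⟨D (u : U), hstab _ u.2⟩
      map_zero' := Subtype.ext (by
        show D ((0 : IntermediateField.adjoin M {w}) : U) = 0
        rw [ZeroMemClass.coe_zero, map_zero])
      map_add' := fun x y => Subtype.ext (by
        show D ((x + y : IntermediateField.adjoin M {w}) : U) = D (x : U) + D (y : U)
        rw [← map_add]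
        rfl) }
  refine ⟨IntermediateField.adjoin M {w}, Derivation.mk' φ.toIntLinearMap fun x y =>
    Subtype.ext ?_, IntermediateField.adjoin.finiteDimensional hint, ?_, fun u => rfl⟩
  · show D ((x * y : IntermediateField.adjoin M {w}) : U) = (x : U) * D (y : U) + (y : U) * D (x : U)
    have h1 : ((x * y : IntermediateField.adjoin M {w}) : U) = (x : U) * (y : U) := rfl
    rw [h1, Derivation.leibniz, smul_eq_mul, smul_eq_mul]
  · rintro ⟨u, hu⟩
    show u ∈ G
    induction hu using IntermediateField.adjoin_induction with
    | mem x hx =>
      rw [Set.mem_singleton_iff] at hx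
      rw [hx]
      exact hwG
    | algebraMap x => exact hMG x
    | add x y hx hy h1 h2 => exact add_mem h1 h2
    | inv x hx h1 => exact inv_mem h1
    | mul x y hx hy h1 h2 => exact mul_mem h1 h2

end Pool.Agent.Lib.MP_44a246_ntSF
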