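import Mathlib
import Pool.Agent.Lib.MP_44a246_ntSF.SFB01
import Pool.Agent.Lib.MP_44a246_ntSF.SFB03
import Pool.Agent.Lib.MP_44a246_ntSF.SFB04
import Pool.Agent.Lib.MP_44a246_ntSF.SFB05
import Pool.Agent.Lib.MP_44a246_ntSF.SFB06
import Pool.Agent.Lib.MP_44a246_ntSF.SFB17
import Pool.Agent.Lib.MP_44a246_ntSF.SFB08

/-!
# Paper 678, Part B: Theorem B
-/

namespace Pool.Agent.Lib.MP_44a246_ntSF

open Pool.Agent.Lib.MP_e52354_nt
open Pool.Agent.Lib.MP_44a246_nt
open Pool.Agent.Lib.MP_44a246_ntL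
open Pool.Agent.Lib.MP_44a246_ntR
open WithZero Module Polynomial

/-- **Theorem B.** The orbifold canonical degree of a function field over `F` in `G` is not
positive. -/
theorem theoremB {F U M : Type*} [Field F] [IsAlgClosed F] [CharZero F] [Field U]
    [Algebra F U] [Field M] [Algebra F M] [Algebra M U] [IsScalarTower F M U]
    [Algebra (RatFunc F) M] [IsScalarTower F (RatFunc F) M] [FiniteDimensional (RatFunc F) M]
    {D : Derivation ℤ U U} {G : IntermediateField F U} {𝒪 : Set (Subring U)} (h : Fam D G 𝒪)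
    (hMG : ∀ u : M, algebraMap M U u ∈ G) (c : Place F M →₀ ℚ)
    (hc0 : ∀ v, 0 ≤ c v) (hc1 : ∀ v, c v ≤ 1) (hc : Wt D 𝒪 c) :
    (ramDeg F M (RatFunc F) : ℚ) - 2 * finrank (RatFunc F) M + (c.sum fun _ x => x) ≤ 0 := by
  classical
  by_contra hcon
  push Not at hcon
  have hM : IsFF F M := isFF_of_ratFunc F M
  have hcU : CharZero U := charZero_of_injective_algebraMap (algebraMap F U).injective
  obtain ⟨δ, D', h1, h2, h3, h4, h5⟩ := exists_delta (M := M) D h.derF
  obtain ⟨Θ, hΘ, hΘ'⟩ := exists_jet δ D' h1 h2 h3 h4 c hc1 hcon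
  obtain ⟨a, ha⟩ := theta_mem h hM hMG hc0 hc h5 hΘ'
  obtain ⟨M', E, hfin, hM'G, hE⟩ := exists_stable h.derG hMG h5 hΘ ha
  let iR : Algebra (RatFunc F) M' :=
    ((algebraMap M M').comp (algebraMap (RatFunc F) M)).toAlgebra
  have t1 : IsScalarTower (RatFunc F) M M' := IsScalarTower.of_algebraMap_eq' rfl
  have t2 : IsScalarTower F (RatFunc F) M' := IsScalarTower.of_algebraMap_eq fun x => by
    rw [IsScalarTower.algebraMap_apply F M M', IsScalarTower.algebraMap_apply (RatFunc F) M M',
      IsScalarTower.algebraMap_apply F (RatFunc F) M]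
  have t3 : FiniteDimensional (RatFunc F) M' := FiniteDimensional.trans (RatFunc F) M M'
  have hM' : IsFF F M' := isFF_of_ratFunc F M'
  have hM'G' : ∀ u : M', algebraMap M' U u ∈ G := hM'G
  have hE' : ∀ u : M', D (algebraMap M' U u) = algebraMap M' U (E u) := hE
  have hreg := h.regular hM' hM'G' hE'
  have hEF : ∀ x : F, ∃ x' : F, E (algebraMap F M' x) = algebraMap F M' x' := by
    intro x
    obtain ⟨x', hx'⟩ := h.derF x
    refine ⟨x', (algebraMap M' U).injective ?_⟩
    rw [← hE', ← IsScalarTower.algebraMap_apply F M' U, ← IsScalarTower.algebraMap_apply F M' U,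
      hx']
  have hker : ∀ u : M', E u = 0 → ∃ x : F, algebraMap F M' x = u := by
    intro u hu
    have h6 : D (algebraMap M' U u) = 0 := by rw [hE', hu, map_zero]
    obtain ⟨x, hx⟩ := h.ker _ (hM'G' u) h6
    refine ⟨x, (algebraMap M' U).injective ?_⟩
    rw [← IsScalarTower.algebraMap_apply F M' U]
    exact hx
  obtain ⟨B, hB, hBd⟩ := exists_bdry (M' := M') c hc1
  have hpos : (0 : ℚ) < (ramDeg F M' (RatFunc F) : ℚ) - 2 * finrank (RatFunc F) M' + B.card := by
    refine lt_of_lt_of_le (mul_pos ?_ hcon) hBd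
    exact_mod_cast finrank_pos
  have hpos' : (0 : ℤ) < (ramDeg F M' (RatFunc F) : ℤ) - 2 * finrank (RatFunc F) M' + B.card := by
    exact_mod_cast hpos
  by_cases hBne : B.Nonempty
  · have h6 := final_log E hEF hker hreg hBne fun w hw u hu =>
      h.log hM hc0 hc hM'G' hE' w ((hB w).1 hw) u hu
    omega
  · rw [Finset.not_nonempty_iff_eq_empty] at hBne
    rw [hBne, Finset.card_empty, Nat.cast_zero, add_zero] at hpos'
    obtain ⟨v, hv⟩ := Pool.Agent.Lib.MP_44a246_ntSM.exists_horizontal E hEF hreg (by omega)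
    have h6 := final_log E hEF hker hreg (B := {v}) (Finset.singleton_nonempty v)
      (fun w hw u hu => by
        rw [Finset.mem_singleton] at hw
        rw [hw] at hu ⊢
        exact hv u hu)
    rw [Finset.card_singleton] at h6
    push_cast at h6
    omega

end Pool.Agent.Lib.MP_44a246_ntSF
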