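import Mathlib
import Pool.Agent.Lib.MP_44a246_ntSH.LA03
import Pool.Agent.Lib.MP_44a246_ntSH.PJ17

/-!
# Paper 678, Part C: the weighted logarithmic adjunction
-/

namespace Pool.Agent.Lib.MP_44a246_ntSF

open Pool.Agent.Lib.MP_e52354_nt
open Pool.Agent.Lib.MP_44a246_nt
open Pool.Agent.Lib.MP_44a246_ntL
open Pool.Agent.Lib.MP_44a246_ntR
open Pool.Agent.Lib.MP_44a246_ntS
open Pool.Agent.Lib.MP_44a246_ntE
open Pool.Agent.Lib.MP_44a246_ntSH (bdry bdry_finite log_wedge_global Fval_le_vmax)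
open WithZero Polynomial

variable {κ M : Type*} [Field κ] [IsAlgClosed κ] [CharZero κ] [Field M] [Algebra κ M]
  [Algebra κ[X] M] [IsScalarTower κ κ[X] M]
  [Algebra (RatFunc κ) M] [IsScalarTower κ[X] (RatFunc κ) M]
  [Algebra (Rinf κ) M] [IsScalarTower (Rinf κ) (RatFunc κ) M]
  [FiniteDimensional (RatFunc κ) M]

/-- the order of a form of degree `d` with constant coefficients at the point `γ`, at the
place `w` -/
noncomputable def ordF {N : ℕ} (w : Place κ M) (d : ℕ) (a : (Fin N →₀ ℕ) → κ) (γ : Fin N → M) :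
    ℤ :=
  d * log (vmax w.1 γ) - log (w.1 (Fval d (fun I => algebraMap κ M (a I)) γ))

omit [IsAlgClosed κ] [CharZero κ] [Algebra κ[X] M] [IsScalarTower κ κ[X] M]
  [Algebra (RatFunc κ) M] [IsScalarTower κ[X] (RatFunc κ) M] [Algebra (Rinf κ) M]
  [IsScalarTower (Rinf κ) (RatFunc κ) M] [FiniteDimensional (RatFunc κ) M] in
theorem ordF_nonneg {N : ℕ} (w : Place κ M) {d : ℕ} {a : (Fin N →₀ ℕ) → κ} {γ : Fin N → M}
    (hγ : γ ≠ 0) (hφ : Fval d (fun I => algebraMap κ M (a I)) γ ≠ 0) : 0 ≤ ordF w d a γ := by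
  have h1 := Fval_le_vmax w a γ (d := d)
  have hv : vmax w.1 γ ≠ 0 := fun h => hγ ((vmax_eq_zero_iff w.1).mp h)
  have hw : w.1 (Fval d (fun I => algebraMap κ M (a I)) γ) ≠ 0 :=
    (Valuation.ne_zero_iff w.1).mpr hφ
  have h2 := (log_le_log hw (pow_ne_zero _ hv)).mpr h1
  rw [log_pow, nsmul_eq_mul] at h2
  unfold ordF
  linarith

omit [IsAlgClosed κ] [CharZero κ] [Algebra κ[X] M] [IsScalarTower κ κ[X] M]
  [Algebra (RatFunc κ) M] [IsScalarTower κ[X] (RatFunc κ) M] [Algebra (Rinf κ) M]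
  [IsScalarTower (Rinf κ) (RatFunc κ) M] [FiniteDimensional (RatFunc κ) M] in
theorem ordF_pos_iff {N : ℕ} (w : Place κ M) {d : ℕ} {a : (Fin N →₀ ℕ) → κ} {γ : Fin N → M}
    (hγ : γ ≠ 0) (hφ : Fval d (fun I => algebraMap κ M (a I)) γ ≠ 0) :
    0 < ordF w d a γ ↔ w.1 (Fval d (fun I => algebraMap κ M (a I)) γ) < vmax w.1 γ ^ d := by
  have hv : vmax w.1 γ ≠ 0 := fun h => hγ ((vmax_eq_zero_iff w.1).mp h)
  have hw : w.1 (Fval d (fun I => algebraMap κ M (a I)) γ) ≠ 0 :=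
    (Valuation.ne_zero_iff w.1).mpr hφ
  rw [← log_lt_log hw (pow_ne_zero _ hv), log_pow, nsmul_eq_mul]
  unfold ordF
  constructor
  · intro h
    linarith
  · intro h
    linarith

/-- the degree is the sum of the orders -/
theorem sum_ordF {N : ℕ} {d : ℕ} {a : (Fin N →₀ ℕ) → κ} {γ : Fin N → M}
    (hγ : γ ≠ 0) (hφ : Fval d (fun I => algebraMap κ M (a I)) γ ≠ 0) (B : Finset (Place κ M))
    (hB : ∀ w : Place κ M, w.1 (Fval d (fun I => algebraMap κ M (a I)) γ) < vmax w.1 γ ^ d →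
      w ∈ B) : ∑ w ∈ B, ordF w d a γ = d * height κ γ := by
  classical
  have hvγ : ∀ w : Place κ M, vmax w.1 γ ≠ 0 := fun w h => hγ ((vmax_eq_zero_iff w.1).mp h)
  let P : Finset (Place κ M) := B ∪ (vmax_finite hγ).toFinset ∪ (place_finite hφ).toFinset
  have hP : ∀ v ∉ P, vmax v.1 γ = 1 ∧ v.1 (Fval d (fun I => algebraMap κ M (a I)) γ) = 1 := by
    intro v hv
    simp only [P, Finset.mem_union, Set.Finite.mem_toFinset, not_or, Set.mem_ofPred_eq,
      not_not] at hv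
    exact ⟨hv.1.2, hv.2⟩
  have h1 : ∑ w ∈ B, ordF w d a γ = ∑ w ∈ P, ordF w d a γ := by
    refine Finset.sum_subset (fun w hw => ?_) fun w _ hw => ?_
    · exact Finset.mem_union_left _ (Finset.mem_union_left _ hw)
    · have h2 := ordF_nonneg w hγ hφ
      have h3 : ¬ 0 < ordF w d a γ := fun h => hw (hB w ((ordF_pos_iff w hγ hφ).mp h))
      omega
  have e2 : ∑ v ∈ P, log (vmax v.1 γ) = height κ γ := by
    symm
    refine finsum_eq_sum_of_support_subset _ fun v hv => ?_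
    by_contra hvP
    apply hv
    simp only
    rw [(hP v hvP).1, log_one]
  have e3 : ∑ v ∈ P, log (v.1 (Fval d (fun I => algebraMap κ M (a I)) γ)) = 0 := by
    rw [← product_formula (κ := κ) hφ]
    symm
    refine finsum_eq_sum_of_support_subset _ fun v hv => ?_
    by_contra hvP
    apply hv
    simp only
    rw [(hP v hvP).2, log_one]
  rw [h1]
  unfold ordF
  rw [Finset.sum_sub_distrib, ← Finset.mul_sum, e2, e3, sub_zero]

/-- **The weighted logarithmic adjunction** (`wt c = 1 / m_c` for the multiplicity `m_c`, and `0`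
for a component of multiplicity `∞`). -/
theorem orb_adj {m N : ℕ} {ι Λ : Type*} [Fintype ι] [DecidableEq ι] [Fintype Λ]
    [DecidableEq Λ] (hN : Fintype.card ι + (m + 2) = N) {d : ι → ℕ} (hd : ∀ b, 1 ≤ d b)
    {a : ι → (Fin N →₀ ℕ) → κ} {d' : Λ → ℕ} {a' : Λ → (Fin N →₀ ℕ) → κ}
    (hsm : ∀ (S : Finset Λ) (u : Fin N → κ), u ≠ 0 → (∀ b, Fval (d b) (a b) u = 0) →
      (∀ c ∈ S, Fval (d' c) (a' c) u = 0) →
      LinearIndependent κ (Sum.elim (fun b => grad (d b) (a b) u)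
        (fun c : S => grad (d' c) (a' c) u)))
    (D : Derivation ℤ M M)
    (hκ : ∀ u : κ, D (algebraMap κ M u) = 0) (hX : D (algebraMap κ[X] M X) = 1)
    (E : Fin m → Derivation ℤ M M)
    (hEκ : ∀ i, ∀ u : κ, ∃ u' : κ, E i (algebraMap κ M u) = algebraMap κ M u')
    (hEX : ∀ i, ∃ u : κ, E i (algebraMap κ[X] M X) = algebraMap κ M u)
    (hEa : ∀ i b, ∀ I ∈ expo (Fin N) (d b), E i (algebraMap κ M (a b I)) = 0)
    (hEa' : ∀ i c, ∀ I ∈ expo (Fin N) (d' c), E i (algebraMap κ M (a' c I)) = 0)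
    {γ : Fin N → M} (hF : ∀ b, Fval (d b) (fun I => algebraMap κ M (a b I)) γ = 0)
    (hφ : ∀ c, Fval (d' c) (fun I => algebraMap κ M (a' c I)) γ ≠ 0)
    (hind : LinearIndependent M (Fin.cons γ (Fin.cons (fun k => D (γ k)) fun i k => E i (γ k)) :
      Fin (m + 2) → Fin N → M))
    {wt : Λ → ℚ} (hwt : ∀ c, 0 ≤ wt c) {cw : Place κ M →₀ ℚ} (hcw0 : ∀ w, 0 ≤ cw w)
    (hcw : ∀ w c, 0 < ordF w (d' c) (a' c) γ → 1 - wt c * ordF w (d' c) (a' c) γ ≤ cw w) :
    ((∑ b, (d b : ℚ)) + (∑ c, (1 - wt c) * (d' c : ℚ)) - N) * height κ γ +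
        2 * Module.finrank (RatFunc κ) M ≤
      ramDeg κ M (RatFunc κ) + cw.sum fun _ x => x := by
  classical
  have hγ : γ ≠ 0 := hind.ne_zero 0
  have h1 := log_wedge_global hN hd hsm D hκ hX E hEκ hEX hEa hEa' hF hφ hind
  have hbf := bdry_finite hγ hφ
  set B := hbf.toFinset with hB
  have hBm : ∀ w : Place κ M, w ∈ B ↔
      ∃ c, w.1 (Fval (d' c) (fun I => algebraMap κ M (a' c I)) γ) < vmax w.1 γ ^ d' c := by
    intro w
    rw [hB, Set.Finite.mem_toFinset]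
    rfl
  have hncard : (bdry d' a' γ).ncard = B.card := Set.ncard_eq_toFinset_card _ hbf
  rw [hncard] at h1
  have h2 : ∀ c, ∑ w ∈ B, (ordF w (d' c) (a' c) γ : ℚ) = d' c * height κ γ := by
    intro c
    have h3 := sum_ordF hγ (hφ c) B fun w hw => (hBm w).2 ⟨c, hw⟩
    exact_mod_cast h3
  have h4 : (B.card : ℚ) - ∑ c, wt c * (d' c * height κ γ) ≤ cw.sum fun _ x => x := by
    have h5 : ∑ c, wt c * ((d' c : ℚ) * height κ γ) =
        ∑ w ∈ B, ∑ c, wt c * (ordF w (d' c) (a' c) γ : ℚ) := by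
      rw [Finset.sum_comm]
      refine Finset.sum_congr rfl fun c _ => ?_
      rw [← h2 c, Finset.mul_sum]
    have h6 : (B.card : ℚ) = ∑ w ∈ B, (1 : ℚ) := by simp
    rw [h5, h6, ← Finset.sum_sub_distrib]
    have h7 : ∀ w ∈ B, 1 - ∑ c, wt c * (ordF w (d' c) (a' c) γ : ℚ) ≤ cw w := by
      intro w hw
      obtain ⟨c, hc⟩ := (hBm w).1 hw
      refine le_trans ?_ (hcw w c ((ordF_pos_iff w hγ (hφ c)).mpr hc))
      have h8 : wt c * (ordF w (d' c) (a' c) γ : ℚ) ≤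
          ∑ c, wt c * (ordF w (d' c) (a' c) γ : ℚ) :=
        Finset.single_le_sum (f := fun c => wt c * (ordF w (d' c) (a' c) γ : ℚ))
          (fun c _ => mul_nonneg (hwt c) (by exact_mod_cast ordF_nonneg w hγ (hφ c)))
          (Finset.mem_univ c)
      linarith
    refine (Finset.sum_le_sum h7).trans ?_
    rw [Finsupp.sum]
    calc ∑ w ∈ B, cw w ≤ ∑ w ∈ B ∪ cw.support, cw w :=
          Finset.sum_le_sum_of_subset_of_nonneg Finset.subset_union_left fun w _ _ => hcw0 w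
      _ = ∑ w ∈ cw.support, cw w := by
          symm
          refine Finset.sum_subset Finset.subset_union_right fun w _ hw => ?_
          exact Finsupp.notMem_support_iff.mp hw
  have h9 : (((∑ b, ((d b : ℚ) - 1)) + ∑ c, (d' c : ℚ)) * height κ γ +
        2 * Module.finrank (RatFunc κ) M : ℚ) ≤
      (m + 2) * height κ γ + ramDeg κ M (RatFunc κ) + B.card := by
    exact_mod_cast h1
  have h10 : ((∑ b, (d b : ℚ)) + (∑ c, (1 - wt c) * (d' c : ℚ)) - N) * height κ γ =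
      ((∑ b, ((d b : ℚ) - 1)) + ∑ c, (d' c : ℚ)) * height κ γ - (m + 2) * height κ γ -
        ∑ c, wt c * (d' c * height κ γ) := by
    have h11 : (N : ℚ) = Fintype.card ι + (m + 2) := by
      rw [← hN]
      push_cast
      ring
    have h12 : ∑ c, wt c * ((d' c : ℚ) * height κ γ) = (∑ c, wt c * (d' c : ℚ)) * height κ γ := by
      rw [Finset.sum_mul]
      exact Finset.sum_congr rfl fun c _ => by ring
    rw [h12, h11, Finset.sum_sub_distrib]
    simp only [sub_mul, one_mul, Finset.sum_sub_distrib, Finset.sum_const, Finset.card_univ,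
      nsmul_eq_mul, mul_one]
    ring
  rw [h10]
  linarith

end Pool.Agent.Lib.MP_44a246_ntSF
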