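import Mathlib
import Pool.Agent.Lib.MP_44a246_ntV.VBasis
import Pool.Agent.Lib.MP_44a246_ntU.U13
import Pool.Agent.Lib.MP_44a246_nt.Tangent
import Pool.Agent.Lib.MP_e52354_ntG.LinAlg

/-!
# Paper 678, Part C: derivations of a function field which preserve the constants
-/

namespace Pool.Agent.Lib.MP_44a246_ntSF

open Pool.Agent.Lib.MP_e52354_nt
open Pool.Agent.Lib.MP_44a246_nt
open Pool.Agent.Lib.MP_44a246_ntL
open Pool.Agent.Lib.MP_44a246_ntV
open Pool.Agent.Lib.MP_44a246_ntU (exists_der_indepV indep_pointV)
open Pool.Agent.Lib.MP_e52354_ntG (exists_extension)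
open Module

/-- **Derivations over the constants.** `M` is a function field over `F`, `D` is the derivation
over `F` with `D t = 1`; `r + 1` of the affine coordinates of the point `γ` are algebraically
independent over the subfield `k₂` of `F`, and `γ` is not `F`-rational. Then there are `r`
derivations of `M` over `k₂` which preserve `F` and kill `t`, such that `γ`, `D γ` and the
derivatives `E i γ` are independent. -/
theorem exists_ders_over {k₂ F M : Type*} [Field k₂] [CharZero k₂] [Field F] [Field M]
    [Algebra k₂ F] [Algebra F M] [Algebra k₂ M] [IsScalarTower k₂ F M] {t : M}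
    (ht : Transcendental F t) (halg : Algebra.IsAlgebraic (IntermediateField.adjoin F {t}) M)
    (D : Derivation ℤ M M) (hD : ∀ u : F, D (algebraMap F M u) = 0) (hDt : D t = 1)
    {N r : ℕ} {γ : Fin N → M} {l : Fin N} (hl : γ l ≠ 0) {j : Fin (r + 1) → Fin N}
    (hind : AlgebraicIndependent k₂ (fun i => γ (j i) / γ l))
    (hγ : ∃ k, D (γ k / γ l) ≠ 0) :
    ∃ E : Fin r → Derivation ℤ M M,
      (∀ i, ∀ u : F, ∃ u' : F, E i (algebraMap F M u) = algebraMap F M u') ∧
      (∀ i, E i t = 0) ∧ (∀ i, ∀ u : k₂, E i (algebraMap k₂ M u) = 0) ∧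
      LinearIndependent M (Fin.cons γ (Fin.cons (fun k => D (γ k)) fun i k => E i (γ k)) :
        Fin (r + 2) → Fin N → M) := by
  classical
  obtain ⟨ι, z, Eb, hz0, hzc, hzalg, hEz, hEF⟩ := exists_basis_ders' (k₀ := k₂) ht halg
  have hDk : ∀ u : k₂, D (algebraMap k₂ M u) = 0 := by
    intro u
    rw [IsScalarTower.algebraMap_apply k₂ F M]
    exact hD _
  have hEt : ∀ b : ι, Eb (Sum.inr b) t = 0 := by
    intro b
    rw [← hz0, hEz, if_neg (by simp)]
  -- the derivation `D`
  have hDE : ∀ y, D y = Eb (Sum.inl ()) y := by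
    intro y
    obtain ⟨s, hs⟩ := density (k₀ := k₂) (K := M) (L := M) hzalg
      (fun b => (Eb b).restrictScalars ℤ) (fun b c => (Eb b).map_algebraMap c)
      (fun b b' => hEz b b') D hDk {y}
    have h1 := hs y (Finset.mem_singleton_self y)
    have h2 : ∀ b ∈ s, D (algebraMap M M (z b)) * (Eb b).restrictScalars ℤ y =
        if b = Sum.inl () then Eb (Sum.inl ()) y else 0 := by
      intro b _
      rcases b with ⟨⟩ | b
      · rw [if_pos rfl]
        show D (z (Sum.inl ())) * Eb (Sum.inl ()) y = _
        rw [hz0, hDt, one_mul]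
      · rw [if_neg (by simp)]
        have h3 : D (z (Sum.inr b)) = 0 := by
          rcases hzc (Sum.inr b) with h | ⟨u, h⟩
          · exfalso
            have h4 := hEz (Sum.inr b) (Sum.inr b)
            rw [h, hEt b, if_pos rfl] at h4
            exact zero_ne_one h4
          · rw [h, hD]
        show D (z (Sum.inr b)) * _ = 0
        rw [h3, zero_mul]
    rw [Finset.sum_congr rfl h2, Finset.sum_ite_eq'] at h1
    split_ifs at h1 with h3
    · exact h1
    · -- `inl` is not in `s`: then `D y = 0`; use the set of `y` and `t`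
      obtain ⟨s', hs'⟩ := density (k₀ := k₂) (K := M) (L := M) hzalg
        (fun b => (Eb b).restrictScalars ℤ) (fun b c => (Eb b).map_algebraMap c)
        (fun b b' => hEz b b') D hDk {y, t}
      have h4 := hs' t (by simp)
      have h5 := hs' y (by simp)
      have h2' : ∀ x : M, ∀ b ∈ s', D (algebraMap M M (z b)) * (Eb b).restrictScalars ℤ x =
          if b = Sum.inl () then Eb (Sum.inl ()) x else 0 := by
        intro x b _
        rcases b with ⟨⟩ | b
        · rw [if_pos rfl]
          show D (z (Sum.inl ())) * Eb (Sum.inl ()) x = _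
          rw [hz0, hDt, one_mul]
        · rw [if_neg (by simp)]
          have h3 : D (z (Sum.inr b)) = 0 := by
            rcases hzc (Sum.inr b) with h | ⟨u, h⟩
            · exfalso
              have h4 := hEz (Sum.inr b) (Sum.inr b)
              rw [h, hEt b, if_pos rfl] at h4
              exact zero_ne_one h4
            · rw [h, hD]
          show D (z (Sum.inr b)) * _ = 0
          rw [h3, zero_mul]
      rw [Finset.sum_congr rfl (h2' t), Finset.sum_ite_eq', hDt] at h4
      rw [Finset.sum_congr rfl (h2' y), Finset.sum_ite_eq'] at h5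
      split_ifs at h4 with h6
      · rw [if_pos h6] at h5
        exact h5
      · exact absurd h4 one_ne_zero
  -- the dual derivations
  choose e he0 he using fun i : Fin (r + 1) => exists_der_indepV (k := k₂) (κ := M) hind
    (fun i' => if i = i' then (1 : M) else 0)
  have hli := indep_pointV hl e he
  set Y : Fin 2 → Fin N → M := ![γ, fun k => D (γ k)] with hY
  set S : Set (Fin N → M) := Set.range fun b : ι => fun k => Eb (Sum.inr b) (γ k) with hS
  set T : Submodule M (Fin N → M) := Submodule.span M (Set.range Y ∪ S) with hT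
  have hYT : ∀ i, Y i ∈ T := fun i => Submodule.subset_span (Or.inl ⟨i, rfl⟩)
  have hST : ∀ y ∈ S, y ∈ T := fun y hy => Submodule.subset_span (Or.inr hy)
  have heT : ∀ i, (fun k => e i (γ k)) ∈ T := by
    intro i
    obtain ⟨s, hs⟩ := density (k₀ := k₂) (K := M) (L := M) hzalg
      (fun b => (Eb b).restrictScalars ℤ) (fun b c => (Eb b).map_algebraMap c)
      (fun b b' => hEz b b') (e i) (he0 i) (Finset.univ.image γ)
    have h1 : (fun k => e i (γ k)) = ∑ b ∈ s, e i (z b) • fun k => Eb b (γ k) := by
      funext k
      rw [hs (γ k) (Finset.mem_image_of_mem _ (Finset.mem_univ k)), Finset.sum_apply]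
      rfl
    rw [h1]
    refine Submodule.sum_mem _ fun b _ => Submodule.smul_mem _ _ ?_
    rcases b with ⟨⟩ | b
    · have h2 : (fun k => Eb (Sum.inl ()) (γ k)) = Y 1 := by
        funext k
        exact (hDE (γ k)).symm
      show (fun k => Eb (Sum.inl ()) (γ k)) ∈ T
      rw [h2]
      exact hYT 1
    · exact hST _ ⟨b, rfl⟩
  have hrank : r + 2 ≤ finrank M T := by
    have h1 : Submodule.span M (Set.range
        (Fin.cons γ (fun i k => e i (γ k)) : Fin (r + 2) → Fin N → M)) ≤ T := by
      rw [Submodule.span_le]
      rintro _ ⟨i, rfl⟩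
      refine Fin.cases ?_ (fun i => ?_) i
      · exact hYT 0
      · exact heT i
    have h2 := Submodule.finrank_mono h1
    rw [finrank_span_eq_card hli, Fintype.card_fin] at h2
    exact h2
  have hYli : LinearIndependent M Y := by
    rw [hY, LinearIndependent.pair_iff]
    intro a b hab
    have h1 : ∀ k, a * γ k + b * D (γ k) = 0 := fun k => congrFun hab k
    obtain ⟨k, hk⟩ := hγ
    have h2 : γ k = γ l * (γ k / γ l) := by field_simp
    have h3 : D (γ k) = γ l * D (γ k / γ l) + (γ k / γ l) * D (γ l) := by
      conv_lhs => rw [h2]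
      rw [Derivation.leibniz, smul_eq_mul, smul_eq_mul]
    have h4 : b * (γ l * D (γ k / γ l)) = 0 := by
      have h5 := h1 k
      have h6 := h1 l
      have h7 : (γ k / γ l) * (a * γ l + b * D (γ l)) = 0 := by rw [h6, mul_zero]
      have h8 : a * γ k = a * γ l * (γ k / γ l) := by field_simp
      rw [h3] at h5
      linear_combination h5 - h7 - h8
    have h5 : b = 0 := (mul_eq_zero.mp h4).resolve_right (mul_ne_zero hl hk)
    have h6 := h1 l
    rw [h5, zero_mul, add_zero] at h6
    exact ⟨(mul_eq_zero.mp h6).resolve_right hl, h5⟩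
  obtain ⟨Z, hZS, hZli⟩ := exists_extension (k := 2) (r := finrank M T - 2) T (by omega) Y hYli
    hYT S hST le_rfl
  choose b hb using hZS
  let ν : Fin r → Fin (finrank M T - 2) := fun i => ⟨i, by have := i.2; omega⟩
  refine ⟨fun i => (Eb (Sum.inr (b (ν i)))).restrictScalars ℤ, fun i u => hEF _ u,
    fun i => hEt _, fun i u => (Eb _).map_algebraMap u, ?_⟩
  let g : Fin (r + 2) → Fin 2 ⊕ Fin (finrank M T - 2) :=
    Fin.cons (Sum.inl 0) (Fin.cons (Sum.inl 1) fun i => Sum.inr (ν i))
  have hg : Function.Injective g := by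
    intro i i'
    refine Fin.cases ?_ (fun i => ?_) i <;> refine Fin.cases ?_ (fun i' => ?_) i'
    · intro _
      rfl
    · refine Fin.cases ?_ (fun i' => ?_) i'
      · intro h
        simp [g] at h
      · intro h
        simp [g] at h
    · refine Fin.cases ?_ (fun i => ?_) i
      · intro h
        simp [g] at h
      · intro h
        simp [g] at h
    · refine Fin.cases ?_ (fun i => ?_) i <;> refine Fin.cases ?_ (fun i' => ?_) i'
      · intro _
        rfl
      · intro h
        simp [g] at h
      · intro h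
        simp [g] at h
      · intro h
        simp only [g, Fin.cons_succ, Sum.inr.injEq, ν, Fin.mk.injEq] at h
        rw [Fin.ext h]
  have h1 := hZli.comp g hg
  have h2 : (Sum.elim Y Z) ∘ g = (Fin.cons γ (Fin.cons (fun k => D (γ k))
      fun i k => (Eb (Sum.inr (b (ν i)))).restrictScalars ℤ (γ k)) :
      Fin (r + 2) → Fin N → M) := by
    funext i
    refine Fin.cases ?_ (fun i => ?_) i
    · rfl
    · refine Fin.cases ?_ (fun i => ?_) i
      · rfl
      · exact (hb (ν i)).symm
  rwa [h2] at h1

end Pool.Agent.Lib.MP_44a246_ntSF
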