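import Mathlib
import Pool.Agent.Lib.MP_44a246_ntSF.SFC01
import Pool.Agent.Lib.MP_44a246_ntSF.SFC02
import Pool.Agent.Lib.MP_44a246_ntSF.SFB10
import Pool.Agent.Lib.MP_44a246_ntSM.SM00
import Pool.Agent.Lib.MP_44a246_ntR.GR1

/-!
# Paper 678, Part C: a point in a field with enough stable valuation rings is not a point of an
orbifold of general type
-/

namespace Pool.Agent.Lib.MP_44a246_ntSF

open Pool.Agent.Lib.MP_e52354_nt
open Pool.Agent.Lib.MP_44a246_nt
open Pool.Agent.Lib.MP_44a246_ntL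
open Pool.Agent.Lib.MP_44a246_ntR
open Pool.Agent.Lib.MP_44a246_ntS
open Pool.Agent.Lib.MP_44a246_ntU (exists_der_indepV)
open Pool.Agent.Lib.MP_44a246_ntSH (bdry bdry_finite smooth_of_derL)
open WithZero Polynomial Module

/-- the weight `q` at the place `w` -/
def WtAt {F U M : Type*} [Field F] [Field U] [Algebra F U] [Field M] [Algebra F M] [Algebra M U]
    (D : Derivation ℤ U U) (𝒪 : Set (Subring U)) (w : Place F M) (q : ℚ) : Prop :=
  ∀ O ∈ 𝒪, Over O w → ∀ π : M, w.1 π = exp (-1 : ℤ) → ∀ p n : ℕ, 0 < n →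
    (p : ℚ) ≤ n * q → D (algebraMap M U π) ^ n / algebraMap M U π ^ p ∈ O

theorem wt_iff {F U M : Type*} [Field F] [Field U] [Algebra F U] [Field M] [Algebra F M]
    [Algebra M U] {D : Derivation ℤ U U} {𝒪 : Set (Subring U)} {c : Place F M → ℚ} :
    Wt D 𝒪 c ↔ ∀ w, WtAt D 𝒪 w (c w) :=
  ⟨fun h w O hO => h O hO w, fun h O hO w => h w O hO⟩

theorem WtAt.of_nonpos {F U M : Type*} [Field F] [Field U] [Algebra F U] [Field M] [Algebra F M]
    [Algebra M U] {D : Derivation ℤ U U} {G : IntermediateField F U} {𝒪 : Set (Subring U)}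
    (h : Fam D G 𝒪) {w : Place F M} {q : ℚ} (hq : q ≤ 0) : WtAt D 𝒪 w q := by
  intro O hO hOw π hπ p n hn hp
  have h1 : (p : ℚ) ≤ 0 := hp.trans (mul_nonpos_of_nonneg_of_nonpos (Nat.cast_nonneg n) hq)
  have h2 : p = 0 := by
    have h3 : (p : ℚ) = 0 := le_antisymm h1 (Nat.cast_nonneg p)
    exact_mod_cast h3
  rw [h2, pow_zero, div_one]
  refine O.pow_mem (h.der O hO _ ?_) n
  rw [hOw, hπ]
  exact exp_le_exp.mpr (by norm_num)

section

variable {F U M : Type*} [Field F] [IsAlgClosed F] [CharZero F] [Field U] [Algebra F U] [Field M]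
  [Algebra F M] [Algebra M U] [IsScalarTower F M U]
  [Algebra F[X] M] [IsScalarTower F F[X] M]
  [Algebra (RatFunc F) M] [IsScalarTower F[X] (RatFunc F) M]
  [Algebra (Rinf F) M] [IsScalarTower (Rinf F) (RatFunc F) M]
  [FiniteDimensional (RatFunc F) M]

omit [IsAlgClosed F] [CharZero F] [Field U] [Algebra F U] [Algebra M U] [IsScalarTower F M U]
  [Algebra (Rinf F) M] [IsScalarTower (Rinf F) (RatFunc F) M] [FiniteDimensional (RatFunc F) M] in
theorem transcendental_X : Transcendental F (algebraMap F[X] M X) := by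
  rw [transcendental_iff_injective]
  have h1 : ∀ p : F[X], aeval (algebraMap F[X] M X) p = algebraMap F[X] M p := by
    intro p
    rw [aeval_algebraMap_apply, aeval_X_left_apply]
  intro p q hpq
  rw [h1, h1] at hpq
  have h2 : Function.Injective (algebraMap F[X] M) := by
    rw [IsScalarTower.algebraMap_eq F[X] (RatFunc F) M]
    exact (algebraMap (RatFunc F) M).injective.comp (RatFunc.algebraMap_injective F)
  exact h2 hpq

omit [IsAlgClosed F] [CharZero F] [Field U] [Algebra F U] [Algebra M U] [IsScalarTower F M U]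
  [Algebra (Rinf F) M] [IsScalarTower (Rinf F) (RatFunc F) M] in
theorem isAlgebraic_adjoin_X :
    Algebra.IsAlgebraic (IntermediateField.adjoin F {algebraMap F[X] M X}) M := by
  have h1 : ∀ g : F[X], algebraMap F[X] M g ∈ IntermediateField.adjoin F {algebraMap F[X] M X} := by
    intro g
    have h2 : algebraMap F[X] M g = aeval (algebraMap F[X] M X) g := by
      rw [aeval_algebraMap_apply, aeval_X_left_apply]
    rw [h2, aeval_eq_sum_range]
    exact sum_mem fun i _ => (IntermediateField.adjoin F {algebraMap F[X] M X}).smul_mem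
      (pow_mem (IntermediateField.mem_adjoin_simple_self F _) i)
  have h2 : ∀ u : RatFunc F,
      algebraMap (RatFunc F) M u ∈ IntermediateField.adjoin F {algebraMap F[X] M X} := by
    intro u
    obtain ⟨a, b, hb, rfl⟩ := IsFractionRing.div_surjective (A := F[X]) u
    rw [map_div₀, ← IsScalarTower.algebraMap_apply, ← IsScalarTower.algebraMap_apply]
    exact div_mem (h1 a) (h1 b)
  let φ : RatFunc F →+* IntermediateField.adjoin F {algebraMap F[X] M X} :=
    (algebraMap (RatFunc F) M).codRestrict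
      (IntermediateField.adjoin F {algebraMap F[X] M X}).toSubfield h2
  refine ⟨fun y => ?_⟩
  obtain ⟨p, hp, hpy⟩ := (Algebra.IsAlgebraic.isAlgebraic y : IsAlgebraic (RatFunc F) y)
  refine ⟨p.map φ, (Polynomial.map_ne_zero_iff φ.injective).mpr hp, ?_⟩
  rw [aeval_def, eval₂_map]
  exact hpy

omit [Field U] [Algebra F U] [Algebra M U] [IsScalarTower F M U] [Algebra F[X] M]
  [IsScalarTower F F[X] M] [Algebra (RatFunc F) M] [IsScalarTower F[X] (RatFunc F) M]
  [Algebra (Rinf F) M] [IsScalarTower (Rinf F) (RatFunc F) M] [FiniteDimensional (RatFunc F) M] in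
/-- a point which is not rational over the constants has positive height -/
theorem height_pos_of (hM : IsFF F M) {N : ℕ} {γ : Fin N → M} {l k : Fin N} (hl : γ l ≠ 0)
    (hk : ∀ u : F, algebraMap F M u ≠ γ k / γ l) : 0 < height F γ := by
  classical
  obtain ⟨w₀, hw₀⟩ : ∃ w : Place F M, 1 < w.1 (γ k / γ l) := by
    by_contra hcon
    push Not at hcon
    obtain ⟨c, hc⟩ := const_of_rr_zero hM hcon
    exact hk c hc
  have hγ : γ ≠ 0 := fun h0 => hl (by rw [h0]; rfl)
  have hle : ∀ w : Place F M, w.1 (γ l) ≤ vmax w.1 γ := fun w => le_vmax w.1 γ l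
  have hβw : ∀ w : Place F M, w.1 (γ l) ≠ 0 := fun w => (Valuation.ne_zero_iff w.1).mpr hl
  have hγw : ∀ w : Place F M, vmax w.1 γ ≠ 0 := fun w h =>
    hβw w (le_zero_iff.mp (h ▸ hle w))
  set P : Finset (Place F M) := insert w₀ ((hM.place_finite hl).toFinset ∪
    (hM.vmax_finite hγ).toFinset) with hP
  have hs1 : Function.support (fun v : Place F M => log (v.1 (γ l))) ⊆ (P : Set (Place F M)) := by
    intro v hv
    rw [hP, Finset.coe_insert, Finset.coe_union, Set.Finite.coe_toFinset]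
    right; left
    intro h2
    apply hv
    simp only
    rw [h2, log_one]
  have hs2 : Function.support (fun v : Place F M => log (vmax v.1 γ)) ⊆
      (P : Set (Place F M)) := by
    intro v hv
    rw [hP, Finset.coe_insert, Finset.coe_union, Set.Finite.coe_toFinset, Set.Finite.coe_toFinset]
    right; right
    intro h2
    apply hv
    simp only
    rw [h2, log_one]
  have hpf : (0 : ℤ) = ∑ᶠ v : Place F M, log (v.1 (γ l)) := (hM.product_formula hl).symm
  rw [hpf, height, finsum_eq_sum_of_support_subset _ hs1, finsum_eq_sum_of_support_subset _ hs2]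
  refine Finset.sum_lt_sum (fun v _ => (log_le_log (hβw v) (hγw v)).mpr (hle v))
    ⟨w₀, Finset.mem_insert_self _ _, ?_⟩
  refine (log_lt_log (hβw w₀) (hγw w₀)).mpr (lt_of_lt_of_le ?_ (le_vmax w₀.1 γ k))
  have hpos : 0 < w₀.1 (γ l) := zero_lt_iff.mpr (hβw w₀)
  rw [map_div₀] at hw₀
  calc w₀.1 (γ l) = 1 * w₀.1 (γ l) := (one_mul _).symm
    _ < w₀.1 (γ k) / w₀.1 (γ l) * w₀.1 (γ l) := mul_lt_mul_of_pos_right hw₀ hpos
    _ = w₀.1 (γ k) := div_mul_cancel₀ _ (hβw w₀)

/-- **The limit theorem.** -/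
theorem orb_limit {D : Derivation ℤ U U} {G : IntermediateField F U} {𝒪 : Set (Subring U)}
    (h : Fam D G 𝒪) (hMG : ∀ u : M, algebraMap M U u ∈ G)
    {r N : ℕ} {ι Λ : Type*} [Fintype ι] [DecidableEq ι] [Fintype Λ]
    [DecidableEq Λ] (hN : Fintype.card ι + (r + 2) = N) {d : ι → ℕ} (hd : ∀ b, 1 ≤ d b)
    {a : ι → (Fin N →₀ ℕ) → F} {d' : Λ → ℕ} {a' : Λ → (Fin N →₀ ℕ) → F}
    (W : ι ⊕ Λ → (Fin N →₀ ℕ) → Derivation ℤ F F)
    (hW : ∀ b, ∀ I ∈ expo (Fin N) (Sum.elim d d' b), ∀ b',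
      ∀ J ∈ expo (Fin N) (Sum.elim d d' b'),
      W b I (Sum.elim a a' b' J) = if (b, I) = (b', J) then 1 else 0)
    {k₂ : Type*} [Field k₂] [CharZero k₂] [Algebra k₂ F] [Algebra k₂ M] [IsScalarTower k₂ F M]
    (ha : ∀ b, ∀ I ∈ expo (Fin N) (d b), ∃ u : k₂, algebraMap k₂ F u = a b I)
    (ha' : ∀ c, ∀ I ∈ expo (Fin N) (d' c), ∃ u : k₂, algebraMap k₂ F u = a' c I)
    {γ : Fin N → M} {l : Fin N} (hl : γ l ≠ 0)
    (hF : ∀ b, Fval (d b) (fun I => algebraMap F M (a b I)) γ = 0)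
    (hφ : ∀ c, Fval (d' c) (fun I => algebraMap F M (a' c I)) γ ≠ 0)
    {j : Fin (r + 1) → Fin N} (hind : AlgebraicIndependent k₂ (fun i => γ (j i) / γ l))
    (hγ : ∃ k, ∀ u : F, algebraMap F M u ≠ γ k / γ l)
    {wt : Λ → ℚ} (hwt0 : ∀ c, 0 ≤ wt c)
    (hwt : ∀ (w : Place F M) (c : Λ), 0 < ordF w (d' c) (a' c) γ →
      WtAt D 𝒪 w (1 - wt c * ordF w (d' c) (a' c) γ)) :
    (∑ b, (d b : ℚ)) + (∑ c, (1 - wt c) * (d' c : ℚ)) ≤ N := by
  classical
  have hγ0 : γ ≠ 0 := fun h0 => hl (by rw [h0]; rfl)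
  have htow : IsScalarTower F (RatFunc F) M := by
    refine IsScalarTower.of_algebraMap_eq fun c => ?_
    rw [IsScalarTower.algebraMap_apply F F[X] M, IsScalarTower.algebraMap_apply F[X] (RatFunc F) M,
      ← IsScalarTower.algebraMap_apply F F[X] (RatFunc F)]
  have ht : Transcendental F (algebraMap F[X] M X) := transcendental_X
  have halg : Algebra.IsAlgebraic (IntermediateField.adjoin F {algebraMap F[X] M X}) M :=
    isAlgebraic_adjoin_X
  -- the derivation over `F`
  obtain ⟨D₁, hD₁, hD₁X⟩ := exists_der_indepV (k := F) (κ := M)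
    (c := fun _ : Unit => algebraMap F[X] M X) (algebraicIndependent_unique_type_iff.mpr ht)
    (fun _ => 1)
  have hγ' : ∃ k, D₁ (γ k / γ l) ≠ 0 := by
    obtain ⟨k, hk⟩ := hγ
    refine ⟨k, fun h0 => ?_⟩
    obtain ⟨w₀, hw₀⟩ : ∃ w : Place F M, 1 < w.1 (γ k / γ l) := by
      by_contra hcon
      push Not at hcon
      obtain ⟨c, hc⟩ := const_of_rr_zero (isFF_of_ratFunc F M) hcon
      exact hk c hc
    obtain ⟨𝔎, -, h𝔎⟩ := Pool.Agent.Lib.MP_44a246_ntSM.exists_canon D₁ hD₁ (hD₁X ())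
    have h1 := (h𝔎 w₀).1 _ hw₀.ne'
    rw [h0, map_zero] at h1
    exact mul_ne_zero (zero_lt_one.trans hw₀).ne' exp_ne_zero h1.symm
  obtain ⟨E, hEF, hEX, hEk, hli⟩ := exists_ders_over (k₂ := k₂) ht halg D₁ hD₁ (hD₁X ()) hl hind hγ'
  -- the weights
  have hbf := bdry_finite hγ0 hφ
  have key : ∀ w : Place F M, ∀ s : Finset Λ, ∃ q : ℚ, 0 ≤ q ∧ q ≤ 1 ∧ WtAt D 𝒪 w q ∧
      (∀ c ∈ s, 0 < ordF w (d' c) (a' c) γ → 1 - wt c * ordF w (d' c) (a' c) γ ≤ q) ∧
      ((∀ c ∈ s, ¬ 0 < ordF w (d' c) (a' c) γ) → q = 0) := by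
    intro w s
    induction s using Finset.induction_on with
    | empty =>
      exact ⟨0, le_refl _, by norm_num, WtAt.of_nonpos h le_rfl,
        fun c hc => absurd hc (Finset.notMem_empty c), fun _ => rfl⟩
    | insert c s hc ih =>
      obtain ⟨q, h1, h2, h3, h4, h5⟩ := ih
      by_cases ho : 0 < ordF w (d' c) (a' c) γ
      · refine ⟨max q (1 - wt c * ordF w (d' c) (a' c) γ), h1.trans (le_max_left _ _),
          max_le h2 ?_, ?_, fun c' hc' ho' => ?_, fun hno => ?_⟩
        · have h6 : 0 ≤ wt c * (ordF w (d' c) (a' c) γ : ℚ) :=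
            mul_nonneg (hwt0 c) (by exact_mod_cast ho.le)
          linarith
        · rcases le_total q (1 - wt c * ordF w (d' c) (a' c) γ) with h6 | h6
          · rw [max_eq_right h6]
            exact hwt w c ho
          · rw [max_eq_left h6]
            exact h3
        · rcases Finset.mem_insert.mp hc' with rfl | hc'
          · exact le_max_right _ _
          · exact (h4 c' hc' ho').trans (le_max_left _ _)
        · exact absurd ho (hno c (Finset.mem_insert_self c s))
      · refine ⟨q, h1, h2, h3, fun c' hc' ho' => ?_, fun hno => h5 fun c' hc' =>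
          hno c' (Finset.mem_insert_of_mem hc')⟩
        rcases Finset.mem_insert.mp hc' with rfl | hc'
        · exact absurd ho' ho
        · exact h4 c' hc' ho'
  choose q hq0 hq1 hqW hqc hqz using fun w => key w Finset.univ
  have hqb : ∀ w, q w ≠ 0 → w ∈ hbf.toFinset := by
    intro w hw
    rw [Set.Finite.mem_toFinset]
    by_contra hcon
    refine hw (hqz w fun c _ ho => hcon ?_)
    exact ⟨c, (ordF_pos_iff w hγ0 (hφ c)).mp ho⟩
  let cw : Place F M →₀ ℚ := Finsupp.onFinset hbf.toFinset q hqb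
  have hcw : ∀ w, cw w = q w := fun _ => rfl
  have hB := theoremB (M := M) h hMG cw (fun w => by rw [hcw]; exact hq0 w)
    (fun w => by rw [hcw]; exact hq1 w) (wt_iff.mpr fun w => by rw [hcw]; exact hqW w)
  have hadj := orb_adj hN hd (fun S u hu h1 h2 => smooth_of_derL W hW S u hu h1 h2) D₁ hD₁
    (hD₁X ()) E hEF (fun i => ⟨0, by rw [hEX, map_zero]⟩)
    (fun i b I hI => by
      obtain ⟨u, hu⟩ := ha b I hI
      rw [← hu, ← IsScalarTower.algebraMap_apply k₂ F M]
      exact hEk i u)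
    (fun i c I hI => by
      obtain ⟨u, hu⟩ := ha' c I hI
      rw [← hu, ← IsScalarTower.algebraMap_apply k₂ F M]
      exact hEk i u)
    hF hφ hli hwt0 (cw := cw) (fun w => by rw [hcw]; exact hq0 w)
    (fun w c ho => by rw [hcw]; exact hqc w c (Finset.mem_univ c) ho)
  have hh : 0 < height F γ := by
    obtain ⟨k, hk⟩ := hγ
    exact height_pos_of (isFF_of_ratFunc F M) hl hk
  have hh' : (0 : ℚ) < height F γ := by exact_mod_cast hh
  by_contra hcon
  push Not at hcon
  have h1 : 0 < ((∑ b, (d b : ℚ)) + (∑ c, (1 - wt c) * (d' c : ℚ)) - N) * height F γ :=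
    mul_pos (by linarith) hh'
  linarith

end

end Pool.Agent.Lib.MP_44a246_ntSF
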