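import Mathlib
import Pool.Agent.Lib.MP_44a246_ntSF.SFC03
import Pool.Agent.Lib.MP_44a246_ntSF.SFA05
import Pool.Agent.Lib.MP_44a246_ntSP.TR04
import Pool.Agent.Lib.MP_44a246_ntSH.PJ16a

/-!
# Paper 678: the limit curve of a sequence of points with curves of small height
-/

namespace Pool.Agent.Lib.MP_44a246_ntSF

open Pool.Agent.Lib.MP_e52354_nt
open Pool.Agent.Lib.MP_44a246_nt
open Pool.Agent.Lib.MP_44a246_ntL
open Pool.Agent.Lib.MP_44a246_ntS
open Pool.Agent.Lib.MP_44a246_ntSH
open Pool.Agent.Lib.MP_44a246_ntSP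
open Pool.Agent.Lib.MP_44a246_ntU (exists_der_indepV algIndep_germV)
open Pool.Agent.Lib.MP_44a246_ntK (jexpo mem_jexpo)
open WithZero Module Polynomial

universe u v w

section Tow

variable {κ : Type u} {K : Type v} {Ω : Type w} [Field κ] [IsAlgClosed κ] [CharZero κ]
  [Field K] [Algebra κ K] [Field Ω] [Algebra K Ω] [Algebra κ Ω] [IsScalarTower κ K Ω]
  (W : Tow κ K Ω)

/-- the elements of `K` in the field `F0` -/
noncomputable def cstHom : K →+* W.F0 :=
  ((constHom (L := Ω)).comp (algebraMap K Ω)).codRestrict W.F0 fun u => W.const_mem_F0 u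

theorem cstHom_coe (u : K) :
    algebraMap W.F0 (UP Ω) (cstHom W u) = constHom (algebraMap K Ω u) := rfl

variable {W}

/-- the germs which are algebraic over `F0` are in `F0` -/
theorem mem_F0_of_isAlgebraic {z : UP Ω} (h : IsAlgebraic W.F0 z) : z ∈ W.F0 :=
  W.mem_F0.2 (h.restrictScalars W.sm)

/-- the values of a form with coefficients in `K` -/
theorem fval_M (M : IntermediateField W.F0 (UP Ω)) {n D : ℕ} (a : (Fin (n + 1) →₀ ℕ) → K)
    (γ : Fin (n + 1) → M) :
    algebraMap M (UP Ω) (Fval D (fun I => algebraMap W.F0 M (cstHom W (a I))) γ) =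
      Fval D (fun I => constHom (algebraMap K Ω (a I))) (fun l => (γ l : UP Ω)) :=
  MP_44a246_ntSH.map_Fval (algebraMap M (UP Ω)) D _ γ

/-- **The limit curve**: a function field of one variable over `F0` in the field of the tame germs
which contains the germ of the sequence of points (up to scaling). -/
theorem exists_limit_field [IsAlgClosed Ω] [Algebra.IsAlgebraic K Ω] {n b N₁ p C : ℕ}
    {d : Fin p → ℕ} {a : Fin p → (Fin (n + 1) →₀ ℕ) → K}
    {x : ∀ N, Fin (n + 1) → W.L N} {l : Fin (n + 1)} (hxl : ∀ N, x N l = 1)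
    (hbig : ∀ C : ℕ, ¬ ∀ᶠ N in (Filter.hyperfilter ℕ : Filter ℕ),
      height κ (x N) ≤ C * (W.T N : ℤ))
    (hcert : ∀ N, CertN κ d (fun j I => algebraMap K (W.L N) (a j I)) b N₁
      (C * (W.T N : ℤ)) (x N)) :
    ∃ M : IntermediateField W.F0 (UP Ω), IsFF W.F0 M ∧ (∀ u ∈ M, u ∈ tm W) ∧
      ∀ j, germHom (fun N => (x N j : Ω)) ∈ M := by
  classical
  have hcΩ : CharZero Ω := charZero_of_injective_algebraMap (algebraMap κ Ω).injective
  obtain ⟨c, y₁, y, A', G, ξ₀, ξ₁, ξ₂, hc0, hA'irr, hD⟩ := transfer W hcert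
  obtain ⟨s, hs⟩ : ∃ s : UP Ω, s = germHom fun N => (y₁ N : Ω) := ⟨_, rfl⟩
  obtain ⟨t, ht⟩ : ∃ t : UP Ω, t = germHom fun N => (y N : Ω) := ⟨_, rfl⟩
  rw [← hs, ← ht] at hD
  have hstm : s ∈ tm W := by rw [hs]; exact germ_mem_tm y₁
  have httm : t ∈ tm W := by rw [ht]; exact germ_mem_tm y
  have hcx : ∀ j, germHom (fun N => ((c N * x N j : W.L N) : Ω)) =
      germHom (fun N => (c N : Ω)) * germHom (fun N => (x N j : Ω)) := by
    intro j
    rw [← map_mul]
    rfl
  have hcg : germHom (fun N => (c N : Ω)) ≠ 0 := by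
    intro h0
    rw [germHom_eq_zero_iff] at h0
    obtain ⟨N, hN⟩ := h0.exists
    exact hc0 N (Subtype.ext hN)
  have hxl' : germHom (fun N => (x N l : Ω)) = 1 := by
    have : (fun N => (x N l : Ω)) = 1 := funext fun N => by rw [hxl]; rfl
    rw [this, map_one]
  -- values
  have hzero : ev (algebraMap W.F0 (UP Ω)) s t A' = 0 := by
    rw [ev_eq_evalEval]
    exact hD.zero
  have hder : ev (algebraMap W.F0 (UP Ω)) s t (derivative A') ≠ 0 := by
    rw [ev_eq_evalEval, MP_44a246_ntY.ex_derivative]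
    exact hD.der
  have hval : ∀ j, ev (algebraMap W.F0 (UP Ω)) s t (derivative A') *
      (germHom (fun N => (c N : Ω)) * germHom (fun N => (x N j : Ω))) =
      ev (algebraMap W.F0 (UP Ω)) s t (G j) := by
    intro j
    rw [ev_eq_evalEval, ev_eq_evalEval, MP_44a246_ntY.ex_derivative, ← hcx]
    exact hD.val j
  -- the field
  obtain ⟨M, hM⟩ : ∃ M : IntermediateField W.F0 (UP Ω),
      M = IntermediateField.adjoin W.F0 {s, t} := ⟨_, rfl⟩
  have hsM : s ∈ M := by
    rw [hM]
    exact IntermediateField.subset_adjoin _ _ (Set.mem_insert _ _)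
  have htM : t ∈ M := by
    rw [hM]
    exact IntermediateField.subset_adjoin _ _ (Set.mem_insert_of_mem _ rfl)
  have hev : ∀ (M' : IntermediateField W.F0 (UP Ω)), s ∈ M' → t ∈ M' → ∀ H : W.F0[X][X],
      ev (algebraMap W.F0 (UP Ω)) s t H ∈ M' := by
    intro M' hs' ht' H
    have h1 := ev_comp (M'.val) (⟨s, hs'⟩ : M') (⟨t, ht'⟩ : M') H
    change ev (algebraMap W.F0 (UP Ω)) s t H = _ at h1
    rw [h1]
    exact (ev (algebraMap W.F0 M') (⟨s, hs'⟩ : M') (⟨t, ht'⟩ : M') H).2
  have hgerm : ∀ (M' : IntermediateField W.F0 (UP Ω)), s ∈ M' → t ∈ M' → ∀ j,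
      germHom (fun N => (x N j : Ω)) ∈ M' := by
    intro M' hs' ht' j
    have h1 : ∀ j, germHom (fun N => (c N : Ω)) * germHom (fun N => (x N j : Ω)) ∈ M' := by
      intro j
      have h2 : germHom (fun N => (c N : Ω)) * germHom (fun N => (x N j : Ω)) =
          ev (algebraMap W.F0 (UP Ω)) s t (G j) /
            ev (algebraMap W.F0 (UP Ω)) s t (derivative A') := by
        rw [← hval j, mul_div_cancel_left₀ _ hder]
      rw [h2]
      exact div_mem (hev M' hs' ht' _) (hev M' hs' ht' _)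
    have h2 := h1 l
    rw [hxl', mul_one] at h2
    have h3 : germHom (fun N => (x N j : Ω)) = (germHom (fun N => (c N : Ω)) *
        germHom (fun N => (x N j : Ω))) / germHom (fun N => (c N : Ω)) := by
      rw [mul_div_cancel_left₀ _ hcg]
    rw [h3]
    exact div_mem (h1 j) h2
  -- the element `s` is not in `F0`
  have hs0 : s ∉ W.F0 := by
    intro hs0
    have ht0 : t ∈ W.F0 := by
      refine mem_F0_of_isAlgebraic ?_
      obtain ⟨φ, hφ⟩ : ∃ φ : W.F0[X] →+* W.F0, φ = evalRingHom (⟨s, hs0⟩ : W.F0) := ⟨_, rfl⟩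
      have hφ' : ∀ H : W.F0[X][X], aeval t (H.map φ) = ev (algebraMap W.F0 (UP Ω)) s t H := by
        intro H
        rw [aeval_def, eval₂_map]
        have h1 : (algebraMap W.F0 (UP Ω)).comp φ = eval₂RingHom (algebraMap W.F0 (UP Ω)) s := by
          refine Polynomial.ringHom_ext' ?_ ?_
          · ext c
            simp only [RingHom.comp_apply, hφ, coe_evalRingHom, coe_eval₂RingHom, eval₂_C, eval_C]
          · simp only [RingHom.comp_apply, hφ, coe_evalRingHom, coe_eval₂RingHom, eval₂_X, eval_X]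
            rfl
        rw [h1]
        rfl
      refine ⟨A'.map φ, fun h0 => hder ?_, by rw [hφ', hzero]⟩
      rw [← hφ', ← derivative_map, h0, derivative_zero, map_zero]
    have h1 : ∀ j, germHom (fun N => (x N j : Ω)) ∈ W.F0 := by
      intro j
      have h2 := hgerm ⊥ (IntermediateField.mem_bot.2 ⟨⟨s, hs0⟩, rfl⟩)
        (IntermediateField.mem_bot.2 ⟨⟨t, ht0⟩, rfl⟩) j
      obtain ⟨u, hu⟩ := IntermediateField.mem_bot.1 h2
      rw [← hu]
      exact u.2
    obtain ⟨C', hC'⟩ := W.height_le_of_mem_F0 (fun N h0 => by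
      have h2 := congrFun h0 l
      rw [hxl] at h2
      exact one_ne_zero h2) h1
    exact hbig C' hC'
  refine ⟨M, ?_, ?_, hgerm M hsM htM⟩
  · obtain ⟨s', hs'⟩ : ∃ s' : M, s' = ⟨s, hsM⟩ := ⟨_, rfl⟩
    obtain ⟨t', ht'⟩ : ∃ t' : M, t' = ⟨t, htM⟩ := ⟨_, rfl⟩
    have hzM : ev (algebraMap W.F0 M) s' t' A' = 0 := by
      have h1 := ev_comp (M.val) s' t' A'
      rw [hs', ht'] at h1
      change ev (algebraMap W.F0 (UP Ω)) s t A' = _ at h1
      rw [hzero] at h1
      apply (algebraMap M (UP Ω)).injective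
      rw [map_zero, hs', ht']
      exact h1.symm
    refine isFF_of_curve (A := A') (X₁ := s') (Y₁ := t') ?_ ?_ ?_ hzM
    · intro h0
      apply hder
      rw [natDegree_eq_zero.1 h0 |>.choose_spec.symm, derivative_C, map_zero]
    · intro halg
      apply hs0
      refine mem_F0_of_isAlgebraic ?_
      have h1 := halg.algebraMap (A := UP Ω)
      rw [hs'] at h1
      exact h1
    · rw [eq_top_iff]
      intro z _
      have h1 : IntermediateField.map M.val (IntermediateField.adjoin W.F0 {s', t'}) =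
          IntermediateField.adjoin W.F0 {s, t} := by
        rw [IntermediateField.adjoin_map, Set.image_pair, hs', ht']
        rfl
      have h2 : (z : UP Ω) ∈ IntermediateField.map M.val
          (IntermediateField.adjoin W.F0 {s', t'}) := by
        rw [h1, ← hM]
        exact z.2
      obtain ⟨z', hz', hzz⟩ := h2
      have h3 : z' = z := Subtype.ext hzz
      rw [← h3]
      exact hz'
  · intro u hu
    rw [hM] at hu
    have h1 : IntermediateField.adjoin W.F0 {s, t} ≤ tm W := by
      rw [IntermediateField.adjoin_le_iff]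
      rintro z (rfl | rfl)
      · exact hstm
      · exact httm
    exact h1 hu

end Tow

end Pool.Agent.Lib.MP_44a246_ntSF
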