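import Mathlib
import Pool.Agent.Lib.MP_44a246_ntSF.SFC04

/-!
# Paper 678: there is no generic sequence of orbifold points with curves of small height on an
orbifold of general type
-/

namespace Pool.Agent.Lib.MP_44a246_ntSF

open Pool.Agent.Lib.MP_e52354_nt
open Pool.Agent.Lib.MP_44a246_nt
open Pool.Agent.Lib.MP_44a246_ntL
open Pool.Agent.Lib.MP_44a246_ntS
open Pool.Agent.Lib.MP_44a246_ntSH
open Pool.Agent.Lib.MP_44a246_ntSP
open Pool.Agent.Lib.MP_44a246_ntU (exists_der_indepV algIndep_germV)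
open Pool.Agent.Lib.MP_44a246_ntK (jexpo mem_jexpo)
open WithZero Module Polynomial

universe u v w

variable {κ : Type u} {K : Type v} {Ω : Type w} [Field κ] [IsAlgClosed κ] [CharZero κ]
  [Field K] [Algebra κ K] [Field Ω] [Algebra K Ω] [Algebra κ Ω] [IsScalarTower κ K Ω]
  (W : Tow κ K Ω)

omit [IsAlgClosed κ] [CharZero κ] in
/-- germs of quotients -/
theorem germ_div (f g : ∀ N, W.L N) :
    germHom (fun N => ((f N / g N : W.L N) : Ω)) =
      germHom (fun N => (f N : Ω)) / germHom (fun N => (g N : Ω)) := by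
  have h1 : (fun N => ((f N / g N : W.L N) : Ω)) =
      (fun N => (f N : Ω)) * (fun N => (g N : Ω)⁻¹) := by
    funext N
    show ((f N / g N : W.L N) : Ω) = (f N : Ω) * (g N : Ω)⁻¹
    rw [← div_eq_mul_inv]
    rfl
  rw [h1, map_mul, div_eq_mul_inv]
  rfl

/-- **The weights of the limit point.** -/
theorem wt_limit [IsAlgClosed Ω] [Algebra.IsAlgebraic K Ω] (Δ : DOm κ K Ω) {n q D m : ℕ}
    {P : ∀ N, Finset (Place κ (W.L N))} (hP : ∀ N, (P N).card ≤ q * W.T N)
    {a : (Fin (n + 1) →₀ ℕ) → K} {x : ∀ N, Fin (n + 1) → W.L N}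
    (hc : ∀ N, ∀ w : Place κ (W.L N), w ∉ P N →
      w.1 (Fval D (fun I => algebraMap K (W.L N) (a I)) (x N)) = vmax w.1 (x N) ^ D ∨
      (m ≠ 0 ∧ w.1 (Fval D (fun I => algebraMap K (W.L N) (a I)) (x N)) ≤
        vmax w.1 (x N) ^ D * exp (-(m : ℤ))))
    {M : IntermediateField W.F0 (UP Ω)} (hM : ∀ u ∈ M, u ∈ tm W) {γ : Fin (n + 1) → M}
    (hγ : ∀ j, (γ j : UP Ω) = germHom (fun N => (x N j : Ω))) (hγ0 : γ ≠ 0)
    (hF : Fval D (fun I => algebraMap W.F0 M (cstHom W (a I))) γ ≠ 0) (w : Place W.F0 M)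
    (hord : 0 < ordF w D (fun I => cstHom W (a I)) γ) :
    WtAt (derUP Δ.D) {O | IsVal W Δ P O} w
      (1 - (m : ℚ)⁻¹ * ordF w D (fun I => cstHom W (a I)) γ) := by
  classical
  obtain ⟨l, hl0, hlv, hlle⟩ := exists_vmax w.1 hγ0
  have hwl : w.1 (γ l) ≠ 0 := (Valuation.ne_zero_iff w.1).2 hl0
  have hFw : w.1 (Fval D (fun I => algebraMap W.F0 M (cstHom W (a I))) γ) ≠ 0 :=
    (Valuation.ne_zero_iff w.1).2 hF
  obtain ⟨Y, hY⟩ : ∃ Y : ∀ N, W.L N, Y = fun N =>
    Fval D (fun I => algebraMap K (W.L N) (a I)) (x N) / x N l ^ D := ⟨_, rfl⟩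
  obtain ⟨H, hH⟩ : ∃ H : Finset (∀ N, W.L N),
    H = Finset.univ.image (fun (i : Fin (n + 1)) N => x N i / x N l) := ⟨_, rfl⟩
  obtain ⟨Y', hY'⟩ : ∃ Y' : M, Y' = Fval D (fun I => algebraMap W.F0 M (cstHom W (a I))) γ /
    γ l ^ D := ⟨_, rfl⟩
  have hpow : germHom (fun N => ((x N l ^ D : W.L N) : Ω)) =
      germHom (fun N => (x N l : Ω)) ^ D := by
    rw [← map_pow]
    rfl
  have hYg : algebraMap M (UP Ω) Y' = germHom (fun N => (Y N : Ω)) := by
    have h1 := germ_div W (fun N => Fval D (fun I => algebraMap K (W.L N) (a I)) (x N))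
      (fun N => x N l ^ D)
    rw [hpow, ← fval_germ W a x] at h1
    rw [hY]
    refine Eq.trans ?_ h1.symm
    rw [hY', map_div₀, map_pow, fval_M]
    congr 2
    · funext j
      exact hγ j
    · exact hγ l
  have hord' := ordF_nonneg w hγ0 hF
  obtain ⟨k, hk⟩ : ∃ k : ℕ, (k : ℤ) = ordF w D (fun I => cstHom W (a I)) γ :=
    ⟨_, Int.toNat_of_nonneg hord'⟩
  have hk0 : 0 < k := by
    have h1 : (0 : ℤ) < k := by rw [hk]; exact hord
    exact_mod_cast h1
  have hwY : w.1 Y' = exp (-(k : ℤ)) := by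
    have h1 : w.1 Y' ≠ 0 := by
      rw [hY', map_div₀, map_pow]
      exact div_ne_zero hFw (pow_ne_zero _ hwl)
    rw [← exp_log h1]
    congr 1
    rw [hk, hY', map_div₀, map_pow, log_div hFw (pow_ne_zero _ hwl), log_pow, nsmul_eq_mul]
    unfold ordF
    rw [hlv]
    ring
  have hHM : ∀ b ∈ H, ∃ b' : M, algebraMap M (UP Ω) b' = germHom (fun N => (b N : Ω)) ∧
      w.1 b' ≤ 1 := by
    intro b hb
    rw [hH] at hb
    obtain ⟨i, -, rfl⟩ := Finset.mem_image.1 hb
    refine ⟨γ i / γ l, ?_, ?_⟩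
    · rw [map_div₀]
      refine Eq.trans ?_ (germ_div W (fun N => x N i) (fun N => x N l)).symm
      rw [← hγ i, ← hγ l]
      rfl
    · rw [map_div₀]
      exact div_le_one_of_le₀ (hlle i) zero_le
  -- the values of the sequence
  have hxl : ∀ᶠ N in (Filter.hyperfilter ℕ : Filter ℕ), x N l ≠ 0 := by
    have h1 : germHom (fun N => (x N l : Ω)) ≠ 0 := by
      rw [← hγ l]
      exact fun h0 => hl0 (Subtype.ext h0)
    rw [Ne, germHom_eq_zero_iff] at h1
    filter_upwards [Ultrafilter.eventually_not.2 h1] with N hN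
    intro h0
    apply hN
    rw [h0]
    rfl
  have hYN : ∀ᶠ N in (Filter.hyperfilter ℕ : Filter ℕ), ∀ w : Place κ (W.L N), w ∉ P N →
      (∀ b ∈ H, w.1 (b N) ≤ 1) → w.1 (Y N) = 1 ∨ (m ≠ 0 ∧ w.1 (Y N) ≤ exp (-(m : ℤ))) := by
    filter_upwards [hxl] with N hN
    intro v hv hb
    have hvl : v.1 (x N l) ≠ 0 := (Valuation.ne_zero_iff v.1).2 hN
    have h1 : ∀ i, v.1 (x N i) ≤ v.1 (x N l) := by
      intro i
      have h2 := hb (fun N => x N i / x N l) (by
        rw [hH]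
        exact Finset.mem_image_of_mem _ (Finset.mem_univ i))
      simp only [map_div₀] at h2
      exact (div_le_one₀ (zero_lt_iff.2 hvl)).1 h2
    have h2 : vmax v.1 (x N) = v.1 (x N l) :=
      le_antisymm (vmax_le _ h1) (le_vmax _ _ _)
    have h3 : v.1 (Y N) = v.1 (Fval D (fun I => algebraMap K (W.L N) (a I)) (x N)) /
        v.1 (x N l) ^ D := by
      rw [hY]
      simp only [map_div₀, map_pow]
    have h4 := hc N v hv
    rw [h2] at h4
    rw [h3]
    rcases h4 with h4 | ⟨hm, h4⟩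
    · left
      rw [h4, div_self (pow_ne_zero _ hvl)]
    · right
      refine ⟨hm, ?_⟩
      rw [div_le_iff₀ (zero_lt_iff.2 (pow_ne_zero _ hvl)), mul_comm]
      exact h4
  have hMG : ∀ u : M, algebraMap M (UP Ω) u ∈ tm W := fun u => hM _ u.2
  rcases Nat.eq_zero_or_pos m with hm | hm
  · subst hm
    have h1 := val_bd_wt Δ P hP hMG (y := Y) (H := H) ?_ hYg hHM ?_ ?_
    · rw [Nat.cast_zero, inv_zero, zero_mul, sub_zero]
      exact h1
    · unfold IsBd
      filter_upwards [hYN] with N hN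
      intro v hv hb
      rcases hN v hv hb with h2 | ⟨h2, -⟩
      · exact h2.ge
      · exact absurd rfl h2
    · rw [hY']
      exact div_ne_zero hF (pow_ne_zero _ hl0)
    · rw [hwY, ← exp_zero, exp_lt_exp]
      omega
  · have h1 := val_orb_wt Δ P hP hMG (y := Y) hm (H := H) ?_ hYg hHM hk0 hwY
    · rw [← hk]
      intro O hO hOw π hπ p n' hn' hp
      refine h1 O hO hOw π hπ p n' hn' (hp.trans (le_of_eq ?_))
      rw [Int.cast_natCast, div_eq_inv_mul]
    · unfold IsOrb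
      filter_upwards [hYN] with N hN
      intro v hv hb
      rcases hN v hv hb with h2 | ⟨-, h2⟩
      · exact Or.inl h2.ge
      · exact Or.inr h2

/-- **There is no generic sequence of orbifold points** with curves of small height if the orbifold
is of general type: outside `P N` the form `j` is a unit at the point or vanishes of order at least
`m j` (`m j = 0`: it is a unit). -/
theorem no_seqO [IsAlgClosed Ω] [Algebra.IsAlgebraic K Ω] {n r b N₁ p q C : ℕ}
    {d : Fin p → ℕ} (hd1 : ∀ j, 1 ≤ d j)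
    {k : Type*} [Field k] [CharZero k] [Algebra k K] {a : Fin p → (Fin (n + 1) →₀ ℕ) → K}
    (ha : AlgebraicIndependent k (fun s : ↥(jexpo n d) => a s.1.1 s.1.2))
    {k₂ : Type*} [Field k₂] [CharZero k₂] [Algebra k₂ K] [Algebra k₂ Ω] [IsScalarTower k₂ K Ω]
    {a₂ : Fin p → (Fin (n + 1) →₀ ℕ) → k₂}
    (ha₂ : ∀ j, ∀ I ∈ expo (Fin (n + 1)) (d j), algebraMap k₂ K (a₂ j I) = a j I)
    {x : ∀ N, Fin (n + 1) → W.L N} {l : Fin (n + 1)} (hxl : ∀ N, x N l = 1)
    {A : Finset (Fin p)} (hcard : A.card + (r + 2) = n + 1)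
    (hA : ∀ N j, Fval (d j) (fun I => algebraMap K (W.L N) (a j I)) (x N) = 0 ↔ j ∈ A)
    {j : Fin (r + 1) → Fin (n + 1)}
    (hgen : ∀ H : MvPolynomial (Fin (r + 1)) k₂, H ≠ 0 →
      ∃ N₀, ∀ N ≥ N₀, MvPolynomial.aeval (fun i => (x N (j i) : Ω)) H ≠ 0)
    {P : ∀ N, Finset (Place κ (W.L N))} (hP : ∀ N, (P N).card ≤ q * W.T N) {m : Fin p → ℕ}
    (hc : ∀ N, ∀ w : Place κ (W.L N), w ∉ P N → ∀ j, j ∉ A →
      w.1 (Fval (d j) (fun I => algebraMap K (W.L N) (a j I)) (x N)) = vmax w.1 (x N) ^ d j ∨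
      (m j ≠ 0 ∧ w.1 (Fval (d j) (fun I => algebraMap K (W.L N) (a j I)) (x N)) ≤
        vmax w.1 (x N) ^ d j * exp (-(m j : ℤ))))
    (hbig : ∀ C : ℕ, ¬ ∀ᶠ N in (Filter.hyperfilter ℕ : Filter ℕ),
      height κ (x N) ≤ C * (W.T N : ℤ))
    (hcert : ∀ N, CertN κ d (fun j I => algebraMap K (W.L N) (a j I)) b N₁
      (C * (W.T N : ℤ)) (x N))
    (hnum : (n + 1 : ℚ) < ∑ j ∈ A, (d j : ℚ) + ∑ j ∈ Aᶜ, (1 - (m j : ℚ)⁻¹) * (d j : ℚ)) :
    False := by
  classical
  have hcΩ : CharZero Ω := charZero_of_injective_algebraMap (algebraMap κ Ω).injective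
  have hcUP : CharZero (UP Ω) := charZero_of_injective_ringHom (constHom (L := Ω)).injective
  obtain ⟨M, hMff, hMtm, hxM⟩ := exists_limit_field hxl hbig hcert
  obtain ⟨Δ⟩ := exists_DOm (Ω := Ω) W.ff
  obtain ⟨γ, hγ⟩ : ∃ γ : Fin (n + 1) → M, ∀ j, (γ j : UP Ω) =
    germHom (fun N => (x N j : Ω)) := ⟨fun j => ⟨_, hxM j⟩, fun _ => rfl⟩
  have hγl : γ l = 1 := by
    apply Subtype.ext
    rw [hγ l]
    have : (fun N => (x N l : Ω)) = 1 := funext fun N => by rw [hxl]; rfl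
    rw [this, map_one]
    rfl
  have hγ0 : γ ≠ 0 := fun h0 => one_ne_zero (hγl.symm.trans (congrFun h0 l))
  -- the algebra structures
  let _ : Algebra k W.F0 := ((cstHom W).comp (algebraMap k K)).toAlgebra
  let _ : Algebra k₂ W.F0 := ((cstHom W).comp (algebraMap k₂ K)).toAlgebra
  let _ : Algebra k₂ M := ((algebraMap W.F0 M).comp (algebraMap k₂ W.F0)).toAlgebra
  let _ : Algebra k₂ (UP Ω) := ((constHom (L := Ω)).comp (algebraMap k₂ Ω)).toAlgebra
  have : IsScalarTower k₂ W.F0 M := IsScalarTower.of_algebraMap_eq fun _ => rfl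
  -- the derivations
  have hindF : AlgebraicIndependent k (fun s : ↥(jexpo n d) => cstHom W (a s.1.1 s.1.2)) :=
    ha.map' (f := { cstHom W with commutes' := fun u => rfl }) (cstHom W).injective
  choose V hV using fun I : Fin p × (Fin (n + 1) →₀ ℕ) => exists_der_indepV hindF
    (fun J => if I = J.1 then (1 : W.F0) else 0)
  -- the families
  obtain ⟨e, he⟩ : ∃ e : {j // j ∈ A} ⊕ {j // j ∉ A} → Fin p,
      e = Sum.elim (fun j => j.1) (fun j => j.1) := ⟨_, rfl⟩
  have hei : Function.Injective e := by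
    rw [he]
    rintro (⟨j, hj⟩ | ⟨j, hj⟩) (⟨j', hj'⟩ | ⟨j', hj'⟩) h
    · simp only [Sum.elim_inl] at h
      subst h
      rfl
    · simp only [Sum.elim_inl, Sum.elim_inr] at h
      subst h
      exact absurd hj hj'
    · simp only [Sum.elim_inl, Sum.elim_inr] at h
      subst h
      exact absurd hj' hj
    · simp only [Sum.elim_inr] at h
      subst h
      rfl
  have hed : ∀ b, Sum.elim (fun j : {j // j ∈ A} => d j.1) (fun j : {j // j ∉ A} => d j.1) b =
      d (e b) := by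
    rw [he]
    rintro (b | b) <;> rfl
  have hea : ∀ b, Sum.elim (fun (j : {j // j ∈ A}) I => cstHom W (a j.1 I))
      (fun (j : {j // j ∉ A}) I => cstHom W (a j.1 I)) b = fun I => cstHom W (a (e b) I) := by
    rw [he]
    rintro (b | b) <;> rfl
  have hcA : Fintype.card {j // j ∈ A} = A.card := Fintype.card_coe A
  -- the values of the forms
  have hFM : ∀ j, Fval (d j) (fun I => algebraMap W.F0 M (cstHom W (a j I))) γ = 0 ↔ j ∈ A := by
    intro j
    rw [← map_eq_zero_iff _ (algebraMap M (UP Ω)).injective, fval_M]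
    have h1 : (fun l => (γ l : UP Ω)) = fun l => germHom fun N => (x N l : Ω) := funext hγ
    rw [h1, fval_germ_eq_zero_iff W (a j) x]
    constructor
    · intro h
      obtain ⟨N, hN⟩ := h.exists
      exact (hA N j).1 hN
    · exact fun h => Filter.Eventually.of_forall fun N => (hA N j).2 h
  -- the genericity
  have hind : AlgebraicIndependent k₂ (fun i => γ (j i) / γ l) := by
    have h1 := algIndep_germV (RingHom.id (UP Ω)) (fun u => rfl)
      (z := fun N i => (x N (j i) : Ω)) hgen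
    let φ : M →ₐ[k₂] UP Ω := { algebraMap M (UP Ω) with
      commutes' := fun u => by
        show constHom (algebraMap K Ω (algebraMap k₂ K u)) = constHom (algebraMap k₂ Ω u)
        rw [← IsScalarTower.algebraMap_apply k₂ K Ω] }
    refine AlgebraicIndependent.of_comp φ ?_
    have h2 : (φ ∘ fun i => γ (j i) / γ l) =
        fun i => RingHom.id (UP Ω) (germHom fun N => (x N (j i) : Ω)) := by
      funext i
      show ((γ (j i) / γ l : M) : UP Ω) = germHom (fun N => (x N (j i) : Ω))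
      rw [hγl, div_one, hγ]
    rw [h2]
    exact h1
  -- the point is not rational
  have hrat : ∃ k, ∀ u : W.F0, algebraMap W.F0 M u ≠ γ k / γ l := by
    by_contra hcon
    push Not at hcon
    obtain ⟨C', hC'⟩ := W.height_le_of_mem_F0 (x := x) (fun N h0 => by
      have h2 := congrFun h0 l
      rw [hxl] at h2
      exact one_ne_zero h2) (fun k => by
      obtain ⟨u, hu⟩ := hcon k
      rw [hγl, div_one] at hu
      rw [← hγ k, ← hu]
      exact u.2)
    exact hbig C' hC'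
  refine hMff.ind ?_
  intro _ _ _ _ _ _ _ _ _
  have hlim := orb_limit (F := W.F0) (U := UP Ω) (M := M) (D := derUP Δ.D) (G := tm W)
    (𝒪 := {O | IsVal W Δ P O}) (fam_val Δ P hP) (fun u => hMtm _ u.2) (r := r) (N := n + 1)
    (ι := {j // j ∈ A}) (Λ := {j // j ∉ A}) (by rw [hcA]; exact hcard)
    (d := fun j => d j.1) (fun j => hd1 j.1) (a := fun j I => cstHom W (a j.1 I))
    (d' := fun j => d j.1) (a' := fun j I => cstHom W (a j.1 I)) (fun b I => V (e b, I)) ?_
    (k₂ := k₂) (fun b I hI => ⟨a₂ b.1 I, by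
      show cstHom W (algebraMap k₂ K (a₂ b.1 I)) = _
      rw [ha₂ b.1 I hI]⟩)
    (fun b I hI => ⟨a₂ b.1 I, by
      show cstHom W (algebraMap k₂ K (a₂ b.1 I)) = _
      rw [ha₂ b.1 I hI]⟩)
    (γ := γ) (l := l) (by rw [hγl]; exact one_ne_zero) (fun b => (hFM b.1).2 b.2)
    (fun c h0 => c.2 ((hFM c.1).1 h0)) (j := j) hind hrat
    (wt := fun c => (m c.1 : ℚ)⁻¹) (fun c => inv_nonneg.2 (Nat.cast_nonneg _))
    (fun w c ho => wt_limit W Δ hP (fun N v hv => hc N v hv c.1 c.2) hMtm hγ hγ0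
      (fun h0 => c.2 ((hFM c.1).1 h0)) w ho)
  · have h1 : ∑ b : {j // j ∈ A}, (d b.1 : ℚ) = ∑ j ∈ A, (d j : ℚ) :=
      Finset.sum_coe_sort A fun j => (d j : ℚ)
    have h2 : ∑ c : {j // j ∉ A}, (1 - (m c.1 : ℚ)⁻¹) * (d c.1 : ℚ) =
        ∑ j ∈ Aᶜ, (1 - (m j : ℚ)⁻¹) * (d j : ℚ) :=
      (Finset.sum_subtype Aᶜ (fun j => Finset.mem_compl)
        (fun j => (1 - (m j : ℚ)⁻¹) * (d j : ℚ))).symm
    rw [h1, h2] at hlim
    push_cast at hlim
    linarith
  · intro b I hI b' J hJ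
    rw [hed] at hJ
    have h3 := (hV (e b, I)).2 ⟨(e b', J), mem_jexpo.2 hJ⟩
    rw [hea]
    rw [h3]
    refine if_congr ?_ rfl rfl
    show (e b, I) = (e b', J) ↔ (b, I) = (b', J)
    rw [Prod.mk.injEq, Prod.mk.injEq, hei.eq_iff]

end Pool.Agent.Lib.MP_44a246_ntSF
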