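import Pool.Agent.Lib.MP_44a246_ntNW.Final

set_option autoImplicit false

open NumberField IsDedekindDomain MvPolynomial

namespace Pool.Agent.Lib.MP_44a246_ntSF.RadicalCount

open Pool.Agent.Lib.MP_44a246_ntNU Pool.Agent.Lib.MP_44a246_ntNW

/-- Vojta's inequality with the truncated counting function for the divisor cut out by `q ≥ n + 1`
forms on a closed subset `X` of projective space (of dimension at most `n`) over a number field,
points of degree at most `r`: a bound for the number of exceptions (in one extension, and in all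
of them together). -/
theorem result :
    ∀ (K : Type*) [Field K] [NumberField K] (m t n q : ℕ), 1 ≤ n → n + 1 ≤ q →
      ∀ (f : Fin t → MvPolynomial (Fin (m + 1)) K) (e : Fin t → ℕ),
        (∀ l, (f l).IsHomogeneous (e l)) →
      ∀ (G : Fin q → MvPolynomial (Fin (m + 1)) K) (d : Fin q → ℕ), (∀ j, 1 ≤ d j) →
        (∀ j, (G j).IsHomogeneous (d j)) →
        (∀ J : Fin (n + 1) → Fin q, Function.Injective J →
          ∀ x : Fin (m + 1) → AlgebraicClosure K, (∀ l, aeval x (f l) = 0) →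
            (∀ i, aeval x (G (J i)) = 0) → x = 0) →
        ∃ (N : ℕ) (Φ : Fin N → MvPolynomial (Fin (m + 1)) K), (q = n + 1 → N = 0) ∧
          (∀ i, (∃ k, (Φ i).IsHomogeneous k) ∧ SmallLocus K n f (Φ i)) ∧
          (t = 0 → m = n → (∀ j, d j = 1) →
            ∀ i, ∃ (b : Fin q → K) (C A : Finset (Fin q)), C.card = n + 2 ∧
              (∀ j, b j ≠ 0 ↔ j ∈ C) ∧ ∑ j, b j • G j = 0 ∧ A ⊆ C ∧ 2 ≤ A.card ∧
              A.card ≤ n ∧ Φ i = ∑ j ∈ A, b j • G j) ∧
          ∀ S : Set (HeightOneSpectrum (𝓞 K)), S.Finite → ∀ r : ℕ, 1 ≤ r →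
            ∀ α β ρ : ℝ, 0 ≤ α → 0 ≤ β → 0 ≤ ρ →
              (∀ s : ℕ, 1 ≤ s → s ≤ n → 1 - (((q + s - n - 2).choose s : ℕ) : ℝ) /
                ((q.choose s : ℕ) : ℝ) ≤ α + β * s) → ∀ c η : ℝ, 0 < η →
              ∃ C : ℝ, ∀ B : ℝ, 1 ≤ B →
                ∀ X : Finset (Σ E : IntermediateField K (AlgebraicClosure K),
                  Projectivization E (Fin (m + 1) → E)),
                (∀ s ∈ X, ∃ _ : NumberField s.1, Module.finrank K s.1 ≤ r ∧
                  (∀ l, aeval s.2.rep (f l) = 0) ∧ (∀ j, aeval s.2.rep (G j) ≠ 0) ∧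
                  (∀ i, aeval s.2.rep (Φ i) ≠ 0) ∧ s.2.mulHeight ≤ B ∧
                  trCount S G d s.2.rep + Real.log (discNorm K s.1) ≤
                    ρ * s.2.logHeight + c) →
                (X.card : ℝ) ≤ C * B ^ (α * ρ + β * ∑ j, (d j : ℝ) +
                  ρ * max 0 ((if r = 1 then 0 else ((r : ℝ) + 2) / 4) - α) + η) ∧
                (∀ (E : IntermediateField K (AlgebraicClosure K)) (_ : NumberField E),
                  (∀ s ∈ X, s.1 = E) →
                    (X.card : ℝ) ≤ C * B ^ (α * ρ + β * ∑ j, (d j : ℝ) + η) *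
                      discNorm K E ^ (-α)) ∧
                (t = 0 → m = n → (∀ j, d j = 1) → r = 1 → 2 ≤ n → n + 2 ≤ q → ρ ≤ q - 1 →
                  (X.card : ℝ) ≤ C * B ^ ((n : ℝ) + η)) := by
  intro K _ _ m t n q hn hq f e hf G d hd hG h
  exact final hn hq f e hf G d hd hG h

end Pool.Agent.Lib.MP_44a246_ntSF.RadicalCount
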