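import Mathlib

set_option autoImplicit false

open NumberField IsDedekindDomain

namespace Pool.Agent.Lib.MP_44a246_ntSF

universe u

private lemma abs_sub_lt_SF5 {x y : ℝ} (h : ⌊2 * x⌋ = ⌊2 * y⌋) : |x - y| < 1 / 2 := by
  have h1 := Int.abs_sub_lt_one_of_floor_eq_floor h
  have h2 : |2 * x - 2 * y| = 2 * |x - y| := by
    rw [← mul_sub, abs_mul]; norm_num
  rw [h2] at h1
  linarith

/-- SF5 : integers in a box, uniformly in the field -/
theorem card_box_all (d : ℕ) : ∃ C : ℝ, 0 < C ∧ ∀ (F : Type u) [Field F] [NumberField F],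
    Module.finrank ℚ F = d → ∀ R : ℝ, 1 ≤ R → ∀ A : Finset (𝓞 F),
      (∀ c ∈ A, ∀ v : InfinitePlace F, v (c : F) ≤ R) → (A.card : ℝ) ≤ C * R ^ d := by
  classical
  refine ⟨7 ^ d, by positivity, fun F _ _ hd R hR A hA => ?_⟩
  obtain ⟨m, hm⟩ : ∃ m : ℕ, m = ⌊2 * R⌋₊ + 1 := ⟨_, rfl⟩
  have hmR : (m : ℝ) ≤ 2 * R + 1 := by
    rw [hm]; push_cast
    have := Nat.floor_le (show (0 : ℝ) ≤ 2 * R by linarith)
    linarith
  have hmR' : 2 * R < m := by
    rw [hm]; push_cast
    exact Nat.lt_floor_add_one _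
  let Φ : 𝓞 F → (InfinitePlace F → ℤ × ℤ) := fun c v =>
    (⌊2 * (v.embedding (c : F)).re⌋, ⌊2 * (v.embedding (c : F)).im⌋)
  let Tg : Finset (InfinitePlace F → ℤ × ℤ) := Fintype.piFinset (fun v =>
    (Finset.Icc (-(m : ℤ)) m) ×ˢ (if v.IsReal then {0} else Finset.Icc (-(m : ℤ)) m))
  have hfl : ∀ x : ℝ, |x| ≤ R → ⌊2 * x⌋ ∈ Finset.Icc (-(m : ℤ)) m := by
    intro x hx
    rw [abs_le] at hx
    rw [Finset.mem_Icc]
    constructor
    · rw [Int.le_floor]; push_cast; linarith
    · have : (⌊2 * x⌋ : ℝ) ≤ 2 * x := Int.floor_le _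
      have h2 : (⌊2 * x⌋ : ℝ) ≤ (m : ℝ) := by linarith
      exact_mod_cast h2
  have him : ∀ (v : InfinitePlace F), v.IsReal → ∀ c : F, (v.embedding c).im = 0 := by
    intro v hv c
    have h3 : (starRingEnd ℂ) (v.embedding c) = v.embedding c := by
      have := DFunLike.congr_fun
        (ComplexEmbedding.isReal_iff.1 (InfinitePlace.isReal_iff.1 hv)) c
      simpa using this
    exact Complex.conj_eq_iff_im.1 h3
  have h1 : ∀ c ∈ A, Φ c ∈ Tg := by
    intro c hc
    rw [Fintype.mem_piFinset]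
    intro v
    have hn : ‖v.embedding (c : F)‖ ≤ R := by
      rw [InfinitePlace.norm_embedding_eq]; exact hA c hc v
    rw [Finset.mem_product]
    refine ⟨hfl _ ((Complex.abs_re_le_norm _).trans hn), ?_⟩
    split_ifs with hre
    · rw [Finset.mem_singleton]
      simp only [Φ]
      rw [him v hre, mul_zero, Int.floor_zero]
    · exact hfl _ ((Complex.abs_im_le_norm _).trans hn)
  have h2 : Set.InjOn Φ (A : Set (𝓞 F)) := by
    intro c hc c' hc' hcc
    by_contra hne
    have hlt : ∀ v : InfinitePlace F, v ((c - c' : 𝓞 F) : F) < 1 := by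
      intro v
      have e1 := congrArg Prod.fst (congrFun hcc v)
      have e2 := congrArg Prod.snd (congrFun hcc v)
      simp only [Φ] at e1 e2
      have a1 := abs_sub_lt_SF5 e1
      have a2 := abs_sub_lt_SF5 e2
      have e : ((c - c' : 𝓞 F) : F) = (c : F) - (c' : F) := rfl
      rw [e, ← InfinitePlace.norm_embedding_eq, map_sub]
      refine lt_of_le_of_lt (Complex.norm_le_abs_re_add_abs_im _) ?_
      rw [Complex.sub_re, Complex.sub_im]
      linarith
    obtain ⟨v₀⟩ : Nonempty (InfinitePlace F) := inferInstance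
    have := InfinitePlace.one_le_of_lt_one (w := v₀) (sub_ne_zero.2 hne) (fun z _ => hlt z)
    exact absurd (hlt v₀) (not_lt.2 this)
  have h3 : A.card ≤ Tg.card := Finset.card_le_card_of_injOn Φ h1 h2
  have h4 : Tg.card = (2 * m + 1) ^ d := by
    have hI : (Finset.Icc (-(m : ℤ)) m).card = 2 * m + 1 := by
      rw [Int.card_Icc]; omega
    rw [Fintype.card_piFinset, ← hd, ← InfinitePlace.sum_mult_eq (K := F), ← Finset.prod_pow_eq_pow_sum]
    refine Finset.prod_congr rfl (fun v _ => ?_)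
    rw [Finset.card_product, hI]
    by_cases hre : v.IsReal
    · rw [if_pos hre]
      simp [InfinitePlace.mult, hre]
    · rw [if_neg hre, hI]
      simp only [InfinitePlace.mult, hre, if_false]
      ring
  calc (A.card : ℝ) ≤ ((2 * m + 1 : ℕ) : ℝ) ^ d := by
        rw [h4] at h3; exact_mod_cast h3
    _ ≤ (7 * R) ^ d := by
        apply pow_le_pow_left₀ (by positivity)
        push_cast; linarith
    _ = 7 ^ d * R ^ d := by rw [mul_pow]

end Pool.Agent.Lib.MP_44a246_ntSF
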