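import Mathlib
import Pool.Agent.Lib.MP_44a246_ntSF.SFB02b
import Pool.Agent.Lib.MP_44a246_ntSF.SFB04b
import Pool.Agent.Lib.MP_44a246_ntSF.SFB06b

/-!
# Paper 678, B5 (first part): choice of the derivation of `M`

Proof. Let `x` be transcendental, `δ x = 1` (`exists_partial`). Let `Z₁` be the union of `Z` and of the
finitely many places `P` with `P x > 1` or `dord δ P ≠ 0` (`dord_support`), without `Q`. For `P ∈ Z₁` let
`u = unif P`, and `E_P` the derivation extending `D₀` with `E_P u = 0` (`exists_der`, `u` is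
transcendental), `ξ P := E_P x`. Let `N` be larger than all `log P(δ (unif P)) = dord δ P`, `P ∈ Z₁`, and
`η` from `exists_approx` with `P (η - ξ P) ≤ exp (-N-1)` for `P ∈ Z₁` and `P η ≤ 1` off `Z₁ ∪ {Q}`. Take
`E` extending `D₀` with `E x = η` (`exists_der`).
For `P ∈ Z₁`: by `der_eq` (`N = M`, for `E` and `E_P`) `E u = E_P u + δ u (E x - E_P x) =
δ u (η - ξ P)` has value `< 1`, so `E` is regular at `P` and `P` is invariant (`reg_of_unif`,
`inv_of_unif`).
For `P ∉ Z₁`, `P ≠ Q`: `P x ≤ 1`, `dord δ P = 0`; let `c ∈ F` with `P (x - c) < 1` (`place_residue`),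
`u := x - c`: `u ≠ 0` as `δ u = 1`, and by `log_der`, `0 = log P(δ u) = log P(u) + 1 + 0`, so `u` is a
uniformizer; `E u = η - D₀ c` is regular at `P`. So `E` is regular at `P` (`reg_of_unif`). -/

namespace Pool.Agent.Lib.MP_44a246_ntSF

open Pool.Agent.Lib.MP_44a246_nt Pool.Agent.Lib.MP_44a246_ntL Pool.Agent.Lib.MP_44a246_ntX
open WithZero

variable {F M : Type*} [Field F] [IsAlgClosed F] [CharZero F] [Field M] [Algebra F M]

theorem exists_good_der (hM : IsFF F M) (D₀ : Derivation ℤ F F) (Z : Finset (Place F M))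
    {Q : Place F M} (hQ : Q ∉ Z) :
    ∃ E : Derivation ℤ M M, (∀ a, E (algebraMap F M a) = algebraMap F M (D₀ a)) ∧
      (∀ P : Place F M, P ≠ Q → ∀ f, P.1 f ≤ 1 → P.1 (E f) ≤ 1) ∧
      ∀ P ∈ Z, ∀ f, P.1 f < 1 → P.1 (E f) < 1 := by
  classical
  obtain ⟨x, hx⟩ : ∃ x : M, Transcendental F x := by
    obtain ⟨x, hx, -⟩ := hM
    exact ⟨x, hx⟩
  obtain ⟨δ, hδ⟩ := exists_partial hM hx
  have hδ0 : δ ≠ 0 := by
    rintro rfl
    rw [Derivation.zero_apply] at hδ
    exact zero_ne_one hδ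
  have hx0 : x ≠ 0 := by
    rintro rfl
    rw [map_zero] at hδ
    exact zero_ne_one hδ
  have hfin1 : {P : Place F M | P.1 x ≠ 1}.Finite := hM.place_finite hx0
  have hfin2 : (Function.support (dord δ)).Finite := dord_support hM hδ0
  obtain ⟨Z₁, hZ₁⟩ : ∃ Z₁ : Finset (Place F M),
      Z₁ = (Z ∪ hfin1.toFinset ∪ hfin2.toFinset).erase Q := ⟨_, rfl⟩
  have hQ1 : Q ∉ Z₁ := by
    rw [hZ₁]
    exact Finset.notMem_erase _ _
  have hZ : ∀ P ∈ Z, P ∈ Z₁ := by
    intro P hP
    rw [hZ₁, Finset.mem_erase, Finset.mem_union, Finset.mem_union]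
    exact ⟨fun h => hQ (h ▸ hP), Or.inl (Or.inl hP)⟩
  have hE : ∀ P : Place F M, ∃ E : Derivation ℤ M M,
      (∀ a, E (algebraMap F M a) = algebraMap F M (D₀ a)) ∧ E (unif P) = 0 := by
    intro P
    have h1 : P.1 (unif P) ≠ 1 := by
      rw [val_unif, ← exp_zero]
      intro h
      rw [exp_inj] at h
      omega
    have h0 : unif P ≠ 0 := by
      intro h
      have h2 := val_unif P
      rw [h, map_zero] at h2
      exact exp_ne_zero h2.symm
    exact exists_der hM D₀ (transcendental_of_der (der_ne_zero hM hδ0 h1 h0)) 0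
  choose EP hEP hEP0 using hE
  obtain ⟨N, hN⟩ : ∃ N : ℕ, ∀ P ∈ Z₁, dord δ P ≤ (N : ℤ) := by
    refine ⟨∑ P ∈ Z₁, (dord δ P).toNat, fun P hP => ?_⟩
    have h1 : (dord δ P).toNat ≤ ∑ P ∈ Z₁, (dord δ P).toNat :=
      Finset.single_le_sum (f := fun P => (dord δ P).toNat) (fun _ _ => Nat.zero_le _) hP
    omega
  obtain ⟨η, hη1, hη2⟩ := exists_approx hM Z₁ hQ1 (fun P => EP P x) (N + 1)
  obtain ⟨E, hE1, hE2⟩ := exists_der hM D₀ hx η
  have hE1' : ∀ a : F, ∃ a' : F, E (algebraMap F M a) = algebraMap F M a' :=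
    fun a => ⟨D₀ a, hE1 a⟩
  have key : ∀ P ∈ Z₁, P.1 (E (unif P)) < 1 := by
    intro P hP
    have h1 := der_eq hM hδ (N := M) (D := E) (E := EP P) (fun a => by
      change E (algebraMap F M a) = EP P (algebraMap F M a)
      rw [hE1, hEP]) (unif P)
    have h2 : E (unif P) = EP P (unif P) + δ (unif P) * (E x - EP P x) := h1
    rw [hEP0, zero_add, hE2] at h2
    rw [h2, map_mul, val_der_unif hM hδ0 (val_unif P)]
    calc exp (dord δ P) * P.1 (η - EP P x) ≤ exp (N : ℤ) * exp (-((N + 1 : ℕ) : ℤ)) :=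
          mul_le_mul' (exp_le_exp.2 (hN P hP)) (hη1 P hP)
      _ < 1 := by
          rw [← exp_add, ← exp_zero, exp_lt_exp]
          push_cast
          omega
  refine ⟨E, hE1, fun P hPQ f hf => ?_, fun P hP f hf => ?_⟩
  · by_cases hP : P ∈ Z₁
    · exact reg_of_unif hM hE1' (val_unif P) (key P hP).le hf
    · have hP' : P ∉ Z ∧ P ∉ hfin1.toFinset ∧ P ∉ hfin2.toFinset := by
        refine ⟨fun h => hP ?_, fun h => hP ?_, fun h => hP ?_⟩
        · rw [hZ₁, Finset.mem_erase, Finset.mem_union, Finset.mem_union]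
          exact ⟨hPQ, Or.inl (Or.inl h)⟩
        · rw [hZ₁, Finset.mem_erase, Finset.mem_union, Finset.mem_union]
          exact ⟨hPQ, Or.inl (Or.inr h)⟩
        · rw [hZ₁, Finset.mem_erase, Finset.mem_union, Finset.mem_union]
          exact ⟨hPQ, Or.inr h⟩
      obtain ⟨-, h2, h3⟩ := hP'
      have hPx : P.1 x = 1 := by
        by_contra h
        exact h2 ((Set.Finite.mem_toFinset _).2 h)
      have hPd : dord δ P = 0 := by
        by_contra h
        exact h3 ((Set.Finite.mem_toFinset _).2 h)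
      obtain ⟨c, hc⟩ := hM.place_residue P hPx.le
      have hδu : δ (x - algebraMap F M c) = 1 := by
        rw [map_sub, Derivation.map_algebraMap, hδ, sub_zero]
      have hu0 : x - algebraMap F M c ≠ 0 := by
        intro h
        rw [h, map_zero] at hδu
        exact zero_ne_one hδu
      have hl := log_der hM hδ0 hc.ne hu0
      rw [hδu, map_one, log_one, hPd, add_zero] at hl
      have hv : P.1 (x - algebraMap F M c) = exp (-1) := by
        rw [← exp_log ((Valuation.ne_zero_iff P.1).2 hu0)]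
        congr 1
        omega
      refine reg_of_unif hM hE1' hv ?_ hf
      rw [map_sub, hE2, hE1]
      refine (P.1.map_sub _ _).trans (max_le (hη2 P hP hPQ) ?_)
      by_cases h0 : D₀ c = 0
      · rw [h0, map_zero, map_zero]
        exact zero_le_one
      · rw [P.2.2 _ h0]
  · exact inv_of_unif hM hE1' (val_unif P) (key P (hZ P hP)) hf

end Pool.Agent.Lib.MP_44a246_ntSF
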