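import Mathlib
import Pool.Agent.Lib.MP_44a246_ntL.LFF

/-!
# Paper 678, B5: linear conditions at a place

`exists_sub_ball`: induction on `N`; the map `V → {z | Q z ≤ exp N} / {z | Q z < exp N}` is linear and
the quotient has dimension (at most) one: if `Q (C v) ≤ exp (N+1)` for all `v`, either `Q (C v) ≤ exp N`
for all `v`, or there is `v₀` with `Q (C v₀) = exp (N+1)`, and then for each `v` there is a unique
`c ∈ F` with `Q (C (v - c v₀)) ≤ exp N` (`place_residue` for `C v / C v₀`); `{v | Q (C v) ≤ exp N}` is a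
submodule whose sum with the line `F v₀` is `V`, so its dimension is at least `dim V - 1`; apply the
induction to the restriction of `C` to this submodule and map back.

`exists_ne_zero_ball`: iterate over `i < k` (`k` times `exists_sub_ball`, restricting the maps to the
subspace), the last subspace has dimension `≥ dim V - ∑ N i > 0`. -/

namespace Pool.Agent.Lib.MP_44a246_ntSF

open Pool.Agent.Lib.MP_44a246_nt Pool.Agent.Lib.MP_44a246_ntL
open WithZero

variable {F M : Type*} [Field F] [IsAlgClosed F] [CharZero F] [Field M] [Algebra F M]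

omit [IsAlgClosed F] [CharZero F] in
private theorem place_smul_le (Q : Place F M) (c : F) (z : M) : Q.1 (c • z) ≤ Q.1 z := by
  rw [Algebra.smul_def, map_mul]
  rcases eq_or_ne c 0 with h | h
  · rw [h, map_zero, map_zero, zero_mul]
    exact zero_le
  · rw [Q.2.2 c h, one_mul]

/-- the vectors with image in a ball -/
private def ballSub (Q : Place F M) {V : Type*} [AddCommGroup V] [Module F V]
    (C : V →ₗ[F] M) (e : ℤᵐ⁰) : Submodule F V where
  carrier := {v | Q.1 (C v) ≤ e}
  add_mem' := by
    intro v w hv hw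
    rw [Set.mem_ofPred_eq, map_add]
    exact (Q.1.map_add _ _).trans (max_le hv hw)
  zero_mem' := by
    rw [Set.mem_ofPred_eq, map_zero, map_zero]
    exact zero_le
  smul_mem' := by
    intro c v hv
    rw [Set.mem_ofPred_eq, map_smul]
    exact (place_smul_le Q c _).trans hv

private theorem le_exp_of_lt {x : ℤᵐ⁰} {n : ℤ} (h : x < exp (n + 1)) : x ≤ exp n := by
  rcases eq_or_ne x 0 with h0 | h0
  · rw [h0]
    exact zero_le
  · rw [← exp_log h0] at h ⊢
    rw [exp_lt_exp] at h
    rw [exp_le_exp]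
    omega

private theorem ball_step (hM : IsFF F M) (Q : Place F M) {V : Type*} [AddCommGroup V]
    [Module F V] [FiniteDimensional F V] (C : V →ₗ[F] M) (n : ℤ)
    (hC : ∀ v, Q.1 (C v) ≤ exp (n + 1)) :
    Module.finrank F V ≤ Module.finrank F (ballSub Q C (exp n)) + 1 := by
  by_cases hall : ∀ v, Q.1 (C v) ≤ exp n
  · have h1 : ballSub Q C (exp n) = ⊤ := by
      rw [eq_top_iff]
      intro v _
      exact hall v
    rw [h1, finrank_top]
    omega
  · push Not at hall
    obtain ⟨v₀, hv₀⟩ := hall
    have hne : C v₀ ≠ 0 := by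
      intro h
      rw [h, map_zero] at hv₀
      exact absurd hv₀ (not_lt.mpr zero_le)
    have hval : Q.1 (C v₀) = exp (n + 1) := by
      refine le_antisymm (hC v₀) ?_
      by_contra hlt
      exact absurd (le_exp_of_lt (not_le.mp hlt)) (not_le.mpr hv₀)
    have hne' : Q.1 (C v₀) ≠ 0 := by
      rw [hval]
      exact exp_ne_zero
    have hsup : ballSub Q C (exp n) ⊔ Submodule.span F {v₀} = ⊤ := by
      rw [eq_top_iff]
      intro v _
      have hy : Q.1 (C v / C v₀) ≤ 1 := by
        rw [map_div₀, hval]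
        exact div_le_one_of_le₀ (hC v) zero_le
      obtain ⟨c, hc⟩ := hM.place_residue Q hy
      have hmem : v - c • v₀ ∈ ballSub Q C (exp n) := by
        change Q.1 (C (v - c • v₀)) ≤ exp n
        apply le_exp_of_lt
        have h2 : C (v - c • v₀) = (C v / C v₀ - algebraMap F M c) * C v₀ := by
          rw [map_sub, map_smul, Algebra.smul_def, sub_mul, div_mul_cancel₀ _ hne]
        rw [h2, map_mul, ← hval]
        exact mul_lt_of_lt_one_left (zero_lt_iff.mpr hne') hc
      have h3 : v = (v - c • v₀) + c • v₀ := by abel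
      rw [h3]
      exact Submodule.add_mem_sup hmem (Submodule.smul_mem _ _ (Submodule.mem_span_singleton_self _))
    have h4 := Submodule.finrank_add_le_finrank_add_finrank (ballSub Q C (exp n))
      (Submodule.span F {v₀})
    rw [hsup, finrank_top] at h4
    have h5 : Module.finrank F (Submodule.span F {v₀}) ≤ 1 := by
      refine (finrank_span_le_card ({v₀} : Set V)).trans ?_
      simp
    omega

theorem exists_sub_ball (hM : IsFF F M) (Q : Place F M) {V : Type*} [AddCommGroup V] [Module F V]
    [FiniteDimensional F V] (C : V →ₗ[F] M) (N : ℕ) (hC : ∀ v, Q.1 (C v) ≤ exp (N : ℤ)) :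
    ∃ V' : Submodule F V, (∀ v ∈ V', Q.1 (C v) ≤ 1) ∧
      Module.finrank F V ≤ Module.finrank F V' + N := by
  induction N generalizing V with
  | zero =>
    refine ⟨⊤, fun v _ => ?_, ?_⟩
    · have h := hC v
      rwa [Nat.cast_zero, exp_zero] at h
    · rw [finrank_top]
      exact le_add_right le_rfl
  | succ N ih =>
    have h1 := ball_step hM Q C (N : ℤ) (by
      intro v
      have h := hC v
      push_cast at h
      exact h)
    obtain ⟨V'', hV'', hd⟩ := ih (C.comp (ballSub Q C (exp (N : ℤ))).subtype)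
      (fun v => v.2)
    refine ⟨V''.map (ballSub Q C (exp (N : ℤ))).subtype, ?_, ?_⟩
    · rintro v ⟨w, hw, rfl⟩
      exact hV'' w hw
    · rw [Submodule.finrank_map_subtype_eq]
      omega

private theorem exists_sub_balls (hM : IsFF F M) (Q : Place F M) {V : Type*} [AddCommGroup V]
    [Module F V] [FiniteDimensional F V] (k : ℕ) (C : ℕ → V →ₗ[F] M) (N : ℕ → ℕ)
    (hC : ∀ i < k, ∀ v, Q.1 (C i v) ≤ exp (N i : ℤ)) :
    ∃ V' : Submodule F V, (∀ v ∈ V', ∀ i < k, Q.1 (C i v) ≤ 1) ∧
      Module.finrank F V ≤ Module.finrank F V' + ∑ i ∈ Finset.range k, N i := by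
  induction k with
  | zero =>
    refine ⟨⊤, fun v _ i hi => absurd hi (Nat.not_lt_zero i), ?_⟩
    rw [finrank_top]
    exact le_add_right le_rfl
  | succ k ih =>
    obtain ⟨V', hV', hd⟩ := ih fun i hi => hC i (Nat.lt_succ_of_lt hi)
    obtain ⟨V'', hV'', hd'⟩ := exists_sub_ball hM Q ((C k).comp V'.subtype) (N k)
      (fun v => hC k (Nat.lt_succ_self k) v)
    refine ⟨V''.map V'.subtype, ?_, ?_⟩
    · rintro v ⟨w, hw, rfl⟩ i hi
      rcases Nat.lt_succ_iff_lt_or_eq.mp hi with h | h
      · exact hV' _ w.2 i h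
      · rw [h]
        exact hV'' w hw
    · rw [Submodule.finrank_map_subtype_eq, Finset.sum_range_succ]
      omega

theorem exists_ne_zero_ball (hM : IsFF F M) (Q : Place F M) {V : Type*} [AddCommGroup V]
    [Module F V] [FiniteDimensional F V] (k : ℕ) (C : ℕ → V →ₗ[F] M) (N : ℕ → ℕ)
    (hC : ∀ i < k, ∀ v, Q.1 (C i v) ≤ exp (N i : ℤ))
    (hdim : ∑ i ∈ Finset.range k, N i < Module.finrank F V) :
    ∃ v : V, v ≠ 0 ∧ ∀ i < k, Q.1 (C i v) ≤ 1 := by
  obtain ⟨V', hV', hd⟩ := exists_sub_balls hM Q k C N hC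
  have hpos : 0 < Module.finrank F V' := by omega
  have hnt : Nontrivial V' := Module.nontrivial_of_finrank_pos hpos
  obtain ⟨w, hw⟩ := exists_ne (0 : V')
  exact ⟨w, fun h => hw (Subtype.ext h), hV' w w.2⟩

end Pool.Agent.Lib.MP_44a246_ntSF
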