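import Mathlib
import Pool.Agent.Lib.MP_44a246_ntL.LFF

/-!
# Paper 678, B10: a determinant

`det_unit`: factor `s l` out of the columns (`Matrix.det_mul_row` or `det_mul_column`); the determinant
of `(k_l ^ i + ε_{i l})`: it is in the valuation ring of `P` and modulo the maximal ideal it is the
Vandermonde determinant `∏ (k_l - k_m)` (`Matrix.det_vandermonde`, transpose), a nonzero integer, of
value `1`. (E.g. in the ring `P.1.integer` and its residue field; or expand: the difference of the two
determinants is a sum of products each containing an `ε`.) -/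

namespace Pool.Agent.Lib.MP_44a246_ntSF

open Pool.Agent.Lib.MP_44a246_nt Pool.Agent.Lib.MP_44a246_ntL
open WithZero

variable {F M : Type*} [Field F] [IsAlgClosed F] [CharZero F] [Field M] [Algebra F M]

private theorem det_sub_lt {v : Valuation M ℤᵐ⁰} {r : ℕ} {C D : Matrix (Fin r) (Fin r) M}
    (hD : ∀ i l, v (D i l) ≤ 1) (hCD : ∀ i l, v (C i l - D i l) < 1) :
    v (C.det - D.det) < 1 := by
  have hC : ∀ i l, v (C i l) ≤ 1 := fun i l => by
    have h1 : C i l = (C i l - D i l) + D i l := by ring
    rw [h1]
    exact v.map_add_le (hCD i l).le (hD i l)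
  let I : Ideal v.integer :=
    { carrier := {x | v (x : M) < 1}
      zero_mem' := by
        show v ((0 : v.integer) : M) < 1
        rw [ZeroMemClass.coe_zero, map_zero]
        exact zero_lt_one
      add_mem' := by
        intro a b ha hb
        show v ((a + b : v.integer) : M) < 1
        rw [Subring.coe_add]
        exact v.map_add_lt ha hb
      smul_mem' := by
        intro c x hx
        show v ((c * x : v.integer) : M) < 1
        rw [Subring.coe_mul, map_mul]
        exact lt_of_le_of_lt (mul_le_of_le_one_left' c.2) hx }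
  let C' : Matrix (Fin r) (Fin r) v.integer := fun i l => ⟨C i l, hC i l⟩
  let D' : Matrix (Fin r) (Fin r) v.integer := fun i l => ⟨D i l, hD i l⟩
  have h1 : Ideal.Quotient.mk I C'.det = Ideal.Quotient.mk I D'.det := by
    rw [RingHom.map_det, RingHom.map_det]
    congr 1
    ext i l
    rw [RingHom.mapMatrix_apply, RingHom.mapMatrix_apply, Matrix.map_apply, Matrix.map_apply,
      Ideal.Quotient.eq]
    exact hCD i l
  rw [Ideal.Quotient.eq] at h1
  have h2 : v ((C'.det - D'.det : v.integer) : M) < 1 := h1
  have h3 : ((C'.det : v.integer) : M) = C.det := by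
    have := RingHom.map_det v.integer.subtype C'
    exact this
  have h4 : ((D'.det : v.integer) : M) = D.det := by
    have := RingHom.map_det v.integer.subtype D'
    exact this
  rw [AddSubgroupClass.coe_sub, h3, h4] at h2
  exact h2

private theorem val_int {P : Place F M} {n : ℤ} (hn : n ≠ 0) : P.1 (n : M) = 1 := by
  have h := P.2.2 (n : F) (Int.cast_ne_zero.2 hn)
  rwa [map_intCast] at h

private theorem val_int_le {P : Place F M} (n : ℤ) : P.1 (n : M) ≤ 1 := by
  rcases eq_or_ne n 0 with rfl | hn
  · rw [Int.cast_zero, map_zero]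
    exact zero_le_one
  · rw [val_int hn]

theorem det_unit {P : Place F M} {r : ℕ} {s : Fin r → M} (hs : ∀ l, s l ≠ 0) {k : Fin r → ℤ}
    (hk : Function.Injective k) {B : Matrix (Fin r) (Fin r) M}
    (hB : ∀ i l, P.1 (B i l - (k l : M) ^ (i : ℕ) * s l) < P.1 (s l)) :
    P.1 B.det = ∏ l, P.1 (s l) := by
  classical
  let C : Matrix (Fin r) (Fin r) M := fun i l => B i l * (s l)⁻¹
  let D : Matrix (Fin r) (Fin r) M := fun i l => (k l : M) ^ (i : ℕ)
  have hBC : B.det = (∏ l, s l) * C.det := by
    rw [← Matrix.det_mul_row]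
    congr 1
    ext i l
    show B i l = s l * (B i l * (s l)⁻¹)
    field_simp [hs l]
  have hD : ∀ i l, P.1 (D i l) ≤ 1 := fun i l => by
    show P.1 ((k l : M) ^ (i : ℕ)) ≤ 1
    rw [map_pow]
    exact pow_le_one' (val_int_le _) _
  have hCD : ∀ i l, P.1 (C i l - D i l) < 1 := fun i l => by
    have h1 : C i l - D i l = (B i l - (k l : M) ^ (i : ℕ) * s l) * (s l)⁻¹ := by
      show B i l * (s l)⁻¹ - (k l : M) ^ (i : ℕ) = _
      rw [sub_mul, mul_assoc, mul_inv_cancel₀ (hs l), mul_one]
    have h2 : P.1 (s l) ≠ 0 := (Valuation.ne_zero_iff _).2 (hs l)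
    rw [h1, map_mul, map_inv₀, ← div_eq_mul_inv, div_lt_one₀ (zero_lt_iff.2 h2)]
    exact hB i l
  have hdet : P.1 D.det = 1 := by
    have h1 : D.det = ((∏ i : Fin r, ∏ j ∈ Finset.Ioi i, (k j - k i) : ℤ) : M) := by
      have h2 : D = Matrix.transpose (Matrix.vandermonde (fun l => (k l : M))) := by
        ext i l
        rfl
      rw [h2, Matrix.det_transpose, Matrix.det_vandermonde]
      push_cast
      rfl
    rw [h1]
    apply val_int
    refine Finset.prod_ne_zero_iff.2 fun i _ => Finset.prod_ne_zero_iff.2 fun j hj => ?_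
    rw [Finset.mem_Ioi] at hj
    exact sub_ne_zero.2 fun h => hj.ne' (hk h)
  have hlt := det_sub_lt hD hCD
  have hC1 : P.1 C.det = 1 := by
    have h1 : C.det = D.det + (C.det - D.det) := by ring
    rw [h1, Valuation.map_add_eq_of_lt_left, hdet]
    rw [hdet]
    exact hlt
  rw [hBC, map_mul, hC1, mul_one, map_prod]

end Pool.Agent.Lib.MP_44a246_ntSF
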