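import Mathlib
import Pool.Agent.Lib.MP_44a246_ntSF.SFC05
import Pool.Agent.Lib.MP_44a246_ntUV.UV16

/-!
# Paper 678, Part C: the limit theorem for few directions

The closure of the sequence of the points over the field of the coefficients may be of any
dimension: `r + 1` of the affine coordinates are independent.
-/

namespace Pool.Agent.Lib.MP_44a246_ntSF

open Pool.Agent.Lib.MP_e52354_nt
open Pool.Agent.Lib.MP_44a246_nt
open Pool.Agent.Lib.MP_44a246_ntL
open Pool.Agent.Lib.MP_44a246_ntR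
open Pool.Agent.Lib.MP_44a246_ntS
open Pool.Agent.Lib.MP_44a246_ntU (exists_der_indepV algIndep_germV)
open Pool.Agent.Lib.MP_44a246_ntSH
open Pool.Agent.Lib.MP_44a246_ntSP
open Pool.Agent.Lib.MP_44a246_ntUV
open Pool.Agent.Lib.MP_44a246_ntK (jexpo mem_jexpo)
open WithZero Polynomial Module

/-- **The columns of the projective space**: the gradients of the forms. -/
theorem colsX_grad {F M : Type*} [Field F] [Field M] [Algebra F M] {m n : ℕ} {ι : Type*}
    [DecidableEq ι] {d : ι → ℕ} {a : ι → (Fin (n + 1) →₀ ℕ) → F} {D : Derivation ℤ M M}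
    (hD : ∀ u : F, D (algebraMap F M u) = 0) {E : Fin m → Derivation ℤ M M}
    (hE : ∀ i j, ∀ I ∈ expo (Fin (n + 1)) (d j), E i (algebraMap F M (a j I)) = 0)
    {W : ι → (Fin (n + 1) →₀ ℕ) → Derivation ℤ M M}
    (hW : ∀ j, ∀ I ∈ expo (Fin (n + 1)) (d j), ∀ j', ∀ I' ∈ expo (Fin (n + 1)) (d j'),
      W j I (algebraMap F M (a j' I')) = if (j, I) = (j', I') then 1 else 0)
    (γ : Fin (n + 1) → M) :
    ColsX d D E W γ (fun j => Fval (d j) (fun I => algebraMap F M (a j I)) γ)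
      (fun j => grad (d j) (fun I => algebraMap F M (a j I)) γ) where
  euler j := sum_grad_mul _ _ _
  hD j := by
    have h1 := D_Fval (d j) (fun I => algebraMap F M (a j I)) D γ
    have h2 : ∑ I ∈ expo (Fin (n + 1)) (d j), D (algebraMap F M (a j I)) * mon γ I = 0 :=
      Finset.sum_eq_zero fun I _ => by rw [hD, zero_mul]
    rw [h1, h2, zero_add]
  hE i j := by
    have h1 := D_Fval (d j) (fun I => algebraMap F M (a j I)) (E i) γ
    have h2 : ∑ I ∈ expo (Fin (n + 1)) (d j), E i (algebraMap F M (a j I)) * mon γ I = 0 :=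
      Finset.sum_eq_zero fun I hI => by rw [hE i j I hI, zero_mul]
    rw [h1, h2, zero_add]
  hW j I hI j' := by
    have h1 := D_Fval (d j') (fun I => algebraMap F M (a j' I)) (W j I) γ
    have h2 : ∑ J ∈ expo (Fin (n + 1)) (d j'), W j I (algebraMap F M (a j' J)) * mon γ J =
        if j = j' then mon γ I else 0 := by
      have h3 : ∀ J ∈ expo (Fin (n + 1)) (d j'), W j I (algebraMap F M (a j' J)) * mon γ J =
          if (j, I) = (j', J) then mon γ J else 0 := by
        intro J hJ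
        rw [hW j I hI j' J hJ]
        split_ifs <;> simp
      rw [Finset.sum_congr rfl h3]
      by_cases hj : j = j'
      · subst hj
        rw [if_pos rfl, Finset.sum_eq_single I]
        · rw [if_pos rfl]
        · intro J _ hJ
          rw [if_neg]
          intro h4
          rw [Prod.mk.injEq] at h4
          exact hJ h4.2.symm
        · intro h4
          exact absurd hI h4
      · rw [if_neg hj]
        refine Finset.sum_eq_zero fun J _ => ?_
        rw [if_neg]
        intro h4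
        rw [Prod.mk.injEq] at h4
        exact hj h4.1
    rw [h2] at h1
    rw [h1]
    ring

section

variable {F U M : Type*} [Field F] [IsAlgClosed F] [CharZero F] [Field U] [Algebra F U] [Field M]
  [Algebra F M] [Algebra M U] [IsScalarTower F M U]
  [Algebra F[X] M] [IsScalarTower F F[X] M]
  [Algebra (RatFunc F) M] [IsScalarTower F[X] (RatFunc F) M]
  [Algebra (Rinf F) M] [IsScalarTower (Rinf F) (RatFunc F) M]
  [FiniteDimensional (RatFunc F) M]

/-- the weights of the places -/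
theorem exists_weights {D : Derivation ℤ U U} {G : IntermediateField F U} {𝒪 : Set (Subring U)}
    (h : Fam D G 𝒪) {N : ℕ} {Λ : Type*} [Fintype Λ] {d' : Λ → ℕ} {v : Λ → M}
    {γ : Fin N → M} (hγ : γ ≠ 0) (hv : ∀ c, v c ≠ 0)
    (hvle : ∀ (w : Place F M) c, w.1 (v c) ≤ vmax w.1 γ ^ d' c)
    {wt : Λ → ℚ} (hwt0 : ∀ c, 0 ≤ wt c)
    (hwt : ∀ (w : Place F M) (c : Λ), 0 < ordV w (d' c) (v c) γ →
      WtAt D 𝒪 w (1 - wt c * ordV w (d' c) (v c) γ)) :
    ∃ cw : Place F M →₀ ℚ, (∀ w, 0 ≤ cw w) ∧ (∀ w, cw w ≤ 1) ∧ (∀ w, WtAt D 𝒪 w (cw w)) ∧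
      ∀ w c, 0 < ordV w (d' c) (v c) γ → 1 - wt c * ordV w (d' c) (v c) γ ≤ cw w := by
  classical
  have hbf := bdryV_finite (κ := F) (d := d') hγ hv
  have hvm : ∀ w : Place F M, vmax w.1 γ ≠ 0 := fun w h => hγ ((vmax_eq_zero_iff w.1).mp h)
  have key : ∀ w : Place F M, ∀ s : Finset Λ, ∃ q : ℚ, 0 ≤ q ∧ q ≤ 1 ∧ WtAt D 𝒪 w q ∧
      (∀ c ∈ s, 0 < ordV w (d' c) (v c) γ → 1 - wt c * ordV w (d' c) (v c) γ ≤ q) ∧
      ((∀ c ∈ s, ¬ 0 < ordV w (d' c) (v c) γ) → q = 0) := by
    intro w s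
    induction s using Finset.induction_on with
    | empty =>
      exact ⟨0, le_refl _, by norm_num, WtAt.of_nonpos h le_rfl,
        fun c hc => absurd hc (Finset.notMem_empty c), fun _ => rfl⟩
    | insert c s hc ih =>
      obtain ⟨q, h1, h2, h3, h4, h5⟩ := ih
      by_cases ho : 0 < ordV w (d' c) (v c) γ
      · refine ⟨max q (1 - wt c * ordV w (d' c) (v c) γ), h1.trans (le_max_left _ _),
          max_le h2 ?_, ?_, fun c' hc' ho' => ?_, fun hno => ?_⟩
        · have h6 : 0 ≤ wt c * (ordV w (d' c) (v c) γ : ℚ) :=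
            mul_nonneg (hwt0 c) (by exact_mod_cast ho.le)
          linarith
        · rcases le_total q (1 - wt c * ordV w (d' c) (v c) γ) with h6 | h6
          · rw [max_eq_right h6]
            exact hwt w c ho
          · rw [max_eq_left h6]
            exact h3
        · rcases Finset.mem_insert.mp hc' with rfl | hc'
          · exact le_max_right _ _
          · exact (h4 c' hc' ho').trans (le_max_left _ _)
        · exact absurd ho (hno c (Finset.mem_insert_self c s))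
      · refine ⟨q, h1, h2, h3, fun c' hc' ho' => ?_, fun hno => h5 fun c' hc' =>
          hno c' (Finset.mem_insert_of_mem hc')⟩
        rcases Finset.mem_insert.mp hc' with rfl | hc'
        · exact absurd ho' ho
        · exact h4 c' hc' ho'
  choose q hq0 hq1 hqW hqc hqz using fun w => key w Finset.univ
  have hpos : ∀ (w : Place F M) c, 0 < ordV w (d' c) (v c) γ →
      w.1 (v c) < vmax w.1 γ ^ d' c := by
    intro w c ho
    refine lt_of_le_of_ne (hvle w c) fun he => ?_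
    unfold ordV at ho
    rw [he, log_pow, nsmul_eq_mul, sub_self] at ho
    exact lt_irrefl _ ho
  have hqb : ∀ w, q w ≠ 0 → w ∈ hbf.toFinset := by
    intro w hw
    rw [Set.Finite.mem_toFinset]
    by_contra hcon
    refine hw (hqz w fun c _ ho => hcon ?_)
    exact ⟨c, hpos w c ho⟩
  exact ⟨Finsupp.onFinset hbf.toFinset q hqb, hq0, hq1, hqW,
    fun w c ho => hqc w c (Finset.mem_univ c) ho⟩

/-- **The limit theorem for few directions.** -/
theorem orb_limit_few {D : Derivation ℤ U U} {G : IntermediateField F U} {𝒪 : Set (Subring U)}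
    (h : Fam D G 𝒪) (hMG : ∀ u : M, algebraMap M U u ∈ G)
    {r n : ℕ} {ι Λ : Type*} [Fintype ι] [DecidableEq ι] [Fintype Λ]
    [DecidableEq Λ] {d : ι → ℕ} (hd : ∀ b, 1 ≤ d b)
    {a : ι → (Fin (n + 1) →₀ ℕ) → F} {d' : Λ → ℕ} (hd' : ∀ c, 1 ≤ d' c)
    {a' : Λ → (Fin (n + 1) →₀ ℕ) → F}
    (W : ι ⊕ Λ → (Fin (n + 1) →₀ ℕ) → Derivation ℤ F F)
    (hW : ∀ b, ∀ I ∈ expo (Fin (n + 1)) (Sum.elim d d' b), ∀ b',
      ∀ J ∈ expo (Fin (n + 1)) (Sum.elim d d' b'),
      W b I (Sum.elim a a' b' J) = if (b, I) = (b', J) then 1 else 0)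
    {k₂ : Type*} [Field k₂] [CharZero k₂] [Algebra k₂ F] [Algebra k₂ M] [IsScalarTower k₂ F M]
    (ha : ∀ b, ∀ I ∈ expo (Fin (n + 1)) (d b), ∃ u : k₂, algebraMap k₂ F u = a b I)
    (ha' : ∀ c, ∀ I ∈ expo (Fin (n + 1)) (d' c), ∃ u : k₂, algebraMap k₂ F u = a' c I)
    {γ : Fin (n + 1) → M} {l : Fin (n + 1)} (hl : γ l ≠ 0)
    (hF : ∀ b, Fval (d b) (fun I => algebraMap F M (a b I)) γ = 0)
    (hφ : ∀ c, Fval (d' c) (fun I => algebraMap F M (a' c I)) γ ≠ 0)
    {j : Fin (r + 1) → Fin (n + 1)} (hind : AlgebraicIndependent k₂ (fun i => γ (j i) / γ l))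
    (hγ : ∃ k, ∀ u : F, algebraMap F M u ≠ γ k / γ l)
    {wt : Λ → ℚ} (hwt0 : ∀ c, 0 ≤ wt c)
    (hwt : ∀ (w : Place F M) (c : Λ), 0 < ordF w (d' c) (a' c) γ →
      WtAt D 𝒪 w (1 - wt c * ordF w (d' c) (a' c) γ)) :
    (∑ b, (d b : ℚ)) + (∑ c, (1 - wt c) * (d' c : ℚ)) + (r + 2) + Fintype.card ι ≤
      2 * (n + 1) := by
  classical
  have hγ0 : γ ≠ 0 := fun h0 => hl (by rw [h0]; rfl)
  have htow : IsScalarTower F (RatFunc F) M := by
    refine IsScalarTower.of_algebraMap_eq fun c => ?_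
    rw [IsScalarTower.algebraMap_apply F F[X] M, IsScalarTower.algebraMap_apply F[X] (RatFunc F) M,
      ← IsScalarTower.algebraMap_apply F F[X] (RatFunc F)]
  have ht : Transcendental F (algebraMap F[X] M X) := transcendental_X
  have halg : Algebra.IsAlgebraic (IntermediateField.adjoin F {algebraMap F[X] M X}) M :=
    isAlgebraic_adjoin_X
  -- the derivation over `F`
  obtain ⟨D₁, hD₁', hD₁X⟩ := exists_der_ext ht halg (0 : Derivation ℤ F F) 1
  have hD₁ : ∀ u : F, D₁ (algebraMap F M u) = 0 := fun u => by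
    rw [hD₁', Derivation.zero_apply, map_zero]
  have hγ' : ∃ k, D₁ (γ k / γ l) ≠ 0 := by
    obtain ⟨k, hk⟩ := hγ
    refine ⟨k, fun h0 => ?_⟩
    obtain ⟨w₀, hw₀⟩ : ∃ w : Place F M, 1 < w.1 (γ k / γ l) := by
      by_contra hcon
      push Not at hcon
      obtain ⟨c, hc⟩ := const_of_rr_zero (isFF_of_ratFunc F M) hcon
      exact hk c hc
    obtain ⟨𝔎, -, h𝔎⟩ := Pool.Agent.Lib.MP_44a246_ntSM.exists_canon D₁ hD₁ hD₁X
    have h1 := (h𝔎 w₀).1 _ hw₀.ne'
    rw [h0, map_zero] at h1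
    exact mul_ne_zero (zero_lt_one.trans hw₀).ne' exp_ne_zero h1.symm
  obtain ⟨E, hEF, hEX, hEk, hli⟩ := exists_ders_over (k₂ := k₂) ht halg D₁ hD₁ hD₁X hl hind hγ'
  choose W' hWF hWX using fun b I => exists_der_ext ht halg (W b I) 0
  -- the columns
  have hcol := colsX_grad (F := F) (M := M) (d := Sum.elim d d') (a := Sum.elim a a') (D := D₁)
    hD₁ (E := E) (fun i b I hI => by
      have h2 : ∃ u : k₂, algebraMap k₂ F u = Sum.elim a a' b I := by
        rcases b with b | b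
        · exact ha b I hI
        · exact ha' b I hI
      obtain ⟨u, hu⟩ := h2
      rw [← hu, ← IsScalarTower.algebraMap_apply k₂ F M]
      exact hEk i u)
    (W := W') (fun b I hI b' I' hI' => by
      rw [hWF, hW b I hI b' I' hI']
      split_ifs <;> simp) γ
  have hvle : ∀ (w : Place F M) c, w.1 (Fval (d' c) (fun I => algebraMap F M (a' c I)) γ) ≤
      vmax w.1 γ ^ d' c := fun w c => Fval_le_vmax w (a' c) γ
  obtain ⟨cw, hcw0, hcw1, hcwW, hcwc⟩ := exists_weights (M := M) h hγ0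
    (v := fun c => Fval (d' c) (fun I => algebraMap F M (a' c I)) γ) hφ hvle hwt0 hwt
  have hB := theoremB (M := M) h hMG cw hcw0 hcw1 (wt_iff.mpr hcwW)
  have hadj := orb_adj_few (κ := F) (M := M) (d := Sum.elim d d')
    (by rintro (b | b); exacts [hd b, hd' b]) D₁ hD₁ hD₁X E hEF
    (fun i => ⟨0, by rw [hEX, map_zero]⟩) W' (fun b I u => ⟨_, hWF b I u⟩)
    (fun b I => ⟨0, by rw [hWX, map_zero]⟩) hcol hF hφ hvle hli hwt0 hcw0 hcwc
  have hh : 0 < height F γ := by
    obtain ⟨k, hk⟩ := hγ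
    exact height_pos_of (isFF_of_ratFunc F M) hl hk
  have hh' : (0 : ℚ) < height F γ := by exact_mod_cast hh
  have hadj' : ((∑ b, (d b : ℚ)) + (∑ c, (1 - wt c) * (d' c : ℚ)) + (r + 2) +
      Fintype.card ι - 2 * (n + 1)) * height F γ + 2 * Module.finrank (RatFunc F) M ≤
      ramDeg F M (RatFunc F) + cw.sum fun _ x => x := by
    have h1 := hadj
    push_cast at h1
    exact h1
  by_contra hcon
  push Not at hcon
  have h1 : 0 < ((∑ b, (d b : ℚ)) + (∑ c, (1 - wt c) * (d' c : ℚ)) + (r + 2) +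
      Fintype.card ι - 2 * (n + 1)) * height F γ :=
    mul_pos (by linarith) hh'
  linarith

end

end Pool.Agent.Lib.MP_44a246_ntSF
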