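import Mathlib
import Pool.Agent.Lib.MP_44a246_ntSF.SFC07

/-!
# Paper 678: sequences of orbifold points with curves of small height, few directions
-/

namespace Pool.Agent.Lib.MP_44a246_ntSF

open Pool.Agent.Lib.MP_e52354_nt
open Pool.Agent.Lib.MP_44a246_nt
open Pool.Agent.Lib.MP_44a246_ntL
open Pool.Agent.Lib.MP_44a246_ntS
open Pool.Agent.Lib.MP_44a246_ntSH
open Pool.Agent.Lib.MP_44a246_ntSP
open Pool.Agent.Lib.MP_44a246_ntU (exists_der_indepV algIndep_germV)
open Pool.Agent.Lib.MP_44a246_ntK (jexpo mem_jexpo)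
open WithZero Module Polynomial

universe u v w

variable {κ : Type u} {K : Type v} {Ω : Type w} [Field κ] [IsAlgClosed κ] [CharZero κ]
  [Field K] [Algebra κ K] [Field Ω] [Algebra K Ω] [Algebra κ Ω] [IsScalarTower κ K Ω]
  (W : Tow κ K Ω)

/-- **There is no sequence of orbifold points** with curves of small height, of dimension `≥ r + 1`
over the field of the coefficients, if
`2 (n + 1) < ∑_A d_j + ∑_{A^c} (1 - 1 / m_j) d_j + (r + 2) + |A|`. Outside `P N` the form `j` is a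
unit at the point or vanishes of order at least `m j` (`m j = 0`: it is a unit). For `r = 0` the
points need not be generic. -/
theorem no_seqO_few [IsAlgClosed Ω] [Algebra.IsAlgebraic K Ω] {n r b N₁ p q C : ℕ}
    {d : Fin p → ℕ} (hd1 : ∀ j, 1 ≤ d j)
    {k : Type*} [Field k] [CharZero k] [Algebra k K] {a : Fin p → (Fin (n + 1) →₀ ℕ) → K}
    (ha : AlgebraicIndependent k (fun s : ↥(jexpo n d) => a s.1.1 s.1.2))
    {k₂ : Type*} [Field k₂] [CharZero k₂] [Algebra k₂ K] [Algebra k₂ Ω] [IsScalarTower k₂ K Ω]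
    {a₂ : Fin p → (Fin (n + 1) →₀ ℕ) → k₂}
    (ha₂ : ∀ j, ∀ I ∈ expo (Fin (n + 1)) (d j), algebraMap k₂ K (a₂ j I) = a j I)
    {x : ∀ N, Fin (n + 1) → W.L N} {l : Fin (n + 1)} (hxl : ∀ N, x N l = 1)
    {A : Finset (Fin p)}
    (hA : ∀ N j, Fval (d j) (fun I => algebraMap K (W.L N) (a j I)) (x N) = 0 ↔ j ∈ A)
    (hgen : r = 0 ∨ ∃ j : Fin (r + 1) → Fin (n + 1), ∀ H : MvPolynomial (Fin (r + 1)) k₂, H ≠ 0 →
      ∃ N₀, ∀ N ≥ N₀, MvPolynomial.aeval (fun i => (x N (j i) : Ω)) H ≠ 0)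
    {P : ∀ N, Finset (Place κ (W.L N))} (hP : ∀ N, (P N).card ≤ q * W.T N) {m : Fin p → ℕ}
    (hc : ∀ N, ∀ w : Place κ (W.L N), w ∉ P N → ∀ j, j ∉ A →
      w.1 (Fval (d j) (fun I => algebraMap K (W.L N) (a j I)) (x N)) = vmax w.1 (x N) ^ d j ∨
      (m j ≠ 0 ∧ w.1 (Fval (d j) (fun I => algebraMap K (W.L N) (a j I)) (x N)) ≤
        vmax w.1 (x N) ^ d j * exp (-(m j : ℤ))))
    (hbig : ∀ C : ℕ, ¬ ∀ᶠ N in (Filter.hyperfilter ℕ : Filter ℕ),
      height κ (x N) ≤ C * (W.T N : ℤ))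
    (hcert : ∀ N, CertN κ d (fun j I => algebraMap K (W.L N) (a j I)) b N₁
      (C * (W.T N : ℤ)) (x N))
    (hnum : (2 * (n + 1) : ℚ) < ∑ j ∈ A, (d j : ℚ) + ∑ j ∈ Aᶜ, (1 - (m j : ℚ)⁻¹) * (d j : ℚ) +
      (r + 2) + A.card) :
    False := by
  classical
  have hcΩ : CharZero Ω := charZero_of_injective_algebraMap (algebraMap κ Ω).injective
  have hcUP : CharZero (UP Ω) := charZero_of_injective_ringHom (constHom (L := Ω)).injective
  obtain ⟨M, hMff, hMtm, hxM⟩ := exists_limit_field hxl hbig hcert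
  obtain ⟨Δ⟩ := exists_DOm (Ω := Ω) W.ff
  obtain ⟨γ, hγ⟩ : ∃ γ : Fin (n + 1) → M, ∀ j, (γ j : UP Ω) =
    germHom (fun N => (x N j : Ω)) := ⟨fun j => ⟨_, hxM j⟩, fun _ => rfl⟩
  have hγl : γ l = 1 := by
    apply Subtype.ext
    rw [hγ l]
    have : (fun N => (x N l : Ω)) = 1 := funext fun N => by rw [hxl]; rfl
    rw [this, map_one]
    rfl
  have hγ0 : γ ≠ 0 := fun h0 => one_ne_zero (hγl.symm.trans (congrFun h0 l))
  -- the algebra structures
  let _ : Algebra k W.F0 := ((cstHom W).comp (algebraMap k K)).toAlgebra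
  let _ : Algebra k₂ W.F0 := ((cstHom W).comp (algebraMap k₂ K)).toAlgebra
  let _ : Algebra k₂ M := ((algebraMap W.F0 M).comp (algebraMap k₂ W.F0)).toAlgebra
  let _ : Algebra k₂ (UP Ω) := ((constHom (L := Ω)).comp (algebraMap k₂ Ω)).toAlgebra
  have : IsScalarTower k₂ W.F0 M := IsScalarTower.of_algebraMap_eq fun _ => rfl
  -- the derivations
  have hindF : AlgebraicIndependent k (fun s : ↥(jexpo n d) => cstHom W (a s.1.1 s.1.2)) :=
    ha.map' (f := { cstHom W with commutes' := fun u => rfl }) (cstHom W).injective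
  choose V hV using fun I : Fin p × (Fin (n + 1) →₀ ℕ) => exists_der_indepV hindF
    (fun J => if I = J.1 then (1 : W.F0) else 0)
  -- the families
  obtain ⟨e, he⟩ : ∃ e : {j // j ∈ A} ⊕ {j // j ∉ A} → Fin p,
      e = Sum.elim (fun j => j.1) (fun j => j.1) := ⟨_, rfl⟩
  have hei : Function.Injective e := by
    rw [he]
    rintro (⟨j, hj⟩ | ⟨j, hj⟩) (⟨j', hj'⟩ | ⟨j', hj'⟩) h
    · simp only [Sum.elim_inl] at h
      subst h
      rfl
    · simp only [Sum.elim_inl, Sum.elim_inr] at h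
      subst h
      exact absurd hj hj'
    · simp only [Sum.elim_inl, Sum.elim_inr] at h
      subst h
      exact absurd hj' hj
    · simp only [Sum.elim_inr] at h
      subst h
      rfl
  have hed : ∀ b, Sum.elim (fun j : {j // j ∈ A} => d j.1) (fun j : {j // j ∉ A} => d j.1) b =
      d (e b) := by
    rw [he]
    rintro (b | b) <;> rfl
  have hea : ∀ b, Sum.elim (fun (j : {j // j ∈ A}) I => cstHom W (a j.1 I))
      (fun (j : {j // j ∉ A}) I => cstHom W (a j.1 I)) b = fun I => cstHom W (a (e b) I) := by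
    rw [he]
    rintro (b | b) <;> rfl
  have hcA : Fintype.card {j // j ∈ A} = A.card := Fintype.card_coe A
  -- the values of the forms
  have hFM : ∀ j, Fval (d j) (fun I => algebraMap W.F0 M (cstHom W (a j I))) γ = 0 ↔ j ∈ A := by
    intro j
    rw [← map_eq_zero_iff _ (algebraMap M (UP Ω)).injective, fval_M]
    have h1 : (fun l => (γ l : UP Ω)) = fun l => germHom fun N => (x N l : Ω) := funext hγ
    rw [h1, fval_germ_eq_zero_iff W (a j) x]
    constructor
    · intro h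
      obtain ⟨N, hN⟩ := h.exists
      exact (hA N j).1 hN
    · exact fun h => Filter.Eventually.of_forall fun N => (hA N j).2 h
  -- the point is not rational
  have hrat : ∃ k, ∀ u : W.F0, algebraMap W.F0 M u ≠ γ k / γ l := by
    by_contra hcon
    push Not at hcon
    obtain ⟨C', hC'⟩ := W.height_le_of_mem_F0 (x := x) (fun N h0 => by
      have h2 := congrFun h0 l
      rw [hxl] at h2
      exact one_ne_zero h2) (fun k => by
      obtain ⟨u, hu⟩ := hcon k
      rw [hγl, div_one] at hu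
      rw [← hγ k, ← hu]
      exact u.2)
    exact hbig C' hC'
  -- the genericity
  have hind : ∃ j : Fin (r + 1) → Fin (n + 1), AlgebraicIndependent k₂ (fun i => γ (j i) / γ l) := by
    rcases hgen with rfl | ⟨j, hgen⟩
    · obtain ⟨k₀, hk₀⟩ := hrat
      refine ⟨fun _ => k₀, ?_⟩
      have htr : Transcendental W.F0 (γ k₀ / γ l) := by
        intro halg
        have h1 := IsAlgClosed.degree_eq_one_of_irreducible W.F0
          (minpoly.irreducible halg.isIntegral)
        obtain ⟨u, hu⟩ := minpoly.mem_range_of_degree_eq_one W.F0 (γ k₀ / γ l) h1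
        exact hk₀ u hu
      have hu : Unique (Fin (0 + 1)) := inferInstanceAs (Unique (Fin 1))
      have h1 : AlgebraicIndependent W.F0 (fun _ : Fin (0 + 1) => γ k₀ / γ l) :=
        algebraicIndependent_unique_type_iff.mpr htr
      exact h1.restrictScalars (algebraMap k₂ W.F0).injective
    · refine ⟨j, ?_⟩
      have h1 := algIndep_germV (RingHom.id (UP Ω)) (fun u => rfl)
        (z := fun N i => (x N (j i) : Ω)) hgen
      let φ : M →ₐ[k₂] UP Ω := { algebraMap M (UP Ω) with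
        commutes' := fun u => by
          show constHom (algebraMap K Ω (algebraMap k₂ K u)) = constHom (algebraMap k₂ Ω u)
          rw [← IsScalarTower.algebraMap_apply k₂ K Ω] }
      refine AlgebraicIndependent.of_comp φ ?_
      have h2 : (φ ∘ fun i => γ (j i) / γ l) =
          fun i => RingHom.id (UP Ω) (germHom fun N => (x N (j i) : Ω)) := by
        funext i
        show ((γ (j i) / γ l : M) : UP Ω) = germHom (fun N => (x N (j i) : Ω))
        rw [hγl, div_one, hγ]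
      rw [h2]
      exact h1
  obtain ⟨j, hind⟩ := hind
  refine hMff.ind ?_
  intro _ _ _ _ _ _ _ _ _
  have hlim := orb_limit_few (F := W.F0) (U := UP Ω) (M := M) (D := derUP Δ.D) (G := tm W)
    (𝒪 := {O | IsVal W Δ P O}) (fam_val Δ P hP) (fun u => hMtm _ u.2) (r := r) (n := n)
    (ι := {j // j ∈ A}) (Λ := {j // j ∉ A})
    (d := fun j => d j.1) (fun j => hd1 j.1) (a := fun j I => cstHom W (a j.1 I))
    (d' := fun j => d j.1) (fun j => hd1 j.1)
    (a' := fun j I => cstHom W (a j.1 I)) (fun b I => V (e b, I)) ?_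
    (k₂ := k₂) (fun b I hI => ⟨a₂ b.1 I, by
      show cstHom W (algebraMap k₂ K (a₂ b.1 I)) = _
      rw [ha₂ b.1 I hI]⟩)
    (fun b I hI => ⟨a₂ b.1 I, by
      show cstHom W (algebraMap k₂ K (a₂ b.1 I)) = _
      rw [ha₂ b.1 I hI]⟩)
    (γ := γ) (l := l) (by rw [hγl]; exact one_ne_zero) (fun b => (hFM b.1).2 b.2)
    (fun c h0 => c.2 ((hFM c.1).1 h0)) (j := j) hind hrat
    (wt := fun c => (m c.1 : ℚ)⁻¹) (fun c => inv_nonneg.2 (Nat.cast_nonneg _))
    (fun w c ho => wt_limit W Δ hP (fun N v hv => hc N v hv c.1 c.2) hMtm hγ hγ0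
      (fun h0 => c.2 ((hFM c.1).1 h0)) w ho)
  · have h1 : ∑ b : {j // j ∈ A}, (d b.1 : ℚ) = ∑ j ∈ A, (d j : ℚ) :=
      Finset.sum_coe_sort A fun j => (d j : ℚ)
    have h2 : ∑ c : {j // j ∉ A}, (1 - (m c.1 : ℚ)⁻¹) * (d c.1 : ℚ) =
        ∑ j ∈ Aᶜ, (1 - (m j : ℚ)⁻¹) * (d j : ℚ) :=
      (Finset.sum_subtype Aᶜ (fun j => Finset.mem_compl)
        (fun j => (1 - (m j : ℚ)⁻¹) * (d j : ℚ))).symm
    rw [h1, h2, hcA] at hlim
    linarith
  · intro b I hI b' J hJ
    rw [hed] at hJ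
    have h3 := (hV (e b, I)).2 ⟨(e b', J), mem_jexpo.2 hJ⟩
    rw [hea]
    rw [h3]
    refine if_congr ?_ rfl rfl
    show (e b, I) = (e b', J) ↔ (b, I) = (b', J)
    rw [Prod.mk.injEq, Prod.mk.injEq, hei.eq_iff]

end Pool.Agent.Lib.MP_44a246_ntSF
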