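import Mathlib
import Pool.Agent.Lib.MP_44a246_ntD.D10
import Pool.Agent.Lib.MP_44a246_ntD.D22
import Pool.Agent.Lib.MP_44a246_ntSP.GN02
import Pool.Agent.Lib.MP_44a246_ntSF.SFC06
import Pool.Agent.Lib.MP_44a246_ntSF.SFC08

/-!
# Paper 678: the exceptional set of the orbifold points with a curve of small height and its
dimension
-/

namespace Pool.Agent.Lib.MP_44a246_ntSF

open Pool.Agent.Lib.MP_e52354_nt
open Pool.Agent.Lib.MP_44a246_nt
open Pool.Agent.Lib.MP_44a246_ntL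
open Pool.Agent.Lib.MP_44a246_ntS
open Pool.Agent.Lib.MP_44a246_ntU
open Pool.Agent.Lib.MP_44a246_ntSH
open Pool.Agent.Lib.MP_44a246_ntSP
open Pool.Agent.Lib.MP_44a246_ntD (countable_adjoin dim_excE)
open Pool.Agent.Lib.MP_44a246_ntK (jexpo mem_jexpo)
open WithZero MvPolynomial Module

universe u v

/-- **The exceptional set of a decreasing sequence of cones** without generic sequences of
dimension `m`. -/
theorem exists_locus {k₂ : Type*} {K Ω : Type v} [Field k₂] [Countable k₂] [Field K] [Field Ω]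
    [Algebra K Ω] [Algebra k₂ K] [Algebra k₂ Ω] [IsScalarTower k₂ K Ω] {n m : ℕ}
    {P : ℕ → Set (Fin (n + 1) → Ω)} (hanti : Antitone P)
    (hP : ∀ N, ∀ x ∈ P N, ∀ r : Ω, r ≠ 0 → (fun i => r * x i) ∈ P N)
    (hseq : ∀ (l : Fin (n + 1)) (j : Fin m → Fin (n + 1)) (x : ℕ → Fin (n + 1) → Ω),
      (∀ N, x N ∈ P N) → (∀ N, x N l = 1) →
      (∀ H : MvPolynomial (Fin m) k₂, H ≠ 0 →
        ∃ N₀, ∀ N ≥ N₀, aeval (fun i => x N (j i)) H ≠ 0) → False) :
    ∃ (C t : ℕ) (G : Fin t → MvPolynomial (Fin (n + 1)) K), (∀ i, ∃ E, (G i).IsHomogeneous E) ∧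
      ringKrullDim (MvPolynomial (Fin (n + 1)) K ⧸ Ideal.span (Set.range G)) ≤
        (m : WithBot ℕ∞) ∧
      ∀ x ∈ P C, ∀ i, aeval x (G i) = 0 := by
  classical
  have hex : ∀ (l : Fin (n + 1)) (j : Fin m → Fin (n + 1)),
      ∃ (C : ℕ) (g : MvPolynomial (Fin m) K), g ≠ 0 ∧ ∀ x ∈ P C, x l ≠ 0 →
          aeval (fun i => x (j i) / x l) g = 0 := by
    intro l j
    by_contra hcon
    push Not at hcon
    obtain ⟨z, hzS, hz⟩ := exists_generic_seqS (k := k₂) (K := K) (L := Ω)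
      (S := fun N => {z : Fin m → Ω | ∃ x ∈ P N, x l = 1 ∧ ∀ i, z i = x (j i)})
      (fun N g hg => by
        obtain ⟨x, hx, hxl, hxg⟩ := hcon N g hg
        exact ⟨_, ⟨fun i => (x l)⁻¹ * x i, hP N x hx _ (inv_ne_zero hxl), inv_mul_cancel₀ hxl,
          fun i => div_eq_inv_mul _ _⟩, hxg⟩)
    choose x hx1 hx2 hx3 using hzS
    refine hseq l j x hx1 hx2 fun H hH => ?_
    obtain ⟨N₀, hN₀⟩ := hz H hH
    refine ⟨N₀, fun N hN => ?_⟩
    have h1 : (fun i => x N (j i)) = z N := funext fun i => (hx3 N i).symm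
    rw [h1]
    exact hN₀ N hN
  choose C g hg0 hg using hex
  have hex2 : ∀ (l : Fin (n + 1)) (j : Fin m → Fin (n + 1)),
      ∃ (E : ℕ) (G : MvPolynomial (Fin (n + 1)) K), G.IsHomogeneous E ∧
        ∀ {L : Type v} [Field L] [Algebra K L] (x : Fin (n + 1) → L),
          (x l = 0 → aeval x G = 0) ∧
            (x l ≠ 0 → aeval x G = x l ^ E * aeval (fun i => x (j i) / x l) (g l j)) :=
    fun l j => exists_homogV (g l j) l j
  choose E G hGh hG using hex2
  let eq := Fintype.equivFin (Fin (n + 1) × (Fin m → Fin (n + 1)))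
  refine ⟨∑ l, ∑ j, C l j, _, fun i => G (eq.symm i).1 (eq.symm i).2, fun i => ⟨_, hGh _ _⟩,
    ?_, ?_⟩
  · refine dim_excE hg0 (E := E) (G := G) (fun l j L _ _ x hx => (hG l j x).2 hx) ?_
    intro l j
    refine Ideal.subset_span ⟨eq (l, j), ?_⟩
    simp only [Equiv.symm_apply_apply]
  · intro x hx i
    have h3 : ∀ l j, aeval x (G l j) = 0 := by
      intro l j
      by_cases hl : x l = 0
      · exact (hG l j x).1 hl
      · have h4 : C l j ≤ ∑ l, ∑ j, C l j :=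
          (Finset.single_le_sum (f := fun j => C l j) (fun _ _ => Nat.zero_le _)
            (Finset.mem_univ j)).trans (Finset.single_le_sum (f := fun l => ∑ j, C l j)
            (fun _ _ => Nat.zero_le _) (Finset.mem_univ l))
        rw [(hG l j x).2 hl, hg l j _ (hanti h4 hx) hl, mul_zero]
    exact h3 _ _

/-- no sequence of counterexamples, few directions -/
private theorem seq_falseF {κ : Type u} {K : Type v} {Ω : Type v} [Field κ] [IsAlgClosed κ]
    [CharZero κ] [Field K] [Algebra κ K] [Field Ω] [Algebra K Ω] [Algebra κ Ω]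
    [IsScalarTower κ K Ω] [IsAlgClosed Ω] [Algebra.IsAlgebraic K Ω] (hK : IsFF κ K)
    {n r b N₁ p C : ℕ} {d m : Fin p → ℕ} (hd1 : ∀ j, 1 ≤ d j)
    {k : Type*} [Field k] [CharZero k] [Algebra k K] {a : Fin p → (Fin (n + 1) →₀ ℕ) → K}
    (ha : AlgebraicIndependent k (fun s : ↥(jexpo n d) => a s.1.1 s.1.2))
    {k₂ : Type*} [Field k₂] [CharZero k₂] [Algebra k₂ K] [Algebra k₂ Ω] [IsScalarTower k₂ K Ω]
    {a₂ : Fin p → (Fin (n + 1) →₀ ℕ) → k₂}
    (ha₂ : ∀ j, ∀ I ∈ expo (Fin (n + 1)) (d j), algebraMap k₂ K (a₂ j I) = a j I)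
    {L : ℕ → IntermediateField K Ω} (hL : ∀ N, FiniteDimensional K (L N))
    {x : ∀ N, Fin (n + 1) → L N} {l : Fin (n + 1)} (hxl : ∀ N, x N l = 1)
    (hgen : r = 0 ∨ ∃ j : Fin (r + 1) → Fin (n + 1), ∀ H : MvPolynomial (Fin (r + 1)) k₂, H ≠ 0 →
      ∃ N₀, ∀ N ≥ N₀, MvPolynomial.aeval (fun i => (x N (j i) : Ω)) H ≠ 0)
    {S : ∀ N, Finset (Place κ (L N))}
    (hc : ∀ N, ∀ w : Place κ (L N), w ∉ S N → ∀ j,
      Fval (d j) (fun I => algebraMap K (L N) (a j I)) (x N) ≠ 0 →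
      OrbF w (d j) (m j) (fun I => algebraMap K (L N) (a j I)) (x N))
    (hlarge : ∀ N : ℕ, N * ((finrank K (L N) : ℤ) + ramDeg κ (L N) K + (S N).card) <
      height κ (x N))
    (hcert : ∀ N, CertN κ d (fun j I => algebraMap K (L N) (a j I)) b N₁
      (C * ((finrank K (L N) : ℤ) + ramDeg κ (L N) K + (S N).card)) (x N))
    (hnum : (2 * (n + 1) : ℚ) < ∑ j, (1 - (m j : ℚ)⁻¹) * (d j : ℚ) + (r + 2)) :
    False := by
  classical
  -- a subsequence in one stratum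
  obtain ⟨A, hA⟩ : ∃ A : Finset (Fin p), ∃ᶠ N in Filter.atTop, (Finset.univ.filter fun j =>
      Fval (d j) (fun I => algebraMap K (L N) (a j I)) (x N) = 0) = A := by
    by_contra hcon
    push Not at hcon
    have h1 : ∀ A ∈ (Finset.univ : Finset (Finset (Fin p))),
        ∀ᶠ N in Filter.atTop, ¬ (Finset.univ.filter fun j =>
          Fval (d j) (fun I => algebraMap K (L N) (a j I)) (x N) = 0) = A :=
      fun A _ => hcon A
    obtain ⟨N, hN⟩ := ((Filter.eventually_all_finset _).2 h1).exists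
    exact hN _ (Finset.mem_univ _) rfl
  obtain ⟨φ, hφ, hφA⟩ := Filter.extraction_of_frequently_atTop hA
  have hpos : ∀ N, 1 ≤ finrank K (L N) := fun N => Module.finrank_pos
  let W : Tow κ K Ω := {
    L := fun N => L (φ N)
    T := fun N => finrank K (L (φ N)) + ramDeg κ (L (φ N)) K + (S (φ N)).card
    ff := hK
    fin := fun N => hL (φ N)
    one_le := fun N => (hpos (φ N)).trans ((Nat.le_add_right _ _).trans (Nat.le_add_right _ _))
    deg := fun N => (Nat.le_add_right _ _).trans (Nat.le_add_right _ _)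
    ram := fun N => (Nat.le_add_left _ _).trans (Nat.le_add_right _ _) }
  have hT : ∀ N, (W.T N : ℤ) =
      (finrank K (L (φ N)) : ℤ) + ramDeg κ (L (φ N)) K + (S (φ N)).card := by
    intro N
    show ((finrank K (L (φ N)) + ramDeg κ (L (φ N)) K + (S (φ N)).card : ℕ) : ℤ) = _
    push_cast
    rfl
  have hAN : ∀ N j, Fval (d j) (fun I => algebraMap K (L (φ N)) (a j I)) (x (φ N)) = 0 ↔
      j ∈ A := by
    intro N j
    rw [← hφA N, Finset.mem_filter]
    exact ⟨fun h => ⟨Finset.mem_univ _, h⟩, fun h => h.2⟩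
  refine no_seqO_few W (r := r) (b := b) (N₁ := N₁) (C := C) (q := 1) hd1 ha ha₂
    (x := fun N => x (φ N)) (fun N => hxl (φ N)) (A := A) hAN ?_
    (P := fun N => S (φ N)) (fun N => by rw [one_mul]; exact Nat.le_add_left _ _) (m := m)
    (fun N w hw j hj => hc (φ N) w hw j fun h0 => hj ((hAN N j).1 h0)) (fun C' hC' => ?_)
    (fun N => ?_) ?_
  · rcases hgen with h0 | ⟨j, hgen⟩
    · exact Or.inl h0
    · refine Or.inr ⟨j, fun H hH => ?_⟩
      obtain ⟨N₀, hN₀⟩ := hgen H hH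
      exact ⟨N₀, fun N hN => hN₀ (φ N) (hN.le.trans (hφ.id_le N))⟩
  · obtain ⟨N, hN1, hN2⟩ := (hC'.and (Filter.Eventually.filter_mono
      Nat.hyperfilter_le_atTop (Filter.eventually_ge_atTop C'))).exists
    have h1 := hlarge (φ N)
    rw [← hT] at h1
    have h3 : C' ≤ φ N := le_trans hN2 (hφ.id_le N)
    have h2 : (C' : ℤ) * (W.T N : ℤ) ≤ (φ N : ℤ) * (W.T N : ℤ) :=
      mul_le_mul_of_nonneg_right (by exact_mod_cast h3) (Int.natCast_nonneg _)
    linarith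
  · rw [hT]
    exact hcert (φ N)
  · have h1 : ∑ j ∈ A, (1 - (m j : ℚ)⁻¹) * (d j : ℚ) + ∑ j ∈ Aᶜ, (1 - (m j : ℚ)⁻¹) * (d j : ℚ) =
        ∑ j, (1 - (m j : ℚ)⁻¹) * (d j : ℚ) := Finset.sum_add_sum_compl A _
    have h2 : ∑ j ∈ A, (1 - (m j : ℚ)⁻¹) * (d j : ℚ) ≤ ∑ j ∈ A, (d j : ℚ) := by
      refine Finset.sum_le_sum fun j _ => ?_
      have h3 : (0 : ℚ) ≤ (m j : ℚ)⁻¹ * (d j : ℚ) := by positivity
      linarith
    have h3 : (0 : ℚ) ≤ (A.card : ℚ) := Nat.cast_nonneg _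
    linarith

/-- `x` (a point over `Ω`) is an orbifold counterexample with the constant `N`, up to scaling: the
points of a finite extension `L` with a curve of small height, and of large height. -/
def CexF (κ : Type*) {K Ω : Type*} [Field κ] [Field K] [Algebra κ K] [Field Ω] [Algebra K Ω]
    [Algebra κ Ω] [IsScalarTower κ K Ω] {n p : ℕ} (d m : Fin p → ℕ)
    (a : Fin p → (Fin (n + 1) →₀ ℕ) → K) (b N₁ C₂ N : ℕ) :
    Set (Fin (n + 1) → Ω) :=
  {x | ∃ (L : IntermediateField K Ω) (_ : FiniteDimensional K L) (y : Fin (n + 1) → L)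
    (S : Finset (Place κ L)) (s : Ω), s ≠ 0 ∧ (∀ i, x i = s * (y i : Ω)) ∧
    (∀ w ∉ S, ∀ j, Fval (d j) (fun I => algebraMap K L (a j I)) y ≠ 0 →
      OrbF w (d j) (m j) (fun I => algebraMap K L (a j I)) y) ∧
    CertN κ d (fun j I => algebraMap K L (a j I)) b N₁
      (C₂ * ((finrank K L : ℤ) + ramDeg κ L K + S.card)) y ∧
    N * ((finrank K L : ℤ) + ramDeg κ L K + S.card) < height κ y}

/-- no sequence of counterexamples of dimension `r + 1` -/
private theorem cexF_false {κ : Type u} {K : Type v} [Field κ] [IsAlgClosed κ] [CharZero κ]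
    [Field K] [CharZero K] [Algebra κ K] (hK : IsFF κ K) {n r p b N₁ C₂ : ℕ} {d m : Fin p → ℕ}
    (hd : ∀ j, 1 ≤ d j) {a : Fin p → (Fin (n + 1) →₀ ℕ) → K}
    (ha : AlgebraicIndependent ℚ
      (fun s : {s : Fin p × (Fin (n + 1) →₀ ℕ) // s ∈ jexpo n d} => a s.1.1 s.1.2))
    {k₂ : IntermediateField ℚ K} {a₂ : Fin p → (Fin (n + 1) →₀ ℕ) → k₂}
    (ha₂ : ∀ j, ∀ I ∈ expo (Fin (n + 1)) (d j), algebraMap k₂ K (a₂ j I) = a j I)
    (hnum : (2 * (n + 1) : ℚ) < ∑ j, (1 - (m j : ℚ)⁻¹) * (d j : ℚ) + (r + 2))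
    {l : Fin (n + 1)} {x : ℕ → Fin (n + 1) → AlgebraicClosure K}
    (hx : ∀ N, x N ∈ CexF κ (Ω := AlgebraicClosure K) d m a b N₁ C₂ N) (hxl : ∀ N, x N l = 1)
    (hgen : r = 0 ∨ ∃ j : Fin (r + 1) → Fin (n + 1), ∀ H : MvPolynomial (Fin (r + 1)) k₂, H ≠ 0 →
      ∃ N₀, ∀ N ≥ N₀, aeval (fun i => x N (j i)) H ≠ 0) : False := by
  choose L hLfin y S s hs hxs hS hcert hlarge using hx
  -- the normalised points
  have hy0 : ∀ N, y N l ≠ 0 := by
    intro N h0
    have h1 := hxs N l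
    rw [hxl, h0] at h1
    simp at h1
  have hyx : ∀ N i, ((((y N l)⁻¹ * y N i : L N)) : AlgebraicClosure K) = x N i := by
    intro N i
    have h1 := hxs N l
    rw [hxl] at h1
    have h2 : s N = ((y N l : L N) : AlgebraicClosure K)⁻¹ :=
      eq_inv_of_mul_eq_one_left h1.symm
    rw [hxs N i, h2]
    rfl
  have hx1 : ∀ N, (y N l)⁻¹ * y N l = 1 := fun N => inv_mul_cancel₀ (hy0 N)
  have hSx : ∀ N, ∀ w : Place κ (L N), w ∉ S N → ∀ j,
      Fval (d j) (fun I => algebraMap K (L N) (a j I)) (fun i => (y N l)⁻¹ * y N i) ≠ 0 →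
      OrbF w (d j) (m j) (fun I => algebraMap K (L N) (a j I)) (fun i => (y N l)⁻¹ * y N i) := by
    intro N w hw j hj
    refine (hS N w hw j fun h0 => hj ?_).smul
    rw [Fval_smul, h0, mul_zero]
  have hlx : ∀ N : ℕ, N * ((finrank K (L N) : ℤ) + ramDeg κ (L N) K + (S N).card) <
      height κ (fun i => (y N l)⁻¹ * y N i) := by
    intro N
    have := hLfin N
    have hff : IsFF κ (L N) := hK.of_finite
    rw [hff.height_smul (inv_ne_zero (hy0 N))]
    exact hlarge N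
  have hcx : ∀ N, CertN κ d (fun j I => algebraMap K (L N) (a j I)) b N₁
      (C₂ * ((finrank K (L N) : ℤ) + ramDeg κ (L N) K + (S N).card))
        (fun i => (y N l)⁻¹ * y N i) := by
    intro N
    refine CertN.of_smul (r := y N l) (hy0 N) ?_
    have h3 : (fun i => y N l * ((y N l)⁻¹ * y N i)) = y N := by
      funext i
      rw [mul_inv_cancel_left₀ (hy0 N)]
    rw [h3]
    exact hcert N
  refine seq_falseF hK (r := r) (C := C₂) (b := b) (N₁ := N₁) hd ha (k₂ := k₂) (a₂ := a₂)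
    ha₂ (L := L) hLfin (x := fun N i => (y N l)⁻¹ * y N i) hx1 ?_ (S := S) hSx hlx hcx hnum
  rcases hgen with h0 | ⟨j, hgen⟩
  · exact Or.inl h0
  · refine Or.inr ⟨j, fun H hH => ?_⟩
    obtain ⟨N₀, hN₀⟩ := hgen H hH
    refine ⟨N₀, fun N hN => ?_⟩
    have h3 := hN₀ N hN
    have h4 : (fun i => (((y N l)⁻¹ * y N (j i) : L N) : AlgebraicClosure K)) =
        fun i => x N (j i) := funext fun i => hyx N (j i)
    rw [h4]
    exact h3

/-- the field of the coefficients -/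
private theorem exists_k2 {K : Type v} [Field K] [CharZero K] {n p : ℕ} {d : Fin p → ℕ}
    (a : Fin p → (Fin (n + 1) →₀ ℕ) → K) : ∃ k₂ : IntermediateField ℚ K, Countable k₂ ∧
      ∃ a₂ : Fin p → (Fin (n + 1) →₀ ℕ) → k₂,
        ∀ j, ∀ I ∈ expo (Fin (n + 1)) (d j), algebraMap k₂ K (a₂ j I) = a j I := by
  classical
  obtain ⟨k₂, hk₂⟩ : ∃ k₂ : IntermediateField ℚ K, k₂ = IntermediateField.adjoin ℚ
      (Set.range (fun s : {s : Fin p × (Fin (n + 1) →₀ ℕ) // s ∈ jexpo n d} => a s.1.1 s.1.2)) :=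
    ⟨_, rfl⟩
  have hcoef : ∀ j, ∀ I ∈ expo (Fin (n + 1)) (d j), a j I ∈ k₂ := by
    intro j I hI
    rw [hk₂]
    exact IntermediateField.subset_adjoin _ _ ⟨⟨(j, I), mem_jexpo.2 hI⟩, rfl⟩
  refine ⟨k₂, ?_, fun j I => if h : I ∈ expo (Fin (n + 1)) (d j) then ⟨a j I, hcoef j I h⟩ else 0,
    fun j I hI => ?_⟩
  · rw [hk₂]
    exact countable_adjoin _
  · simp only [dif_pos hI]
    rfl

theorem cexF_anti {κ : Type u} {K Ω : Type v} [Field κ] [Field K] [Algebra κ K] [Field Ω]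
    [Algebra K Ω] [Algebra κ Ω] [IsScalarTower κ K Ω] {n p : ℕ} (d m : Fin p → ℕ)
    (a : Fin p → (Fin (n + 1) →₀ ℕ) → K) (b N₁ C₂ : ℕ) :
    Antitone (CexF κ (Ω := Ω) d m a b N₁ C₂) := by
  rintro N N' hN x ⟨L, hL, y, S, s, hs, hxs, h1, h2, h3⟩
  refine ⟨L, hL, y, S, s, hs, hxs, h1, h2, lt_of_le_of_lt ?_ h3⟩
  exact mul_le_mul_of_nonneg_right (by exact_mod_cast hN) (by positivity)

/-- **The exceptional set of an orbifold**, for the orbifold points with a curve of small height: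
it is given by finitely many forms, and its (affine) dimension is at most `r + 1` if
`2 n < ∑ (1 - 1 / m_j) d_j + r`. -/
theorem exc_orb_few {κ : Type u} {K : Type v} [Field κ] [IsAlgClosed κ] [CharZero κ] [Field K]
    [CharZero K] [Algebra κ K] (hK : IsFF κ K) {n r p b N₁ : ℕ} {d m : Fin p → ℕ}
    (hd : ∀ j, 1 ≤ d j) {a : Fin p → (Fin (n + 1) →₀ ℕ) → K}
    (ha : AlgebraicIndependent ℚ
      (fun s : {s : Fin p × (Fin (n + 1) →₀ ℕ) // s ∈ jexpo n d} => a s.1.1 s.1.2))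
    (hnum : (2 * n : ℚ) < ∑ j, (1 - (m j : ℚ)⁻¹) * (d j : ℚ) + r) (C₂ : ℕ) :
    ∃ (C t : ℕ) (G : Fin t → MvPolynomial (Fin (n + 1)) K), (∀ i, ∃ E, (G i).IsHomogeneous E) ∧
      ringKrullDim (MvPolynomial (Fin (n + 1)) K ⧸ Ideal.span (Set.range G)) ≤
        ((r + 1 : ℕ) : WithBot ℕ∞) ∧
      ∀ (L : IntermediateField K (AlgebraicClosure K)) [FiniteDimensional K L]
        (x : Fin (n + 1) → L) (S : Finset (Place κ L)),
        (∀ w ∉ S, ∀ j, Fval (d j) (fun I => algebraMap K L (a j I)) x ≠ 0 →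
          OrbF w (d j) (m j) (fun I => algebraMap K L (a j I)) x) →
        CertN κ d (fun j I => algebraMap K L (a j I)) b N₁
          (C₂ * ((finrank K L : ℤ) + ramDeg κ L K + S.card)) x →
        height κ x ≤ C * ((finrank K L : ℤ) + ramDeg κ L K + S.card) ∨
          ∀ i, aeval x (G i) = 0 := by
  obtain ⟨k₂, hk₂, a₂, ha₂⟩ := exists_k2 (d := d) a
  obtain ⟨C, t, G, hGh, hGd, hG⟩ := exists_locus (k₂ := k₂) (K := K) (Ω := AlgebraicClosure K)
    (m := r + 1) (cexF_anti (κ := κ) (Ω := AlgebraicClosure K) d m a b N₁ C₂)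
    (fun N x => by
      rintro ⟨L, hL, y, S, s, hs, hxs, h⟩ t ht
      refine ⟨L, hL, y, S, t * s, mul_ne_zero ht hs, fun i => ?_, h⟩
      show t * x i = _
      rw [hxs i, mul_assoc])
    (fun l j x hx hxl hgen => cexF_false hK (r := r) hd ha ha₂ (by linarith) hx hxl
      (Or.inr ⟨j, hgen⟩))
  refine ⟨C, t, G, hGh, hGd, fun L _ x S hS hcert => ?_⟩
  by_contra hcon
  rw [not_or, not_le] at hcon
  apply hcon.2
  intro i
  have h1 := hG (fun i => (x i : AlgebraicClosure K)) ⟨L, inferInstance, x, S, 1,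
    one_ne_zero, fun i => (one_mul _).symm, hS, hcert, hcon.1⟩ i
  have h2 : aeval (fun i => (x i : AlgebraicClosure K)) (G i) =
      ((aeval x (G i) : L) : AlgebraicClosure K) := by
    have h3 : (aeval (fun i => (x i : AlgebraicClosure K)) :
        MvPolynomial (Fin (n + 1)) K →ₐ[K] AlgebraicClosure K) = L.val.comp (aeval x) := by
      refine MvPolynomial.algHom_ext fun i => ?_
      rw [AlgHom.comp_apply, aeval_X, aeval_X]
      rfl
    rw [h3]
    rfl
  rw [h2] at h1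
  exact Subtype.ext h1

/-- **No exceptional set** if `2 n < ∑ (1 - 1 / m_j) d_j`. -/
theorem exc_orb_none {κ : Type u} {K : Type v} [Field κ] [IsAlgClosed κ] [CharZero κ] [Field K]
    [CharZero K] [Algebra κ K] (hK : IsFF κ K) {n p b N₁ : ℕ} {d m : Fin p → ℕ}
    (hd : ∀ j, 1 ≤ d j) {a : Fin p → (Fin (n + 1) →₀ ℕ) → K}
    (ha : AlgebraicIndependent ℚ
      (fun s : {s : Fin p × (Fin (n + 1) →₀ ℕ) // s ∈ jexpo n d} => a s.1.1 s.1.2))
    (hnum : (2 * n : ℚ) < ∑ j, (1 - (m j : ℚ)⁻¹) * (d j : ℚ)) (C₂ : ℕ) :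
    ∃ C : ℕ, ∀ (L : IntermediateField K (AlgebraicClosure K)) [FiniteDimensional K L]
        (x : Fin (n + 1) → L) (S : Finset (Place κ L)), x ≠ 0 →
        (∀ w ∉ S, ∀ j, Fval (d j) (fun I => algebraMap K L (a j I)) x ≠ 0 →
          OrbF w (d j) (m j) (fun I => algebraMap K L (a j I)) x) →
        CertN κ d (fun j I => algebraMap K L (a j I)) b N₁
          (C₂ * ((finrank K L : ℤ) + ramDeg κ L K + S.card)) x →
        height κ x ≤ C * ((finrank K L : ℤ) + ramDeg κ L K + S.card) := by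
  classical
  obtain ⟨k₂, hk₂, a₂, ha₂⟩ := exists_k2 (d := d) a
  have hex : ∀ l : Fin (n + 1), ∃ C : ℕ, ∀ x ∈ CexF κ (Ω := AlgebraicClosure K) d m a b N₁ C₂ C,
      x l = 0 := by
    intro l
    by_contra hcon
    push Not at hcon
    choose x hx hxl using hcon
    refine cexF_false hK (r := 0) (l := l) hd ha ha₂ (by push_cast; linarith)
      (x := fun N i => (x N l)⁻¹ * x N i) (C₂ := C₂) (b := b) (N₁ := N₁) (m := m) (fun N => ?_)
      (fun N => inv_mul_cancel₀ (hxl N)) (Or.inl rfl)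
    obtain ⟨L, hL, y, S, s, hs, hxs, h⟩ := hx N
    refine ⟨L, hL, y, S, (x N l)⁻¹ * s, mul_ne_zero (inv_ne_zero (hxl N)) hs, fun i => ?_, h⟩
    show (x N l)⁻¹ * x N i = _
    rw [hxs i, mul_assoc]
  choose C hC using hex
  refine ⟨∑ l, C l, fun L _ x S hx0 hS hcert => ?_⟩
  by_contra hcon
  rw [not_le] at hcon
  apply hx0
  funext l
  have h1 : (fun i => (x i : AlgebraicClosure K)) ∈
      CexF κ (Ω := AlgebraicClosure K) d m a b N₁ C₂ (∑ l, C l) :=
    ⟨L, inferInstance, x, S, 1, one_ne_zero, fun i => (one_mul _).symm, hS, hcert, hcon⟩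
  have h2 := hC l _ (cexF_anti d m a b N₁ C₂
    (Finset.single_le_sum (f := C) (fun _ _ => Nat.zero_le _) (Finset.mem_univ l)) h1)
  exact Subtype.ext h2

end Pool.Agent.Lib.MP_44a246_ntSF
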