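import Pool.Agent.Lib.MP_44a246_ntNU.NU10
import Pool.Agent.Lib.MP_44a246_ntNW.Generic

set_option autoImplicit false

open NumberField IsDedekindDomain
open Pool.Agent.Lib.MP_44a246_ntNU Pool.Agent.Lib.MP_44a246_ntNW

namespace Pool.Agent.Lib.MP_44a246_ntSF

universe u

open Classical in
/-- SF1 : Minkowski's theorem for a box with several special complex places -/
theorem body (L : Type*) [Field L] [NumberField L] (T : Finset (InfinitePlace L))
    (hT : ∀ w ∈ T, w.IsComplex) (f : InfinitePlace L → ℝ) (hf : ∀ w, 0 < f w)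
    (h : 2 ^ Module.finrank ℚ L * √|((discr L : ℤ) : ℝ)| <
      ∏ w, (if w ∈ T then f w else f w ^ w.mult)) :
    ∃ a : 𝓞 L, a ≠ 0 ∧ (∀ w ∉ T, w (a : L) < f w) ∧
      (∀ w ∈ T, |(w.embedding (a : L)).re| < 1 ∧ |(w.embedding (a : L)).im| < f w) := by
  sorry

/-- SF2 : a small integer which is not in the ground field -/
theorem exists_small {F L : Type*} [Field F] [NumberField F] [Field L] [NumberField L]
    [Algebra F L] (hr : 2 ≤ Module.finrank F L) (Y : ℝ) (hY1 : 1 ≤ Y)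
    (hY : 2 ^ Module.finrank ℚ L * √|((discr L : ℤ) : ℝ)| <
      Y ^ (Module.finrank ℚ L - Module.finrank ℚ F)) :
    ∃ β : 𝓞 L, (β : L) ∉ Set.range (algebraMap F L) ∧
      ∀ w : InfinitePlace L, w (β : L) ≤ 2 * Y := by
  sorry

/-- SF3 : with trace zero -/
theorem exists_gen {F L : Type*} [Field F] [NumberField F] [Field L] [NumberField L]
    [Algebra F L] (hr : 2 ≤ Module.finrank F L) (Y : ℝ) (hY1 : 1 ≤ Y)
    (hY : 2 ^ Module.finrank ℚ L * √|((discr L : ℤ) : ℝ)| <
      Y ^ (Module.finrank ℚ L - Module.finrank ℚ F)) :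
    ∃ γ : 𝓞 L, (γ : L) ∉ Set.range (algebraMap F L) ∧ Algebra.trace F L (γ : L) = 0 ∧
      ∀ w : InfinitePlace L, w (γ : L) ≤ 4 * Module.finrank F L * Y := by
  sorry

/-- SF4a : the coefficients of the minimal polynomial -/
theorem coeff_bound {F L : Type*} [Field F] [NumberField F] [Field L] [NumberField L]
    [Algebra F L] (γ : 𝓞 L) (R : ℝ) (hR : 1 ≤ R) (hγ : ∀ w : InfinitePlace L, w (γ : L) ≤ R)
    (i : ℕ) (hi : i ≤ (minpoly F (γ : L)).natDegree) (v : InfinitePlace F) :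
    v ((minpoly F (γ : L)).coeff i) ≤
      2 ^ (minpoly F (γ : L)).natDegree * R ^ ((minpoly F (γ : L)).natDegree - i) := by
  sorry

/-- SF4b -/
theorem coeff_trace {F L : Type*} [Field F] [NumberField F] [Field L] [NumberField L]
    [Algebra F L] (γ : 𝓞 L) (h : Algebra.trace F L (γ : L) = 0) :
    (minpoly F (γ : L)).coeff ((minpoly F (γ : L)).natDegree - 1) = 0 := by
  sorry

/-- SF5 : integers in a box, uniformly in the field -/
theorem card_box_all (d : ℕ) : ∃ C : ℝ, 0 < C ∧ ∀ (F : Type u) [Field F] [NumberField F],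
    Module.finrank ℚ F = d → ∀ R : ℝ, 1 ≤ R → ∀ A : Finset (𝓞 F),
      (∀ c ∈ A, ∀ v : InfinitePlace F, v (c : F) ≤ R) → (A.card : ℝ) ≤ C * R ^ d := by
  sorry

/-- SF6 : fields generated by small integers of trace zero -/
theorem card_gen (d s : ℕ) (hs : 2 ≤ s) : ∃ C : ℝ, 0 < C ∧
    ∀ (F : Type u) [Field F] [NumberField F], Module.finrank ℚ F = d →
      ∀ (Ω : Type u) [Field Ω] [Algebra F Ω] (R : ℝ), 1 ≤ R →
      ∀ Fs : Finset (IntermediateField F Ω),
        (∀ F' ∈ Fs, ∃ γ : Ω, F' = IntermediateField.adjoin F {γ} ∧ IsIntegral ℤ γ ∧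
          (minpoly F γ).natDegree = s ∧ (minpoly F γ).coeff (s - 1) = 0 ∧
          ∀ i < s, ∀ v : InfinitePlace F, v ((minpoly F γ).coeff i) ≤ 2 ^ s * R ^ (s - i)) →
        (Fs.card : ℝ) ≤ C * R ^ (d * ∑ k ∈ Finset.Icc 2 s, k) := by
  sorry

/-- SF7 : Schmidt's bound for the number of fields, uniformly in the ground field -/
theorem schmidt (t d : ℕ) (ht : 1 ≤ t) : ∃ C : ℝ, 0 < C ∧
    ∀ (F : Type u) [Field F] [NumberField F], Module.finrank ℚ F = d →
      ∀ (Ω : Type u) [Field Ω] [Algebra F Ω] (X : ℝ), 1 ≤ X →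
      ∀ Es : Finset (IntermediateField F Ω),
        (∀ E ∈ Es, Module.finrank F E = t ∧
          ∃ _ : NumberField E, |((discr E : ℤ) : ℝ)| ≤ X) →
        (Es.card : ℝ) ≤ C * X ^ (((t : ℝ) + 2) / 4) := by
  sorry

/-- SF8 : convergence of the sum over the fields -/
theorem field_sum_schmidt (K : Type u) [Field K] [NumberField K] (r : ℕ) (hr : 1 ≤ r) :
    FieldSum K r (if r = 1 then 0 else ((r : ℝ) + 2) / 4) := by
  sorry

end Pool.Agent.Lib.MP_44a246_ntSF
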